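import Pool.Agent.L2Coh.Chain

/-!
# The relation module of a finitely generated subgroup
-/

namespace Pool.Agent.L2Coh

section setup

variable {G S J : Type*} [Group G] (φ : FreeGroup S →* G) (H : Subgroup G)
  (ψ : FreeGroup J →* H) (u : J → FreeGroup S) (hu : ∀ j, φ (u j) = (ψ (FreeGroup.of j) : G))

/-- Chains over the subgroup as chains over the group. -/
noncomputable def incl {A : Type*} : (H × A →₀ ℤ) →+ (G × A →₀ ℤ) :=
  Finsupp.mapDomain.addMonoidHom (fun p => ((p.1 : G), p.2))

lemma incl_single {A : Type*} (h : H) (a : A) (n : ℤ) :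
    incl H (Finsupp.single (h, a) n) = Finsupp.single ((h : G), a) n :=
  Finsupp.mapDomain_single

lemma incl_lm {A : Type*} (h : H) (z : H × A →₀ ℤ) :
    incl H (lm h z) = lm (h : G) (incl H z) := by
  induction z using Finsupp.induction_linear with
  | zero => simp
  | add f g hf hg => rw [map_add, map_add, hf, hg, map_add, map_add]
  | single p n =>
    obtain ⟨g, j⟩ := p
    rw [lm_single, incl_single, incl_single, lm_single, Subgroup.coe_mul]

include hu in
lemma phi_lift (w : FreeGroup J) : φ (FreeGroup.lift u w) = (ψ w : G) := by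
  have h : φ.comp (FreeGroup.lift u) = H.subtype.comp ψ := by
    ext j
    simp [hu]
  exact DFunLike.congr_fun h w

include hu in
lemma bd_incl_fch (h : H) (w : FreeGroup J) :
    bd (fun j => fch φ 1 (u j)) (incl H (fch ψ h w)) = fch φ (h : G) (FreeGroup.lift u w) := by
  induction w generalizing h with
  | C1 => rw [fch_one, map_zero, map_zero, map_one, fch_one]
  | of x => rw [fch_of, incl_single, bd_single, one_smul, ← fch_lm', FreeGroup.lift_apply_of]
  | inv_of x _ =>
    rw [fch_inv, fch_of, map_neg, map_neg, incl_single, bd_single, one_smul, ← fch_lm', map_inv,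
      fch_inv, FreeGroup.lift_apply_of, hu]
    rfl
  | mul x y hx hy =>
    rw [fch_mul, map_add, map_add, hx, hy, map_mul, fch_mul, phi_lift φ H ψ u hu]
    rfl

end setup

/-- The algebraic criterion: if the fillings of the relators of `H` only use finitely many
`H`-orbits of two-cells then the relation module of `H` is finitely generated. -/
theorem finite_relations {G S J ι : Type*} [Group G] [Fintype J] (φ : FreeGroup S →* G)
    (r : ι → FreeGroup S) (hr1 : ∀ i, φ (r i) = 1) (H : Subgroup G) (ψ : FreeGroup J →* H)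
    (σ : H → FreeGroup J) (hσ : ∀ h, ψ (σ h) = h)
    (u : J → FreeGroup S) (hu : ∀ j, φ (u j) = (ψ (FreeGroup.of j) : G))
    (q : G → H) (hq1 : q 1 = 1) (hq : ∀ (h : H) (g : G), q (h * g) = h * q g)
    (T0 : Finset (G × ι))
    (hT0 : ∀ n : FreeGroup J, ψ n = 1 → ∃ c : G × ι →₀ ℤ,
      bd (fun i => fch φ 1 (r i)) c = fch φ 1 (FreeGroup.lift u n) ∧
      ∀ p ∈ c.support, (((q p.1 : G))⁻¹ * p.1, p.2) ∈ T0) :
    ∃ T : Set (FreeGroup J), T.Finite ∧
      ψ.ker = Subgroup.normalClosure T ⊔ ⁅ψ.ker, ψ.ker⁆ := by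
  classical
  set v : ι → (G × S →₀ ℤ) := fun i => fch φ 1 (r i) with hv
  set Uc : (H × J →₀ ℤ) →+ (G × S →₀ ℤ) :=
    (bd (fun j => fch φ 1 (u j))).comp (incl H) with hUc
  have hUfch : ∀ (h : H) (w : FreeGroup J), Uc (fch ψ h w) = fch φ (h : G) (FreeGroup.lift u w) :=
    fun h w => bd_incl_fch φ H ψ u hu h w
  let ρ : (G × S →₀ ℤ) →+ (H × J →₀ ℤ) :=
    Finsupp.liftAddHom (fun p => (zmultiplesHom _
      (fch ψ (q p.1) (σ ((q p.1)⁻¹ * q (p.1 * φ (FreeGroup.of p.2)))))))
  have hρs : ∀ g s, ρ (Finsupp.single (g, s) 1) =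
      fch ψ (q g) (σ ((q g)⁻¹ * q (g * φ (FreeGroup.of s)))) := by
    intro g s
    simp [ρ]
  have hρlm : ∀ (h : H) (c : G × S →₀ ℤ), ρ (lm (h : G) c) = lm h (ρ c) := by
    intro h c
    induction c using Finsupp.induction_linear with
    | zero => simp
    | add f g hf hg => rw [map_add, map_add, hf, hg, map_add, map_add]
    | single p n =>
      obtain ⟨g, s⟩ := p
      have h1 : (Finsupp.single (g, s) n : G × S →₀ ℤ) = n • Finsupp.single (g, s) 1 := by simp
      rw [h1, map_zsmul, map_zsmul, map_zsmul, map_zsmul, lm_single, hρs, hρs, ← fch_lm, hq,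
        mul_assoc (h : G) g, hq]
      congr 3
      group
  have hρbd : ∀ c : G × S →₀ ℤ,
      bd1 ψ (ρ c) = Finsupp.mapDomain q (bd1 φ c) := by
    intro c
    induction c using Finsupp.induction_linear with
    | zero => simp
    | add f g hf hg => rw [map_add, map_add, hf, hg, map_add, Finsupp.mapDomain_add]
    | single p n =>
      obtain ⟨g, s⟩ := p
      have h1 : (Finsupp.single (g, s) n : G × S →₀ ℤ) = n • Finsupp.single (g, s) 1 := by simp
      rw [h1, map_zsmul, map_zsmul, map_zsmul, Finsupp.mapDomain_smul, hρs, bd1_fch, bd1_single,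
        hσ]
      congr 1
      have h2 : (Finsupp.single (g * φ (FreeGroup.of s)) 1 - Finsupp.single g 1 : G →₀ ℤ) =
        Finsupp.single (g * φ (FreeGroup.of s)) 1 + (-1 : ℤ) • Finsupp.single g 1 := by
        simp [sub_eq_add_neg]
      rw [h2, Finsupp.mapDomain_add, Finsupp.mapDomain_smul, Finsupp.mapDomain_single,
        Finsupp.mapDomain_single, mul_inv_cancel_left]
      simp [sub_eq_add_neg]
  let D : (H × J →₀ ℤ) →+ (H × J →₀ ℤ) := ρ.comp Uc - AddMonoidHom.id _
  have hD : ∀ z, D z = ρ (Uc z) - z := fun z => rfl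
  have hUlm : ∀ (h : H) z, Uc (lm h z) = lm (h : G) (Uc z) := by
    intro h z
    rw [hUc, AddMonoidHom.comp_apply, AddMonoidHom.comp_apply, incl_lm, bd_lm]
  have hDlm : ∀ (h : H) z, D (lm h z) = lm h (D z) := by
    intro h z
    rw [hD, hD, hUlm, hρlm, map_sub]
  have hqH : ∀ h : H, q (h : G) = h := by
    intro h
    have := hq h 1
    rwa [mul_one, hq1, mul_one] at this
  have hDbd : ∀ j : J, bd1 ψ (D (Finsupp.single (1, j) 1)) = 0 := by
    intro j
    have h0 : (Finsupp.single (1, j) 1 : H × J →₀ ℤ) = fch ψ 1 (FreeGroup.of j) := by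
      rw [fch_of]
    rw [hD, h0, map_sub, hρbd, hUfch, bd1_fch, bd1_fch, FreeGroup.lift_apply_of, hu]
    have h2 : (Finsupp.single (((1 : H) : G) * (ψ (FreeGroup.of j) : G)) 1
        - Finsupp.single ((1 : H) : G) 1 : G →₀ ℤ) =
        Finsupp.single (((1 * ψ (FreeGroup.of j) : H) : G)) 1
          + (-1 : ℤ) • Finsupp.single ((1 : H) : G) 1 := by
      simp [sub_eq_add_neg]
    rw [h2, Finsupp.mapDomain_add, Finsupp.mapDomain_smul, Finsupp.mapDomain_single,
      Finsupp.mapDomain_single, hqH, hqH]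
    simp [sub_eq_add_neg]
  have hRbd : ∀ t : G × ι, bd1 ψ (ρ (bd v (Finsupp.single t 1))) = 0 := by
    rintro ⟨g, i⟩
    have h1 : bd v (Finsupp.single (g, i) 1) = fch φ g (r i) := by
      rw [bd_single, one_smul, hv, ← fch_lm']
    rw [hρbd, h1, bd1_fch, hr1, mul_one, sub_self, Finsupp.mapDomain_zero]
  choose nD hnD1 hnD2 using fun j : J => exists_fch_eq ψ σ hσ _ (hDbd j)
  choose nR hnR1 hnR2 using fun t : G × ι => exists_fch_eq ψ σ hσ _ (hRbd t)
  set T : Set (FreeGroup J) := Set.range nD ∪ nR '' (T0 : Set (G × ι)) with hT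
  refine ⟨T, (Set.finite_range nD).union (T0.finite_toSet.image _), ?_⟩
  have hTker : Subgroup.normalClosure T ≤ ψ.ker := by
    apply Subgroup.normalClosure_le_normal
    rintro _ (⟨j, rfl⟩ | ⟨t, _, rfl⟩)
    · exact hnD1 j
    · exact hnR1 t
  apply le_antisymm
  · intro n hn
    -- the additive subgroup of chains of elements of the normal closure
    let E : AddSubgroup (H × J →₀ ℤ) :=
      { carrier := {c | ∃ n' ∈ Subgroup.normalClosure T, fch ψ 1 n' = c}
        add_mem' := by
          rintro a b ⟨x, hx, rfl⟩ ⟨y, hy, rfl⟩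
          refine ⟨x * y, Subgroup.mul_mem _ hx hy, ?_⟩
          have : ψ x = 1 := hTker hx
          rw [fch_mul, this, mul_one]
        zero_mem' := ⟨1, Subgroup.one_mem _, fch_one ψ 1⟩
        neg_mem' := by
          rintro a ⟨x, hx, rfl⟩
          refine ⟨x⁻¹, Subgroup.inv_mem _ hx, ?_⟩
          have : ψ x = 1 := hTker hx
          rw [fch_inv, this, inv_one, mul_one] }
    have hElm : ∀ (h : H) c, c ∈ E → lm h c ∈ E := by
      rintro h c ⟨x, hx, rfl⟩
      refine ⟨σ h * x * (σ h)⁻¹, Subgroup.normalClosure_normal.conj_mem _ hx _, ?_⟩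
      have hx1 : ψ x = 1 := hTker hx
      rw [fch_mul, fch_mul, map_mul, hx1, mul_one, fch_inv, hσ, one_mul, mul_inv_cancel,
        ← fch_lm, mul_one]
      abel
    have hED : ∀ z, D z ∈ E := by
      intro z
      induction z using Finsupp.induction_linear with
      | zero => rw [map_zero]; exact E.zero_mem
      | add f g hf hg => rw [map_add]; exact E.add_mem hf hg
      | single p n =>
        obtain ⟨h, j⟩ := p
        have h1 : (Finsupp.single (h, j) n : H × J →₀ ℤ) =
            n • lm h (Finsupp.single (1, j) 1) := by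
          rw [lm_single]; simp
        rw [h1, map_zsmul, hDlm]
        apply E.zsmul_mem
        apply hElm
        exact ⟨nD j, Subgroup.subset_normalClosure (Or.inl ⟨j, rfl⟩), hnD2 j⟩
    have hER : ∀ c : G × ι →₀ ℤ, (∀ p ∈ c.support, (((q p.1 : G))⁻¹ * p.1, p.2) ∈ T0) →
        ρ (bd v c) ∈ E := by
      intro c hc
      rw [← Finsupp.sum_single c, Finsupp.sum, map_sum, map_sum]
      apply E.sum_mem
      rintro ⟨g, i⟩ hp
      have h1 : (Finsupp.single (g, i) (c (g, i)) : G × ι →₀ ℤ) =
          (c (g, i)) • lm ((q g : H) : G) (Finsupp.single ((q g : G)⁻¹ * g, i) 1) := by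
        rw [lm_single]; simp
      rw [h1, map_zsmul, map_zsmul, bd_lm, hρlm]
      apply E.zsmul_mem
      apply hElm
      exact ⟨nR _, Subgroup.subset_normalClosure (Or.inr ⟨_, hc _ hp, rfl⟩), hnR2 _⟩
    obtain ⟨c, hc1, hc2⟩ := hT0 n hn
    have hmem : fch ψ 1 n ∈ E := by
      have h1 : fch ψ 1 n = ρ (bd v c) - D (fch ψ 1 n) := by
        rw [hD, hUfch, hc1, Subgroup.coe_one]
        abel
      rw [h1]
      exact E.sub_mem (hER c hc2) (hED _)
    obtain ⟨n', hn', hn'2⟩ := hmem
    have hn'1 : ψ n' = 1 := hTker hn'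
    have hn1 : ψ n = 1 := hn
    have h2 : n * n'⁻¹ ∈ ⁅ψ.ker, ψ.ker⁆ := by
      apply mem_commutator_of_fch_eq_zero ψ σ hσ
      · rw [map_mul, map_inv, hn1, hn'1, inv_one, mul_one]
      · rw [fch_mul, hn1, mul_one, fch_inv, hn'1, inv_one, mul_one, hn'2]
        abel
    have h3 : n = (n * n'⁻¹) * n' := by group
    rw [h3]
    exact Subgroup.mul_mem _ (Subgroup.mem_sup_right h2) (Subgroup.mem_sup_left hn')
  · apply sup_le hTker
    exact Subgroup.commutator_le_left _ _

end Pool.Agent.L2Coh
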