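import Pool.Agent.L2Coh.ThmA

/-!
# Fillings of relators of residually finite `p`-subgroups only use finitely many orbits of two-cells
-/

namespace Pool.Agent.L2Coh

lemma exists_relation {H J : Type*} [Group H] [Fintype J] [DecidableEq J] {N : ℕ}
    (hN : Fintype.card J < N) (z : Fin N → (H × J →₀ ℤ)) :
    ∃ x : Fin N → H → ℝ, (∀ i, Summable (fun h => (x i h) ^ 2)) ∧ x ≠ 0 ∧
      ∀ g j, ∑ i, (z i).sum (fun p n => if p.2 = j then (n : ℝ) * x i (g * p.1⁻¹) else 0) = 0 := by
  obtain ⟨T, hT⟩ := exists_op (H := H) z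
  have hTe : Eqv T := by
    intro h x
    ext ⟨g, j⟩
    rw [hT, ltI_apply, hT]
    apply Finset.sum_congr rfl
    intro i _
    apply Finsupp.sum_congr
    intro p _
    rw [ltI_apply, mul_assoc]
  by_contra hcon
  push Not at hcon
  have hinj : ∀ x, T x = 0 → x = 0 := by
    intro x hx
    by_contra hne
    obtain ⟨g, j, hgj⟩ := hcon (fun i h => x (h, i)) (by
      intro i
      exact (hasSum_sq x).summable.comp_injective (i := fun h : H => (h, i))
        (fun h h' hh => (Prod.mk.inj hh).1)) (by
      intro h0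
      apply hne
      ext ⟨h, i⟩
      exact congrFun (congrFun h0 i) h)
    apply hgj
    have h1 := congrArg (fun u : L2 (H × J) => u (g, j)) hx
    simp only [hT] at h1
    exact h1
  have hcl : IsClosed ((LinearMap.ker (T : L2 (H × Fin N) →ₗ[ℝ] L2 (H × J)) :
      Submodule ℝ (L2 (H × Fin N))) : Set (L2 (H × Fin N))) :=
    isClosed_eq T.continuous continuous_const
  have hc : CompleteSpace (LinearMap.ker (T : L2 (H × Fin N) →ₗ[ℝ] L2 (H × J))) :=
    hcl.completeSpace_coe
  have h1 := rank_le T hTe (LinearMap.ker (T : L2 (H × Fin N) →ₗ[ℝ] L2 (H × J)))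
    (fun x => Iff.rfl) (⊤ : Submodule ℝ (L2 (H × J))) (fun _ => trivial)
  have h2 : vdim (LinearMap.ker (T : L2 (H × Fin N) →ₗ[ℝ] L2 (H × J))) = 0 := by
    unfold vdim
    apply Finset.sum_eq_zero
    intro i _
    rw [hinj _ ((LinearMap.ker (T : L2 (H × Fin N) →ₗ[ℝ] L2 (H × J))).starProjection_apply_mem _),
      norm_zero]
    norm_num
  have h3 := vdim_le_card (⊤ : Submodule ℝ (L2 (H × J)))
  simp only [Fintype.card_fin] at h1
  have h4 : (Fintype.card J : ℝ) < N := by exact_mod_cast hN
  linarith

/-- Square summable relations between cycles give relations between the fillings. -/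
lemma rel_fill {G S J ι : Type*} [Group G] [Fintype J] [DecidableEq S] [DecidableEq J]
    [DecidableEq ι] (H : Subgroup G) (v : ι → (G × S →₀ ℤ)) (U : J → (G × S →₀ ℤ))
    (hL2 : ∀ (F : ι → G → ℝ) (A0 : Finset ι), (∀ i, i ∉ A0 → F i = 0) →
      (∀ i, Summable (fun g => (F i g) ^ 2)) →
      (∀ g s, ∑ i ∈ A0, (v i).sum
        (fun p n => if p.2 = s then (n : ℝ) * F i (g * p.1⁻¹) else 0) = 0) → F = 0)
    {N : ℕ} (x : Fin N → H → ℝ) (hx : ∀ i, Summable (fun h => (x i h) ^ 2))
    (z : Fin N → (H × J →₀ ℤ)) (c : Fin N → (G × ι →₀ ℤ))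
    (hc : ∀ i, bd v (c i) = bd U (incl H (z i)))
    (hrel : ∀ g j, ∑ i, (z i).sum
      (fun p n => if p.2 = j then (n : ℝ) * x i (g * p.1⁻¹) else 0) = 0) :
    (∀ g j, ∑ i, cv (ext0 H (x i)) g j (incl H (z i)) = 0) ∧
      ∀ l g, ∑ i, cv (ext0 H (x i)) g l (c i) = 0 := by
  classical
  set y : Fin N → G → ℝ := fun i => ext0 H (x i) with hy
  have hysum : ∀ i, Summable (fun g => (y i g) ^ 2) := fun i => summable_ext0 H _ (hx i)
  have hincl : ∀ (i : Fin N) (w : H × J →₀ ℤ) (g : H) (j : J),
      cv (y i) (g : G) j (incl H w) =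
        w.sum (fun p n => if p.2 = j then (n : ℝ) * x i (g * p.1⁻¹) else 0) := by
    intro i w g j
    induction w using Finsupp.induction_linear with
    | zero => simp [cv_zero]
    | add w1 w2 h1 h2 =>
      rw [map_add, cv_add, h1, h2]
      symm
      apply Finsupp.sum_add_index'
      · intro p; simp
      · intro p m n
        split_ifs
        · push_cast; ring
        · simp
    | single p n =>
      obtain ⟨h, j'⟩ := p
      rw [incl_single, cv_single, Finsupp.sum_single_index (by simp)]
      have h1 : y i ((g : G) * (h : G)⁻¹) = x i (g * h⁻¹) := ext0_coe H (x i) (g * h⁻¹)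
      rw [h1]
  have hincl' : ∀ (i : Fin N) (w : H × J →₀ ℤ) (g : G) (j : J), g ∉ H →
      cv (y i) g j (incl H w) = 0 := by
    intro i w g j hg
    induction w using Finsupp.induction_linear with
    | zero => simp [cv_zero]
    | add w1 w2 h1 h2 => rw [map_add, cv_add, h1, h2, add_zero]
    | single p n =>
      obtain ⟨h, j'⟩ := p
      rw [incl_single, cv_single]
      have h1 : y i (g * (h : G)⁻¹) = 0 := by
        apply ext0_of_notMem
        intro hm
        apply hg
        have := H.mul_mem hm h.2
        rwa [inv_mul_cancel_right] at this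
      rw [h1]
      simp
  have h1 : ∀ (g : G) (j : J), ∑ i, cv (y i) g j (incl H (z i)) = 0 := by
    intro g j
    by_cases hg : g ∈ H
    · rw [← hrel ⟨g, hg⟩ j]
      apply Finset.sum_congr rfl
      intro i _
      exact hincl i (z i) ⟨g, hg⟩ j
    · apply Finset.sum_eq_zero
      intro i _
      exact hincl' i (z i) g j hg
  refine ⟨h1, ?_⟩
  have h2 : ∀ (g : G) (s : S), ∑ i, cv (y i) g s (bd v (c i)) = 0 := by
    intro g s
    have h3 : ∀ i : Fin N, cv (y i) g s (bd v (c i)) = ∑ j : J, (U j).sum
        (fun p n => if p.2 = s then (n : ℝ) * cv (y i) (g * p.1⁻¹) j (incl H (z i)) else 0) := by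
      intro i
      rw [hc i]
      exact cv_bd _ _ _ _ _ _ (fun _ _ => Finset.mem_univ _)
    rw [Finset.sum_congr rfl (fun i _ => h3 i), Finset.sum_comm]
    apply Finset.sum_eq_zero
    intro j _
    unfold Finsupp.sum
    rw [Finset.sum_comm]
    apply Finset.sum_eq_zero
    intro p _
    beta_reduce
    split_ifs
    · rw [← Finset.mul_sum, h1, mul_zero]
    · simp
  let A0 : Finset ι := Finset.univ.biUnion (fun i : Fin N => (c i).support.image Prod.snd)
  have hA0 : ∀ (i : Fin N), ∀ p ∈ (c i).support, p.2 ∈ A0 := by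
    intro i p hp
    rw [Finset.mem_biUnion]
    exact ⟨i, Finset.mem_univ _, Finset.mem_image_of_mem _ hp⟩
  let F : ι → G → ℝ := fun l g => ∑ i : Fin N, cv (y i) g l (c i)
  have hF0 : F = 0 := by
    apply hL2 F A0
    · intro l hl
      funext g
      apply Finset.sum_eq_zero
      intro i _
      apply Finset.sum_eq_zero
      intro p hp
      beta_reduce
      rw [if_neg]
      rintro rfl
      exact hl (hA0 i p hp)
    · intro l
      have h3 : Memℓp (fun g => ∑ i : Fin N, cv (y i) g l (c i)) 2 := by
        apply Memℓp.finsetSum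
        intro i _
        exact summable_cv (y i) l (hysum i) (c i)
      have h4 := (memℓp_gen_iff (p := 2) (by norm_num)).1 h3
      simpa using h4
    · intro g s
      refine Eq.trans ?_ (h2 g s)
      have h3 : ∀ i : Fin N, cv (y i) g s (bd v (c i)) = ∑ l ∈ A0, (v l).sum
          (fun p n => if p.2 = s then (n : ℝ) * cv (y i) (g * p.1⁻¹) l (c i) else 0) :=
        fun i => cv_bd v (y i) g s (c i) A0 (hA0 i)
      rw [Finset.sum_congr rfl (fun i _ => h3 i), Finset.sum_comm]
      apply Finset.sum_congr rfl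
      intro l _
      unfold Finsupp.sum
      rw [Finset.sum_comm]
      apply Finset.sum_congr rfl
      intro p _
      beta_reduce
      split_ifs
      · rw [← Finset.mul_sum]
      · simp
  intro l g
  exact congrFun (congrFun hF0 l) g

lemma cv_delta {G A : Type*} [Group G] [DecidableEq G] [DecidableEq A] (g : G) (a : A)
    (c : G × A →₀ ℤ) : cv (fun k => if k = 1 then 1 else 0) g a c = (c (g, a) : ℝ) := by
  induction c using Finsupp.induction_linear with
  | zero => rw [cv_zero]; simp
  | add f h hf hh => rw [cv_add, hf, hh, Finsupp.add_apply, Int.cast_add]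
  | single p n =>
    obtain ⟨h, b⟩ := p
    rw [cv_single, Finsupp.single_apply]
    by_cases hb : b = a
    · by_cases hg : h = g
      · rw [if_pos hb, if_pos (by rw [hg, mul_inv_cancel]), if_pos (by rw [hb, hg]), mul_one]
      · rw [if_pos hb, if_neg (by
          intro h1
          exact hg (mul_inv_eq_one.1 h1).symm), if_neg (by
          intro h1
          exact hg (Prod.mk.inj h1).1), mul_zero, Int.cast_zero]
    · rw [if_neg hb, if_neg (by
          intro h1
          exact hb (Prod.mk.inj h1).2), Int.cast_zero]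

/-- The boundary map is injective on integral chains. -/
lemma bd_inj {G S ι : Type*} [Group G] [DecidableEq S] (v : ι → (G × S →₀ ℤ))
    (hL2 : ∀ (F : ι → G → ℝ) (A0 : Finset ι), (∀ i, i ∉ A0 → F i = 0) →
      (∀ i, Summable (fun g => (F i g) ^ 2)) →
      (∀ g s, ∑ i ∈ A0, (v i).sum
        (fun p n => if p.2 = s then (n : ℝ) * F i (g * p.1⁻¹) else 0) = 0) → F = 0)
    (c : G × ι →₀ ℤ) (hc : bd v c = 0) : c = 0 := by
  classical
  let y : G → ℝ := fun k => if k = 1 then 1 else 0
  have hy : Summable (fun g => (y g) ^ 2) := by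
    apply summable_of_finite_support
    apply (Set.finite_singleton (1 : G)).subset
    intro g hg
    by_contra hne
    apply hg
    have : g ≠ 1 := hne
    simp [y, this]
  have hF := hL2 (fun a g => cv y g a c) (c.support.image Prod.snd) (by
    intro i hi
    funext g
    rw [cv_delta]
    have : c (g, i) = 0 := by
      by_contra hne
      apply hi
      exact Finset.mem_image.2 ⟨(g, i), Finsupp.mem_support_iff.2 hne, rfl⟩
    rw [this]
    simp) (by
    intro i
    have h4 := (memℓp_gen_iff (p := 2) (by norm_num)).1 (summable_cv y i hy c)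
    simpa using h4) (by
    intro g s
    rw [← cv_bd v y g s c (c.support.image Prod.snd)
      (fun p hp => Finset.mem_image_of_mem _ hp), hc, cv_zero])
  ext ⟨g, a⟩
  have h1 := congrFun (congrFun hF a) g
  rw [cv_delta] at h1
  rw [Finsupp.zero_apply]
  have h2 : ((c (g, a) : ℤ) : ℝ) = 0 := h1
  exact_mod_cast h2

end Pool.Agent.L2Coh
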