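import Pool.Agent.L2Coh.App

/-!
# The relation module of a residually finite `p`-subgroup
-/

namespace Pool.Agent.L2Coh

/-- The retraction of the chains onto the relation module. -/
lemma exists_rho {G S J ι : Type*} [Group G] (φ : FreeGroup S →* G)
    (r : ι → FreeGroup S) (hr1 : ∀ i, φ (r i) = 1) (H : Subgroup G) (ψ : FreeGroup J →* H)
    (σ : H → FreeGroup J) (hσ : ∀ h, ψ (σ h) = h)
    (u : J → FreeGroup S) (hu : ∀ j, φ (u j) = (ψ (FreeGroup.of j) : G))
    (q : G → H) (hq1 : q 1 = 1) (hq : ∀ (h : H) (g : G), q (h * g) = h * q g) :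
    ∃ ρ : (G × S →₀ ℤ) →+ (H × J →₀ ℤ), (∀ (h : H) c, ρ (lm (h : G) c) = lm h (ρ c)) ∧
      (∀ z, bd1 ψ (ρ (bd (fun j => fch φ 1 (u j)) (incl H z)) - z) = 0) ∧
      ∀ c, bd1 ψ (ρ (bd (fun i => fch φ 1 (r i)) c)) = 0 := by
  classical
  set v : ι → (G × S →₀ ℤ) := fun i => fch φ 1 (r i) with hv
  set Uc : (H × J →₀ ℤ) →+ (G × S →₀ ℤ) :=
    (bd (fun j => fch φ 1 (u j))).comp (incl H) with hUc
  have hUfch : ∀ (h : H) (w : FreeGroup J), Uc (fch ψ h w) = fch φ (h : G) (FreeGroup.lift u w) :=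
    fun h w => bd_incl_fch φ H ψ u hu h w
  let ρ : (G × S →₀ ℤ) →+ (H × J →₀ ℤ) :=
    Finsupp.liftAddHom (fun p => (zmultiplesHom _
      (fch ψ (q p.1) (σ ((q p.1)⁻¹ * q (p.1 * φ (FreeGroup.of p.2)))))))
  have hρs : ∀ g s, ρ (Finsupp.single (g, s) 1) =
      fch ψ (q g) (σ ((q g)⁻¹ * q (g * φ (FreeGroup.of s)))) := by
    intro g s
    simp [ρ]
  have hρlm : ∀ (h : H) (c : G × S →₀ ℤ), ρ (lm (h : G) c) = lm h (ρ c) := by
    intro h c
    induction c using Finsupp.induction_linear with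
    | zero => simp
    | add f g hf hg => rw [map_add, map_add, hf, hg, map_add, map_add]
    | single p n =>
      obtain ⟨g, s⟩ := p
      have h1 : (Finsupp.single (g, s) n : G × S →₀ ℤ) = n • Finsupp.single (g, s) 1 := by simp
      rw [h1, map_zsmul, map_zsmul, map_zsmul, map_zsmul, lm_single, hρs, hρs, ← fch_lm, hq,
        mul_assoc (h : G) g, hq]
      congr 3
      group
  have hρbd : ∀ c : G × S →₀ ℤ,
      bd1 ψ (ρ c) = Finsupp.mapDomain q (bd1 φ c) := by
    intro c
    induction c using Finsupp.induction_linear with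
    | zero => simp
    | add f g hf hg => rw [map_add, map_add, hf, hg, map_add, Finsupp.mapDomain_add]
    | single p n =>
      obtain ⟨g, s⟩ := p
      have h1 : (Finsupp.single (g, s) n : G × S →₀ ℤ) = n • Finsupp.single (g, s) 1 := by simp
      rw [h1, map_zsmul, map_zsmul, map_zsmul, Finsupp.mapDomain_smul, hρs, bd1_fch, bd1_single,
        hσ]
      congr 1
      have h2 : (Finsupp.single (g * φ (FreeGroup.of s)) 1 - Finsupp.single g 1 : G →₀ ℤ) =
        Finsupp.single (g * φ (FreeGroup.of s)) 1 + (-1 : ℤ) • Finsupp.single g 1 := by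
        simp [sub_eq_add_neg]
      rw [h2, Finsupp.mapDomain_add, Finsupp.mapDomain_smul, Finsupp.mapDomain_single,
        Finsupp.mapDomain_single, mul_inv_cancel_left]
      simp [sub_eq_add_neg]
  let D : (H × J →₀ ℤ) →+ (H × J →₀ ℤ) := ρ.comp Uc - AddMonoidHom.id _
  have hD : ∀ z, D z = ρ (Uc z) - z := fun z => rfl
  have hUlm : ∀ (h : H) z, Uc (lm h z) = lm (h : G) (Uc z) := by
    intro h z
    rw [hUc, AddMonoidHom.comp_apply, AddMonoidHom.comp_apply, incl_lm, bd_lm]
  have hDlm : ∀ (h : H) z, D (lm h z) = lm h (D z) := by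
    intro h z
    rw [hD, hD, hUlm, hρlm, map_sub]
  have hqH : ∀ h : H, q (h : G) = h := by
    intro h
    have := hq h 1
    rwa [mul_one, hq1, mul_one] at this
  have hbdlm : ∀ (h : H) z, bd1 ψ z = 0 → bd1 ψ (lm h z) = 0 := by
    intro h z hz
    have h1 : ∀ z, bd1 ψ (lm h z) = Finsupp.mapDomain (fun k => h * k) (bd1 ψ z) := by
      intro z
      induction z using Finsupp.induction_linear with
      | zero => simp
      | add f g hf hg => rw [map_add, map_add, hf, hg, map_add, Finsupp.mapDomain_add]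
      | single p n =>
        obtain ⟨g, s⟩ := p
        have h1 : (Finsupp.single (g, s) n : H × J →₀ ℤ) = n • Finsupp.single (g, s) 1 := by simp
        rw [h1, map_zsmul, map_zsmul, map_zsmul, Finsupp.mapDomain_smul, lm_single, bd1_single,
          bd1_single]
        congr 1
        have h2 : (Finsupp.single (g * ψ (FreeGroup.of s)) 1 - Finsupp.single g 1 : H →₀ ℤ) =
          Finsupp.single (g * ψ (FreeGroup.of s)) 1 + (-1 : ℤ) • Finsupp.single g 1 := by
          simp [sub_eq_add_neg]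
        rw [h2, Finsupp.mapDomain_add, Finsupp.mapDomain_smul, Finsupp.mapDomain_single,
          Finsupp.mapDomain_single]
        simp [sub_eq_add_neg, mul_assoc]
    rw [h1, hz, Finsupp.mapDomain_zero]
  have hDbd : ∀ j : J, bd1 ψ (D (Finsupp.single (1, j) 1)) = 0 := by
    intro j
    have h0 : (Finsupp.single (1, j) 1 : H × J →₀ ℤ) = fch ψ 1 (FreeGroup.of j) := by
      rw [fch_of]
    rw [hD, h0, map_sub, hρbd, hUfch, bd1_fch, bd1_fch, FreeGroup.lift_apply_of, hu]
    have h2 : (Finsupp.single (((1 : H) : G) * (ψ (FreeGroup.of j) : G)) 1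
        - Finsupp.single ((1 : H) : G) 1 : G →₀ ℤ) =
        Finsupp.single (((1 * ψ (FreeGroup.of j) : H) : G)) 1
          + (-1 : ℤ) • Finsupp.single ((1 : H) : G) 1 := by
      simp [sub_eq_add_neg]
    rw [h2, Finsupp.mapDomain_add, Finsupp.mapDomain_smul, Finsupp.mapDomain_single,
      Finsupp.mapDomain_single, hqH, hqH]
    simp [sub_eq_add_neg]
  have hRbd : ∀ t : G × ι, bd1 ψ (ρ (bd v (Finsupp.single t 1))) = 0 := by
    rintro ⟨g, i⟩
    have h1 : bd v (Finsupp.single (g, i) 1) = fch φ g (r i) := by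
      rw [bd_single, one_smul, hv, ← fch_lm']
    rw [hρbd, h1, bd1_fch, hr1, mul_one, sub_self, Finsupp.mapDomain_zero]
  refine ⟨ρ, hρlm, ?_, ?_⟩
  · intro z
    show bd1 ψ (D z) = 0
    induction z using Finsupp.induction_linear with
    | zero => simp
    | add f g hf hg => rw [map_add, map_add, hf, hg, add_zero]
    | single p n =>
      obtain ⟨h, j⟩ := p
      have h1 : (Finsupp.single (h, j) n : H × J →₀ ℤ) =
          n • lm h (Finsupp.single (1, j) 1) := by
        rw [lm_single]; simp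
      rw [h1, map_zsmul, map_zsmul, hDlm, hbdlm h _ (hDbd j), smul_zero]
  · intro c
    induction c using Finsupp.induction_linear with
    | zero => simp
    | add f g hf hg => rw [map_add, map_add, map_add, hf, hg, add_zero]
    | single p n =>
      have h1 : (Finsupp.single p n : G × ι →₀ ℤ) = n • Finsupp.single p 1 := by simp
      rw [h1, map_zsmul, map_zsmul, map_zsmul, hRbd, smul_zero]

/-- The finiteness theorem for residually finite `p`-subgroups. -/
theorem finite_orbits_p {G S J ι : Type*} [Group G] [Fintype J] (φ : FreeGroup S →* G)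
    (r : ι → FreeGroup S) (hr : φ.ker = Subgroup.normalClosure (Set.range r))
    (H : Subgroup G) (ψ : FreeGroup J →* H) (σ : H → FreeGroup J) (hσ : ∀ h, ψ (σ h) = h)
    (u : J → FreeGroup S) (hu : ∀ j, φ (u j) = (ψ (FreeGroup.of j) : G))
    (q : G → H) (hq1 : q 1 = 1) (hq : ∀ (h : H) (g : G), q (h * g) = h * q g)
    {p : ℕ} (hp : p.Prime) (hH : ResiduallyP p H)
    [DecidableEq S]
    (hL2 : ∀ (F : ι → G → ℝ) (A0 : Finset ι), (∀ i, i ∉ A0 → F i = 0) →
      (∀ i, Summable (fun g => (F i g) ^ 2)) →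
      (∀ g s, ∑ i ∈ A0, (fch φ 1 (r i)).sum
        (fun p n => if p.2 = s then (n : ℝ) * F i (g * p.1⁻¹) else 0) = 0) → F = 0) :
    ∃ T0 : Finset (G × ι), ∀ n : FreeGroup J, ψ n = 1 → ∃ c : G × ι →₀ ℤ,
      bd (fun i => fch φ 1 (r i)) c = fch φ 1 (FreeGroup.lift u n) ∧
      ∀ p ∈ c.support, (((q p.1 : G))⁻¹ * p.1, p.2) ∈ T0 := by
  classical
  have hpf : Fact p.Prime := ⟨hp⟩
  have hr1 : ∀ i, φ (r i) = 1 := by
    intro i
    have : r i ∈ φ.ker := by
      rw [hr]
      exact Subgroup.subset_normalClosure ⟨i, rfl⟩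
    exact this
  obtain ⟨ρ, hρlm, hρD, hρR⟩ := exists_rho φ r hr1 H ψ σ hσ u hu q hq1 hq
  set v : ι → (G × S →₀ ℤ) := fun i => fch φ 1 (r i) with hv
  set V : J → (G × S →₀ ℤ) := fun j => fch φ 1 (u j) with hV
  have hqH : ∀ h : H, q (h : G) = h := by
    intro h
    have := hq h 1
    rwa [mul_one, hq1, mul_one] at this
  have hinj : ∀ c c', bd v c = bd v c' → c = c' := by
    intro c c' h
    have h1 := bd_inj v hL2 (c - c') (by rw [map_sub, h, sub_self])
    exact sub_eq_zero.1 h1
  let Z : AddSubgroup (H × J →₀ ℤ) := (bd1 ψ).ker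
  have hZ : ∀ z, z ∈ Z ↔ bd1 ψ z = 0 := fun z => Iff.rfl
  have hfill : ∀ z : Z, ∃ c, bd v c = bd V (incl H z.1) := by
    intro z
    obtain ⟨n, hn, hn2⟩ := exists_fch_eq ψ σ hσ z.1 z.2
    have hφn : φ (FreeGroup.lift u n) = 1 := by
      rw [phi_lift φ H ψ u hu, hn]
      rfl
    obtain ⟨c, hc⟩ := exists_bd_eq φ r hr _ hφn
    refine ⟨c, ?_⟩
    rw [hc, ← hn2, bd_incl_fch φ H ψ u hu, Subgroup.coe_one]
  choose fill hfill2 using hfill
  -- the components
  let pr1 : (G × (ι ⊕ J) →₀ ℤ) →+ (G × ι →₀ ℤ) :=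
    Finsupp.liftAddHom (fun p => zmultiplesHom _
      (Sum.elim (fun i => Finsupp.single (p.1, i) (1 : ℤ)) (fun _ => 0) p.2))
  let pr2 : (G × (ι ⊕ J) →₀ ℤ) →+ (H × J →₀ ℤ) :=
    Finsupp.liftAddHom (fun p => zmultiplesHom _
      (Sum.elim (fun _ => 0) (fun j => Finsupp.single (q p.1, j) (1 : ℤ)) p.2))
  let J1 : (G × ι →₀ ℤ) →+ (G × (ι ⊕ J) →₀ ℤ) :=
    Finsupp.mapDomain.addMonoidHom (fun p => (p.1, Sum.inl p.2))
  let J2 : (G × J →₀ ℤ) →+ (G × (ι ⊕ J) →₀ ℤ) :=
    Finsupp.mapDomain.addMonoidHom (fun p => (p.1, Sum.inr p.2))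
  have hJ1s : ∀ g i n, J1 (Finsupp.single (g, i) n) = Finsupp.single (g, Sum.inl i) n :=
    fun g i n => Finsupp.mapDomain_single
  have hJ2s : ∀ g j n, J2 (Finsupp.single (g, j) n) = Finsupp.single (g, Sum.inr j) n :=
    fun g i n => Finsupp.mapDomain_single
  have hpr1l : ∀ g i n, pr1 (Finsupp.single (g, Sum.inl i) n) = Finsupp.single (g, i) n := by
    intro g i n
    simp [pr1]
  have hpr1r : ∀ g j n, pr1 (Finsupp.single (g, Sum.inr j) n) = 0 := by
    intro g i n
    simp [pr1]
  have hpr2l : ∀ g i n, pr2 (Finsupp.single (g, Sum.inl i) n) = 0 := by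
    intro g i n
    simp [pr2]
  have hpr2r : ∀ g j n, pr2 (Finsupp.single (g, Sum.inr j) n) = Finsupp.single (q g, j) n := by
    intro g i n
    simp [pr2]
  have hpr1J1 : ∀ c, pr1 (J1 c) = c := by
    intro c
    induction c using Finsupp.induction_linear with
    | zero => simp
    | add f g hf hg => rw [map_add, map_add, hf, hg]
    | single p n => obtain ⟨g, i⟩ := p; rw [hJ1s, hpr1l]
  have hpr1J2 : ∀ c, pr1 (J2 c) = 0 := by
    intro c
    induction c using Finsupp.induction_linear with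
    | zero => simp
    | add f g hf hg => rw [map_add, map_add, hf, hg, add_zero]
    | single p n => obtain ⟨g, i⟩ := p; rw [hJ2s, hpr1r]
  have hpr2J1 : ∀ c, pr2 (J1 c) = 0 := by
    intro c
    induction c using Finsupp.induction_linear with
    | zero => simp
    | add f g hf hg => rw [map_add, map_add, hf, hg, add_zero]
    | single p n => obtain ⟨g, i⟩ := p; rw [hJ1s, hpr2l]
  have hpr2J2 : ∀ z, pr2 (J2 (incl H z)) = z := by
    intro z
    induction z using Finsupp.induction_linear with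
    | zero => simp
    | add f g hf hg => rw [map_add, map_add, map_add, hf, hg]
    | single p n => obtain ⟨g, i⟩ := p; rw [incl_single, hJ2s, hpr2r, hqH]
  have hpr1lm : ∀ (h : H) w, pr1 (lm (h : G) w) = lm (h : G) (pr1 w) := by
    intro h w
    induction w using Finsupp.induction_linear with
    | zero => simp
    | add f g hf hg => rw [map_add, map_add, map_add, hf, hg, map_add]
    | single p n =>
      obtain ⟨g, i | j⟩ := p
      · rw [lm_single, hpr1l, hpr1l, lm_single]
      · rw [lm_single, hpr1r, hpr1r, map_zero]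
  have hpr2lm : ∀ (h : H) w, pr2 (lm (h : G) w) = lm h (pr2 w) := by
    intro h w
    induction w using Finsupp.induction_linear with
    | zero => simp
    | add f g hf hg => rw [map_add, map_add, map_add, hf, hg, map_add]
    | single p n =>
      obtain ⟨g, i | j⟩ := p
      · rw [lm_single, hpr2l, hpr2l, map_zero]
      · rw [lm_single, hpr2r, hpr2r, lm_single, hq]
  have hJ1lm : ∀ (h : G) c, J1 (lm h c) = lm h (J1 c) := by
    intro h c
    induction c using Finsupp.induction_linear with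
    | zero => simp
    | add f g hf hg => rw [map_add, map_add, map_add, hf, hg, map_add]
    | single p n => obtain ⟨g, i⟩ := p; rw [lm_single, hJ1s, hJ1s, lm_single]
  have hJ2lm : ∀ (h : G) c, J2 (lm h c) = lm h (J2 c) := by
    intro h c
    induction c using Finsupp.induction_linear with
    | zero => simp
    | add f g hf hg => rw [map_add, map_add, map_add, hf, hg, map_add]
    | single p n => obtain ⟨g, i⟩ := p; rw [lm_single, hJ2s, hJ2s, lm_single]
  -- the embedding of the relation module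
  let E : Z →+ (G × (ι ⊕ J) →₀ ℤ) :=
    { toFun := fun z => J1 (fill z) + J2 (incl H z.1)
      map_zero' := by
        have h1 : fill 0 = 0 := by
          apply hinj
          rw [hfill2, map_zero]
          show bd V (incl H (0 : H × J →₀ ℤ)) = 0
          rw [map_zero, map_zero]
        rw [h1, map_zero, zero_add]
        show J2 (incl H (0 : H × J →₀ ℤ)) = 0
        rw [map_zero, map_zero]
      map_add' := by
        intro a b
        have h1 : fill (a + b) = fill a + fill b := by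
          apply hinj
          rw [map_add, hfill2, hfill2, hfill2]
          show bd V (incl H (a.1 + b.1)) = _
          rw [map_add, map_add]
        rw [h1, map_add]
        show J1 (fill a) + J1 (fill b) + J2 (incl H (a.1 + b.1)) = _
        rw [map_add, map_add]
        abel }
  have hE : ∀ z : Z, E z = J1 (fill z) + J2 (incl H z.1) := fun z => rfl
  have hZlm : ∀ (h : H) z, z ∈ Z → lm h z ∈ Z := by
    intro h z hz
    obtain ⟨n, hn, hn2⟩ := exists_fch_eq ψ σ hσ z hz
    rw [hZ, ← hn2, ← fch_lm', bd1_fch, hn, mul_one, sub_self]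
  have hElm : ∀ (h : H) (z : Z), E ⟨lm h z.1, hZlm h z.1 z.2⟩ = lm (h : G) (E z) := by
    intro h z
    rw [hE, hE]
    have h1 : fill ⟨lm h z.1, hZlm h z.1 z.2⟩ = lm (h : G) (fill z) := by
      apply hinj
      rw [hfill2, bd_lm, hfill2, incl_lm, bd_lm]
    rw [h1, hJ1lm]
    show _ + J2 (incl H (lm h z.1)) = _
    rw [incl_lm, hJ2lm, map_add]
  let cyc : (G × (ι ⊕ J) →₀ ℤ) →+ (H × J →₀ ℤ) :=
    (ρ.comp (bd v)).comp pr1 - ((ρ.comp ((bd V).comp (incl H))) - AddMonoidHom.id _).comp pr2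
  have hcyc : ∀ w, cyc w = ρ (bd v (pr1 w)) - (ρ (bd V (incl H (pr2 w))) - pr2 w) := fun w => rfl
  have hcycZ : ∀ w, cyc w ∈ Z := by
    intro w
    rw [hZ, hcyc, map_sub, hρR, hρD, sub_zero]
  have hcyclm : ∀ (h : H) w, cyc (lm (h : G) w) = lm h (cyc w) := by
    intro h w
    rw [hcyc, hcyc, hpr1lm, hpr2lm, bd_lm, hρlm, incl_lm, bd_lm, hρlm, map_sub, map_sub]
  let R : (G × (ι ⊕ J) →₀ ℤ) →+ (G × (ι ⊕ J) →₀ ℤ) := E.comp (cyc.codRestrict Z hcycZ)
  have hR : ∀ w, R w = E ⟨cyc w, hcycZ w⟩ := fun w => rfl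
  obtain ⟨T0, hT0⟩ := finite_support H q hq hH E.range R (by
    intro h w
    rw [hR, hR, ← hElm]
    congr 1
    exact Subtype.ext (hcyclm h w)) (fun w => ⟨_, rfl⟩) (by
    rintro _ ⟨z, rfl⟩
    rw [hR]
    congr 1
    apply Subtype.ext
    show cyc (E z) = z.1
    have h1 : pr1 (E z) = fill z := by
      rw [hE, map_add, hpr1J1, hpr1J2, add_zero]
    have h2 : pr2 (E z) = z.1 := by
      rw [hE, map_add, hpr2J1, hpr2J2, zero_add]
    rw [hcyc, h1, h2, hfill2, sub_sub_cancel]) (Fintype.card J) (by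
    intro N hN w hw
    choose z hz using hw
    obtain ⟨x, hx1, hx2, hx3⟩ := exists_relation hN (fun k => (z k).1)
    obtain ⟨h1, h2⟩ := rel_fill H v V hL2 x hx1 (fun k => (z k).1) (fun k => fill (z k))
      (fun k => hfill2 (z k)) hx3
    refine ⟨x, hx1, hx2, ?_⟩
    have hcv1 : ∀ (y : G → ℝ) (g : G) (i : ι) (c : G × ι →₀ ℤ),
        cv y g (Sum.inl i) (J1 c) = cv y g i c := by
      intro y g i c
      induction c using Finsupp.induction_linear with
      | zero => rw [map_zero, cv_zero, cv_zero]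
      | add a b ha hb => rw [map_add, cv_add, cv_add, ha, hb]
      | single p n =>
        obtain ⟨g', i'⟩ := p
        rw [hJ1s, cv_single, cv_single]
        simp only [Sum.inl.injEq]
    have hcv2 : ∀ (y : G → ℝ) (g : G) (j : J) (c : G × ι →₀ ℤ),
        cv y g (Sum.inr j) (J1 c) = 0 := by
      intro y g i c
      induction c using Finsupp.induction_linear with
      | zero => rw [map_zero, cv_zero]
      | add a b ha hb => rw [map_add, cv_add, ha, hb, add_zero]
      | single p n =>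
        obtain ⟨g', i'⟩ := p
        rw [hJ1s, cv_single]
        simp
    have hcv3 : ∀ (y : G → ℝ) (g : G) (j : J) (c : G × J →₀ ℤ),
        cv y g (Sum.inr j) (J2 c) = cv y g j c := by
      intro y g i c
      induction c using Finsupp.induction_linear with
      | zero => rw [map_zero, cv_zero, cv_zero]
      | add a b ha hb => rw [map_add, cv_add, cv_add, ha, hb]
      | single p n =>
        obtain ⟨g', i'⟩ := p
        rw [hJ2s, cv_single, cv_single]
        simp only [Sum.inr.injEq]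
    have hcv4 : ∀ (y : G → ℝ) (g : G) (i : ι) (c : G × J →₀ ℤ),
        cv y g (Sum.inl i) (J2 c) = 0 := by
      intro y g i c
      induction c using Finsupp.induction_linear with
      | zero => rw [map_zero, cv_zero]
      | add a b ha hb => rw [map_add, cv_add, ha, hb, add_zero]
      | single p n =>
        obtain ⟨g', i'⟩ := p
        rw [hJ2s, cv_single]
        simp
    intro g a
    obtain i | j := a
    · rw [← h2 i g]
      apply Finset.sum_congr rfl
      intro k _
      rw [← hz k, hE, cv_add, hcv1, hcv4, add_zero]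
    · rw [← h1 g j]
      apply Finset.sum_congr rfl
      intro k _
      rw [← hz k, hE, cv_add, hcv2, hcv3, zero_add])
  refine ⟨T0.preimage (fun p : G × ι => (p.1, Sum.inl p.2)) (by
    rintro ⟨a, b⟩ _ ⟨c, d⟩ _ h
    simp only [Prod.mk.injEq, Sum.inl.injEq] at h
    exact Prod.ext h.1 h.2), ?_⟩
  intro n hn
  have hz : fch ψ 1 n ∈ Z := by
    rw [hZ, bd1_fch, hn, mul_one, sub_self]
  refine ⟨fill ⟨_, hz⟩, ?_, ?_⟩
  · rw [hfill2]
    show bd V (incl H (fch ψ 1 n)) = _
    rw [bd_incl_fch φ H ψ u hu, Subgroup.coe_one]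
  · rintro ⟨g, i⟩ hgi
    rw [Finset.mem_preimage]
    have h1 : (g, (Sum.inl i : ι ⊕ J)) ∈ (E ⟨_, hz⟩).support := by
      rw [Finsupp.mem_support_iff, hE, Finsupp.add_apply]
      have h2 : J1 (fill ⟨_, hz⟩) (g, (Sum.inl i : ι ⊕ J)) = fill ⟨_, hz⟩ (g, i) := by
        have : (g, (Sum.inl i : ι ⊕ J)) = (fun p : G × ι => (p.1, (Sum.inl p.2 : ι ⊕ J))) (g, i) :=
          rfl
        rw [this]
        apply Finsupp.mapDomain_apply
        rintro ⟨a, b⟩ ⟨c, d⟩ h
        simp only [Prod.mk.injEq, Sum.inl.injEq] at h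
        exact Prod.ext h.1 h.2
      have h3 : J2 (incl H (fch ψ 1 n)) (g, (Sum.inl i : ι ⊕ J)) = 0 := by
        apply Finsupp.mapDomain_notin_range
        rintro ⟨⟨a, b⟩, h⟩
        simp at h
      rw [h2]
      show _ + J2 (incl H (fch ψ 1 n)) (g, (Sum.inl i : ι ⊕ J)) ≠ 0
      rw [h3, add_zero]
      exact Finsupp.mem_support_iff.1 hgi
    exact hT0 _ ⟨_, rfl⟩ _ h1

end Pool.Agent.L2Coh
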