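import Pool.Agent.L2Coh.Defs

/-!
# Cellular chains of edge paths in Cayley complexes
-/

namespace Pool.Agent.L2Coh

/-- Left translation of chains. -/
noncomputable def lm {G A : Type*} [Group G] (h : G) : (G × A →₀ ℤ) →+ (G × A →₀ ℤ) :=
  Finsupp.mapDomain.addMonoidHom (fun p => (h * p.1, p.2))

lemma lm_single {G A : Type*} [Group G] (h g : G) (a : A) (n : ℤ) :
    lm h (Finsupp.single (g, a) n) = Finsupp.single (h * g, a) n :=
  Finsupp.mapDomain_single

lemma lm_inj {G A : Type*} [Group G] (h : G) :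
    Function.Injective (fun p : G × A => (h * p.1, p.2)) := by
  rintro ⟨a, b⟩ ⟨c, d⟩ hh
  simp only [Prod.mk.injEq, mul_right_inj] at hh
  exact Prod.ext hh.1 hh.2

lemma lm_lm {G A : Type*} [Group G] (h k : G) (c : G × A →₀ ℤ) : lm h (lm k c) = lm (h * k) c := by
  induction c using Finsupp.induction_linear with
  | zero => simp
  | add f g hf hg => rw [map_add, map_add, hf, hg, map_add]
  | single p n =>
    obtain ⟨g, a⟩ := p
    rw [lm_single, lm_single, lm_single, mul_assoc]

lemma lm_one {G A : Type*} [Group G] (c : G × A →₀ ℤ) : lm 1 c = c := by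
  induction c using Finsupp.induction_linear with
  | zero => simp
  | add f g hf hg => rw [map_add, hf, hg]
  | single p n =>
    obtain ⟨g, a⟩ := p
    rw [lm_single, one_mul]

lemma lm_apply {G A : Type*} [Group G] (h g : G) (a : A) (c : G × A →₀ ℤ) :
    (lm h c) (g, a) = c (h⁻¹ * g, a) := by
  have h1 : (g, a) = (fun p : G × A => (h * p.1, p.2)) (h⁻¹ * g, a) := by simp
  rw [h1]
  exact Finsupp.mapDomain_apply (lm_inj h) c _

section path

variable {G S : Type*} [Group G] (φ : FreeGroup S →* G)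

lemma mk_cons_true (s : S) (w : List (S × Bool)) :
    FreeGroup.mk ((s, true) :: w) = FreeGroup.of s * FreeGroup.mk w := by
  rw [FreeGroup.of, FreeGroup.mul_mk]
  rfl

lemma mk_cons_false (s : S) (w : List (S × Bool)) :
    FreeGroup.mk ((s, false) :: w) = (FreeGroup.of s)⁻¹ * FreeGroup.mk w := by
  rw [FreeGroup.of, FreeGroup.inv_mk, FreeGroup.mul_mk]
  rfl

lemma pathChain_append (g : G) (w w' : List (S × Bool)) :
    pathChain φ g (w ++ w') = pathChain φ g w + pathChain φ (g * φ (FreeGroup.mk w)) w' := by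
  induction w generalizing g with
  | nil =>
    have : FreeGroup.mk ([] : List (S × Bool)) = 1 := rfl
    simp [pathChain, this]
  | cons a w ih =>
    obtain ⟨s, b⟩ := a
    cases b
    · rw [List.cons_append, pathChain, pathChain, ih, mk_cons_false, map_mul, map_inv, mul_assoc]
      abel
    · rw [List.cons_append, pathChain, pathChain, ih, mk_cons_true, map_mul, mul_assoc]
      abel

lemma pathChain_step (g : G) {w w' : List (S × Bool)} (h : FreeGroup.Red.Step w w') :
    pathChain φ g w = pathChain φ g w' := by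
  obtain ⟨⟩ := h
  rename_i L₁ L₂ x b
  rw [pathChain_append, pathChain_append]
  congr 1
  cases b
  · simp only [Bool.not_false, pathChain, inv_mul_cancel_right]
    abel
  · simp only [Bool.not_true, pathChain, mul_inv_cancel_right]
    abel

/-- The chain of the path labelled by an element of the free group. -/
noncomputable def fch (g : G) : FreeGroup S → (G × S →₀ ℤ) :=
  Quot.lift (pathChain φ g) (fun _ _ h => pathChain_step φ g h)

lemma fch_mk (g : G) (w : List (S × Bool)) : fch φ g (FreeGroup.mk w) = pathChain φ g w := rfl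

lemma fch_mul (g : G) (u v : FreeGroup S) :
    fch φ g (u * v) = fch φ g u + fch φ (g * φ u) v := by
  induction u using Quot.inductionOn with
  | h a =>
  induction v using Quot.inductionOn with
  | h b => exact pathChain_append φ g a b

lemma fch_one (g : G) : fch φ g 1 = 0 := rfl

lemma fch_of (g : G) (s : S) : fch φ g (FreeGroup.of s) = Finsupp.single (g, s) 1 := by
  show pathChain φ g [(s, true)] = _
  simp [pathChain]

lemma fch_inv (g : G) (u : FreeGroup S) : fch φ g u⁻¹ = -fch φ (g * (φ u)⁻¹) u := by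
  have h := fch_mul φ (g * (φ u)⁻¹) u u⁻¹
  rw [mul_inv_cancel, fch_one, inv_mul_cancel_right] at h
  exact eq_neg_of_add_eq_zero_right h.symm

lemma fch_lm (h g : G) (u : FreeGroup S) : fch φ (h * g) u = lm h (fch φ g u) := by
  induction u generalizing g with
  | C1 => rw [fch_one, fch_one, map_zero]
  | of x => rw [fch_of, fch_of, lm_single]
  | inv_of x _ => rw [fch_inv, fch_inv, fch_of, fch_of, map_neg, lm_single, mul_assoc]
  | mul x y hx hy => rw [fch_mul, fch_mul, map_add, hx, mul_assoc, hy]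

lemma fch_lm' (g : G) (u : FreeGroup S) : fch φ g u = lm g (fch φ 1 u) := by
  rw [← fch_lm, mul_one]

/-- The cellular boundary map on 1-chains. -/
noncomputable def bd1 : (G × S →₀ ℤ) →+ (G →₀ ℤ) :=
  Finsupp.liftAddHom (fun p => (zmultiplesHom (G →₀ ℤ)
    (Finsupp.single (p.1 * φ (FreeGroup.of p.2)) 1 - Finsupp.single p.1 1)))

lemma bd1_single (g : G) (s : S) :
    bd1 φ (Finsupp.single (g, s) 1) =
      Finsupp.single (g * φ (FreeGroup.of s)) 1 - Finsupp.single g 1 := by
  simp [bd1]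

lemma bd1_fch (g : G) (u : FreeGroup S) :
    bd1 φ (fch φ g u) = Finsupp.single (g * φ u) 1 - Finsupp.single g 1 := by
  induction u generalizing g with
  | C1 => simp [fch_one]
  | of x => rw [fch_of, bd1_single]
  | inv_of x _ =>
    rw [fch_inv, fch_of, map_neg, bd1_single, inv_mul_cancel_right, map_inv]
    abel
  | mul x y hx hy =>
    rw [fch_mul, map_add, hx, hy, map_mul, mul_assoc]
    abel

end path

section bd

variable {G A B : Type*} [Group G] (v : A → (G × B →₀ ℤ))

/-- The equivariant map of chain modules sending the generator `a` to `v a`. -/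
noncomputable def bd : (G × A →₀ ℤ) →+ (G × B →₀ ℤ) :=
  Finsupp.liftAddHom (fun p => (zmultiplesHom (G × B →₀ ℤ) (lm p.1 (v p.2))))

lemma bd_single (g : G) (a : A) (n : ℤ) :
    bd v (Finsupp.single (g, a) n) = n • lm g (v a) := by
  simp [bd]

lemma bd_lm (h : G) (c : G × A →₀ ℤ) : bd v (lm h c) = lm h (bd v c) := by
  induction c using Finsupp.induction_linear with
  | zero => simp
  | add f g hf hg => rw [map_add, map_add, hf, hg, map_add, map_add]
  | single p n =>
    obtain ⟨g, a⟩ := p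
    rw [lm_single, bd_single, bd_single, map_zsmul, lm_lm]

end bd

/-- (M3) chains of elements of the normal closure of the relators are boundaries. -/
lemma exists_bd_eq {G S ι : Type*} [Group G] (φ : FreeGroup S →* G) (r : ι → FreeGroup S)
    (hr : φ.ker = Subgroup.normalClosure (Set.range r)) (w : FreeGroup S) (hw : φ w = 1) :
    ∃ c : G × ι →₀ ℤ, bd (fun i => fch φ 1 (r i)) c = fch φ 1 w := by
  let K : Subgroup (FreeGroup S) :=
    { carrier := {w | φ w = 1 ∧ ∃ c : G × ι →₀ ℤ, bd (fun i => fch φ 1 (r i)) c = fch φ 1 w}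
      mul_mem' := by
        rintro a b ⟨ha, c, hc⟩ ⟨hb, d, hd⟩
        refine ⟨by rw [map_mul, ha, hb, one_mul], c + d, ?_⟩
        rw [map_add, hc, hd, fch_mul, ha, mul_one]
      one_mem' := ⟨map_one φ, 0, by rw [map_zero, fch_one]⟩
      inv_mem' := by
        rintro a ⟨ha, c, hc⟩
        refine ⟨by rw [map_inv, ha, inv_one], -c, ?_⟩
        rw [map_neg, hc, fch_inv, ha, inv_one, mul_one] }
  have hKn : K.Normal := by
    constructor
    rintro n ⟨hn, c, hc⟩ g
    refine ⟨by rw [map_mul, map_mul, hn, mul_one, map_inv, mul_inv_cancel], lm (φ g) c, ?_⟩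
    rw [bd_lm, hc, fch_mul, fch_mul, map_mul, hn, mul_one, fch_inv, one_mul, mul_inv_cancel,
      ← fch_lm, mul_one]
    abel
  have hle : Subgroup.normalClosure (Set.range r) ≤ K := by
    apply Subgroup.normalClosure_le_normal
    rintro _ ⟨i, rfl⟩
    refine ⟨?_, Finsupp.single (1, i) 1, ?_⟩
    · have : r i ∈ φ.ker := by
        rw [hr]
        exact Subgroup.subset_normalClosure ⟨i, rfl⟩
      exact this
    · rw [bd_single, one_smul, lm_one]
  have hw' : w ∈ K := by
    apply hle
    rw [← hr]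
    exact hw
  exact hw'.2

section relmod

variable {H J : Type*} [Group H] (ψ : FreeGroup J →* H) (σ : H → FreeGroup J)
  (hσ : ∀ h, ψ (σ h) = h)

include hσ in
lemma loop_mem (h : H) (w : FreeGroup J) : σ h * w * (σ (h * ψ w))⁻¹ ∈ ψ.ker := by
  rw [MonoidHom.mem_ker, map_mul, map_mul, map_inv, hσ, hσ, mul_inv_cancel]

/-- The class of a loop in the relation module. -/
noncomputable def cls (h : H) (w : FreeGroup J) : Additive (Abelianization ψ.ker) :=
  Additive.ofMul (Abelianization.of ⟨σ h * w * (σ (h * ψ w))⁻¹, loop_mem ψ σ hσ h w⟩)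

lemma cls_mul (h : H) (u w : FreeGroup J) :
    cls ψ σ hσ h (u * w) = cls ψ σ hσ h u + cls ψ σ hσ (h * ψ u) w := by
  unfold cls
  rw [← ofMul_mul, ← map_mul]
  congr 2
  apply Subtype.ext
  show σ h * (u * w) * (σ (h * ψ (u * w)))⁻¹ =
    (σ h * u * (σ (h * ψ u))⁻¹) * (σ (h * ψ u) * w * (σ (h * ψ u * ψ w))⁻¹)
  rw [map_mul, ← mul_assoc h]
  group

lemma cls_one (h : H) : cls ψ σ hσ h 1 = 0 := by
  unfold cls
  have : (⟨σ h * 1 * (σ (h * ψ 1))⁻¹, loop_mem ψ σ hσ h 1⟩ : ψ.ker) = 1 := by
    apply Subtype.ext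
    show σ h * 1 * (σ (h * ψ 1))⁻¹ = 1
    rw [map_one, mul_one, mul_one, mul_inv_cancel]
  rw [this, map_one]
  rfl

/-- The inverse of the embedding of the relation module. -/
noncomputable def toRel : (H × J →₀ ℤ) →+ Additive (Abelianization ψ.ker) :=
  Finsupp.liftAddHom (fun p => (zmultiplesHom _ (cls ψ σ hσ p.1 (FreeGroup.of p.2))))

lemma toRel_fch (h : H) (w : FreeGroup J) : toRel ψ σ hσ (fch ψ h w) = cls ψ σ hσ h w := by
  induction w generalizing h with
  | C1 => rw [fch_one, map_zero, cls_one]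
  | of x => rw [fch_of]; simp [toRel]
  | inv_of x _ =>
    rw [fch_inv, fch_of, map_neg]
    have h1 := cls_mul ψ σ hσ (h * (ψ (FreeGroup.of x))⁻¹) (FreeGroup.of x) (FreeGroup.of x)⁻¹
    rw [mul_inv_cancel, cls_one, inv_mul_cancel_right] at h1
    have h2 : toRel ψ σ hσ (Finsupp.single (h * (ψ (FreeGroup.of x))⁻¹, x) 1) =
        cls ψ σ hσ (h * (ψ (FreeGroup.of x))⁻¹) (FreeGroup.of x) := by simp [toRel]
    rw [h2]
    exact (eq_neg_of_add_eq_zero_right h1.symm).symm
  | mul x y hx hy => rw [fch_mul, map_add, hx, hy, cls_mul]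

include hσ in
/-- (M1) -/
lemma mem_commutator_of_fch_eq_zero (n : FreeGroup J) (hn : ψ n = 1) (h0 : fch ψ 1 n = 0) :
    n ∈ ⁅ψ.ker, ψ.ker⁆ := by
  have h1 := toRel_fch ψ σ hσ 1 n
  rw [h0, map_zero] at h1
  have hs1 : σ 1 ∈ ψ.ker := hσ 1
  have h2 : (Abelianization.of (⟨n, hn⟩ : ψ.ker)) = 1 := by
    have h3 : (⟨σ 1 * n * (σ (1 * ψ n))⁻¹, loop_mem ψ σ hσ 1 n⟩ : ψ.ker) =
        ⟨σ 1, hs1⟩ * ⟨n, hn⟩ * (⟨σ 1, hs1⟩)⁻¹ := by
      apply Subtype.ext
      show σ 1 * n * (σ (1 * ψ n))⁻¹ = σ 1 * n * (σ 1)⁻¹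
      rw [hn, mul_one]
    have h4 : Abelianization.of (⟨σ 1 * n * (σ (1 * ψ n))⁻¹, loop_mem ψ σ hσ 1 n⟩ : ψ.ker) = 1 :=
      (Additive.ofMul.injective h1).symm
    rw [h3, map_mul, map_mul, map_inv, mul_comm, ← mul_assoc, inv_mul_cancel, one_mul] at h4
    exact h4
  have h5 : (⟨n, hn⟩ : ψ.ker) ∈ commutator ψ.ker := by
    rw [← Abelianization.ker_of]
    exact h2
  rw [← Subgroup.map_subtype_commutator]
  exact ⟨_, h5, rfl⟩

/-- The embedding of the relation module in the 1-chains. -/
noncomputable def relHom : ψ.ker →* Multiplicative (H × J →₀ ℤ) where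
  toFun n := Multiplicative.ofAdd (fch ψ 1 n.1)
  map_one' := rfl
  map_mul' := by
    intro a b
    rw [← ofAdd_add]
    congr 1
    show fch ψ 1 (a.1 * b.1) = _
    rw [fch_mul]
    have : ψ a.1 = 1 := a.2
    rw [this, mul_one]

include hσ in
/-- (M2) -/
lemma exists_fch_eq (z : H × J →₀ ℤ) (hz : bd1 ψ z = 0) :
    ∃ n : FreeGroup J, ψ n = 1 ∧ fch ψ 1 n = z := by
  let C : (H →₀ ℤ) →+ (H × J →₀ ℤ) :=
    Finsupp.liftAddHom (fun h => (zmultiplesHom _ (fch ψ 1 (σ h))))
  let F : Additive (Abelianization ψ.ker) →+ (H × J →₀ ℤ) :=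
    MonoidHom.toAdditiveLeft (Abelianization.lift (relHom ψ))
  have hF : ∀ n : ψ.ker, F (Additive.ofMul (Abelianization.of n)) = fch ψ 1 n.1 := fun n => rfl
  have key : ∀ z : H × J →₀ ℤ, F (toRel ψ σ hσ z) = z - C (bd1 ψ z) := by
    intro z
    induction z using Finsupp.induction_linear with
    | zero => simp
    | add f g hf hg =>
      rw [map_add, map_add, hf, hg, map_add, map_add]
      abel
    | single p n =>
      obtain ⟨h, j⟩ := p
      have h1 : (Finsupp.single (h, j) n : H × J →₀ ℤ) = n • Finsupp.single (h, j) 1 := by simp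
      rw [h1, map_zsmul, map_zsmul, map_zsmul, map_zsmul, ← smul_sub]
      congr 1
      have h2 : toRel ψ σ hσ (Finsupp.single (h, j) 1) = cls ψ σ hσ h (FreeGroup.of j) := by
        simp [toRel]
      rw [h2, bd1_single]
      unfold cls
      rw [hF, map_sub]
      have h3 : ∀ k : H, C (Finsupp.single k 1) = fch ψ 1 (σ k) := by
        intro k
        simp [C]
      rw [h3, h3, fch_mul, fch_mul, fch_inv, fch_of, map_mul, hσ, hσ, one_mul,
        mul_assoc 1, mul_inv_cancel, mul_one]
      abel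
  have h1 := key z
  rw [hz, map_zero, sub_zero] at h1
  obtain ⟨n, hn⟩ := QuotientGroup.mk_surjective (Additive.toMul (toRel ψ σ hσ z))
  refine ⟨n.1, n.2, ?_⟩
  rw [← h1, ← hF]
  congr 1

end relmod

end Pool.Agent.L2Coh
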