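import Pool.Agent.L2Coh.Chain

/-!
# Subquadratic homological fillings imply finite presentability

If a finitely generated group is not finitely presented then its Cayley graph contains arbitrarily
long isometrically embedded circles, and such circles have at least quadratic homological area.
-/

namespace Pool.Agent.L2Coh

section len

variable {L : Type*} [Group L] {n : ℕ} (ψ : FreeGroup (Fin n) →* L)
  (hψ : Function.Surjective ψ)

include hψ in
lemma exists_len (g : L) : ∃ k, ∃ x : FreeGroup (Fin n), ψ x = g ∧ x.norm = k := by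
  obtain ⟨x, hx⟩ := hψ g
  exact ⟨_, x, hx, rfl⟩

open Classical in
/-- The word length. -/
noncomputable def len (g : L) : ℕ := Nat.find (exists_len ψ hψ g)

lemma exists_len_eq (g : L) : ∃ x : FreeGroup (Fin n), ψ x = g ∧ x.norm = len ψ hψ g := by
  classical
  exact Nat.find_spec (exists_len ψ hψ g)

lemma len_le (x : FreeGroup (Fin n)) : len ψ hψ (ψ x) ≤ x.norm := by
  classical
  exact Nat.find_min' (exists_len ψ hψ (ψ x)) ⟨x, rfl, rfl⟩

lemma len_mul (g h : L) : len ψ hψ (g * h) ≤ len ψ hψ g + len ψ hψ h := by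
  obtain ⟨x, hx, hx2⟩ := exists_len_eq ψ hψ g
  obtain ⟨y, hy, hy2⟩ := exists_len_eq ψ hψ h
  have h1 := len_le ψ hψ (x * y)
  rw [map_mul, hx, hy] at h1
  have h2 := FreeGroup.norm_mul_le x y
  omega

lemma len_inv (g : L) : len ψ hψ g⁻¹ = len ψ hψ g := by
  have key : ∀ g : L, len ψ hψ g⁻¹ ≤ len ψ hψ g := by
    intro g
    obtain ⟨x, hx, hx2⟩ := exists_len_eq ψ hψ g
    have h1 := len_le ψ hψ x⁻¹
    rw [map_inv, hx, FreeGroup.norm_inv_eq, hx2] at h1
    exact h1
  apply le_antisymm (key g)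
  have h1 := key g⁻¹
  rwa [inv_inv] at h1

lemma len_lipschitz (a g : L) (s : Fin n) :
    |(len ψ hψ (a * (g * ψ (FreeGroup.of s))) : ℤ) - len ψ hψ (a * g)| ≤ 1 := by
  have h0 : len ψ hψ (ψ (FreeGroup.of s)) ≤ 1 := by
    have := len_le ψ hψ (FreeGroup.of s)
    rwa [FreeGroup.norm_of] at this
  have h1 := len_mul ψ hψ (a * g) (ψ (FreeGroup.of s))
  have h2 := len_mul ψ hψ (a * g * ψ (FreeGroup.of s)) (ψ (FreeGroup.of s))⁻¹
  rw [mul_inv_cancel_right, len_inv] at h2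
  rw [← mul_assoc, abs_le]
  constructor <;> omega

end len

section area

variable {L : Type*} [Group L] {n : ℕ} (ψ : FreeGroup (Fin n) →* L) (f h : L → ℤ)

/-- The area form `2 f dh` on edges. -/
noncomputable def area : (L × Fin n →₀ ℤ) →+ ℤ :=
  Finsupp.liftAddHom (fun p => zmultiplesHom ℤ
    ((f p.1 + f (p.1 * ψ (FreeGroup.of p.2))) * (h (p.1 * ψ (FreeGroup.of p.2)) - h p.1)))

lemma area_single (g : L) (s : Fin n) : area ψ f h (Finsupp.single (g, s) 1) =
    (f g + f (g * ψ (FreeGroup.of s))) * (h (g * ψ (FreeGroup.of s)) - h g) := by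
  simp [area]

lemma mk_take_succ (a : Fin n × Bool) (l : List (Fin n × Bool)) (i : ℕ) :
    FreeGroup.mk ((a :: l).take (i + 1)) = FreeGroup.mk [a] * FreeGroup.mk (l.take i) := by
  rw [List.take_succ_cons, FreeGroup.mul_mk]
  rfl

lemma area_pathChain (g : L) (l : List (Fin n × Bool)) :
    area ψ f h (pathChain ψ g l) = ∑ i ∈ Finset.range l.length,
      (f (g * ψ (FreeGroup.mk (l.take i))) + f (g * ψ (FreeGroup.mk (l.take (i + 1))))) *
      (h (g * ψ (FreeGroup.mk (l.take (i + 1)))) - h (g * ψ (FreeGroup.mk (l.take i)))) := by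
  induction l generalizing g with
  | nil => simp [pathChain]
  | cons a l ih =>
    rw [List.length_cons, Finset.sum_range_succ']
    have h0 : FreeGroup.mk ((a :: l).take 0) = 1 := rfl
    have h1 : FreeGroup.mk ((a :: l).take (0 + 1)) = FreeGroup.mk [a] := by
      rw [mk_take_succ]
      have : FreeGroup.mk (l.take 0) = 1 := rfl
      rw [this, mul_one]
    have h2 : ∀ i, g * ψ (FreeGroup.mk ((a :: l).take (i + 1))) =
        (g * ψ (FreeGroup.mk [a])) * ψ (FreeGroup.mk (l.take i)) := by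
      intro i
      rw [mk_take_succ, map_mul, mul_assoc]
    rw [h0, map_one, mul_one]
    simp only [h2]
    rw [← ih]
    have h3 : FreeGroup.mk (l.take 0) = 1 := rfl
    rw [h3, map_one, mul_one]
    obtain ⟨s, b⟩ := a
    cases b
    · have h4 : FreeGroup.mk [(s, false)] = (FreeGroup.of s)⁻¹ := by
        rw [FreeGroup.of, FreeGroup.inv_mk]
        rfl
      rw [pathChain, h4, map_inv, map_sub, area_single, inv_mul_cancel_right]
      ring
    · have h4 : FreeGroup.mk [(s, true)] = FreeGroup.of s := rfl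
      rw [pathChain, h4, map_add, area_single]
      ring

variable (hf : ∀ g s, |f (g * ψ (FreeGroup.of s)) - f g| ≤ 1)
  (hh : ∀ g s, |h (g * ψ (FreeGroup.of s)) - h g| ≤ 1)

include hf in
lemma lip_letter (g : L) (a : Fin n × Bool) : |f (g * ψ (FreeGroup.mk [a])) - f g| ≤ 1 := by
  obtain ⟨s, b⟩ := a
  cases b
  · have h4 : FreeGroup.mk [(s, false)] = (FreeGroup.of s)⁻¹ := by
      rw [FreeGroup.of, FreeGroup.inv_mk]
      rfl
    have h1 := hf (g * (ψ (FreeGroup.of s))⁻¹) s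
    rw [inv_mul_cancel_right] at h1
    rw [h4, map_inv, abs_sub_comm]
    exact h1
  · exact hf g s

include hf in
lemma lip_path (g : L) (l : List (Fin n × Bool)) :
    |f (g * ψ (FreeGroup.mk l)) - f g| ≤ l.length := by
  induction l generalizing g with
  | nil =>
    have h0 : FreeGroup.mk ([] : List (Fin n × Bool)) = 1 := rfl
    rw [h0, map_one, mul_one, sub_self, abs_zero]
    simp
  | cons a l ih =>
    have h1 : FreeGroup.mk (a :: l) = FreeGroup.mk [a] * FreeGroup.mk l := by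
      rw [FreeGroup.mul_mk]
      rfl
    have h2 := ih (g * ψ (FreeGroup.mk [a]))
    have h3 := lip_letter ψ f hf g a
    rw [h1, map_mul, ← mul_assoc, List.length_cons]
    rw [abs_le] at h2 h3 ⊢
    push_cast
    constructor <;> linarith [h2.1, h2.2, h3.1, h3.2]

lemma area_cons (g : L) (a : Fin n × Bool) (l : List (Fin n × Bool)) :
    area ψ f h (pathChain ψ g (a :: l)) =
      (f g + f (g * ψ (FreeGroup.mk [a]))) * (h (g * ψ (FreeGroup.mk [a])) - h g) +
        area ψ f h (pathChain ψ (g * ψ (FreeGroup.mk [a])) l) := by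
  obtain ⟨s, b⟩ := a
  cases b
  · have h4 : FreeGroup.mk [(s, false)] = (FreeGroup.of s)⁻¹ := by
      rw [FreeGroup.of, FreeGroup.inv_mk]
      rfl
    rw [pathChain, h4, map_inv, map_sub, area_single, inv_mul_cancel_right]
    ring
  · have h4 : FreeGroup.mk [(s, true)] = FreeGroup.of s := rfl
    rw [pathChain, h4, map_add, area_single]

include hf hh in
/-- The area of a short path. -/
lemma area_path_le (g : L) (l : List (Fin n × Bool)) :
    |area ψ f h (pathChain ψ g l) - 2 * f g * (h (g * ψ (FreeGroup.mk l)) - h g)| ≤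
      (l.length : ℤ) ^ 2 := by
  induction l generalizing g with
  | nil =>
    have h0 : FreeGroup.mk ([] : List (Fin n × Bool)) = 1 := rfl
    rw [h0, map_one, mul_one, sub_self, mul_zero, sub_zero]
    simp [pathChain]
  | cons a l ih =>
    have h1 : FreeGroup.mk (a :: l) = FreeGroup.mk [a] * FreeGroup.mk l := by
      rw [FreeGroup.mul_mk]
      rfl
    set g' := g * ψ (FreeGroup.mk [a]) with hg'
    have h2 := ih g'
    have h3 := lip_letter ψ f hf g a
    have h4 := lip_letter ψ h hh g a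
    have h5 := lip_path ψ h hh g' l
    rw [← hg'] at h3 h4
    rw [area_cons, h1, map_mul, ← mul_assoc, ← hg', List.length_cons]
    set A := area ψ f h (pathChain ψ g' l)
    set e := h (g' * ψ (FreeGroup.mk l))
    have h6 : (f g + f g') * (h g' - h g) + A - 2 * f g * (e - h g) =
        (f g' - f g) * (h g' - h g) + (A - 2 * f g' * (e - h g')) +
          2 * ((f g' - f g) * (e - h g')) := by ring
    rw [h6]
    have h7 : |(f g' - f g) * (h g' - h g)| ≤ 1 := by
      rw [abs_mul]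
      calc |f g' - f g| * |h g' - h g| ≤ 1 * 1 :=
            mul_le_mul h3 h4 (abs_nonneg _) zero_le_one
        _ = 1 := one_mul 1
    have h8 : |(f g' - f g) * (e - h g')| ≤ l.length := by
      rw [abs_mul]
      calc |f g' - f g| * |e - h g'| ≤ 1 * (l.length : ℤ) :=
            mul_le_mul h3 h5 (abs_nonneg _) zero_le_one
        _ = l.length := one_mul _
    rw [abs_le] at h2 h7 h8 ⊢
    push_cast
    constructor <;> nlinarith [h2.1, h2.2, h7.1, h7.2, h8.1, h8.2]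

include hf hh in
/-- The area of a translate of a short closed path. -/
lemma area_loop_le (g : L) (x : FreeGroup (Fin n)) (hx : ψ x = 1) :
    |area ψ f h (lm g (fch ψ 1 x))| ≤ (x.norm : ℤ) ^ 2 := by
  have h1 : lm g (fch ψ 1 x) = pathChain ψ g x.toWord := by
    rw [← fch_lm', ← fch_mk, FreeGroup.mk_toWord]
  have h2 := area_path_le ψ f h hf hh g x.toWord
  rw [FreeGroup.mk_toWord, hx, mul_one, sub_self, mul_zero, sub_zero] at h2
  rw [h1]
  exact h2

include hf hh in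
lemma area_bd_le {K : Type*} (nn : K → FreeGroup (Fin n)) (hnn : ∀ k, ψ (nn k) = 1) (D : ℕ)
    (hD : ∀ k, (nn k).norm ≤ D) (c : L × K →₀ ℤ) :
    area ψ f h (bd (fun k => fch ψ 1 (nn k)) c) ≤ (∑ p ∈ c.support, |c p|) * (D : ℤ) ^ 2 := by
  have h1 : bd (fun k => fch ψ 1 (nn k)) c =
      ∑ p ∈ c.support, c p • lm p.1 (fch ψ 1 (nn p.2)) := by
    conv_lhs => rw [← Finsupp.sum_single c, Finsupp.sum]
    rw [map_sum]
    apply Finset.sum_congr rfl
    rintro ⟨g, k⟩ _
    rw [bd_single]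
  rw [h1, map_sum, Finset.sum_mul]
  apply Finset.sum_le_sum
  rintro ⟨g, k⟩ _
  rw [map_zsmul, smul_eq_mul]
  have h2 := area_loop_le ψ f h hf hh g (nn k) (hnn k)
  have h3 : ((nn k).norm : ℤ) ^ 2 ≤ (D : ℤ) ^ 2 := by
    have := hD k
    have h4 : ((nn k).norm : ℤ) ≤ D := by exact_mod_cast this
    exact pow_le_pow_left₀ (by positivity) h4 2
  calc c (g, k) * area ψ f h (lm g (fch ψ 1 (nn k)))
      ≤ |c (g, k) * area ψ f h (lm g (fch ψ 1 (nn k)))| := le_abs_self _
    _ = |c (g, k)| * |area ψ f h (lm g (fch ψ 1 (nn k)))| := abs_mul _ _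
    _ ≤ |c (g, k)| * (D : ℤ) ^ 2 := mul_le_mul_of_nonneg_left (h2.trans h3) (abs_nonneg _)

end area

lemma sum_odd (k : ℕ) : ∑ i ∈ Finset.range k, (2 * (i : ℤ) + 1) = (k : ℤ) ^ 2 := by
  induction k with
  | zero => simp
  | succ k ih =>
    rw [Finset.sum_range_succ, ih]
    push_cast
    ring

lemma sum_odd' (k : ℕ) : ∑ i ∈ Finset.range k, (2 * ((k : ℤ) - i) - 1) = (k : ℤ) ^ 2 := by
  rw [← Finset.sum_range_reflect]
  rw [← sum_odd k]
  apply Finset.sum_congr rfl
  intro i hi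
  rw [Finset.mem_range] at hi
  have h1 : ((k - 1 - i : ℕ) : ℤ) = (k : ℤ) - 1 - i := by omega
  rw [h1]
  ring

/-- A sum with a large middle part. -/
lemma sum_lower (ℓ m : ℕ) (hm : 8 ≤ m) (h4 : 4 * m ≤ ℓ) (h4' : ℓ ≤ 4 * m + 3) (t : ℕ → ℤ)
    (h1 : ∀ i < m, -(2 * (i : ℤ) + 1) ≤ t i) (h2 : ∀ i, m ≤ i → i < 3 * m → 2 * (m : ℤ) ≤ t i)
    (h3 : ∀ i, 3 * m ≤ i → i < ℓ → -(2 * ((ℓ : ℤ) - i) - 1) ≤ t i) :
    (m : ℤ) ^ 2 ≤ ∑ i ∈ Finset.range ℓ, t i := by
  have e1 : ℓ = m + (2 * m + (ℓ - 3 * m)) := by omega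
  rw [e1, Finset.sum_range_add, Finset.sum_range_add]
  have s1 : -((m : ℤ) ^ 2) ≤ ∑ i ∈ Finset.range m, t i := by
    rw [← sum_odd m, ← Finset.sum_neg_distrib]
    apply Finset.sum_le_sum
    intro i hi
    exact h1 i (Finset.mem_range.1 hi)
  have s2 : 4 * (m : ℤ) ^ 2 ≤ ∑ i ∈ Finset.range (2 * m), t (m + i) := by
    have : ∑ i ∈ Finset.range (2 * m), (2 * (m : ℤ)) = 4 * (m : ℤ) ^ 2 := by
      rw [Finset.sum_const, Finset.card_range, nsmul_eq_mul]
      push_cast
      ring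
    rw [← this]
    apply Finset.sum_le_sum
    intro i hi
    rw [Finset.mem_range] at hi
    exact h2 _ (by omega) (by omega)
  have s3 : -(((ℓ - 3 * m : ℕ) : ℤ) ^ 2) ≤
      ∑ i ∈ Finset.range (ℓ - 3 * m), t (m + (2 * m + i)) := by
    rw [← sum_odd' (ℓ - 3 * m), ← Finset.sum_neg_distrib]
    apply Finset.sum_le_sum
    intro i hi
    rw [Finset.mem_range] at hi
    have h5 := h3 (m + (2 * m + i)) (by omega) (by omega)
    have h6 : ((ℓ - 3 * m : ℕ) : ℤ) - i = (ℓ : ℤ) - ((m + (2 * m + i) : ℕ) : ℤ) := by omega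
    rw [h6]
    exact h5
  have h7 : ((ℓ - 3 * m : ℕ) : ℤ) ≤ m + 3 := by omega
  have h8 : ((ℓ - 3 * m : ℕ) : ℤ) ^ 2 ≤ ((m : ℤ) + 3) ^ 2 :=
    pow_le_pow_left₀ (by positivity) h7 2
  have h9 : (8 : ℤ) ≤ m := by exact_mod_cast hm
  nlinarith

lemma finite_norm_le {n : ℕ} (k : ℕ) : {x : FreeGroup (Fin n) | x.norm ≤ k}.Finite := by
  have h1 : {l : List (Fin n × Bool) | l.length ≤ k}.Finite := List.finite_length_le _ k
  apply (h1.preimage (f := FreeGroup.toWord) (FreeGroup.toWord_injective.injOn)).subset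
  intro x hx
  exact hx

/-- A group with subquadratic homological fillings by finitely many relators is finitely
presented. -/
theorem fp_of_filling {L : Type*} [Group L] {n : ℕ} (ψ : FreeGroup (Fin n) →* L)
    (hψ : Function.Surjective ψ) {K : Type*} [Finite K] (nn : K → FreeGroup (Fin n))
    (hnn : ∀ k, ψ (nn k) = 1)
    (hfill : ∀ ε : ℝ, 0 < ε → ∃ ℓ₀ : ℕ, ∀ w : FreeGroup (Fin n), ψ w = 1 → ℓ₀ ≤ w.norm →
      ∃ c : L × K →₀ ℤ, bd (fun k => fch ψ 1 (nn k)) c = fch ψ 1 w ∧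
        ((∑ p ∈ c.support, |c p| : ℤ) : ℝ) ≤ ε * (w.norm : ℝ) ^ 2) :
    ∃ Q : Set (FreeGroup (Fin n)), Q.Finite ∧ Subgroup.normalClosure Q = ψ.ker := by
  classical
  have hKf := Fintype.ofFinite K
  obtain ⟨D, hD⟩ : ∃ D : ℕ, ∀ k, (nn k).norm ≤ D :=
    ⟨Finset.univ.sup fun k => (nn k).norm, fun k =>
      Finset.le_sup (f := fun k => (nn k).norm) (Finset.mem_univ k)⟩
  obtain ⟨ℓ₀, hℓ₀⟩ := hfill (1 / (50 * ((D : ℝ) ^ 2 + 1))) (by positivity)
  let K0 : ℕ := max ℓ₀ 100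
  let Q : Set (FreeGroup (Fin n)) := {x | x.norm ≤ K0} ∩ {x | ψ x = 1}
  have hQ : Q ⊆ ψ.ker := fun x hx => hx.2
  refine ⟨Q, (finite_norm_le K0).inter_of_left _,
    le_antisymm (Subgroup.normalClosure_le_normal hQ) ?_⟩
  let E : Subgroup (FreeGroup (Fin n)) := Subgroup.normalClosure Q
  have hEn : E.Normal := Subgroup.normalClosure_normal
  suffices hmain : ∀ ℓ : ℕ, ∀ w : FreeGroup (Fin n), ψ w = 1 → w.norm = ℓ → w ∈ E from
    fun w hw => hmain _ w hw rfl
  intro ℓ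
  induction ℓ using Nat.strong_induction_on with
  | _ ℓ ih =>
  intro w hw hwℓ
  by_cases hsmall : ℓ ≤ K0
  · exact Subgroup.subset_normalClosure ⟨by rw [← hwℓ] at hsmall; exact hsmall, hw⟩
  push Not at hsmall
  have hℓ100 : 100 < ℓ := lt_of_le_of_lt (le_max_right _ _) hsmall
  have hℓℓ₀ : ℓ₀ ≤ ℓ := (le_max_left _ _).trans hsmall.le
  by_contra hwE
  have hlen : w.toWord.length = ℓ := hwℓ
  -- the vertices of the loop
  set v : ℕ → L := fun i => ψ (FreeGroup.mk (w.toWord.take i)) with hv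
  have hv0 : v 0 = 1 := map_one ψ
  have hsplit : ∀ i, FreeGroup.mk (w.toWord.take i) * FreeGroup.mk (w.toWord.drop i) = w := by
    intro i
    rw [FreeGroup.mul_mk, List.take_append_drop, FreeGroup.mk_toWord]
  have hnt : ∀ i, (FreeGroup.mk (w.toWord.take i)).norm ≤ i := by
    intro i
    exact FreeGroup.norm_mk_le.trans (by rw [List.length_take]; exact min_le_left _ _)
  have hnd : ∀ i, (FreeGroup.mk (w.toWord.drop i)).norm ≤ ℓ - i := by
    intro i
    exact FreeGroup.norm_mk_le.trans (by rw [List.length_drop, hlen])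
  have hdv : ∀ i, ψ (FreeGroup.mk (w.toWord.drop i)) = (v i)⁻¹ := by
    intro i
    have h1 := congrArg ψ (hsplit i)
    rw [map_mul, hw] at h1
    exact eq_inv_of_mul_eq_one_right h1
  -- upper bounds of the distances
  have hup1 : ∀ i j, i ≤ j → len ψ hψ ((v i)⁻¹ * v j) ≤ j - i := by
    intro i j hij
    have h1 : (v i)⁻¹ * v j = ψ (FreeGroup.mk ((w.toWord.drop i).take (j - i))) := by
      have h2 : FreeGroup.mk (w.toWord.take j) = FreeGroup.mk (w.toWord.take i) *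
          FreeGroup.mk ((w.toWord.drop i).take (j - i)) := by
        rw [FreeGroup.mul_mk, ← List.take_add, Nat.add_sub_cancel' hij]
      show (v i)⁻¹ * ψ (FreeGroup.mk (w.toWord.take j)) = _
      rw [h2, map_mul, inv_mul_cancel_left]
    rw [h1]
    refine (len_le ψ hψ _).trans (FreeGroup.norm_mk_le.trans ?_)
    rw [List.length_take]
    exact min_le_left _ _
  have hup2 : ∀ i, len ψ hψ (v i) ≤ ℓ - i := by
    intro i
    rw [← len_inv, ← hdv]
    exact (len_le ψ hψ _).trans (hnd i)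
  -- the loop is isometrically embedded
  have hiso : ∀ i j, i ≤ j → j ≤ ℓ → j - i ≤ len ψ hψ ((v i)⁻¹ * v j) ∨
      ℓ - (j - i) ≤ len ψ hψ ((v i)⁻¹ * v j) := by
    intro i j hij hjℓ
    by_contra hcon
    push Not at hcon
    obtain ⟨hc1, hc2⟩ := hcon
    obtain ⟨x, hx, hx2⟩ := exists_len_eq ψ hψ ((v i)⁻¹ * v j)
    rw [← hx2] at hc1 hc2
    set w₁ := FreeGroup.mk (w.toWord.take i)
    set w₂ := FreeGroup.mk ((w.toWord.drop i).take (j - i))
    set w₃ := FreeGroup.mk (w.toWord.drop j)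
    have h12 : w₁ * w₂ = FreeGroup.mk (w.toWord.take j) := by
      rw [FreeGroup.mul_mk, ← List.take_add, Nat.add_sub_cancel' hij]
    have h123 : w₁ * w₂ * w₃ = w := by rw [h12, hsplit]
    have hψ12 : v i * ψ w₂ = v j := by
      show ψ w₁ * ψ w₂ = _
      rw [← map_mul, h12]
    have hn1 : w₁.norm ≤ i := hnt i
    have hn2 : w₂.norm ≤ j - i := FreeGroup.norm_mk_le.trans (by
      rw [List.length_take]
      exact min_le_left _ _)
    have hn3 : w₃.norm ≤ ℓ - j := hnd j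
    have hE1 : w₂ * x⁻¹ ∈ E := by
      apply ih (w₂ * x⁻¹).norm _ _ _ rfl
      · have h1 := FreeGroup.norm_mul_le w₂ x⁻¹
        rw [FreeGroup.norm_inv_eq] at h1
        omega
      · rw [map_mul, map_inv, hx, ← hψ12]
        group
    have hE2 : w₁ * x * w₃ ∈ E := by
      apply ih (w₁ * x * w₃).norm _ _ _ rfl
      · have h1 := FreeGroup.norm_mul_le (w₁ * x) w₃
        have h2 := FreeGroup.norm_mul_le w₁ x
        omega
      · rw [map_mul, map_mul, hx, hdv]
        show v i * ((v i)⁻¹ * v j) * (v j)⁻¹ = 1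
        group
    apply hwE
    have h1 : w = (w₁ * (w₂ * x⁻¹) * w₁⁻¹) * (w₁ * x * w₃) := by
      rw [← h123]
      group
    rw [h1]
    exact E.mul_mem (hEn.conj_mem _ hE1 _) hE2
  -- the two distance functions
  let m : ℕ := ℓ / 4
  have hm4 : 4 * m ≤ ℓ := Nat.mul_div_le ℓ 4
  have hm4' : ℓ ≤ 4 * m + 3 := by omega
  have hm8 : 8 ≤ m := by omega
  let f : L → ℤ := fun g => len ψ hψ g
  let h : L → ℤ := fun g => len ψ hψ ((v m)⁻¹ * g)
  have hf : ∀ g s, |f (g * ψ (FreeGroup.of s)) - f g| ≤ 1 := by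
    intro g s
    have h1 := len_lipschitz ψ hψ 1 g s
    rwa [one_mul, one_mul] at h1
  have hh : ∀ g s, |h (g * ψ (FreeGroup.of s)) - h g| ≤ 1 := by
    intro g s
    exact len_lipschitz ψ hψ _ g s
  have hstep : ∀ (F : L → ℤ), (∀ g s, |F (g * ψ (FreeGroup.of s)) - F g| ≤ 1) → ∀ i < ℓ,
      |F (v (i + 1)) - F (v i)| ≤ 1 := by
    intro F hF i hi
    have hi' : i < w.toWord.length := by rw [hlen]; exact hi
    have h1 : v (i + 1) = v i * ψ (FreeGroup.mk [w.toWord[i]]) := by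
      show ψ (FreeGroup.mk (w.toWord.take (i + 1))) = _
      rw [← List.take_append_getElem hi', ← FreeGroup.mul_mk, map_mul]
    rw [h1]
    exact lip_letter ψ F hF _ _
  have hfup1 : ∀ i, f (v i) ≤ i := by
    intro i
    have h1 := hup1 0 i (Nat.zero_le i)
    rw [hv0, inv_one, one_mul, Nat.sub_zero] at h1
    show ((len ψ hψ (v i) : ℕ) : ℤ) ≤ i
    exact_mod_cast h1
  have hfup2 : ∀ i ≤ ℓ, f (v i) ≤ (ℓ : ℤ) - i := by
    intro i hi
    have h1 := hup2 i
    show ((len ψ hψ (v i) : ℕ) : ℤ) ≤ (ℓ : ℤ) - i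
    omega
  have hflow : ∀ i, m ≤ i → i ≤ 3 * m → (m : ℤ) ≤ f (v i) := by
    intro i h1 h2
    have h3 := hiso 0 i (Nat.zero_le i) (by omega)
    rw [hv0, inv_one, one_mul, Nat.sub_zero] at h3
    show (m : ℤ) ≤ ((len ψ hψ (v i) : ℕ) : ℤ)
    omega
  have hhval : ∀ i, m ≤ i → i ≤ 3 * m → h (v i) = (i : ℤ) - m := by
    intro i h1 h2
    have h3 := hiso m i h1 (by omega)
    have h4 := hup1 m i h1
    show ((len ψ hψ ((v m)⁻¹ * v i) : ℕ) : ℤ) = (i : ℤ) - m
    omega
  have hfnn : ∀ g, 0 ≤ f g := fun g => Int.natCast_nonneg _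
  -- the area of the loop
  have hS := area_pathChain ψ f h 1 w.toWord
  rw [hlen] at hS
  simp only [one_mul] at hS
  have hlow : (m : ℤ) ^ 2 ≤ area ψ f h (pathChain ψ 1 w.toWord) := by
    rw [hS]
    apply sum_lower ℓ m hm8 hm4 hm4'
    · intro i hi
      have h1 := hstep h hh i (by omega)
      have h2 := hfup1 i
      have h3 := hfup1 (i + 1)
      push_cast at h3
      have h4 := hfnn (v i)
      have h5 := hfnn (v (i + 1))
      rw [abs_le] at h1
      show -(2 * (i : ℤ) + 1) ≤ (f (v i) + f (v (i + 1))) * (h (v (i + 1)) - h (v i))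
      nlinarith [h1.1, h1.2]
    · intro i hi hi2
      have h1 := hhval i hi (by omega)
      have h2 := hhval (i + 1) (by omega) (by omega)
      have h3 := hflow i hi (by omega)
      have h4 := hflow (i + 1) (by omega) (by omega)
      show 2 * (m : ℤ) ≤ (f (v i) + f (v (i + 1))) * (h (v (i + 1)) - h (v i))
      rw [h1, h2]
      push_cast
      have h5 : (i : ℤ) + 1 - m - (i - m) = 1 := by ring
      rw [h5, mul_one]
      linarith
    · intro i hi hi2
      have h1 := hstep h hh i hi2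
      have h2 := hfup2 i hi2.le
      have h3 := hfup2 (i + 1) hi2
      push_cast at h3
      have h4 := hfnn (v i)
      have h5 := hfnn (v (i + 1))
      rw [abs_le] at h1
      show -(2 * ((ℓ : ℤ) - i) - 1) ≤ (f (v i) + f (v (i + 1))) * (h (v (i + 1)) - h (v i))
      nlinarith [h1.1, h1.2]
  obtain ⟨c, hc, hc2⟩ := hℓ₀ w hw (by rw [hwℓ]; exact hℓℓ₀)
  have h1 : fch ψ 1 w = pathChain ψ 1 w.toWord := by
    rw [← fch_mk, FreeGroup.mk_toWord]
  rw [← h1, ← hc] at hlow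
  have h2 := hlow.trans (area_bd_le ψ f h hf hh nn hnn D hD c)
  have h3 : ((m : ℝ)) ^ 2 ≤ ((∑ p ∈ c.support, |c p| : ℤ) : ℝ) * (D : ℝ) ^ 2 := by
    exact_mod_cast h2
  rw [hwℓ] at hc2
  have h4 : ((∑ p ∈ c.support, |c p| : ℤ) : ℝ) * (D : ℝ) ^ 2 ≤
      1 / (50 * ((D : ℝ) ^ 2 + 1)) * (ℓ : ℝ) ^ 2 * (D : ℝ) ^ 2 :=
    mul_le_mul_of_nonneg_right hc2 (by positivity)
  have h5 : 1 / (50 * ((D : ℝ) ^ 2 + 1)) * (ℓ : ℝ) ^ 2 * (D : ℝ) ^ 2 ≤ (ℓ : ℝ) ^ 2 / 50 := by
    have h6 : (D : ℝ) ^ 2 / ((D : ℝ) ^ 2 + 1) ≤ 1 := by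
      rw [div_le_one (by positivity)]
      linarith
    have h7 : 1 / (50 * ((D : ℝ) ^ 2 + 1)) * (ℓ : ℝ) ^ 2 * (D : ℝ) ^ 2 =
        (ℓ : ℝ) ^ 2 / 50 * ((D : ℝ) ^ 2 / ((D : ℝ) ^ 2 + 1)) := by
      field_simp
    rw [h7]
    exact mul_le_of_le_one_right (by positivity) h6
  have h6 : (ℓ : ℝ) ≤ 5 * m := by
    have : ℓ ≤ 5 * m := by omega
    exact_mod_cast this
  have h7 : (ℓ : ℝ) ^ 2 ≤ 25 * (m : ℝ) ^ 2 := by
    nlinarith [h6, (Nat.cast_nonneg ℓ : (0 : ℝ) ≤ ℓ)]
  have h8 : (8 : ℝ) ≤ m := by exact_mod_cast hm8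
  nlinarith

end Pool.Agent.L2Coh
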