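import Pool.Agent.L2Coh.Op

/-!
# Operators on `ℓ²` of a left ordered group with a lowest coefficient are injective
-/

namespace Pool.Agent.L2Coh

open scoped InnerProductSpace

/-- Left translation on `ℓ²(H)`. -/
noncomputable def lt {H : Type*} [Group H] (h : H) : L2 H →L[ℝ] L2 H := perm (Equiv.mulLeft h)

lemma lt_apply {H : Type*} [Group H] (h g : H) (x : L2 H) : (lt h x) g = x (h⁻¹ * g) := rfl

lemma lt_dl {H : Type*} [Group H] (h g : H) : lt h (dl g) = dl (h * g) := perm_dl _ _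

lemma lt_lt {H : Type*} [Group H] (h g : H) (x : L2 H) : lt h (lt g x) = lt (h * g) x := by
  ext z
  simp only [lt_apply]
  group

lemma lt_one {H : Type*} [Group H] (x : L2 H) : lt 1 x = x := by
  ext z
  simp [lt_apply]

lemma inner_lt {H : Type*} [Group H] (h : H) (x y : L2 H) : ⟪lt h x, lt h y⟫_ℝ = ⟪x, y⟫_ℝ :=
  inner_perm _ _ _

lemma inner_lt_left {H : Type*} [Group H] (h : H) (x y : L2 H) :
    ⟪lt h x, y⟫_ℝ = ⟪x, lt h⁻¹ y⟫_ℝ := by
  rw [← inner_lt h x (lt h⁻¹ y), lt_lt, mul_inv_cancel, lt_one]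

theorem inj_of_lowest {H : Type*} [Group H] [LinearOrder H]
    (hmul : ∀ a b c : H, b < c → a * b < a * c) (T : L2 H →L[ℝ] L2 H)
    (hT : ∀ h x, T (lt h x) = lt h (T x)) (h1 : (T (dl 1)) 1 ≠ 0)
    (hlow : ∀ y, 1 < y → (T (dl y)) 1 = 0) (x : L2 H) (hx : T x = 0) : x = 0 := by
  -- the kernel and its orthogonal projection
  let K : Submodule ℝ (L2 H) := LinearMap.ker (T : L2 H →ₗ[ℝ] L2 H)
  have hKcl : IsClosed (K : Set (L2 H)) := T.isClosed_ker
  have : CompleteSpace K := hKcl.completeSpace_coe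
  have hKmem : ∀ v, v ∈ K ↔ T v = 0 := fun v => Iff.rfl
  have hKinv : ∀ h v, v ∈ K → lt h v ∈ K := by
    intro h v hv
    rw [hKmem] at hv ⊢
    rw [hT, hv, map_zero]
  have hKo : ∀ h v, v ∈ Kᗮ → lt h v ∈ Kᗮ := by
    intro h v hv
    rw [Submodule.mem_orthogonal'] at hv ⊢
    intro u hu
    rw [inner_lt_left]
    exact hv _ (hKinv _ _ hu)
  set ξ : L2 H := dl 1 - K.starProjection (dl 1) with hξ
  have hξK : ξ ∈ Kᗮ := K.sub_starProjection_mem_orthogonal (dl 1)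
  have hPK : K.starProjection (dl 1) ∈ K := K.starProjection_apply_mem _
  have hTξ : T ξ = T (dl 1) := by
    rw [hξ, map_sub, (hKmem _).1 hPK, sub_zero]
  -- the functional
  have hTy : ∀ y, (T (lt y ξ)) 1 = (T (dl y)) 1 := by
    intro y
    rw [hT, hTξ, ← hT, lt_dl, mul_one]
  let ℓ : L2 H →L[ℝ] ℝ := (innerSL ℝ (dl 1 : L2 H)).comp T
  have hℓ : ∀ v, ℓ v = (T v) 1 := by
    intro v
    show ⟪(dl 1 : L2 H), T v⟫_ℝ = _
    rw [inner_dl']
  -- the future
  let M : Submodule ℝ (L2 H) :=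
    (Submodule.span ℝ ((fun y => lt y ξ) '' {y : H | 1 < y})).topologicalClosure
  have hMcl : IsClosed (M : Set (L2 H)) := Submodule.isClosed_topologicalClosure _
  have : CompleteSpace M := hMcl.completeSpace_coe
  have hMgen : ∀ y, 1 < y → lt y ξ ∈ M := by
    intro y hy
    exact Submodule.le_topologicalClosure _ (Submodule.subset_span ⟨y, hy, rfl⟩)
  have hMmin : ∀ N : Submodule ℝ (L2 H), IsClosed (N : Set (L2 H)) →
      (∀ y, 1 < y → lt y ξ ∈ N) → M ≤ N := by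
    intro N hN h
    apply Submodule.topologicalClosure_minimal _ _ hN
    rw [Submodule.span_le]
    rintro _ ⟨y, hy, rfl⟩
    exact h y hy
  have hMℓ : ∀ v ∈ M, ℓ v = 0 := by
    intro v hv
    have := hMmin (LinearMap.ker (ℓ : L2 H →ₗ[ℝ] ℝ)) ℓ.isClosed_ker (by
      intro y hy
      show ℓ (lt y ξ) = 0
      rw [hℓ, hTy, hlow y hy])
    exact this hv
  have hMK : M ≤ Kᗮ := by
    apply hMmin _ (Submodule.isClosed_orthogonal K)
    intro y _
    exact hKo y _ hξK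
  have hMinv : ∀ y, 1 < y → ∀ v ∈ M, lt y v ∈ M := by
    intro y hy v hv
    have hcl : IsClosed ((M.comap (lt y : L2 H →ₗ[ℝ] L2 H) : Submodule ℝ (L2 H)) : Set (L2 H)) := by
      show IsClosed ((fun v => lt y v) ⁻¹' (M : Set (L2 H)))
      exact hMcl.preimage (lt y).continuous
    have := hMmin _ hcl (by
      intro z hz
      show lt y (lt z ξ) ∈ M
      rw [lt_lt]
      apply hMgen
      have h2 := hmul y 1 z hz
      rw [mul_one] at h2
      exact hy.trans h2)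
    exact this hv
  set η : L2 H := ξ - M.starProjection ξ with hη
  have hηM : η ∈ Mᗮ := M.sub_starProjection_mem_orthogonal ξ
  have hPM : M.starProjection ξ ∈ M := M.starProjection_apply_mem _
  have hηK : η ∈ Kᗮ := Submodule.sub_mem _ hξK (hMK hPM)
  have hη0 : η ≠ 0 := by
    intro h0
    have h2 : ξ ∈ M := by
      have : ξ = M.starProjection ξ := by
        rw [hη] at h0
        exact sub_eq_zero.1 h0
      rw [this]
      exact hPM
    have h3 := hMℓ ξ h2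
    rw [hℓ, hTξ] at h3
    exact h1 h3
  have hηy : ∀ y, 1 < y → lt y η ∈ M := by
    intro y hy
    rw [hη, map_sub]
    exact Submodule.sub_mem _ (hMgen y hy) (hMinv y hy _ hPM)
  have horth1 : ∀ y, 1 < y → ⟪η, lt y η⟫_ℝ = 0 := by
    intro y hy
    rw [Submodule.mem_orthogonal'] at hηM
    exact hηM _ (hηy y hy)
  have horth2 : ∀ h k : H, h < k → ⟪lt h η, lt k η⟫_ℝ = 0 := by
    intro h k hk
    rw [inner_lt_left, lt_lt]
    apply horth1
    have := hmul h⁻¹ h k hk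
    rwa [inv_mul_cancel] at this
  have hnη : 0 < ‖η‖ := norm_pos_iff.2 hη0
  have hON : Orthonormal ℝ (fun h : H => ‖η‖⁻¹ • lt h η) := by
    constructor
    · intro h
      rw [norm_smul, norm_inv, norm_norm]
      have : ‖lt h η‖ = ‖η‖ := norm_perm _ _
      rw [this, inv_mul_cancel₀ hnη.ne']
    · intro h k hk
      show ⟪‖η‖⁻¹ • lt h η, ‖η‖⁻¹ • lt k η⟫_ℝ = 0
      rw [real_inner_smul_left, real_inner_smul_right]
      rcases lt_or_gt_of_ne hk with h' | h'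
      · rw [horth2 h k h']; simp
      · rw [real_inner_comm, horth2 k h h']; simp
  -- Bessel
  have hB : ∀ s : Finset H, ∑ h ∈ s, (η h⁻¹) ^ 2 ≤ ‖η‖ ^ 2 * ‖ξ‖ ^ 2 := by
    intro s
    have hb := hON.sum_inner_products_le (x := ξ) (s := s)
    have hc : ∀ h ∈ s, ‖⟪‖η‖⁻¹ • lt h η, ξ⟫_ℝ‖ ^ 2 = (‖η‖ ^ 2)⁻¹ * (η h⁻¹) ^ 2 := by
      intro h _
      rw [real_inner_smul_left]
      have h2 : ⟪lt h η, ξ⟫_ℝ = η h⁻¹ := by
        have h3 : ⟪lt h η, K.starProjection (dl 1)⟫_ℝ = 0 := by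
          have := hKo h _ hηK
          rw [Submodule.mem_orthogonal'] at this
          exact this _ hPK
        rw [hξ, inner_sub_right, h3, sub_zero, inner_dl, lt_apply, mul_one]
      rw [h2, norm_mul, mul_pow, norm_inv, norm_norm, inv_pow, Real.norm_eq_abs, sq_abs]
    rw [Finset.sum_congr rfl hc, ← Finset.mul_sum] at hb
    have h4 : 0 < ‖η‖ ^ 2 := by positivity
    rw [inv_mul_le_iff₀ h4] at hb
    exact hb
  have hP : ‖η‖ ^ 2 ≤ ‖η‖ ^ 2 * ‖ξ‖ ^ 2 := by
    have hs := hasSum_sq η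
    have hs' : HasSum (fun h : H => (η h⁻¹) ^ 2) (‖η‖ ^ 2) :=
      (Equiv.hasSum_iff (Equiv.inv H)).2 hs
    exact hasSum_le_of_sum_le hs' hB
  have hξ1 : 1 ≤ ‖ξ‖ ^ 2 := by
    have h4 : 0 < ‖η‖ ^ 2 := by positivity
    by_contra hcon
    push Not at hcon
    nlinarith
  have hξeq : ξ = dl 1 := by
    have h5 : ‖(dl 1 : L2 H) - ξ‖ ^ 2 = 1 - ‖ξ‖ ^ 2 := by
      have h6 : (dl 1 : L2 H) - ξ = K.starProjection (dl 1) := by rw [hξ]; abel
      have h7 : ⟪(dl 1 : L2 H), ξ⟫_ℝ = ‖ξ‖ ^ 2 := by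
        have h8 : ⟪(dl 1 : L2 H) - ξ, ξ⟫_ℝ = 0 := by
          rw [h6]
          rw [Submodule.mem_orthogonal] at hξK
          exact hξK _ hPK
        rw [inner_sub_left, real_inner_self_eq_norm_sq] at h8
        linarith
      rw [norm_sub_sq_real, h7, norm_dl]
      ring
    have h9 : ‖(dl 1 : L2 H) - ξ‖ ^ 2 ≤ 0 := by rw [h5]; linarith
    have h10 : ‖(dl 1 : L2 H) - ξ‖ = 0 := by
      have := sq_nonneg ‖(dl 1 : L2 H) - ξ‖
      exact pow_eq_zero_iff (two_ne_zero) |>.1 (le_antisymm h9 this)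
    exact (sub_eq_zero.1 (norm_eq_zero.1 h10)).symm
  rw [hξeq] at hξK
  ext h
  have h11 : lt h⁻¹ x ∈ K := hKinv _ _ ((hKmem x).2 hx)
  rw [Submodule.mem_orthogonal] at hξK
  have h12 := hξK _ h11
  rw [inner_dl, lt_apply, inv_inv, mul_one] at h12
  simpa using h12

end Pool.Agent.L2Coh
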