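import Mathlib

/-!
# Integral matrices over group rings on finite `G`-sets

Universe polymorphic copy of parts of `Pool.Agent.LuA` (helper47).
-/

namespace Pool.Agent.L2Coh

universe v

/-- the integer matrix of `A` on the finite `G`-set `X` -/
noncomputable def lev {G : Type*} [Group G] (X : Type*) [MulAction G X] [DecidableEq X] {m n : ℕ}
    (A : Matrix (Fin m) (Fin n) (MonoidAlgebra ℤ G)) : Matrix (Fin m × X) (Fin n × X) ℤ :=
  fun i j => (A i.1 j.1).coeff.sum fun g c => if g • j.2 = i.2 then c else 0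

/-- the adjoint matrix -/
noncomputable def adj {G : Type*} [Group G] {m n : ℕ}
    (A : Matrix (Fin m) (Fin n) (MonoidAlgebra ℤ G)) :
    Matrix (Fin n) (Fin m) (MonoidAlgebra ℤ G) :=
  fun i j => (A j i).mapDomain fun g => g⁻¹

theorem rank_map_sq {K L : Type*} [Field K] [Field L] (f : K →+* L) {ι : Type*} [Fintype ι]
    [DecidableEq ι] (M : Matrix ι ι K) : (M.map f).rank = M.rank := by
  classical
  obtain ⟨L1, L2, D, h⟩ := Matrix.Pivot.exists_list_transvec_mul_mul_list_transvec_eq_diagonal M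
  set U := (L1.map Matrix.TransvectionStruct.toMatrix).prod with hU
  set V := (L2.map Matrix.TransvectionStruct.toMatrix).prod with hV
  have hdU : U.det = 1 := Matrix.TransvectionStruct.det_toMatrix_prod L1
  have hdV : V.det = 1 := Matrix.TransvectionStruct.det_toMatrix_prod L2
  have h1 : (U * M * V).rank = M.rank := by
    rw [Matrix.rank_mul_eq_left_of_isUnit_det, Matrix.rank_mul_eq_right_of_isUnit_det]
    · rw [hdU]; exact isUnit_one
    · rw [hdV]; exact isUnit_one
  have h2 : ((U * M * V).map f).rank = (M.map f).rank := by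
    rw [Matrix.map_mul, Matrix.map_mul, Matrix.rank_mul_eq_left_of_isUnit_det,
      Matrix.rank_mul_eq_right_of_isUnit_det]
    · have : (U.map f).det = f U.det := by rw [RingHom.map_det]; rfl
      rw [this, hdU, map_one]; exact isUnit_one
    · have : (V.map f).det = f V.det := by rw [RingHom.map_det]; rfl
      rw [this, hdV, map_one]; exact isUnit_one
  rw [← h2, ← h1, h, Matrix.diagonal_map (map_zero f), Matrix.rank_diagonal, Matrix.rank_diagonal]
  apply Fintype.card_congr
  refine Equiv.subtypeEquivRight ?_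
  intro i
  simp

variable {G : Type*} [Group G] (X : Type*) [MulAction G X] [Fintype X] [DecidableEq X]

omit [Fintype X] in
noncomputable def Lev_ev (x y : X) : MonoidAlgebra ℤ G →+ ℤ where
  toFun a := a.coeff.sum fun g c => if g • y = x then c else 0
  map_zero' := by simp
  map_add' a b := by
    rw [MonoidAlgebra.coeff_add]
    exact Finsupp.sum_add_index' (by simp) (by intros; split_ifs <;> simp)

omit [Fintype X] in
theorem Lev_single (x y : X) (g : G) (c : ℤ) :
    Lev_ev X x y (MonoidAlgebra.single g c) = if g • y = x then c else 0 := by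
  change (MonoidAlgebra.single g c).coeff.sum (fun g c => if g • y = x then c else 0) = _
  rw [MonoidAlgebra.coeff_single, Finsupp.sum_single_index]
  simp

omit [Fintype X] in
theorem Lev_apply {m n : ℕ} (A : Matrix (Fin m) (Fin n) (MonoidAlgebra ℤ G))
    (i : Fin m × X) (j : Fin n × X) : lev X A i j = Lev_ev X i.2 j.2 (A i.1 j.1) := rfl

theorem Lev_ev_mul (x z : X) (a b : MonoidAlgebra ℤ G) :
    Lev_ev X x z (a * b) = ∑ y, Lev_ev X x y a * Lev_ev X y z b := by
  induction a using MonoidAlgebra.induction_linear with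
  | zero => simp
  | add a a' ha ha' =>
    rw [add_mul, map_add, ha, ha', ← Finset.sum_add_distrib]
    refine Finset.sum_congr rfl (fun y _ => ?_)
    rw [map_add, add_mul]
  | single g c =>
    induction b using MonoidAlgebra.induction_linear with
    | zero => simp
    | add b b' hb hb' =>
      rw [mul_add, map_add, hb, hb', ← Finset.sum_add_distrib]
      refine Finset.sum_congr rfl (fun y _ => ?_)
      rw [map_add, mul_add]
    | single h d =>
      rw [MonoidAlgebra.single_mul_single, Lev_single, Finset.sum_eq_single (h • z)]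
      · rw [Lev_single, Lev_single, if_pos rfl, mul_smul]
        split_ifs <;> simp
      · intro y _ hy
        rw [Lev_single X y z h d, if_neg (fun h1 => hy h1.symm), mul_zero]
      · intro h1
        exact absurd (Finset.mem_univ _) h1

theorem lev_mul {l m n : ℕ} (A : Matrix (Fin l) (Fin m) (MonoidAlgebra ℤ G))
    (B : Matrix (Fin m) (Fin n) (MonoidAlgebra ℤ G)) : lev X (A * B) = lev X A * lev X B := by
  ext i j
  rw [Lev_apply, Matrix.mul_apply, Matrix.mul_apply, map_sum, Fintype.sum_prod_type]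
  refine Finset.sum_congr rfl (fun k _ => ?_)
  rw [Lev_ev_mul]
  rfl

omit [Fintype X] in
theorem lev_add {m n : ℕ} (A B : Matrix (Fin m) (Fin n) (MonoidAlgebra ℤ G)) :
    lev X (A + B) = lev X A + lev X B := by
  ext i j
  rw [Lev_apply, Matrix.add_apply, Matrix.add_apply, map_add]
  rfl

omit [Fintype X] in
theorem lev_smul {m n : ℕ} (c : ℤ) (A : Matrix (Fin m) (Fin n) (MonoidAlgebra ℤ G)) :
    lev X (c • A) = c • lev X A := by
  ext i j
  rw [Lev_apply, Matrix.smul_apply, Matrix.smul_apply, map_zsmul]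
  rfl

omit [Fintype X] in
theorem lev_one {n : ℕ} : lev X (1 : Matrix (Fin n) (Fin n) (MonoidAlgebra ℤ G)) = 1 := by
  ext i j
  rw [Lev_apply]
  by_cases hij : i.1 = j.1
  · rw [hij, Matrix.one_apply_eq, MonoidAlgebra.one_def, Lev_single, one_smul]
    by_cases hij2 : j.2 = i.2
    · have : i = j := Prod.ext hij hij2.symm
      rw [this]
      simp
    · have : i ≠ j := fun h => hij2 (by rw [h])
      rw [Matrix.one_apply_ne this, if_neg hij2]
  · have : i ≠ j := fun h => hij (by rw [h])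
    rw [Matrix.one_apply_ne this, Matrix.one_apply_ne hij, map_zero]

omit [Fintype X] in
theorem Lev_inv (x y : X) (a : MonoidAlgebra ℤ G) :
    Lev_ev X x y (a.mapDomain fun g => g⁻¹) = Lev_ev X y x a := by
  induction a using MonoidAlgebra.induction_linear with
  | zero => simp
  | add a a' ha ha' =>
    rw [MonoidAlgebra.mapDomain_add, map_add, map_add, ha, ha']
  | single g c =>
    rw [MonoidAlgebra.mapDomain_single, Lev_single, Lev_single]
    congr 1
    rw [inv_smul_eq_iff]
    exact propext eq_comm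

omit [Fintype X] in
theorem lev_adj {m n : ℕ} (A : Matrix (Fin m) (Fin n) (MonoidAlgebra ℤ G)) :
    lev X (adj A) = (lev X A).transpose := by
  ext i j
  rw [Lev_apply, Matrix.transpose_apply, Lev_apply]
  exact Lev_inv X _ _ _

theorem exists_row_bound {m n : ℕ} (A : Matrix (Fin m) (Fin n) (MonoidAlgebra ℤ G)) :
    ∃ K : ℝ, 1 ≤ K ∧ ∀ (Y : Type v) [MulAction G Y] [Fintype Y] [DecidableEq Y],
      ∀ i, ∑ j, |(lev Y A i j : ℝ)| ≤ K := by
  refine ⟨1 + ∑ i, ∑ j, ∑ g ∈ (A i j).coeff.support, |((A i j).coeff g : ℝ)|, ?_, ?_⟩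
  · have : (0 : ℝ) ≤ ∑ i, ∑ j, ∑ g ∈ (A i j).coeff.support, |((A i j).coeff g : ℝ)| :=
      Finset.sum_nonneg fun i _ => Finset.sum_nonneg fun j _ => Finset.sum_nonneg fun g _ =>
        abs_nonneg _
    linarith
  · intro Y _ _ _ i
    have h1 : ∑ j, |(lev Y A i j : ℝ)| ≤
        ∑ j, ∑ g ∈ (A i.1 j).coeff.support, |((A i.1 j).coeff g : ℝ)| := by
      rw [Fintype.sum_prod_type]
      refine Finset.sum_le_sum (fun j _ => ?_)
      have h2 : ∀ y : Y, |(lev Y A i (j, y) : ℝ)| ≤ ∑ g ∈ (A i.1 j).coeff.support,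
          if g • y = i.2 then |((A i.1 j).coeff g : ℝ)| else 0 := by
        intro y
        have h3 : (lev Y A i (j, y) : ℝ) = ∑ g ∈ (A i.1 j).coeff.support,
            if g • y = i.2 then ((A i.1 j).coeff g : ℝ) else 0 := by
          unfold lev
          rw [Finsupp.sum]
          push_cast
          rfl
        rw [h3]
        refine (Finset.abs_sum_le_sum_abs _ _).trans (Finset.sum_le_sum (fun g _ => ?_))
        split_ifs <;> simp
      refine (Finset.sum_le_sum (fun y _ => h2 y)).trans ?_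
      rw [Finset.sum_comm]
      refine Finset.sum_le_sum (fun g _ => ?_)
      rw [Finset.sum_eq_single (g⁻¹ • i.2)]
      · rw [if_pos (smul_inv_smul g i.2)]
      · intro y _ hy
        rw [if_neg]
        intro h4
        exact hy (by rw [← h4, inv_smul_smul])
      · intro h4
        exact absurd (Finset.mem_univ _) h4
    have h5 : ∑ j, ∑ g ∈ (A i.1 j).coeff.support, |((A i.1 j).coeff g : ℝ)| ≤
        ∑ i, ∑ j, ∑ g ∈ (A i j).coeff.support, |((A i j).coeff g : ℝ)| := by
      refine Finset.single_le_sum (f := fun i => ∑ j, ∑ g ∈ (A i j).coeff.support,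
        |((A i j).coeff g : ℝ)|) (fun i _ => ?_) (Finset.mem_univ i.1)
      exact Finset.sum_nonneg fun j _ => Finset.sum_nonneg fun g _ => abs_nonneg _
    linarith

/-- the traces stabilise along a sequence of normal subgroups avoiding all nontrivial elements -/
theorem trace_lev {n : ℕ} (C : Matrix (Fin n) (Fin n) (MonoidAlgebra ℤ G)) (D : Subgroup G)
    (hD : D.Normal) [Fintype (G ⧸ D)] [DecidableEq (G ⧸ D)]
    (h : ∀ i, ∀ g ∈ (C i i).coeff.support, g ≠ 1 → g ∉ D) :
    Matrix.trace (lev (G ⧸ D) C) = D.index * ∑ i, (C i i).coeff 1 := by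
  have hfix : ∀ (g : G) (x : G ⧸ D), g • x = x → g ∈ D := by
    intro g x hx
    induction x using QuotientGroup.induction_on with
    | H k =>
      have h3 : ((g * k : G) : G ⧸ D) = ((k : G) : G ⧸ D) := hx
      have h4 := (QuotientGroup.eq.1 h3.symm)
      have h5 := hD.conj_mem _ h4 k
      have h6 : k * (k⁻¹ * (g * k)) * k⁻¹ = g := by group
      rwa [h6] at h5
  have hentry : ∀ (i : Fin n) (x : G ⧸ D), lev (G ⧸ D) C (i, x) (i, x) = (C i i).coeff 1 := by
    intro i x
    change ((C i i).coeff.sum fun g c => if g • x = x then c else 0) = _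
    rw [Finsupp.sum]
    by_cases h1 : (1 : G) ∈ (C i i).coeff.support
    · rw [Finset.sum_eq_single_of_mem 1 h1]
      · rw [if_pos (one_smul G x)]
      · intro g hg hg1
        rw [if_neg]
        intro h2
        exact h i g hg hg1 (hfix g x h2)
    · rw [Finsupp.notMem_support_iff.1 h1]
      refine Finset.sum_eq_zero (fun g hg => ?_)
      have hg1 : g ≠ 1 := fun h2 => h1 (h2 ▸ hg)
      rw [if_neg]
      intro h2
      exact h i g hg hg1 (hfix g x h2)
  rw [Matrix.trace, Fintype.sum_prod_type]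
  simp only [Matrix.diag_apply, hentry]
  rw [Finset.mul_sum]
  refine Finset.sum_congr rfl (fun i _ => ?_)
  rw [Finset.sum_const, Finset.card_univ, nsmul_eq_mul, Subgroup.index_eq_card,
    Nat.card_eq_fintype_card]

theorem lev_pow' {n : ℕ}
    (C : Matrix (Fin n) (Fin n) (MonoidAlgebra ℤ G)) (m : ℕ) :
    lev X (C ^ m) = (lev X C) ^ m := by
  induction m with
  | zero => rw [pow_zero, pow_zero, lev_one]
  | succ k ih => rw [pow_succ, pow_succ, lev_mul, ih]

/-- the matrix `K - B` -/
noncomputable def CC {n : ℕ} (B : Matrix (Fin n) (Fin n) (MonoidAlgebra ℤ G)) (K : ℕ) :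
    Matrix (Fin n) (Fin n) (MonoidAlgebra ℤ G) :=
  (K : ℤ) • (1 : Matrix (Fin n) (Fin n) (MonoidAlgebra ℤ G)) + (-1 : ℤ) • B

/-- trace of powers -/
theorem tr_eq {n : ℕ} (B : Matrix (Fin n) (Fin n) (MonoidAlgebra ℤ G)) (K : ℕ) (hK : 1 ≤ K)
    (m : ℕ) (D : Subgroup G) (hD : D.Normal) [Fintype (G ⧸ D)] [DecidableEq (G ⧸ D)]
    (h : ∀ i, ∀ g ∈ ((CC B K ^ m) i i).coeff.support, g ≠ 1 → g ∉ D) :
    Matrix.trace ((1 - (K : ℝ)⁻¹ • (lev (G ⧸ D) B).map (fun x : ℤ => (x : ℝ))) ^ m) =
      D.index * (((K : ℝ) ^ m)⁻¹ * ((∑ i, ((CC B K ^ m) i i).coeff 1 : ℤ) : ℝ)) := by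
  have h0 := trace_lev (CC B K ^ m) D hD h
  rw [lev_pow', CC, lev_add, lev_smul, lev_smul, lev_one] at h0
  have hK0 : (K : ℝ) ≠ 0 := by positivity
  set M := lev (G ⧸ D) B with hM
  have h1 : (1 - (K : ℝ)⁻¹ • M.map (fun x : ℤ => (x : ℝ))) =
      (K : ℝ)⁻¹ • (((K : ℤ) • (1 : Matrix (Fin n × (G ⧸ D)) (Fin n × (G ⧸ D)) ℤ) +
        (-1 : ℤ) • M).map (fun x : ℤ => (x : ℝ))) := by
    ext i j
    simp only [Matrix.sub_apply, Matrix.smul_apply, Matrix.map_apply, Matrix.add_apply,
      smul_eq_mul, Matrix.one_apply]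
    split_ifs <;> push_cast <;> field_simp <;> ring
  rw [h1, smul_pow, Matrix.trace_smul]
  have h2 : ((((K : ℤ) • (1 : Matrix (Fin n × (G ⧸ D)) (Fin n × (G ⧸ D)) ℤ) +
        (-1 : ℤ) • M).map (fun x : ℤ => (x : ℝ))) ^ m) =
      (((((K : ℤ) • (1 : Matrix (Fin n × (G ⧸ D)) (Fin n × (G ⧸ D)) ℤ) +
        (-1 : ℤ) • M)) ^ m).map (fun x : ℤ => (x : ℝ))) := by
    have := (map_pow (RingHom.mapMatrix (Int.castRingHom ℝ)) ((K : ℤ) • (1 : Matrix (Fin n × (G ⧸ D)) (Fin n × (G ⧸ D)) ℤ) +
        (-1 : ℤ) • M) m).symm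
    exact this
  rw [h2]
  have h3 : Matrix.trace (((((K : ℤ) • (1 : Matrix (Fin n × (G ⧸ D)) (Fin n × (G ⧸ D)) ℤ) +
        (-1 : ℤ) • M)) ^ m).map (fun x : ℤ => (x : ℝ))) =
      ((Matrix.trace ((((K : ℤ) • (1 : Matrix (Fin n × (G ⧸ D)) (Fin n × (G ⧸ D)) ℤ) +
        (-1 : ℤ) • M)) ^ m) : ℤ) : ℝ) := by
    unfold Matrix.trace
    rw [Int.cast_sum]
    rfl
  rw [h3, h0, smul_eq_mul, inv_pow, Int.cast_mul, CC]
  push_cast
  ring


end Pool.Agent.L2Coh
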