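import Pool.Agent.L2Coh.Defs
import Pool.Agent.L2Coh.Inn
import Pool.Agent.L2Coh.Lev
import Pool.Agent.LuA.Spec
import Pool.Agent.LuA.Det
import Pool.Agent.CIR.PGrp

/-!
# Matrices over `ℤ[H]` which are injective after augmentation modulo `p` act injectively on `ℓ²(H)`
for residually finite `p`-groups `H`
-/

namespace Pool.Agent.L2Coh

open scoped InnerProductSpace

lemma ResiduallyP.exists_avoid {p : ℕ} (hp : p.Prime) {H : Type*} [Group H]
    (hH : ResiduallyP p H) (S : Finset H) :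
    ∃ N : Subgroup H, N.Normal ∧ (∃ k : ℕ, N.index = p ^ k) ∧ ∀ h ∈ S, h ≠ 1 → h ∉ N := by
  classical
  induction S using Finset.induction_on with
  | empty => exact ⟨⊤, inferInstance, ⟨0, by simp⟩, by simp⟩
  | insert a S _ ih =>
    obtain ⟨N1, hN1, ⟨k1, hk1⟩, h1⟩ := ih
    by_cases ha : a = 1
    · refine ⟨N1, hN1, ⟨k1, hk1⟩, ?_⟩
      intro h hh hne
      rcases Finset.mem_insert.1 hh with rfl | hh
      · exact absurd ha hne
      · exact h1 h hh hne
    · obtain ⟨N2, hN2, ⟨k2, hk2⟩, h2⟩ := hH a ha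
      refine ⟨N1 ⊓ N2, inferInstance, ?_, ?_⟩
      · have h3 : (N1 ⊓ N2).index ∣ p ^ (k1 + k2) := by
          rw [← Subgroup.relIndex_mul_index (inf_le_right : N1 ⊓ N2 ≤ N2),
            Subgroup.inf_relIndex_right, pow_add, ← hk1, ← hk2]
          exact Nat.mul_dvd_mul_right (Subgroup.relIndex_dvd_index_of_normal N1 N2) _
        obtain ⟨k, _, hk⟩ := (Nat.dvd_prime_pow hp).1 h3
        exact ⟨k, hk⟩
      · intro h hh hne hmem
        rcases Finset.mem_insert.1 hh with rfl | hh
        · exact h2 hmem.2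
        · exact h1 h hh hne hmem.1

/-- Left translations as a homomorphism. -/
noncomputable def ltHom (H : Type*) [Group H] : H →* (L2 H →L[ℝ] L2 H) where
  toFun := lt
  map_one' := by
    ext x
    rw [lt_one]
    rfl
  map_mul' := by
    intro a b
    apply ContinuousLinearMap.ext
    intro x
    exact (lt_lt a b x).symm

/-- The action of the integral group ring on `ℓ²(H)`. -/
noncomputable def UU (H : Type*) [Group H] : MonoidAlgebra ℤ H →+* (L2 H →L[ℝ] L2 H) :=
  (MonoidAlgebra.lift ℤ (L2 H →L[ℝ] L2 H) H (ltHom H)).toRingHom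

lemma UU_single {H : Type*} [Group H] (h : H) (c : ℤ) (x : L2 H) :
    UU H (MonoidAlgebra.single h c) x = (c : ℝ) • lt h x := by
  have h1 : UU H (MonoidAlgebra.single h c) = c • ltHom H h :=
    MonoidAlgebra.lift_single _ _ _
  rw [h1, Int.cast_smul_eq_zsmul]
  rfl

lemma UU_add {H : Type*} [Group H] (a b : MonoidAlgebra ℤ H) (x : L2 H) :
    UU H (a + b) x = UU H a x + UU H b x := by
  rw [map_add]
  rfl

lemma UU_apply {H : Type*} [Group H] (a : MonoidAlgebra ℤ H) (x : L2 H) (g : H) :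
    (UU H a x) g = a.coeff.sum (fun h c => (c : ℝ) * x (h⁻¹ * g)) := by
  induction a using MonoidAlgebra.induction_linear with
  | zero =>
    rw [map_zero]
    simp
  | add a b ha hb =>
    rw [UU_add, lp.coeFn_add, Pi.add_apply, ha, hb, MonoidAlgebra.coeff_add,
      Finsupp.sum_add_index']
    · intro h; simp
    · intro h c c'; push_cast; ring
  | single h c =>
    rw [UU_single, MonoidAlgebra.coeff_single, Finsupp.sum_single_index (by simp)]
    rfl

lemma inner_UU {H : Type*} [Group H] (a : MonoidAlgebra ℤ H) (x y : L2 H) :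
    ⟪UU H a x, y⟫_ℝ = ⟪x, UU H (a.mapDomain fun g => g⁻¹) y⟫_ℝ := by
  induction a using MonoidAlgebra.induction_linear with
  | zero => simp
  | add a b ha hb =>
    rw [UU_add, inner_add_left, ha, hb, MonoidAlgebra.mapDomain_add, UU_add, inner_add_right]
  | single h c =>
    rw [MonoidAlgebra.mapDomain_single, UU_single, UU_single, real_inner_smul_left,
      real_inner_smul_right, inner_lt_left]

/-- The action of a matrix. -/
noncomputable def MA {H : Type*} [Group H] {m n : ℕ}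
    (A : Matrix (Fin m) (Fin n) (MonoidAlgebra ℤ H)) (f : Fin n → L2 H) : Fin m → L2 H :=
  fun i => ∑ j, UU H (A i j) (f j)

lemma MA_mul {H : Type*} [Group H] {l m n : ℕ}
    (A : Matrix (Fin l) (Fin m) (MonoidAlgebra ℤ H))
    (B : Matrix (Fin m) (Fin n) (MonoidAlgebra ℤ H)) (f : Fin n → L2 H) :
    MA (A * B) f = MA A (MA B f) := by
  funext i
  unfold MA
  simp only [Matrix.mul_apply, map_sum, map_mul, sum_clm_apply]
  rw [Finset.sum_comm]
  apply Finset.sum_congr rfl
  intro j _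
  apply Finset.sum_congr rfl
  intro k _
  rfl

lemma MA_add {H : Type*} [Group H] {m n : ℕ}
    (A B : Matrix (Fin m) (Fin n) (MonoidAlgebra ℤ H)) (f : Fin n → L2 H) :
    MA (A + B) f = MA A f + MA B f := by
  funext i
  unfold MA
  rw [Pi.add_apply, ← Finset.sum_add_distrib]
  apply Finset.sum_congr rfl
  intro j _
  rw [Matrix.add_apply, UU_add]

lemma MA_zsmul {H : Type*} [Group H] {m n : ℕ} (c : ℤ)
    (A : Matrix (Fin m) (Fin n) (MonoidAlgebra ℤ H)) (f : Fin n → L2 H) :
    MA (c • A) f = (c : ℝ) • MA A f := by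
  funext i
  unfold MA
  rw [Pi.smul_apply, Finset.smul_sum]
  apply Finset.sum_congr rfl
  intro j _
  rw [Matrix.smul_apply, map_zsmul, Int.cast_smul_eq_zsmul]
  rfl

lemma MA_one {H : Type*} [Group H] {n : ℕ} (f : Fin n → L2 H) :
    MA (1 : Matrix (Fin n) (Fin n) (MonoidAlgebra ℤ H)) f = f := by
  funext i
  unfold MA
  rw [Finset.sum_eq_single i]
  · rw [Matrix.one_apply_eq, map_one]
    rfl
  · intro j _ hj
    rw [Matrix.one_apply_ne (Ne.symm hj), map_zero]
    rfl
  · intro h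
    exact absurd (Finset.mem_univ i) h

lemma MA_smul {H : Type*} [Group H] {m n : ℕ} (c : ℝ)
    (A : Matrix (Fin m) (Fin n) (MonoidAlgebra ℤ H)) (f : Fin n → L2 H) :
    MA A (c • f) = c • MA A f := by
  funext i
  unfold MA
  rw [Pi.smul_apply, Finset.smul_sum]
  apply Finset.sum_congr rfl
  intro j _
  rw [Pi.smul_apply, map_smul]

/-- The inner product of vectors. -/
noncomputable def ip {H : Type*} {n : ℕ} (f g : Fin n → L2 H) : ℝ := ∑ i, ⟪f i, g i⟫_ℝ

lemma ip_comm {H : Type*} {n : ℕ} (f g : Fin n → L2 H) : ip f g = ip g f := by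
  unfold ip
  apply Finset.sum_congr rfl
  intro i _
  exact real_inner_comm _ _

lemma ip_MA {H : Type*} [Group H] {m n : ℕ}
    (A : Matrix (Fin m) (Fin n) (MonoidAlgebra ℤ H)) (f : Fin n → L2 H) (g : Fin m → L2 H) :
    ip (MA A f) g = ip f (MA (adj A) g) := by
  unfold ip MA
  have h1 : ∀ i, ⟪∑ j, UU H (A i j) (f j), g i⟫_ℝ = ∑ j, ⟪UU H (A i j) (f j), g i⟫_ℝ :=
    fun i => sum_inner _ _ _
  have h2 : ∀ j, ⟪f j, ∑ i, UU H (adj A j i) (g i)⟫_ℝ = ∑ i, ⟪f j, UU H (adj A j i) (g i)⟫_ℝ :=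
    fun j => inner_sum _ _ _
  simp only [h1, h2]
  rw [Finset.sum_comm]
  apply Finset.sum_congr rfl
  intro j _
  apply Finset.sum_congr rfl
  intro i _
  exact inner_UU _ _ _

lemma ip_sq_le {H : Type*} {n : ℕ} (f g : Fin n → L2 H) : ip f g ^ 2 ≤ ip f f * ip g g := by
  have h1 : |ip f g| ≤ ∑ i, ‖f i‖ * ‖g i‖ := by
    unfold ip
    refine (Finset.abs_sum_le_sum_abs _ _).trans ?_
    apply Finset.sum_le_sum
    intro i _
    exact abs_real_inner_le_norm _ _
  have h2 := Finset.sum_mul_sq_le_sq_mul_sq Finset.univ (fun i => ‖f i‖) (fun i => ‖g i‖)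
  have h3 : ip f f = ∑ i, ‖f i‖ ^ 2 := by
    unfold ip
    apply Finset.sum_congr rfl
    intro i _
    exact real_inner_self_eq_norm_sq _
  have h4 : ip g g = ∑ i, ‖g i‖ ^ 2 := by
    unfold ip
    apply Finset.sum_congr rfl
    intro i _
    exact real_inner_self_eq_norm_sq _
  rw [h3, h4]
  refine le_trans ?_ h2
  rw [← sq_abs]
  exact pow_le_pow_left₀ (abs_nonneg _) h1 2

lemma ip_self_nonneg {H : Type*} {n : ℕ} (f : Fin n → L2 H) : 0 ≤ ip f f := by
  unfold ip
  apply Finset.sum_nonneg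
  intro i _
  rw [real_inner_self_eq_norm_sq]
  positivity

lemma ip_smul_left {H : Type*} {n : ℕ} (c : ℝ) (f g : Fin n → L2 H) :
    ip (c • f) g = c * ip f g := by
  unfold ip
  rw [Finset.mul_sum]
  apply Finset.sum_congr rfl
  intro i _
  rw [Pi.smul_apply, real_inner_smul_left]

lemma ip_add_left {H : Type*} {n : ℕ} (f f' g : Fin n → L2 H) :
    ip (f + f') g = ip f g + ip f' g := by
  unfold ip
  rw [← Finset.sum_add_distrib]
  apply Finset.sum_congr rfl
  intro i _
  rw [Pi.add_apply, inner_add_left]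

/-- The basis vectors. -/
noncomputable def dv {H : Type*} [Group H] {n : ℕ} (i : Fin n) : Fin n → L2 H :=
  Pi.single i (dl 1)

lemma ip_dv {H : Type*} [Group H] {n : ℕ} (f : Fin n → L2 H) (i : Fin n) :
    ip f (dv i) = (f i) 1 := by
  unfold ip dv
  rw [Finset.sum_eq_single i]
  · rw [Pi.single_eq_same, inner_dl]
  · intro j _ hj
    rw [Pi.single_eq_of_ne hj, inner_zero_right]
  · intro h
    exact absurd (Finset.mem_univ i) h

lemma MA_dv {H : Type*} [Group H] {n : ℕ}
    (C : Matrix (Fin n) (Fin n) (MonoidAlgebra ℤ H)) (i : Fin n) :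
    ip (MA C (dv i)) (dv i) = ((C i i).coeff 1 : ℝ) := by
  classical
  rw [ip_dv]
  unfold MA
  rw [Finset.sum_eq_single i]
  · unfold dv
    rw [Pi.single_eq_same, UU_apply]
    have : ∀ h c, ((c : ℤ) : ℝ) * (dl 1 : L2 H) (h⁻¹ * 1) = if h = 1 then (c : ℝ) else 0 := by
      intro h c
      rw [dl_apply, mul_one, inv_eq_one]
      split_ifs <;> simp
    simp only [this]
    rw [Finsupp.sum]
    rw [Finset.sum_ite_eq']
    split_ifs with h
    · rfl
    · rw [Finsupp.notMem_support_iff.1 h]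
      simp
  · intro j _ hj
    unfold dv
    rw [Pi.single_eq_of_ne hj, map_zero]
  · intro h
    exact absurd (Finset.mem_univ i) h

/-- Right translations. -/
noncomputable def rt {H : Type*} [Group H] (k : H) : L2 H →L[ℝ] L2 H :=
  perm (Equiv.mulRight k⁻¹)

lemma rt_apply {H : Type*} [Group H] (k g : H) (x : L2 H) : (rt k x) g = x (g * k) := by
  show x ((Equiv.mulRight k⁻¹).symm g) = _
  simp

lemma UU_rt {H : Type*} [Group H] (a : MonoidAlgebra ℤ H) (k : H) (x : L2 H) :
    UU H a (rt k x) = rt k (UU H a x) := by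
  ext g
  rw [rt_apply, UU_apply, UU_apply]
  apply Finsupp.sum_congr
  intro h _
  rw [rt_apply, mul_assoc]

/-- The augmentation. -/
def aug {H : Type*} [Group H] (a : MonoidAlgebra ℤ H) : ℤ := a.coeff.sum (fun _ c => c)

/-- The kernel of a matrix modulo `p` over a finite `p`-quotient. -/
lemma lev_inj {H : Type*} [Group H] {p : ℕ} [Fact p.Prime] {m n : ℕ}
    (A : Matrix (Fin m) (Fin n) (MonoidAlgebra ℤ H))
    (hA : ∀ v : Fin n → ZMod p, (∀ i, ∑ j, ((aug (A i j) : ℤ) : ZMod p) * v j = 0) → v = 0)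
    (D : Subgroup H) [D.Normal] {k : ℕ} (hk : D.index = p ^ k) [Fintype (H ⧸ D)]
    [DecidableEq (H ⧸ D)] :
    ((lev (H ⧸ D) A).map (fun x : ℤ => (x : ZMod p))).rank = n * D.index := by
  classical
  set M := (lev (H ⧸ D) A).map (fun x : ℤ => (x : ZMod p)) with hM
  have hcard : Fintype.card (H ⧸ D) = D.index := by
    rw [Subgroup.index_eq_card, Nat.card_eq_fintype_card]
  let V : Submodule (ZMod p) (Fin n × (H ⧸ D) → ZMod p) := LinearMap.ker M.mulVecLin
  have hVmem : ∀ f, f ∈ V ↔ M.mulVec f = 0 := fun f => Iff.rfl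
  -- right translations
  let R : (H ⧸ D) → ((Fin n × (H ⧸ D) → ZMod p) →ₗ[ZMod p] (Fin n × (H ⧸ D) → ZMod p)) :=
    fun q => LinearMap.funLeft (ZMod p) (ZMod p) (fun x : Fin n × (H ⧸ D) => (x.1, x.2 * q))
  have hR : ∀ q f j x, R q f (j, x) = f (j, x * q) := fun q f j x => rfl
  have hlev : ∀ (i : Fin m) (j : Fin n) (x y q : H ⧸ D),
      lev (H ⧸ D) A (i, x * q) (j, y * q) = lev (H ⧸ D) A (i, x) (j, y) := by
    intro i j x y q
    unfold lev
    apply Finsupp.sum_congr
    intro g _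
    have : (g • (y * q) = x * q) ↔ (g • y = x) := by
      have h1 : g • (y * q) = (g • y) * q := by
        show ((g : H) : H ⧸ D) * (y * q) = ((g : H ⧸ D) * y) * q
        rw [mul_assoc]
      rw [h1, mul_left_inj]
    simp only [this]
  have hRV : ∀ q f, f ∈ V → R q f ∈ V := by
    intro q f hf
    rw [hVmem] at hf ⊢
    funext ⟨i, x⟩
    have h1 := congrFun hf (i, x * q)
    rw [Matrix.mulVec, dotProduct, Fintype.sum_prod_type] at h1 ⊢
    rw [Pi.zero_apply] at h1
    show _ = (0 : ZMod p)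
    rw [← h1]
    apply Finset.sum_congr rfl
    intro j _
    rw [← Equiv.sum_comp (Equiv.mulRight q) (fun y => M (i, x * q) (j, y) * f (j, y))]
    apply Finset.sum_congr rfl
    intro y _
    rw [hR]
    show M (i, x) (j, y) * f (j, y * q) = M (i, x * q) (j, y * q) * f (j, y * q)
    congr 1
    show ((lev (H ⧸ D) A (i, x) (j, y) : ℤ) : ZMod p) =
      ((lev (H ⧸ D) A (i, x * q) (j, y * q) : ℤ) : ZMod p)
    rw [hlev]
  let ρ : Representation (ZMod p) (H ⧸ D) V :=
    { toFun := fun q => (R q).restrict (fun f hf => hRV q f hf)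
      map_one' := by
        apply LinearMap.ext
        rintro ⟨f, hf⟩
        apply Subtype.ext
        funext ⟨j, x⟩
        show f (j, x * 1) = f (j, x)
        rw [mul_one]
      map_mul' := by
        intro a b
        apply LinearMap.ext
        rintro ⟨f, hf⟩
        apply Subtype.ext
        funext ⟨j, x⟩
        show f (j, x * (a * b)) = f (j, x * a * b)
        rw [mul_assoc] }
  have hρ : ∀ q (f : V) j x, (ρ q f).1 (j, x) = f.1 (j, x * q) := fun q f j x => rfl
  have hfin : Finite (H ⧸ D) := inferInstance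
  have h1 := Pool.Agent.CIR.finrank_le_invS ρ p k ⊤ (by
    rw [Subgroup.card_top, ← Subgroup.index_eq_card, hk])
  have h2 : Pool.Agent.CIR.invS ρ ⊤ = ⊥ := by
    rw [Submodule.eq_bot_iff]
    intro f hf
    rw [Pool.Agent.CIR.mem_invS] at hf
    have h3 : ∀ j x, f.1 (j, x) = f.1 (j, 1) := by
      intro j x
      have h4 := congrArg (fun u : V => u.1 (j, 1)) (hf x (Subgroup.mem_top x))
      simp only [hρ, one_mul] at h4
      exact h4
    have h5 : (fun j => f.1 (j, 1)) = 0 := by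
      apply hA
      intro i
      have h6 := congrFun ((hVmem f.1).1 f.2) (i, 1)
      rw [Matrix.mulVec, dotProduct, Fintype.sum_prod_type] at h6
      rw [Pi.zero_apply] at h6
      rw [← h6]
      apply Finset.sum_congr rfl
      intro j _
      have h7 : ∑ y, M (i, 1) (j, y) * f.1 (j, y) = (∑ y, M (i, 1) (j, y)) * f.1 (j, 1) := by
        rw [Finset.sum_mul]
        apply Finset.sum_congr rfl
        intro y _
        rw [h3 j y]
      rw [h7]
      congr 1
      have h8 : ∑ y, lev (H ⧸ D) A (i, 1) (j, y) = aug (A i j) := by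
        unfold lev aug Finsupp.sum
        show ∑ y : H ⧸ D, ∑ a ∈ (A i j).coeff.support,
          (if a • y = 1 then (A i j).coeff a else 0) = ∑ a ∈ (A i j).coeff.support, (A i j).coeff a
        rw [Finset.sum_comm]
        apply Finset.sum_congr rfl
        intro g _
        rw [Finset.sum_eq_single ((g : H ⧸ D)⁻¹)]
        · rw [if_pos]
          show ((g : H ⧸ D)) * (g : H ⧸ D)⁻¹ = 1
          exact mul_inv_cancel _
        · intro y _ hy
          rw [if_neg]
          intro h9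
          apply hy
          have h10 : ((g : H ⧸ D)) * y = 1 := h9
          exact eq_inv_of_mul_eq_one_right h10
        · intro h9
          exact absurd (Finset.mem_univ _) h9
      rw [← h8, Int.cast_sum]
      rfl
    apply Subtype.ext
    funext ⟨j, x⟩
    rw [h3 j x]
    exact congrFun h5 j
  rw [h2, finrank_bot, mul_zero] at h1
  have h3 := LinearMap.finrank_range_add_finrank_ker M.mulVecLin
  have h4 : Module.finrank (ZMod p) (LinearMap.ker M.mulVecLin) = 0 := Nat.le_zero.1 h1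
  rw [h4, add_zero, Module.finrank_fintype_fun_eq_card, Fintype.card_prod, Fintype.card_fin,
    hcard] at h3
  exact h3

/-- The trace bound from a finite `p`-quotient. -/
lemma trace_bound {H : Type*} [Group H] {p : ℕ} [Fact p.Prime] {m n : ℕ}
    (hH : ResiduallyP p H)
    (A : Matrix (Fin m) (Fin n) (MonoidAlgebra ℤ H))
    (hA : ∀ v : Fin n → ZMod p, (∀ i, ∑ j, ((aug (A i j) : ℤ) : ZMod p) * v j = 0) → v = 0) :
    ∃ K : ℕ, 1 ≤ K ∧ ∀ (q : ℕ) (ε : ℝ), 0 < ε → ε < 1 →
      ((K : ℝ) ^ q)⁻¹ * ((∑ i, ((CC (adj A * A) K ^ q) i i).coeff 1 : ℤ) : ℝ) ≤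
        n * (Real.log K / Real.log (1 / ε)) + n * (1 - ε / K) ^ q := by
  classical
  obtain ⟨K0, hK0, hrow⟩ := exists_row_bound (adj A * A)
  have hKK : K0 ≤ ((⌈K0⌉₊ : ℕ) : ℝ) := Nat.le_ceil K0
  have hK1 : 1 ≤ ⌈K0⌉₊ := by
    have : (1 : ℝ) ≤ ((⌈K0⌉₊ : ℕ) : ℝ) := le_trans hK0 hKK
    exact_mod_cast this
  refine ⟨⌈K0⌉₊, hK1, ?_⟩
  intro q ε hε hε1
  obtain ⟨D, hDn, ⟨k, hk⟩, hD⟩ := hH.exists_avoid (Fact.out : p.Prime)
    (Finset.univ.biUnion (fun i => (((CC (adj A * A) ⌈K0⌉₊) ^ q) i i).coeff.support))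
  have hp0 : 0 < p := (Fact.out : p.Prime).pos
  have hpos : 0 < D.index := by rw [hk]; exact Nat.pow_pos hp0
  have hfi : D.FiniteIndex := ⟨hpos.ne'⟩
  let _ : Fintype (H ⧸ D) := Fintype.ofFinite _
  have hcard : (Fintype.card (H ⧸ D)) = D.index := by
    rw [Subgroup.index_eq_card, Nat.card_eq_fintype_card]
  have hposR : (0 : ℝ) < D.index := by exact_mod_cast hpos
  have htr := tr_eq (adj A * A) ⌈K0⌉₊ hK1 q D hDn (by
    intro i g hg hg1
    exact hD g (Finset.mem_biUnion.2 ⟨i, Finset.mem_univ i, hg⟩) hg1)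
  have hB : lev (H ⧸ D) (adj A * A) = (lev (H ⧸ D) A).transpose * lev (H ⧸ D) A := by
    rw [lev_mul, lev_adj]
  have hBR : (lev (H ⧸ D) (adj A * A)).map (fun x : ℤ => (x : ℝ)) =
      ((lev (H ⧸ D) A).map (fun x : ℤ => (x : ℝ))).transpose *
        (lev (H ⧸ D) A).map (fun x : ℤ => (x : ℝ)) := by
    rw [hB]
    have := Matrix.map_mul (L := (lev (H ⧸ D) A).transpose) (M := lev (H ⧸ D) A)
      (f := Int.castRingHom ℝ)
    exact this
  have hpsd : ((lev (H ⧸ D) (adj A * A)).map (fun x : ℤ => (x : ℝ))).PosSemidef := by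
    rw [hBR]
    have := Matrix.posSemidef_conjTranspose_mul_self ((lev (H ⧸ D) A).map (fun x : ℤ => (x : ℝ)))
    rwa [Matrix.conjTranspose_eq_transpose_of_trivial] at this
  have hrk : ((lev (H ⧸ D) (adj A * A)).map (fun x : ℤ => (x : ℝ))).rank =
      ((lev (H ⧸ D) A).map (fun x : ℤ => (x : ℚ))).rank := by
    have e1 : (lev (H ⧸ D) (adj A * A)).map (fun x : ℤ => (x : ℝ)) =
        ((lev (H ⧸ D) (adj A * A)).map (fun x : ℤ => (x : ℚ))).map (Rat.castHom ℝ) := by
      ext i j
      simp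
    rw [e1, rank_map_sq]
    have e2 : (lev (H ⧸ D) (adj A * A)).map (fun x : ℤ => (x : ℚ)) =
      ((lev (H ⧸ D) A).map (fun x : ℤ => (x : ℚ))).transpose *
        (lev (H ⧸ D) A).map (fun x : ℤ => (x : ℚ)) := by
      rw [hB]
      have := Matrix.map_mul (L := (lev (H ⧸ D) A).transpose) (M := lev (H ⧸ D) A)
        (f := Int.castRingHom ℚ)
      exact this
    rw [e2, Matrix.rank_transpose_mul_self]
  have hrk2 : n * D.index ≤ ((lev (H ⧸ D) (adj A * A)).map (fun x : ℤ => (x : ℝ))).rank := by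
    rw [hrk, ← lev_inj A hA D hk]
    exact Pool.Agent.LuA.rank_mod_le _ p
  have hrowK : ∀ i, ∑ j, |(lev (H ⧸ D) (adj A * A) i j : ℝ)| ≤ ((⌈K0⌉₊ : ℕ) : ℝ) :=
    fun i => le_trans (hrow (H ⧸ D) i) hKK
  have hb := (Pool.Agent.LuA.ker_bounds (lev (H ⧸ D) (adj A * A)) hpsd ((⌈K0⌉₊ : ℕ) : ℝ)
    (by exact_mod_cast hK1) hrowK ε hε hε1 q).2
  rw [htr, Fintype.card_prod, Fintype.card_fin, hcard] at hb
  have hrk3 : (n : ℝ) * D.index ≤
      (((lev (H ⧸ D) (adj A * A)).map (fun x : ℤ => (x : ℝ))).rank : ℝ) := by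
    exact_mod_cast hrk2
  push_cast at hb
  refine le_of_mul_le_mul_left ?_ hposR
  push_cast
  nlinarith [hb, hrk3]

/-- A matrix over `ℤ[H]` whose augmentation modulo `p` is injective is injective on `ℓ²(H)`. -/
theorem conservative {H : Type*} [Group H] {p : ℕ} [Fact p.Prime] {m n : ℕ}
    (hH : ResiduallyP p H)
    (A : Matrix (Fin m) (Fin n) (MonoidAlgebra ℤ H))
    (hA : ∀ v : Fin n → ZMod p, (∀ i, ∑ j, ((aug (A i j) : ℤ) : ZMod p) * v j = 0) → v = 0)
    (f : Fin n → L2 H) (hf : MA A f = 0) : f = 0 := by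
  obtain ⟨K, hK, hb⟩ := trace_bound hH A hA
  set S := CC (adj A * A) K with hS
  have hKR : (1 : ℝ) ≤ K := by exact_mod_cast hK
  have hMS : ∀ g : Fin n → L2 H, MA S g = (K : ℝ) • g + (-1 : ℝ) • MA (adj A) (MA A g) := by
    intro g
    rw [hS]
    unfold CC
    rw [MA_add, MA_zsmul, MA_zsmul, MA_one, MA_mul]
    push_cast
    rfl
  have hSs : ∀ g h : Fin n → L2 H, ip (MA S g) h = ip g (MA S h) := by
    intro g h
    rw [hMS, ip_comm g, hMS, ip_add_left, ip_add_left, ip_smul_left, ip_smul_left, ip_smul_left,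
      ip_smul_left, ip_comm h g]
    congr 2
    rw [ip_comm (MA (adj A) (MA A g)) h, ← ip_MA, ip_comm (MA (adj A) (MA A h)) g, ← ip_MA,
      ip_comm]
  have hSq : ∀ (q : ℕ) (g h : Fin n → L2 H), ip (MA (S ^ q) g) h = ip g (MA (S ^ q) h) := by
    intro q
    induction q with
    | zero => intro g h; rw [pow_zero, MA_one, MA_one]
    | succ q ih =>
      intro g h
      rw [pow_succ, MA_mul, ih, hSs, ← MA_mul, ← pow_succ', pow_succ]
  have key : ∀ g : Fin n → L2 H, MA A g = 0 → ∀ i, (g i) 1 = 0 := by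
    intro g hg i
    have h1 : ∀ q : ℕ, MA (S ^ q) g = ((K : ℝ) ^ q) • g := by
      intro q
      induction q with
      | zero => rw [pow_zero, MA_one, pow_zero, one_smul]
      | succ q ih =>
        rw [pow_succ, MA_mul]
        have h2 : MA S g = (K : ℝ) • g := by
          rw [hMS, hg]
          have : MA (adj A) (0 : Fin m → L2 H) = 0 := by
            funext j
            unfold MA
            apply Finset.sum_eq_zero
            intro i _
            rw [Pi.zero_apply, map_zero]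
          rw [this, smul_zero, add_zero]
        rw [h2, MA_smul, ih, smul_smul, pow_succ, mul_comm]
    have h2 : ∀ (q : ℕ) (ε : ℝ), 0 < ε → ε < 1 → ((g i) 1) ^ 2 ≤
        ip g g * (n * (Real.log K / Real.log (1 / ε)) + n * (1 - ε / K) ^ (2 * q)) := by
      intro q ε hε hε1
      have h3 : (K : ℝ) ^ q * (g i) 1 = ip g (MA (S ^ q) (dv i)) := by
        rw [← hSq, h1, ip_smul_left, ip_dv]
      have h4 : ((K : ℝ) ^ q * (g i) 1) ^ 2 ≤ ip g g *
          ip (MA (S ^ q) (dv i)) (MA (S ^ q) (dv i)) := by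
        rw [h3]
        exact ip_sq_le _ _
      have h5 : ∀ j : Fin n, ip (MA (S ^ q) (dv j)) (MA (S ^ q) (dv j)) =
          (((S ^ (2 * q)) j j).coeff 1 : ℝ) := by
        intro j
        rw [← hSq, ← MA_mul, ← pow_add, ← two_mul, MA_dv]
      have h6 : ip (MA (S ^ q) (dv i)) (MA (S ^ q) (dv i)) ≤
          ((∑ j, ((S ^ (2 * q)) j j).coeff 1 : ℤ) : ℝ) := by
        push_cast
        have h7 : ∀ j : Fin n, (0 : ℝ) ≤ (((S ^ (2 * q)) j j).coeff 1 : ℝ) := by
          intro j
          rw [← h5]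
          exact ip_self_nonneg _
        rw [h5]
        exact Finset.single_le_sum (f := fun j => (((S ^ (2 * q)) j j).coeff 1 : ℝ))
          (fun j _ => h7 j) (Finset.mem_univ i)
      have h7 := hb (2 * q) ε hε hε1
      have hKq : (0 : ℝ) < (K : ℝ) ^ (2 * q) := by positivity
      rw [inv_mul_le_iff₀ hKq] at h7
      have h8 : (K : ℝ) ^ (2 * q) * ((g i) 1) ^ 2 ≤ (K : ℝ) ^ (2 * q) * (ip g g *
          (n * (Real.log K / Real.log (1 / ε)) + n * (1 - ε / K) ^ (2 * q))) := by
        calc (K : ℝ) ^ (2 * q) * ((g i) 1) ^ 2 = ((K : ℝ) ^ q * (g i) 1) ^ 2 := by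
              rw [mul_pow, ← pow_mul, mul_comm q 2]
          _ ≤ ip g g * ip (MA (S ^ q) (dv i)) (MA (S ^ q) (dv i)) := h4
          _ ≤ ip g g * ((K : ℝ) ^ (2 * q) *
              (n * (Real.log K / Real.log (1 / ε)) + n * (1 - ε / K) ^ (2 * q))) :=
              mul_le_mul_of_nonneg_left (h6.trans h7) (ip_self_nonneg g)
          _ = _ := by ring
      exact le_of_mul_le_mul_left h8 hKq
    -- the limit
    have h3 : ((g i) 1) ^ 2 ≤ 0 := by
      apply le_of_forall_pos_le_add
      intro τ hτ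
      rw [zero_add]
      set C : ℝ := ip g g * n with hC
      have hC0 : 0 ≤ C := mul_nonneg (ip_self_nonneg g) (Nat.cast_nonneg n)
      -- choose ε
      have hlim : Filter.Tendsto (fun ε : ℝ => C * (Real.log K / Real.log (1 / ε)))
          (nhdsWithin 0 (Set.Ioi 0)) (nhds 0) := by
        have e1 : Filter.Tendsto (fun ε : ℝ => Real.log (1 / ε)) (nhdsWithin 0 (Set.Ioi 0))
            Filter.atTop := by
          have : Filter.Tendsto (fun ε : ℝ => ε⁻¹) (nhdsWithin 0 (Set.Ioi 0)) Filter.atTop :=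
            tendsto_inv_nhdsGT_zero
          have e2 := Real.tendsto_log_atTop.comp this
          refine e2.congr (fun ε => ?_)
          simp
        have e2 := (tendsto_const_nhds (x := Real.log K)).div_atTop e1
        have e3 := e2.const_mul C
        simpa using e3
      obtain ⟨ε, hε1, hε2, hε3⟩ : ∃ ε : ℝ, C * (Real.log K / Real.log (1 / ε)) < τ / 2 ∧
          0 < ε ∧ ε < 1 := by
        have e1 : ∀ᶠ ε in nhdsWithin (0 : ℝ) (Set.Ioi 0),
            C * (Real.log K / Real.log (1 / ε)) < τ / 2 :=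
          hlim.eventually (gt_mem_nhds (by linarith))
        have e2 : ∀ᶠ ε in nhdsWithin (0 : ℝ) (Set.Ioi 0), 0 < ε := eventually_mem_nhdsWithin
        have e3 : ∀ᶠ ε in nhdsWithin (0 : ℝ) (Set.Ioi 0), ε < 1 :=
          mem_nhdsWithin_of_mem_nhds (gt_mem_nhds one_pos)
        exact (e1.and (e2.and e3)).exists
      have hpow : Filter.Tendsto (fun q : ℕ => C * ((1 - ε / K) ^ 2) ^ q) Filter.atTop
          (nhds 0) := by
        have e1 : 0 ≤ 1 - ε / K := by
          have : ε / K ≤ 1 := by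
            rw [div_le_one (by linarith)]
            linarith
          linarith
        have e2 : 1 - ε / K < 1 := by
          have : 0 < ε / K := by positivity
          linarith
        have e3 := (tendsto_pow_atTop_nhds_zero_of_lt_one (sq_nonneg (1 - ε / K))
          (pow_lt_one₀ e1 e2 two_ne_zero)).const_mul C
        simpa using e3
      obtain ⟨q, hq⟩ := (hpow.eventually (gt_mem_nhds (show (0 : ℝ) < τ / 2 by linarith))).exists
      have h4 := h2 q ε hε2 hε3
      rw [← pow_mul] at hq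
      have h5 : ip g g * (n * (Real.log K / Real.log (1 / ε)) + n * (1 - ε / K) ^ (2 * q)) =
          C * (Real.log K / Real.log (1 / ε)) + C * (1 - ε / K) ^ (2 * q) := by
        rw [hC]; ring
      rw [h5] at h4
      linarith
    exact pow_eq_zero_iff (two_ne_zero) |>.1 (le_antisymm h3 (sq_nonneg _))
  funext i
  ext k
  have h1 : MA A (fun j => rt k (f j)) = 0 := by
    funext i
    unfold MA
    simp only [UU_rt]
    rw [← map_sum]
    have h2 : ∑ j, UU H (A i j) (f j) = 0 := congrFun hf i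
    rw [h2, map_zero]
    rfl
  have h2 := key _ h1 i
  rw [rt_apply, one_mul] at h2
  exact h2

end Pool.Agent.L2Coh
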