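import Mathlib

/-!
# Definitions

Two-complexes, `b₂⁽²⁾ = 0`, finiteness properties of groups, and the classes of groups used in the
coherence theorem.

A connected two-complex is, up to homotopy, the presentation complex of a presentation
`⟨S | r i (i ∈ ι)⟩` with arbitrary (possibly infinite) index types; relators are words,
`List (S × Bool)`, where `(s, true)` stands for `s` and `(s, false)` for `s⁻¹`.
-/

namespace Pool.Agent.L2Coh

/-- The cellular 1-chain of the edge path in the Cayley graph which starts at the vertex `g` and is
labelled by the word `w`; the edge `(g, s)` runs from `g` to `g * φ s`. -/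
noncomputable def pathChain {G S : Type*} [Group G] (φ : FreeGroup S →* G) :
    G → List (S × Bool) → (G × S →₀ ℤ)
  | _, [] => 0
  | g, (s, true) :: w =>
      Finsupp.single (g, s) 1 + pathChain φ (g * φ (FreeGroup.of s)) w
  | g, (s, false) :: w =>
      pathChain φ (g * (φ (FreeGroup.of s))⁻¹) w
        - Finsupp.single (g * (φ (FreeGroup.of s))⁻¹, s) 1

/-- `b₂⁽²⁾(X) = 0` for the presentation complex `X`: no nonzero square summable cellular 2-chain of
the universal cover supported in finitely many orbits of 2-cells has zero boundary. The 2-cell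
`(i, k)`, with `i : ι` and `k : G`, is attached along the path starting at `k` with label `r i`,
and `pathChain φ k (r i)` is its cellular boundary. -/
def SecondL2BettiZero {G S ι : Type*} [Group G] (φ : FreeGroup S →* G)
    (r : ι → List (S × Bool)) : Prop :=
  ∀ F : ι → G → ℝ, {i | F i ≠ 0}.Finite → (∀ i, Summable fun k => (F i k) ^ 2) →
    (∀ e : G × S, ∑ᶠ p : ι × G, F p.1 p.2 * (pathChain φ p.2 (r p.1) e : ℝ) = 0) → F = 0

/-- A group is left orderable if it has a total order invariant under left multiplication. -/
def LeftOrderable (H : Type*) [Group H] : Prop :=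
  ∃ _ : LinearOrder H, ∀ a b c : H, b < c → a * b < a * c

/-- The ranks of the nonzero elements of the integral group ring, acting by right convolution
on real square summable functions, are at least `ε`: the kernel `K` of a nonzero element
has von Neumann dimension `sup {x(1)² / ‖x‖² : x ∈ K} ≤ 1 - ε`. -/
def RankGap (H : Type*) [Group H] (ε : ℝ) : Prop :=
  ∀ (a : H →₀ ℤ) (x : H → ℝ), a ≠ 0 → Summable (fun h => (x h) ^ 2) →
    (∀ g : H, a.sum (fun h n => (n : ℝ) * x (g * h⁻¹)) = 0) →
    (x 1) ^ 2 ≤ (1 - ε) * ∑' h, (x h) ^ 2

/-- `H` is residually a finite `p`-group. -/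
def ResiduallyP (p : ℕ) (H : Type*) [Group H] : Prop :=
  ∀ h : H, h ≠ 1 → ∃ N : Subgroup H, N.Normal ∧ (∃ k : ℕ, N.index = p ^ k) ∧ h ∉ N

universe u v w

/-- A group is linear if it has a faithful finite dimensional representation over some field. -/
def Linear (K : Type*) [Group K] : Prop :=
  ∃ (F : Type w) (_ : Field F) (n : ℕ) (f : K →* (Matrix (Fin n) (Fin n) F)ˣ),
    Function.Injective f

/-- A group is of type `FP₂` if it is finitely generated and, for every presentation
`ψ : F_n → H` with kernel `N`, the relation module `N / [N, N]` is finitely generated: there is a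
finite `T ⊆ N` with `N = ⟪T⟫ [N, N]`. -/
def TypeFP2 (H : Type*) [Group H] : Prop :=
  Group.FG H ∧ ∀ (n : ℕ) (ψ : FreeGroup (Fin n) →* H), Function.Surjective ψ →
    ∃ T : Set (FreeGroup (Fin n)), T.Finite ∧
      ψ.ker = Subgroup.normalClosure T ⊔ ⁅ψ.ker, ψ.ker⁆

/-- A group is of type `FP` of dimension at most two if the trivial module `ℤ` has a resolution
`0 → P → ℤ[H]ⁿ → ℤ[H] → ℤ → 0` with `P` finitely generated and projective; here
`ℤ[H] → ℤ` is the augmentation (sum of the coefficients) and `P` is the kernel of
`d : ℤ[H]ⁿ → ℤ[H]`. -/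
def TypeFP (H : Type*) [Group H] : Prop :=
  ∃ (n : ℕ) (d : (Fin n → MonoidAlgebra ℤ H) →ₗ[MonoidAlgebra ℤ H] MonoidAlgebra ℤ H),
    (∀ a : MonoidAlgebra ℤ H, a ∈ LinearMap.range d ↔ a.coeff.sum (fun _ c => c) = 0) ∧
      Module.Finite (MonoidAlgebra ℤ H) (LinearMap.ker d) ∧
      Module.Projective (MonoidAlgebra ℤ H) (LinearMap.ker d)

/-- The class of groups with a hierarchy: the smallest class which contains all groups whose
subgroups of type `FP₂` are finitely presented (in particular all coherent groups) and which
contains every group acting by automorphisms on a tree with all vertex stabilisers in the class. -/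
inductive Hierarchy : (G : Type u) → Group G → Prop
  | base (G : Type u) (inst : Group G)
      (h : ∀ L : Subgroup G, TypeFP2 L → Group.IsFinitelyPresented L) : Hierarchy G inst
  | tree (G : Type u) (inst : Group G) (V : Type v) (act : MulAction G V) (T : SimpleGraph V)
      (hT : T.IsTree) (hadj : ∀ (g : G) (v w : V), T.Adj v w → T.Adj (g • v) (g • w))
      (h : ∀ v : V, Hierarchy (MulAction.stabilizer G v) inferInstance) : Hierarchy G inst

end Pool.Agent.L2Coh
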