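import Pool.Agent.L2Coh.Defs

/-!
# Two-complexes whose universal cover is built from a graph by elementary expansions
-/

namespace Pool.Agent.L2Coh

/-- The edge path in the Cayley graph which starts at the vertex `g` and is labelled by the word
`w`, as the list of its oriented edges; the edge `(g, s)` runs from `g` to `g * φ s`, and
`((g, s), false)` is this edge traversed backwards. -/
def edgePath {G S : Type*} [Group G] (φ : FreeGroup S →* G) :
    G → List (S × Bool) → List ((G × S) × Bool)
  | _, [] => []
  | g, (s, true) :: w => ((g, s), true) :: edgePath φ (g * φ (FreeGroup.of s)) w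
  | g, (s, false) :: w =>
      ((g * (φ (FreeGroup.of s))⁻¹, s), false) :: edgePath φ (g * (φ (FreeGroup.of s))⁻¹) w

/-- The universal cover of the presentation complex is built from a graph by elementary expansions:
one can choose, for every 2-cell `c = (i, g)` of the universal cover (attached along the path which
starts at `g` with label `r i`), an edge `e c` which occurs exactly once in the attaching path
of `c`, different 2-cells having different edges, and a well-founded relation on the set of
2-cells such that `c'` is smaller than `c` whenever `c' ≠ c` and `e c'` occurs in the attaching path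
of `c`. (The 2-cells can be added one after the other, each 2-cell `c` together with
the edge `e c`.) -/
def Expandable {G S ι : Type*} [Group G] (φ : FreeGroup S →* G) (r : ι → List (S × Bool)) : Prop :=
  ∃ (e : ι × G → G × S) (lt : ι × G → ι × G → Prop), WellFounded lt ∧ Function.Injective e ∧
    (∀ c : ι × G, ∃ l₁ l₂ b, edgePath φ c.2 (r c.1) = l₁ ++ (e c, b) :: l₂ ∧
      ∀ x ∈ l₁ ++ l₂, x.1 ≠ e c) ∧
    ∀ c c' : ι × G, c' ≠ c → (∃ b, (e c', b) ∈ edgePath φ c.2 (r c.1)) → lt c' c

/-- The subgroup of the fundamental group `ker φ` of the Cayley graph which is generated by the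
boundaries of the 2-cells in `T`: for a 2-cell `(i, g)` these are the loops `x r i x⁻¹`
with `x` a path from the base vertex to `g`. The quotient `ker φ / cellSub φ r T` is the fundamental
group of the union of the 1-skeleton of the universal cover and the 2-cells in `T`. -/
def cellSub {G S ι : Type*} [Group G] (φ : FreeGroup S →* G) (r : ι → List (S × Bool))
    (T : Set (ι × G)) : Subgroup (FreeGroup S) :=
  Subgroup.closure {z | ∃ (x : FreeGroup S) (i : ι), (i, φ x) ∈ T ∧
    z = x * FreeGroup.mk (r i) * x⁻¹}

/-- A group is of type `FP₂` over `ℤ/m` (over `ℤ` if `m = 0`) if it is finitely generated and, for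
every presentation `ψ : F_n → H` with kernel `N`, the module `N / [N, N] N^m` is finitely
generated: there is a finite `T ⊆ N` with `N = ⟪T⟫ [N, N] N^m`. -/
def TypeFP2Mod (m : ℕ) (H : Type*) [Group H] : Prop :=
  Group.FG H ∧ ∀ (n : ℕ) (ψ : FreeGroup (Fin n) →* H), Function.Surjective ψ →
    ∃ T : Set (FreeGroup (Fin n)), T.Finite ∧
      ψ.ker = Subgroup.normalClosure T ⊔ ⁅ψ.ker, ψ.ker⁆ ⊔
        Subgroup.closure {x | ∃ y ∈ ψ.ker, x = y ^ m}

/-- `H₂(X̃) = 0` for the universal cover of the presentation complex: no nonzero finite cellular
2-chain has zero boundary. -/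
def SecondHomologyZero {G S ι : Type*} [Group G] (φ : FreeGroup S →* G)
    (r : ι → List (S × Bool)) : Prop :=
  ∀ c : ι × G →₀ ℤ, (c.sum fun p n => n • pathChain φ p.2 (r p.1)) = 0 → c = 0

/-- The universal cover of the presentation complex satisfies a subquadratic homological
isoperimetric inequality: for every `ε > 0` there is `C` such that every edge loop of length `ℓ`
bounds a cellular 2-chain of norm at most `ε ℓ² + C`. -/
def SubquadraticFilling {G S ι : Type*} [Group G] (φ : FreeGroup S →* G)
    (r : ι → List (S × Bool)) : Prop :=
  ∀ ε : ℝ, 0 < ε → ∃ C : ℝ, ∀ w : List (S × Bool), φ (FreeGroup.mk w) = 1 →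
    ∃ c : ι × G →₀ ℤ, (c.sum fun p n => n • pathChain φ p.2 (r p.1)) = pathChain φ 1 w ∧
      ((∑ p ∈ c.support, |c p| : ℤ) : ℝ) ≤ ε * (w.length : ℝ) ^ 2 + C

/-- The edge of the Cayley graph through which a path leaves the vertex `g` if its first letter is
`x`. -/
def edgeAt {G S : Type*} [Group G] (φ : FreeGroup S →* G) (g : G) : S × Bool → G × S
  | (s, true) => (g, s)
  | (s, false) => (g * (φ (FreeGroup.of s))⁻¹, s)

/-- The vertex `v` is the highest vertex of the 2-cell `c`, with corner `{x, y}`: the attaching path
of `c` visits `v` once, it leaves `v` through the letter `x` and comes back through the inverse of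
the letter `y`, and all other vertices of the attaching path are lower than `v`; here `lt` is the
relation of being lower. -/
def TopCorner {G S ι : Type*} [Group G] (φ : FreeGroup S →* G) (r : ι → List (S × Bool))
    (lt : G → G → Prop) (c : ι × G) (v : G) (x y : S × Bool) : Prop :=
  ∃ w₁ w₂ w : List (S × Bool), r c.1 = w₁ ++ w₂ ∧ v = c.2 * φ (FreeGroup.mk w₁) ∧
    w₂ ++ w₁ = x :: (w ++ [(y.1, !y.2)]) ∧
    ∀ p q : List (S × Bool), w₂ ++ w₁ = p ++ q → p ≠ [] → q ≠ [] →
      lt (v * φ (FreeGroup.mk p)) v

/-- The descending link of the vertex `v`: its vertices are the letters, that is the germs of edges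
at `v`, and its edges are the corners of the 2-cells with highest vertex `v`. -/
def descLink {G S ι : Type*} [Group G] (φ : FreeGroup S →* G) (r : ι → List (S × Bool))
    (lt : G → G → Prop) (v : G) : SimpleGraph (S × Bool) where
  Adj x y := x ≠ y ∧ ∃ c : ι × G, TopCorner φ r lt c v x y ∨ TopCorner φ r lt c v y x
  symm := ⟨fun _ _ h => ⟨h.1.symm, h.2.imp fun _ hc => hc.symm⟩⟩
  loopless := ⟨fun _ h => h.1 rfl⟩

/-- There is a well-founded relation on the vertices of the universal cover (the vertices are
ordered by height) such that every 2-cell has a highest vertex and all descending links are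
forests (without loops and multiple edges). -/
def ForestMorse {G S ι : Type*} [Group G] (φ : FreeGroup S →* G) (r : ι → List (S × Bool)) : Prop :=
  ∃ lt : G → G → Prop, WellFounded lt ∧
    (∀ c : ι × G, ∃ v x y, TopCorner φ r lt c v x y ∧ x ≠ y) ∧
    (∀ (c c' : ι × G) (v : G) (x y : S × Bool), TopCorner φ r lt c v x y →
      TopCorner φ r lt c' v x y ∨ TopCorner φ r lt c' v y x → c = c') ∧
    ∀ v : G, (descLink φ r lt v).IsAcyclic

universe u v

/-- The smallest class of groups which contains

* every group all of whose subgroups of type `FP₂` are finitely presented (`base`; for instance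
  every coherent group),
* every group which embeds into a group with an expandable complex (`expandable`) or with a
  complex with `H₂(X̃) = 0` and a subquadratic homological isoperimetric inequality (`filling`),
* every group acting by automorphisms on a tree with all vertex stabilisers in the class (`tree`),
* every group with a subgroup of finite index in the class (`virtually`),
* every group with all finitely generated subgroups in the class (`locally_`). -/
inductive Geometric : (G : Type u) → Group G → Prop
  | base (G : Type u) (inst : Group G)
      (h : ∀ L : Subgroup G, TypeFP2 L → Group.IsFinitelyPresented L) : Geometric G inst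
  | expandable (G : Type u) (inst : Group G) (G' S ι : Type v) (inst' : Group G') (f : G →* G')
      (hf : Function.Injective f) (φ : FreeGroup S →* G') (hφ : Function.Surjective φ)
      (r : ι → List (S × Bool))
      (hr : φ.ker = Subgroup.normalClosure (Set.range fun i => FreeGroup.mk (r i)))
      (h : Expandable φ r) : Geometric G inst
  | filling (G : Type u) (inst : Group G) (G' S ι : Type v) (inst' : Group G') (f : G →* G')
      (hf : Function.Injective f) (φ : FreeGroup S →* G') (hφ : Function.Surjective φ)
      (r : ι → List (S × Bool))
      (hr : φ.ker = Subgroup.normalClosure (Set.range fun i => FreeGroup.mk (r i)))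
      (h : SecondHomologyZero φ r) (h' : SubquadraticFilling φ r) : Geometric G inst
  | tree (G : Type u) (inst : Group G) (V : Type v) (act : MulAction G V) (T : SimpleGraph V)
      (hT : T.IsTree) (hadj : ∀ (g : G) (v w : V), T.Adj v w → T.Adj (g • v) (g • w))
      (h : ∀ v : V, Geometric (MulAction.stabilizer G v) inferInstance) : Geometric G inst
  | virtually (G : Type u) (inst : Group G) (K : Subgroup G) (hK : K.index ≠ 0)
      (h : Geometric K inferInstance) : Geometric G inst
  | locally_ (G : Type u) (inst : Group G)
      (h : ∀ L : Subgroup G, L.FG → Geometric L inferInstance) : Geometric G inst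

end Pool.Agent.L2Coh
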