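import Pool.Agent.L2Coh.Expand

/-!
# Subgroups of type `FP₂` of groups with an expandable complex are finitely presented
-/

namespace Pool.Agent.L2Coh

/-- If the relators of `H` are filled by 2-cells of finitely many `H`-orbits then `H` is finitely
presented. -/
theorem fp_of_cells {G S ι : Type*} [Group G] {n : ℕ} (φ : FreeGroup S →* G)
    (r : ι → List (S × Bool)) (hr1 : ∀ i, φ (FreeGroup.mk (r i)) = 1) (H : Subgroup G)
    (ψ : FreeGroup (Fin n) →* H) (hψ : Function.Surjective ψ) (u : Fin n → FreeGroup S)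
    (hu : ∀ j, φ (u j) = (ψ (FreeGroup.of j) : G)) (q : G → H) (hq1 : q 1 = 1)
    (hq : ∀ (h : H) (g : G), q (h * g) = h * q g) (T0 : Set (ι × G)) (hT0 : T0.Finite)
    (hT : ∀ w, ψ w = 1 →
      FreeGroup.lift u w ∈ cellSub φ r {c | (c.1, ((q c.2 : G))⁻¹ * c.2) ∈ T0}) :
    ∃ Q : Set (FreeGroup (Fin n)), Q.Finite ∧ Subgroup.normalClosure Q = ψ.ker := by
  classical
  choose σ hσ using hψ
  have hqH : ∀ h : H, q (h : G) = h := by
    intro h
    have := hq h 1
    rwa [mul_one, hq1, mul_one] at this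
  have hphi : ∀ w, φ (FreeGroup.lift u w) = (ψ w : G) := by
    intro w
    have h : φ.comp (FreeGroup.lift u) = H.subtype.comp ψ := by
      ext j
      simp [hu]
    exact DFunLike.congr_fun h w
  let κ : FreeGroup (G × S) →* FreeGroup (Fin n) :=
    FreeGroup.lift (fun p => σ ((q p.1)⁻¹ * q (p.1 * φ (FreeGroup.of p.2))))
  have hκof : ∀ g s, κ (FreeGroup.of (g, s)) = σ ((q g)⁻¹ * q (g * φ (FreeGroup.of s))) := by
    intro g s
    show FreeGroup.lift _ (FreeGroup.of (g, s)) = _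
    rw [FreeGroup.lift_apply_of]
  have hκinv : ∀ (h : H) (g : G) (w : FreeGroup S), κ (fpw φ (h * g) w) = κ (fpw φ g w) := by
    intro h g w
    induction w generalizing g with
    | C1 => rw [fpw_one, fpw_one]
    | of x =>
      rw [fpw_of, fpw_of, hκof, hκof, hq, mul_assoc (h : G) g, hq]
      congr 1
      group
    | inv_of x _ =>
      rw [fpw_inv, fpw_inv, fpw_of, fpw_of, map_inv, map_inv, hκof, hκof, mul_assoc (h : G) g,
        mul_assoc (h : G), hq, hq]
      congr 2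
      group
    | mul x y hx hy => rw [fpw_mul, fpw_mul, map_mul, map_mul, hx, mul_assoc (h : G) g, hy]
  have hψκ : ∀ (g : G) (w : FreeGroup S), ψ (κ (fpw φ g w)) = (q g)⁻¹ * q (g * φ w) := by
    intro g w
    induction w generalizing g with
    | C1 => rw [fpw_one, map_one, map_one, map_one, mul_one, inv_mul_cancel]
    | of x => rw [fpw_of, hκof, hσ]
    | inv_of x _ =>
      rw [fpw_inv, fpw_of, map_inv, map_inv, hκof, hσ, map_inv, inv_mul_cancel_right]
      group
    | mul x y hx hy =>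
      rw [fpw_mul, map_mul, map_mul, hx, hy, map_mul, mul_assoc g]
      group
  let d : Fin n → FreeGroup (Fin n) := fun j => (FreeGroup.of j)⁻¹ * κ (fpw φ 1 (u j))
  let R : ι × G → FreeGroup (Fin n) := fun c => κ (fpw φ c.2 (FreeGroup.mk (r c.1)))
  let Q : Set (FreeGroup (Fin n)) := Set.range d ∪ R '' T0
  have hQ : Q ⊆ ψ.ker := by
    rintro _ (⟨j, rfl⟩ | ⟨c, _, rfl⟩)
    · show ψ ((FreeGroup.of j)⁻¹ * κ (fpw φ 1 (u j))) = 1
      rw [map_mul, hψκ, hq1, one_mul, hu, hqH, map_inv, inv_one, one_mul, inv_mul_cancel]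
    · show ψ (κ (fpw φ c.2 (FreeGroup.mk (r c.1)))) = 1
      rw [hψκ, hr1, mul_one, inv_mul_cancel]
  refine ⟨Q, (Set.finite_range d).union (hT0.image _),
    le_antisymm (Subgroup.normalClosure_le_normal hQ) ?_⟩
  let E : Subgroup (FreeGroup (Fin n)) := Subgroup.normalClosure Q
  have hEn : E.Normal := Subgroup.normalClosure_normal
  -- the homomorphism `w ↦ κ (u w)`
  let η : FreeGroup (Fin n) →* FreeGroup (Fin n) :=
    { toFun := fun w => κ (fpw φ 1 (FreeGroup.lift u w))
      map_one' := by rw [map_one, fpw_one, map_one]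
      map_mul' := by
        intro x y
        rw [map_mul, fpw_mul, map_mul, hphi, one_mul]
        have h1 := hκinv (ψ x) 1 (FreeGroup.lift u y)
        rw [mul_one] at h1
        rw [h1] }
  have hη : ∀ w, QuotientGroup.mk' E (η w) = QuotientGroup.mk' E w := by
    intro w
    have h1 : (QuotientGroup.mk' E).comp η = QuotientGroup.mk' E := by
      ext j
      rw [MonoidHom.comp_apply]
      show QuotientGroup.mk' E (κ (fpw φ 1 (FreeGroup.lift u (FreeGroup.of j)))) = _
      rw [FreeGroup.lift_apply_of]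
      symm
      rw [QuotientGroup.mk'_apply, QuotientGroup.mk'_apply, QuotientGroup.eq]
      exact Subgroup.subset_normalClosure (Or.inl ⟨j, rfl⟩)
    exact DFunLike.congr_fun h1 w
  -- the boundaries of the cells
  let κ' : φ.ker →* FreeGroup (Fin n) :=
    { toFun := fun w => κ (fpw φ 1 (w : FreeGroup S))
      map_one' := by
        show κ (fpw φ 1 1) = 1
        rw [fpw_one, map_one]
      map_mul' := by
        rintro ⟨x, hx⟩ ⟨y, hy⟩
        have hx1 : φ x = 1 := hx
        show κ (fpw φ 1 (x * y)) = _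
        rw [fpw_mul, hx1, mul_one, map_mul] }
  have hcell : cellSub φ r {c | (c.1, ((q c.2 : G))⁻¹ * c.2) ∈ T0} ≤
      (E.comap κ').map φ.ker.subtype := by
    unfold cellSub
    rw [Subgroup.closure_le]
    rintro _ ⟨x, i, hx, rfl⟩
    have hk : x * FreeGroup.mk (r i) * x⁻¹ ∈ φ.ker := by
      show φ _ = 1
      rw [map_mul, map_mul, hr1, mul_one, map_inv, mul_inv_cancel]
    refine ⟨⟨_, hk⟩, Subgroup.mem_comap.2 ?_, rfl⟩
    show κ (fpw φ 1 (x * FreeGroup.mk (r i) * x⁻¹)) ∈ E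
    rw [fpw_conj φ 1 x _ (hr1 i), map_mul, map_mul, map_inv, one_mul]
    apply hEn.conj_mem
    have h1 := hκinv (q (φ x)) ((q (φ x) : G)⁻¹ * φ x) (FreeGroup.mk (r i))
    rw [mul_inv_cancel_left] at h1
    rw [h1]
    exact Subgroup.subset_normalClosure (Or.inr ⟨(i, (q (φ x) : G)⁻¹ * φ x), hx, rfl⟩)
  intro w hw
  have hw1 : ψ w = 1 := hw
  obtain ⟨z, hz, hzw⟩ := hcell (hT w hw1)
  have h1 : κ' z ∈ E := hz
  have h2 : κ' z = η w := by
    show κ (fpw φ 1 (z : FreeGroup S)) = κ (fpw φ 1 (FreeGroup.lift u w))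
    rw [← hzw]
    rfl
  rw [h2] at h1
  have h3 : QuotientGroup.mk' E (η w) = 1 := (QuotientGroup.eq_one_iff _).2 h1
  rw [hη] at h3
  exact (QuotientGroup.eq_one_iff _).1 h3

/-- `FP₂` over `ℤ` is `FP₂` over `ℤ/0`. -/
lemma TypeFP2.mod_zero {H : Type*} [Group H] (h : TypeFP2 H) : TypeFP2Mod 0 H := by
  refine ⟨h.1, fun n ψ hψ => ?_⟩
  obtain ⟨T, hT, hT2⟩ := h.2 n ψ hψ
  refine ⟨T, hT, ?_⟩
  have h1 : Subgroup.closure {x | ∃ y ∈ ψ.ker, x = y ^ 0} = ⊥ := by
    rw [Subgroup.closure_eq_bot_iff]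
    rintro x ⟨y, _, rfl⟩
    exact pow_zero y
  rw [h1, sup_bot_eq]
  exact hT2

/-- If the universal cover of the presentation complex of `G` is built from a graph by elementary
expansions, then every subgroup of `G` which is of type `FP₂` over `ℤ/m`, `m ≠ 1`, is finitely
presented. -/
theorem fp_of_expandable {G S ι : Type*} [Group G] (φ : FreeGroup S →* G)
    (hφ : Function.Surjective φ) (r : ι → List (S × Bool))
    (hr : φ.ker = Subgroup.normalClosure (Set.range fun i => FreeGroup.mk (r i)))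
    (hE : Expandable φ r) (m : ℕ) (hm : m ≠ 1) (H : Subgroup G) (hH : TypeFP2Mod m H) :
    Group.IsFinitelyPresented H := by
  classical
  have hr1 : ∀ i, φ (FreeGroup.mk (r i)) = 1 := by
    intro i
    have : FreeGroup.mk (r i) ∈ φ.ker := by
      rw [hr]
      exact Subgroup.subset_normalClosure ⟨i, rfl⟩
    exact this
  obtain ⟨q, hq1, hq⟩ : ∃ q : G → H, q 1 = 1 ∧ ∀ (h : H) (g : G), q (h * g) = h * q g := by
    obtain ⟨Tr, hTr, hTr1⟩ := H.exists_isComplement_right 1
    refine ⟨fun g => (hTr.equiv g).1, ?_, ?_⟩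
    · have := hTr.equiv_one (one_mem H) hTr1
      show (hTr.equiv 1).1 = 1
      rw [this]
      rfl
    · intro h g
      show (hTr.equiv (h * g)).1 = h * (hTr.equiv g).1
      rw [hTr.equiv_mul_left]
  obtain ⟨hfg, hpres⟩ := hH
  obtain ⟨α, hα, π', hπ'⟩ := Group.fg_iff_exists_freeGroup_hom_surjective_finite.1 hfg
  obtain ⟨n, ⟨e⟩⟩ := Finite.exists_equiv_fin α
  let ψ : FreeGroup (Fin n) →* H := π'.comp (FreeGroup.freeGroupCongr e).symm.toMonoidHom
  have hψ : Function.Surjective ψ := hπ'.comp (FreeGroup.freeGroupCongr e).symm.surjective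
  obtain ⟨T, hT, hT2⟩ := hpres n ψ hψ
  choose u hu using fun j : Fin n => hφ (ψ (FreeGroup.of j) : G)
  have hphi : ∀ w, φ (FreeGroup.lift u w) = (ψ w : G) := by
    intro w
    have h : φ.comp (FreeGroup.lift u) = H.subtype.comp ψ := by
      ext j
      simp [hu]
    exact DFunLike.congr_fun h w
  have hTker : ∀ t ∈ T, ψ t = 1 := by
    intro t ht
    have : t ∈ ψ.ker := by
      rw [hT2]
      exact Subgroup.mem_sup_left (Subgroup.mem_sup_left (Subgroup.subset_normalClosure ht))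
    exact this
  have hcells : ∀ t : FreeGroup (Fin n), ∃ C : Set (ι × G), C.Finite ∧
      (t ∈ T → FreeGroup.lift u t ∈ cellSub φ r C) := by
    intro t
    by_cases ht : t ∈ T
    · obtain ⟨C, hC, htC⟩ := exists_finite_cells φ r hr (FreeGroup.lift u t) (by
        rw [hphi, hTker t ht]
        rfl)
      exact ⟨C, hC, fun _ => htC⟩
    · exact ⟨∅, Set.finite_empty, fun h => absurd h ht⟩
  choose C hC hC2 using hcells
  let T0 : Set (ι × G) := (fun c : ι × G => (c.1, ((q c.2 : G))⁻¹ * c.2)) '' (⋃ t ∈ T, C t)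
  have hT0 : T0.Finite := (hT.biUnion (fun t _ => hC t)).image _
  let TT : Set (ι × G) := {c | (c.1, ((q c.2 : G))⁻¹ * c.2) ∈ T0}
  have hCTT : ∀ t ∈ T, C t ⊆ TT := by
    intro t ht c hc
    exact ⟨c, Set.mem_biUnion ht hc, rfl⟩
  have hTTinv : ∀ (h : H) (i : ι) (g : G), (i, g) ∈ TT → (i, (h : G) * g) ∈ TT := by
    intro h i g hig
    have h1 : (i, ((q g : G))⁻¹ * g) ∈ T0 := hig
    show (i, ((q ((h : G) * g) : G))⁻¹ * ((h : G) * g)) ∈ T0
    have h2 : ((q ((h : G) * g) : G))⁻¹ * ((h : G) * g) = ((q g : G))⁻¹ * g := by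
      rw [hq, Subgroup.coe_mul]
      group
    rw [h2]
    exact h1
  let M : Subgroup (FreeGroup S) := ψ.ker.map (FreeGroup.lift u)
  have hM : M ≤ φ.ker := by
    rintro _ ⟨w, hw, rfl⟩
    show φ (FreeGroup.lift u w) = 1
    have hw1 : ψ w = 1 := hw
    rw [hphi, hw1]
    rfl
  have hkey : M ≤ cellSub φ r TT := by
    apply le_cellSub φ r hφ hr1 hE TT m hm M hM
    show ψ.ker.map (FreeGroup.lift u) ≤ _
    have h1 : ψ.ker.map (FreeGroup.lift u) = (Subgroup.normalClosure T ⊔ ⁅ψ.ker, ψ.ker⁆ ⊔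
        Subgroup.closure {x | ∃ y ∈ ψ.ker, x = y ^ m}).map (FreeGroup.lift u) :=
      congrArg (Subgroup.map (FreeGroup.lift u)) hT2
    refine h1.le.trans ?_
    rw [Subgroup.map_sup, Subgroup.map_sup]
    refine sup_le_sup (sup_le_sup ?_ ?_) ?_
    · rw [Subgroup.map_le_iff_le_comap]
      unfold Subgroup.normalClosure
      rw [Subgroup.closure_le]
      intro z hz
      rw [Group.mem_conjugatesOfSet_iff] at hz
      obtain ⟨t, ht, hc⟩ := hz
      obtain ⟨x, rfl⟩ := isConj_iff.1 hc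
      show FreeGroup.lift u (x * t * x⁻¹) ∈ cellSub φ r TT
      rw [map_mul, map_mul, map_inv]
      apply cellSub_conj
      · intro i g hig
        rw [hphi]
        exact hTTinv (ψ x) i g hig
      · exact cellSub_mono φ r (hCTT t ht) (hC2 t ht)
    · rw [Subgroup.map_commutator]
    · rw [Subgroup.map_le_iff_le_comap, Subgroup.closure_le]
      rintro _ ⟨y, hy, rfl⟩
      refine Subgroup.mem_comap.2 ?_
      rw [map_pow]
      exact Subgroup.subset_closure ⟨FreeGroup.lift u y, ⟨y, hy, rfl⟩, rfl⟩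
  obtain ⟨Q, hQ, hQ2⟩ := fp_of_cells φ r hr1 H ψ hψ u hu q hq1 hq T0 hT0 (by
    intro w hw
    exact hkey ⟨w, hw, rfl⟩)
  exact ⟨n, ψ, hψ, Q, hQ, hQ2⟩

end Pool.Agent.L2Coh
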