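import Pool.Agent.L2Coh.Circle
import Pool.Agent.L2Coh.Alg
import Pool.Agent.L2Coh.ExpDefs

/-!
# Subgroups of type `FP₂` and subquadratic homological fillings
-/

namespace Pool.Agent.L2Coh

/-- The norm of a chain. -/
noncomputable def nrm {X : Type*} (c : X →₀ ℤ) : ℤ := ∑ p ∈ c.support, |c p|

lemma nrm_eq_of_subset {X : Type*} (c : X →₀ ℤ) (s : Finset X) (hs : c.support ⊆ s) :
    nrm c = ∑ p ∈ s, |c p| := by
  unfold nrm
  apply Finset.sum_subset hs
  intro p _ hp
  rw [Finsupp.notMem_support_iff.1 hp, abs_zero]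

lemma nrm_nonneg {X : Type*} (c : X →₀ ℤ) : 0 ≤ nrm c :=
  Finset.sum_nonneg fun _ _ => abs_nonneg _

lemma nrm_zero {X : Type*} : nrm (0 : X →₀ ℤ) = 0 := by
  unfold nrm
  simp

lemma nrm_neg {X : Type*} (c : X →₀ ℤ) : nrm (-c) = nrm c := by
  unfold nrm
  rw [Finsupp.support_neg]
  apply Finset.sum_congr rfl
  intro p _
  rw [Finsupp.neg_apply, abs_neg]

lemma nrm_add_le {X : Type*} (a b : X →₀ ℤ) : nrm (a + b) ≤ nrm a + nrm b := by
  classical
  rw [nrm_eq_of_subset (a + b) (a.support ∪ b.support) Finsupp.support_add,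
    nrm_eq_of_subset a (a.support ∪ b.support) Finset.subset_union_left,
    nrm_eq_of_subset b (a.support ∪ b.support) Finset.subset_union_right,
    ← Finset.sum_add_distrib]
  apply Finset.sum_le_sum
  intro p _
  rw [Finsupp.add_apply]
  exact abs_add_le _ _

lemma nrm_single {X : Type*} (p : X) (n : ℤ) : nrm (Finsupp.single p n) = |n| := by
  classical
  rw [nrm_eq_of_subset _ {p} Finsupp.support_single_subset, Finset.sum_singleton,
    Finsupp.single_eq_same]

lemma nrm_sum_le {X A : Type*} (s : Finset A) (f : A → (X →₀ ℤ)) :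
    nrm (∑ i ∈ s, f i) ≤ ∑ i ∈ s, nrm (f i) := by
  classical
  induction s using Finset.induction_on with
  | empty => rw [Finset.sum_empty, Finset.sum_empty, nrm_zero]
  | insert a s ha ih =>
    rw [Finset.sum_insert ha, Finset.sum_insert ha]
    exact (nrm_add_le _ _).trans (by linarith)

lemma nrm_mapDomain_le {X Y : Type*} (f : X → Y) (c : X →₀ ℤ) :
    nrm (Finsupp.mapDomain f c) ≤ nrm c := by
  have h1 : Finsupp.mapDomain f c = ∑ p ∈ c.support, Finsupp.single (f p) (c p) := rfl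
  rw [h1]
  refine (nrm_sum_le _ _).trans ?_
  unfold nrm
  apply Finset.sum_le_sum
  intro p _
  exact (nrm_single _ _).le

lemma nrm_lm_le {G A : Type*} [Group G] (h : G) (c : G × A →₀ ℤ) : nrm (lm h c) ≤ nrm c :=
  nrm_mapDomain_le _ _

lemma nrm_zsmul {X : Type*} (m : ℤ) (c : X →₀ ℤ) : nrm (m • c) ≤ |m| * nrm c := by
  rw [nrm_eq_of_subset (m • c) c.support Finsupp.support_smul]
  unfold nrm
  rw [Finset.mul_sum]
  apply Finset.sum_le_sum
  intro p _
  rw [Finsupp.smul_apply, smul_eq_mul, abs_mul]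

/-- The quantitative version of `finite_relations`. -/
theorem quant_relations {G S J ι : Type*} [Group G] (φ : FreeGroup S →* G)
    (r : ι → FreeGroup S) (hr1 : ∀ i, φ (r i) = 1) (H : Subgroup G) (ψ : FreeGroup J →* H)
    (σ : H → FreeGroup J) (hσ : ∀ h, ψ (σ h) = h)
    (u : J → FreeGroup S) (hu : ∀ j, φ (u j) = (ψ (FreeGroup.of j) : G))
    (q : G → H) (hq1 : q 1 = 1) (hq : ∀ (h : H) (g : G), q (h * g) = h * q g)
    (T0 : Finset (G × ι)) :
    ∃ nn : J ⊕ T0 → FreeGroup J, (∀ k, ψ (nn k) = 1) ∧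
      ∀ (w : FreeGroup J) (l : List (J × Bool)), FreeGroup.mk l = w →
        ∀ c : G × ι →₀ ℤ, bd (fun i => fch φ 1 (r i)) c = fch φ 1 (FreeGroup.lift u w) →
        (∀ p ∈ c.support, (((q p.1 : G))⁻¹ * p.1, p.2) ∈ T0) →
        ∃ c' : H × (J ⊕ T0) →₀ ℤ, bd (fun k => fch ψ 1 (nn k)) c' = fch ψ 1 w ∧
          nrm c' ≤ nrm c + l.length := by
  classical
  set v : ι → (G × S →₀ ℤ) := fun i => fch φ 1 (r i) with hv
  set Uc : (H × J →₀ ℤ) →+ (G × S →₀ ℤ) :=
    (bd (fun j => fch φ 1 (u j))).comp (incl H) with hUc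
  have hUfch : ∀ (h : H) (w : FreeGroup J), Uc (fch ψ h w) = fch φ (h : G) (FreeGroup.lift u w) :=
    fun h w => bd_incl_fch φ H ψ u hu h w
  let ρ : (G × S →₀ ℤ) →+ (H × J →₀ ℤ) :=
    Finsupp.liftAddHom (fun p => (zmultiplesHom _
      (fch ψ (q p.1) (σ ((q p.1)⁻¹ * q (p.1 * φ (FreeGroup.of p.2)))))))
  have hρs : ∀ g s, ρ (Finsupp.single (g, s) 1) =
      fch ψ (q g) (σ ((q g)⁻¹ * q (g * φ (FreeGroup.of s)))) := by
    intro g s
    simp [ρ]
  have hρlm : ∀ (h : H) (c : G × S →₀ ℤ), ρ (lm (h : G) c) = lm h (ρ c) := by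
    intro h c
    induction c using Finsupp.induction_linear with
    | zero => simp
    | add f g hf hg => rw [map_add, map_add, hf, hg, map_add, map_add]
    | single p n =>
      obtain ⟨g, s⟩ := p
      have h1 : (Finsupp.single (g, s) n : G × S →₀ ℤ) = n • Finsupp.single (g, s) 1 := by simp
      rw [h1, map_zsmul, map_zsmul, map_zsmul, map_zsmul, lm_single, hρs, hρs, ← fch_lm, hq,
        mul_assoc (h : G) g, hq]
      congr 3
      group
  have hρbd : ∀ c : G × S →₀ ℤ,
      bd1 ψ (ρ c) = Finsupp.mapDomain q (bd1 φ c) := by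
    intro c
    induction c using Finsupp.induction_linear with
    | zero => simp
    | add f g hf hg => rw [map_add, map_add, hf, hg, map_add, Finsupp.mapDomain_add]
    | single p n =>
      obtain ⟨g, s⟩ := p
      have h1 : (Finsupp.single (g, s) n : G × S →₀ ℤ) = n • Finsupp.single (g, s) 1 := by simp
      rw [h1, map_zsmul, map_zsmul, map_zsmul, Finsupp.mapDomain_smul, hρs, bd1_fch, bd1_single,
        hσ]
      congr 1
      have h2 : (Finsupp.single (g * φ (FreeGroup.of s)) 1 - Finsupp.single g 1 : G →₀ ℤ) =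
        Finsupp.single (g * φ (FreeGroup.of s)) 1 + (-1 : ℤ) • Finsupp.single g 1 := by
        simp [sub_eq_add_neg]
      rw [h2, Finsupp.mapDomain_add, Finsupp.mapDomain_smul, Finsupp.mapDomain_single,
        Finsupp.mapDomain_single, mul_inv_cancel_left]
      simp [sub_eq_add_neg]
  let D : (H × J →₀ ℤ) →+ (H × J →₀ ℤ) := ρ.comp Uc - AddMonoidHom.id _
  have hD : ∀ z, D z = ρ (Uc z) - z := fun z => rfl
  have hUlm : ∀ (h : H) z, Uc (lm h z) = lm (h : G) (Uc z) := by
    intro h z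
    rw [hUc, AddMonoidHom.comp_apply, AddMonoidHom.comp_apply, incl_lm, bd_lm]
  have hDlm : ∀ (h : H) z, D (lm h z) = lm h (D z) := by
    intro h z
    rw [hD, hD, hUlm, hρlm, map_sub]
  have hqH : ∀ h : H, q (h : G) = h := by
    intro h
    have := hq h 1
    rwa [mul_one, hq1, mul_one] at this
  have hDbd : ∀ j : J, bd1 ψ (D (Finsupp.single (1, j) 1)) = 0 := by
    intro j
    have h0 : (Finsupp.single (1, j) 1 : H × J →₀ ℤ) = fch ψ 1 (FreeGroup.of j) := by
      rw [fch_of]
    rw [hD, h0, map_sub, hρbd, hUfch, bd1_fch, bd1_fch, FreeGroup.lift_apply_of, hu]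
    have h2 : (Finsupp.single (((1 : H) : G) * (ψ (FreeGroup.of j) : G)) 1
        - Finsupp.single ((1 : H) : G) 1 : G →₀ ℤ) =
        Finsupp.single (((1 * ψ (FreeGroup.of j) : H) : G)) 1
          + (-1 : ℤ) • Finsupp.single ((1 : H) : G) 1 := by
      simp [sub_eq_add_neg]
    rw [h2, Finsupp.mapDomain_add, Finsupp.mapDomain_smul, Finsupp.mapDomain_single,
      Finsupp.mapDomain_single, hqH, hqH]
    simp [sub_eq_add_neg]
  have hRbd : ∀ t : G × ι, bd1 ψ (ρ (bd v (Finsupp.single t 1))) = 0 := by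
    rintro ⟨g, i⟩
    have h1 : bd v (Finsupp.single (g, i) 1) = fch φ g (r i) := by
      rw [bd_single, one_smul, hv, ← fch_lm']
    rw [hρbd, h1, bd1_fch, hr1, mul_one, sub_self, Finsupp.mapDomain_zero]
  choose nD hnD1 hnD2 using fun j : J => exists_fch_eq ψ σ hσ _ (hDbd j)
  choose nR hnR1 hnR2 using fun t : G × ι => exists_fch_eq ψ σ hσ _ (hRbd t)
  let nn : J ⊕ T0 → FreeGroup J := Sum.elim nD (fun t => nR t.1)
  refine ⟨nn, ?_, ?_⟩
  · rintro (j | t)
    · exact hnD1 j
    · exact hnR1 t.1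
  intro w l hl c hc1 hc2
  -- chains with a filling of given norm
  let P : (H × J →₀ ℤ) → ℤ → Prop := fun z N =>
    ∃ c' : H × (J ⊕ T0) →₀ ℤ, bd (fun k => fch ψ 1 (nn k)) c' = z ∧ nrm c' ≤ N
  have hPadd : ∀ a b N M, P a N → P b M → P (a + b) (N + M) := by
    rintro a b N M ⟨x, hx, hx2⟩ ⟨y, hy, hy2⟩
    exact ⟨x + y, by rw [map_add, hx, hy], (nrm_add_le x y).trans (add_le_add hx2 hy2)⟩
  have hPneg : ∀ a N, P a N → P (-a) N := by
    rintro a N ⟨x, hx, hx2⟩
    exact ⟨-x, by rw [map_neg, hx], by rw [nrm_neg]; exact hx2⟩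
  have hPlm : ∀ (h : H) a N, P a N → P (lm h a) N := by
    rintro h a N ⟨x, hx, hx2⟩
    exact ⟨lm h x, by rw [bd_lm, hx], (nrm_lm_le h x).trans hx2⟩
  have hPsmul : ∀ (m : ℤ) a, P a 1 → P (m • a) |m| := by
    rintro m a ⟨x, hx, hx2⟩
    refine ⟨m • x, by rw [map_zsmul, hx], (nrm_zsmul m x).trans ?_⟩
    calc |m| * nrm x ≤ |m| * 1 := mul_le_mul_of_nonneg_left hx2 (abs_nonneg _)
      _ = |m| := mul_one _
  have hPzero : P 0 0 := ⟨0, map_zero _, nrm_zero.le⟩
  have hPsum : ∀ (s : Finset (G × ι)) (f : G × ι → (H × J →₀ ℤ)) (N : G × ι → ℤ),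
      (∀ p ∈ s, P (f p) (N p)) → P (∑ p ∈ s, f p) (∑ p ∈ s, N p) := by
    intro s f N
    induction s using Finset.induction_on with
    | empty =>
      intro _
      rw [Finset.sum_empty, Finset.sum_empty]
      exact hPzero
    | insert a s ha ih =>
      intro h
      rw [Finset.sum_insert ha, Finset.sum_insert ha]
      exact hPadd _ _ _ _ (h a (Finset.mem_insert_self a s))
        (ih fun p hp => h p (Finset.mem_insert_of_mem hp))
  have hPD : ∀ j : J, P (D (Finsupp.single (1, j) 1)) 1 := by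
    intro j
    refine ⟨Finsupp.single (1, Sum.inl j) 1, ?_, by rw [nrm_single, abs_one]⟩
    rw [bd_single, one_smul, lm_one]
    exact hnD2 j
  have hPR : ∀ t ∈ T0, P (ρ (bd v (Finsupp.single t 1))) 1 := by
    intro t ht
    refine ⟨Finsupp.single (1, Sum.inr ⟨t, ht⟩) 1, ?_, by rw [nrm_single, abs_one]⟩
    rw [bd_single, one_smul, lm_one]
    exact hnR2 t
  have hPword : ∀ (l : List (J × Bool)) (h : H), P (D (pathChain ψ h l)) l.length := by
    intro l
    induction l with
    | nil =>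
      intro h
      rw [pathChain, map_zero]
      exact hPzero
    | cons a l ih =>
      intro h
      obtain ⟨s, b⟩ := a
      have hlen : (((s, b) :: l).length : ℤ) = 1 + (l.length : ℤ) := by
        rw [List.length_cons]
        push_cast
        ring
      rw [hlen]
      have hs1 : ∀ h : H, P (D (Finsupp.single (h, s) 1)) 1 := by
        intro h
        have h1 : (Finsupp.single (h, s) 1 : H × J →₀ ℤ) = lm h (Finsupp.single (1, s) 1) := by
          rw [lm_single, mul_one]
        rw [h1, hDlm]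
        exact hPlm h _ _ (hPD s)
      cases b
      · rw [pathChain, map_sub, sub_eq_add_neg, add_comm]
        exact hPadd _ _ _ _ (hPneg _ _ (hs1 _)) (ih _)
      · rw [pathChain, map_add]
        exact hPadd _ _ _ _ (hs1 _) (ih _)
  have hPcells : P (ρ (bd v c)) (nrm c) := by
    rw [← Finsupp.sum_single c, Finsupp.sum, map_sum, map_sum]
    have hn : nrm (∑ a ∈ c.support, Finsupp.single a (c a)) = ∑ p ∈ c.support, |c p| := by
      have : ∑ a ∈ c.support, Finsupp.single a (c a) = c := Finsupp.sum_single c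
      rw [this]
      rfl
    rw [hn]
    apply hPsum
    rintro ⟨g, i⟩ hp
    have h1 : (Finsupp.single (g, i) (c (g, i)) : G × ι →₀ ℤ) =
        (c (g, i)) • lm ((q g : H) : G) (Finsupp.single ((q g : G)⁻¹ * g, i) 1) := by
      rw [lm_single]; simp
    rw [h1, map_zsmul, map_zsmul, bd_lm, hρlm]
    exact hPsmul _ _ (hPlm _ _ _ (hPR _ (hc2 _ hp)))
  have h1 : fch ψ 1 w = ρ (bd v c) + -D (fch ψ 1 w) := by
    rw [hD, hUfch, hc1, Subgroup.coe_one]
    abel
  have h2 : P (fch ψ 1 w) (nrm c + l.length) := by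
    rw [h1]
    apply hPadd _ _ _ _ hPcells
    apply hPneg
    rw [← hl, fch_mk]
    exact hPword l 1
  exact h2

lemma sum_eq_bd {G S ι : Type*} [Group G] (φ : FreeGroup S →* G) (r : ι → List (S × Bool))
    (c : ι × G →₀ ℤ) : (c.sum fun p n => n • pathChain φ p.2 (r p.1)) =
      bd (fun i => fch φ 1 (FreeGroup.mk (r i))) (Finsupp.mapDomain Prod.swap c) := by
  induction c using Finsupp.induction_linear with
  | zero => simp
  | add f g hf hg =>
    rw [Finsupp.sum_add_index', hf, hg, Finsupp.mapDomain_add, map_add]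
    · intro a; simp
    · intro a m n; rw [add_smul]
  | single p n =>
    obtain ⟨i, g⟩ := p
    rw [Finsupp.sum_single_index (by simp), Finsupp.mapDomain_single]
    show n • pathChain φ g (r i) = bd _ (Finsupp.single (g, i) n)
    rw [bd_single, ← fch_lm', fch_mk]

/-- If `H₂(X̃) = 0` and `X̃` satisfies a subquadratic homological isoperimetric inequality then all
subgroups of type `FP₂` are finitely presented. -/
theorem fp_of_subquadratic {G S ι : Type*} [Group G] (φ : FreeGroup S →* G)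
    (hφ : Function.Surjective φ) (r : ι → List (S × Bool))
    (hr : φ.ker = Subgroup.normalClosure (Set.range fun i => FreeGroup.mk (r i)))
    (hinj : SecondHomologyZero φ r) (hfil : SubquadraticFilling φ r) (H : Subgroup G)
    (hH : TypeFP2 H) : Group.IsFinitelyPresented H := by
  classical
  have hr1 : ∀ i, φ (FreeGroup.mk (r i)) = 1 := by
    intro i
    have : FreeGroup.mk (r i) ∈ φ.ker := by
      rw [hr]
      exact Subgroup.subset_normalClosure ⟨i, rfl⟩
    exact this
  set v : ι → (G × S →₀ ℤ) := fun i => fch φ 1 (FreeGroup.mk (r i)) with hv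
  have hswap : ∀ d : G × ι →₀ ℤ,
      Finsupp.mapDomain Prod.swap (Finsupp.mapDomain Prod.swap d) = d := by
    intro d
    rw [← Finsupp.mapDomain_comp]
    have : (Prod.swap ∘ Prod.swap : G × ι → G × ι) = id := by
      funext p
      rfl
    rw [this, Finsupp.mapDomain_id]
  have hinj' : ∀ a b : G × ι →₀ ℤ, bd v a = bd v b → a = b := by
    intro a b hab
    have h1 := hinj (Finsupp.mapDomain Prod.swap (a - b)) (by
      rw [sum_eq_bd, hswap, map_sub]
      exact sub_eq_zero.2 hab)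
    have h2 := congrArg (Finsupp.mapDomain Prod.swap) h1
    rw [hswap, Finsupp.mapDomain_zero] at h2
    exact sub_eq_zero.1 h2
  obtain ⟨q, hq1, hq⟩ : ∃ q : G → H, q 1 = 1 ∧ ∀ (h : H) (g : G), q (h * g) = h * q g := by
    obtain ⟨Tr, hTr, hTr1⟩ := H.exists_isComplement_right 1
    refine ⟨fun g => (hTr.equiv g).1, ?_, ?_⟩
    · have := hTr.equiv_one (one_mem H) hTr1
      show (hTr.equiv 1).1 = 1
      rw [this]
      rfl
    · intro h g
      show (hTr.equiv (h * g)).1 = h * (hTr.equiv g).1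
      rw [hTr.equiv_mul_left]
  obtain ⟨hfg, hpres⟩ := hH
  obtain ⟨α, hα, π', hπ'⟩ := Group.fg_iff_exists_freeGroup_hom_surjective_finite.1 hfg
  obtain ⟨n, ⟨e⟩⟩ := Finite.exists_equiv_fin α
  let ψ : FreeGroup (Fin n) →* H := π'.comp (FreeGroup.freeGroupCongr e).symm.toMonoidHom
  have hψ : Function.Surjective ψ := hπ'.comp (FreeGroup.freeGroupCongr e).symm.surjective
  obtain ⟨T, hT, hT2⟩ := hpres n ψ hψ
  choose u hu using fun j : Fin n => hφ (ψ (FreeGroup.of j) : G)
  have hphi : ∀ w, φ (FreeGroup.lift u w) = (ψ w : G) := fun w => phi_lift φ H ψ u hu w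
  have hTker : ∀ t ∈ T, ψ t = 1 := by
    intro t ht
    have : t ∈ ψ.ker := by
      rw [hT2]
      exact Subgroup.mem_sup_left (Subgroup.subset_normalClosure ht)
    exact this
  have hcells : ∀ t : FreeGroup (Fin n), ∃ c : G × ι →₀ ℤ,
      t ∈ T → bd v c = fch φ 1 (FreeGroup.lift u t) := by
    intro t
    by_cases ht : t ∈ T
    · obtain ⟨c, hc⟩ := exists_bd_eq φ (fun i => FreeGroup.mk (r i)) hr (FreeGroup.lift u t) (by
        rw [hphi, hTker t ht]
        rfl)
      exact ⟨c, fun _ => hc⟩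
    · exact ⟨0, fun h => absurd h ht⟩
  choose ct hct using hcells
  let nf : G × ι → G × ι := fun p => (((q p.1 : G))⁻¹ * p.1, p.2)
  have hnf : ∀ (h : H) (g : G) (i : ι), nf ((h : G) * g, i) = nf (g, i) := by
    intro h g i
    show ((((q ((h : G) * g) : G))⁻¹ * ((h : G) * g), i) : G × ι) = ((q g : G)⁻¹ * g, i)
    rw [hq, Subgroup.coe_mul]
    congr 1
    group
  let T0 : Finset (G × ι) := hT.toFinset.biUnion (fun t => (ct t).support.image nf)
  -- all relators are filled in the orbits of `T0`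
  have hfill0 : ∀ w : FreeGroup (Fin n), ψ w = 1 → ∃ c : G × ι →₀ ℤ,
      bd v c = fch φ 1 (FreeGroup.lift u w) ∧ ∀ p ∈ c.support, nf p ∈ T0 := by
    let E : Subgroup (FreeGroup (Fin n)) :=
      { carrier := {w | ψ w = 1 ∧ ∃ c : G × ι →₀ ℤ,
          bd v c = fch φ 1 (FreeGroup.lift u w) ∧ ∀ p ∈ c.support, nf p ∈ T0}
        mul_mem' := by
          rintro a b ⟨ha, c, hc, hc2⟩ ⟨hb, d, hd, hd2⟩
          refine ⟨by rw [map_mul, ha, hb, one_mul], c + d, ?_, ?_⟩
          · rw [map_add, hc, hd, map_mul, fch_mul, hphi, ha, Subgroup.coe_one, mul_one]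
          · intro p hp
            rcases Finset.mem_union.1 (Finsupp.support_add hp) with h | h
            · exact hc2 p h
            · exact hd2 p h
        one_mem' := ⟨map_one ψ, 0, by rw [map_zero, map_one, fch_one], by simp⟩
        inv_mem' := by
          rintro a ⟨ha, c, hc, hc2⟩
          refine ⟨by rw [map_inv, ha, inv_one], -c, ?_, ?_⟩
          · rw [map_neg, hc, map_inv, fch_inv, hphi, ha, Subgroup.coe_one, inv_one, mul_one]
          · intro p hp
            rw [Finsupp.support_neg] at hp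
            exact hc2 p hp }
    have hEn : E.Normal := by
      constructor
      rintro w ⟨hw, c, hc, hc2⟩ g
      refine ⟨by rw [map_mul, map_mul, hw, mul_one, map_inv, mul_inv_cancel],
        lm (ψ g : G) c, ?_, ?_⟩
      · rw [bd_lm, hc, map_mul, map_mul, map_inv, fch_mul, fch_mul, map_mul, hphi, hphi, hw,
          Subgroup.coe_one, mul_one, fch_inv, hphi, one_mul, mul_inv_cancel, ← fch_lm, mul_one]
        abel
      · rintro ⟨k, i⟩ hp
        rw [Finsupp.mem_support_iff, lm_apply] at hp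
        have h1 := hc2 ((ψ g : G)⁻¹ * k, i) (Finsupp.mem_support_iff.2 hp)
        rw [← hnf (ψ g) ((ψ g : G)⁻¹ * k) i, mul_inv_cancel_left] at h1
        exact h1
    intro w hw
    have hle : ψ.ker ≤ E := by
      rw [hT2]
      apply sup_le
      · apply Subgroup.normalClosure_le_normal
        intro t ht
        refine ⟨hTker t ht, ct t, hct t ht, ?_⟩
        intro p hp
        exact Finset.mem_biUnion.2 ⟨t, hT.mem_toFinset.2 ht, Finset.mem_image_of_mem nf hp⟩
      · rw [Subgroup.commutator_le]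
        intro a ha b hb
        have ha1 : ψ a = 1 := ha
        have hb1 : ψ b = 1 := hb
        refine ⟨?_, 0, ?_, by simp⟩
        · rw [commutatorElement_def, map_mul, map_mul, map_mul, map_inv, map_inv, ha1, hb1]
          simp
        · rw [map_zero, commutatorElement_def, map_mul, map_mul, map_mul, map_inv, map_inv]
          rw [fch_mul, fch_mul, fch_mul, fch_inv, fch_inv]
          simp only [map_mul, map_inv, hphi, ha1, hb1, Subgroup.coe_one, mul_one, inv_one]
          abel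
    exact (hle hw).2
  -- the quantitative version
  choose σ hσ using hψ
  obtain ⟨nn, hnn, hquant⟩ := quant_relations φ (fun i => FreeGroup.mk (r i)) hr1 H ψ σ hσ u hu
    q hq1 hq T0
  have hψ : Function.Surjective ψ := fun h => ⟨σ h, hσ h⟩
  -- the lengths of the words `u w`
  obtain ⟨M, hM⟩ : ∃ M : ℕ, ∀ w : FreeGroup (Fin n), (FreeGroup.lift u w).norm ≤ M * w.norm := by
    let M : ℕ := Finset.univ.sup fun j => (u j).norm
    have hMj : ∀ j, (u j).norm ≤ M := fun j =>
      Finset.le_sup (f := fun j => (u j).norm) (Finset.mem_univ j)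
    have hl : ∀ l : List (Fin n × Bool),
        (FreeGroup.lift u (FreeGroup.mk l)).norm ≤ M * l.length := by
      intro l
      induction l with
      | nil =>
        have : FreeGroup.mk ([] : List (Fin n × Bool)) = 1 := rfl
        rw [this, map_one, FreeGroup.norm_one]
        exact Nat.zero_le _
      | cons a l ih =>
        obtain ⟨s, b⟩ := a
        have h2 := hMj s
        cases b
        · rw [mk_cons_false, map_mul, map_inv, FreeGroup.lift_apply_of, List.length_cons]
          have h1 := FreeGroup.norm_mul_le (u s)⁻¹ (FreeGroup.lift u (FreeGroup.mk l))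
          rw [FreeGroup.norm_inv_eq] at h1
          rw [mul_add, mul_one]
          omega
        · rw [mk_cons_true, map_mul, FreeGroup.lift_apply_of, List.length_cons]
          have h1 := FreeGroup.norm_mul_le (u s) (FreeGroup.lift u (FreeGroup.mk l))
          rw [mul_add, mul_one]
          omega
    refine ⟨M, fun w => ?_⟩
    have h1 := hl w.toWord
    rwa [FreeGroup.mk_toWord] at h1
  obtain ⟨Q, hQ, hQ2⟩ := fp_of_filling ψ hψ nn hnn (by
    intro ε hε
    obtain ⟨C, hC⟩ := hfil (ε / (3 * ((M : ℝ) ^ 2 + 1))) (by positivity)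
    obtain ⟨ℓ₀, hℓ₀⟩ := exists_nat_ge (3 * (|C| + 1) / ε + 3 / ε + 1)
    refine ⟨ℓ₀, ?_⟩
    intro w hw hwℓ
    obtain ⟨c, hc1, hc2⟩ := hC (FreeGroup.lift u w).toWord (by
      rw [FreeGroup.mk_toWord, hphi, hw]
      rfl)
    let c0 : G × ι →₀ ℤ := Finsupp.mapDomain Prod.swap c
    have hc0 : bd v c0 = fch φ 1 (FreeGroup.lift u w) := by
      have h1 : bd v c0 = pathChain φ 1 (FreeGroup.lift u w).toWord := by
        rw [← hc1, sum_eq_bd]
      rw [h1, ← fch_mk, FreeGroup.mk_toWord]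
    have hc0n : nrm c0 ≤ ∑ p ∈ c.support, |c p| := nrm_mapDomain_le _ _
    obtain ⟨c1, hc11, hc12⟩ := hfill0 w hw
    have hc01 : c0 = c1 := hinj' _ _ (hc0.trans hc11.symm)
    obtain ⟨c', hc'1, hc'2⟩ := hquant w w.toWord FreeGroup.mk_toWord c0 hc0 (by
      rw [hc01]
      exact hc12)
    refine ⟨c', hc'1, ?_⟩
    have h1 : (nrm c' : ℝ) ≤ ((∑ p ∈ c.support, |c p| : ℤ) : ℝ) + (w.norm : ℝ) := by
      have h2 : nrm c' ≤ (∑ p ∈ c.support, |c p|) + (w.norm : ℤ) := by
        have h3 : (w.toWord.length : ℤ) = (w.norm : ℤ) := rfl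
        rw [h3] at hc'2
        linarith
      exact_mod_cast h2
    have h3 : ((FreeGroup.lift u w).toWord.length : ℝ) ≤ M * w.norm := by
      exact_mod_cast hM w
    have h4 : ((FreeGroup.lift u w).toWord.length : ℝ) ^ 2 ≤ (M : ℝ) ^ 2 * (w.norm : ℝ) ^ 2 := by
      rw [← mul_pow]
      exact pow_le_pow_left₀ (by positivity) h3 2
    have h5 : ε / (3 * ((M : ℝ) ^ 2 + 1)) * ((FreeGroup.lift u w).toWord.length : ℝ) ^ 2 ≤
        ε / 3 * (w.norm : ℝ) ^ 2 := by
      have h6 : (M : ℝ) ^ 2 / ((M : ℝ) ^ 2 + 1) ≤ 1 := by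
        rw [div_le_one (by positivity)]
        linarith
      calc ε / (3 * ((M : ℝ) ^ 2 + 1)) * ((FreeGroup.lift u w).toWord.length : ℝ) ^ 2
          ≤ ε / (3 * ((M : ℝ) ^ 2 + 1)) * ((M : ℝ) ^ 2 * (w.norm : ℝ) ^ 2) :=
            mul_le_mul_of_nonneg_left h4 (by positivity)
        _ = ε / 3 * (w.norm : ℝ) ^ 2 * ((M : ℝ) ^ 2 / ((M : ℝ) ^ 2 + 1)) := by
            field_simp
        _ ≤ ε / 3 * (w.norm : ℝ) ^ 2 := mul_le_of_le_one_right (by positivity) h6
    have h6 : (ℓ₀ : ℝ) ≤ w.norm := by exact_mod_cast hwℓ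
    have h7 : 3 * (|C| + 1) / ε + 3 / ε + 1 ≤ (w.norm : ℝ) := hℓ₀.trans h6
    have h8 : 0 ≤ 3 * (|C| + 1) / ε := by positivity
    have h9 : 0 ≤ 3 / ε := by positivity
    have h10 : (1 : ℝ) ≤ w.norm := by linarith
    have h11 : (w.norm : ℝ) ≤ ε / 3 * (w.norm : ℝ) ^ 2 := by
      have h12 : 3 / ε ≤ (w.norm : ℝ) := by linarith
      have h13 : 3 ≤ w.norm * ε := (div_le_iff₀ hε).1 h12
      nlinarith
    have h12 : C ≤ ε / 3 * (w.norm : ℝ) ^ 2 := by
      have h13 : 3 * (|C| + 1) / ε ≤ (w.norm : ℝ) := by linarith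
      have h14 : 3 * (|C| + 1) ≤ w.norm * ε := (div_le_iff₀ hε).1 h13
      have h15 := le_abs_self C
      nlinarith
    show (nrm c' : ℝ) ≤ ε * (w.norm : ℝ) ^ 2
    linarith)
  exact ⟨n, ψ, hψ, Q, hQ, hQ2⟩

end Pool.Agent.L2Coh
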