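import Pool.Agent.L2Coh.ExpDefs
import Pool.Agent.L2Coh.Chain

/-!
# Unions of 2-cells in expandable complexes

The main result of this file: if the universal cover of the presentation complex is built from a
graph by elementary expansions, then the fundamental groups of the unions of the 1-skeleton with
2-cells embed in free groups, so they do not contain nontrivial perfect subgroups.
-/

namespace Pool.Agent.L2Coh

open scoped commutatorElement

section path

variable {G S : Type*} [Group G] (φ : FreeGroup S →* G)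

lemma edgePath_append (g : G) (w w' : List (S × Bool)) :
    edgePath φ g (w ++ w') = edgePath φ g w ++ edgePath φ (g * φ (FreeGroup.mk w)) w' := by
  induction w generalizing g with
  | nil =>
    have : FreeGroup.mk ([] : List (S × Bool)) = 1 := rfl
    simp [edgePath, this]
  | cons a w ih =>
    obtain ⟨s, b⟩ := a
    cases b
    · rw [List.cons_append, edgePath, edgePath, ih, mk_cons_false, map_mul, map_inv, mul_assoc]
      rfl
    · rw [List.cons_append, edgePath, edgePath, ih, mk_cons_true, map_mul, mul_assoc]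
      rfl

lemma mk_edgePath_step (g : G) {w w' : List (S × Bool)} (h : FreeGroup.Red.Step w w') :
    FreeGroup.mk (edgePath φ g w) = FreeGroup.mk (edgePath φ g w') := by
  obtain ⟨⟩ := h
  rename_i L₁ L₂ x b
  rw [edgePath_append, edgePath_append, ← FreeGroup.mul_mk, ← FreeGroup.mul_mk]
  congr 1
  cases b
  · simp only [Bool.not_false, edgePath, inv_mul_cancel_right]
    exact Quot.sound (FreeGroup.Red.Step.cons_not (b := false))
  · simp only [Bool.not_true, edgePath, mul_inv_cancel_right]
    exact Quot.sound (FreeGroup.Red.Step.cons_not (b := true))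

/-- The path labelled by an element of the free group, in the free group on the edges. -/
def fpw (g : G) : FreeGroup S → FreeGroup (G × S) :=
  Quot.lift (fun w => FreeGroup.mk (edgePath φ g w)) (fun _ _ h => mk_edgePath_step φ g h)

lemma fpw_mk (g : G) (w : List (S × Bool)) :
    fpw φ g (FreeGroup.mk w) = FreeGroup.mk (edgePath φ g w) := rfl

lemma fpw_mul (g : G) (u v : FreeGroup S) :
    fpw φ g (u * v) = fpw φ g u * fpw φ (g * φ u) v := by
  induction u using Quot.inductionOn with
  | h a =>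
  induction v using Quot.inductionOn with
  | h b =>
    show FreeGroup.mk (edgePath φ g (a ++ b)) = _
    rw [edgePath_append, ← FreeGroup.mul_mk]
    rfl

lemma fpw_one (g : G) : fpw φ g 1 = 1 := rfl

lemma fpw_of (g : G) (s : S) : fpw φ g (FreeGroup.of s) = FreeGroup.of (g, s) := by
  show FreeGroup.mk (edgePath φ g [(s, true)]) = _
  simp [edgePath, FreeGroup.of]

lemma fpw_inv (g : G) (u : FreeGroup S) : fpw φ g u⁻¹ = (fpw φ (g * (φ u)⁻¹) u)⁻¹ := by
  have h := fpw_mul φ (g * (φ u)⁻¹) u u⁻¹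
  rw [mul_inv_cancel, fpw_one, inv_mul_cancel_right] at h
  exact eq_inv_of_mul_eq_one_right h.symm

/-- The path `x w x⁻¹` with `w` a loop. -/
lemma fpw_conj (g : G) (x w : FreeGroup S) (hw : φ w = 1) :
    fpw φ g (x * w * x⁻¹) = fpw φ g x * fpw φ (g * φ x) w * (fpw φ g x)⁻¹ := by
  rw [fpw_mul, fpw_mul, map_mul, hw, mul_one, fpw_inv, mul_inv_cancel_right]

/-- Paths are determined by their edges: the retraction. -/
lemma lift_fpw (t : G → FreeGroup S) (g : G) (w : FreeGroup S) :
    FreeGroup.lift (fun p : G × S => t p.1 * FreeGroup.of p.2 * (t (p.1 * φ (FreeGroup.of p.2)))⁻¹)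
      (fpw φ g w) = t g * w * (t (g * φ w))⁻¹ := by
  induction w generalizing g with
  | C1 => rw [fpw_one, map_one, map_one, mul_one, mul_one, mul_inv_cancel]
  | of x => rw [fpw_of, FreeGroup.lift_apply_of]
  | inv_of x _ =>
    rw [fpw_inv, fpw_of, map_inv, FreeGroup.lift_apply_of, inv_mul_cancel_right, map_inv]
    group
  | mul x y hx hy =>
    rw [fpw_mul, map_mul, hx, hy, map_mul, mul_assoc g]
    group

end path

/-- Homomorphisms which agree modulo a normal subgroup on the letters of a word. -/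
lemma mk_congr {E Q : Type*} [Group Q] (f f' : FreeGroup E →* Q) (l : List (E × Bool))
    (h : ∀ x ∈ l, f (FreeGroup.of x.1) = f' (FreeGroup.of x.1)) :
    f (FreeGroup.mk l) = f' (FreeGroup.mk l) := by
  induction l with
  | nil =>
    have : FreeGroup.mk ([] : List (E × Bool)) = 1 := rfl
    rw [this, map_one, map_one]
  | cons a l ih =>
    obtain ⟨x, b⟩ := a
    have h1 := ih (fun y hy => h y (List.mem_cons_of_mem _ hy))
    have h2 := h (x, b) List.mem_cons_self
    cases b
    · rw [mk_cons_false, map_mul, map_mul, map_inv, map_inv, h1, h2]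
    · rw [mk_cons_true, map_mul, map_mul, h1, h2]

/-- A subgroup `P` of a free group with `P = [P, P] P^m`, `m ≠ 1`, is trivial. -/
lemma perfect_eq_bot {E : Type*} (m : ℕ) (hm : m ≠ 1) (P : Subgroup (FreeGroup E))
    (hP : P ≤ ⁅P, P⁆ ⊔ Subgroup.closure {x | ∃ y ∈ P, x = y ^ m}) : P = ⊥ := by
  have hfree : IsFreeGroup P := inferInstance
  obtain ⟨X, ⟨b⟩⟩ := hfree.nonempty_basis
  have hX : IsEmpty X := by
    by_contra hne
    rw [not_isEmpty_iff] at hne
    obtain ⟨x₀⟩ := hne
    let f : P →* Multiplicative (ZMod m) := b.lift (fun _ => Multiplicative.ofAdd 1)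
    have hf : f (b x₀) = Multiplicative.ofAdd 1 := by simp [f]
    -- everything in `[P, P] P^m` is killed
    have h1 : ⁅P, P⁆ ⊔ Subgroup.closure {x | ∃ y ∈ P, x = y ^ m} ≤ f.ker.map P.subtype := by
      apply sup_le
      · rw [Subgroup.commutator_le]
        intro a ha c hc
        refine ⟨⁅(⟨a, ha⟩ : P), (⟨c, hc⟩ : P)⁆, ?_, rfl⟩
        show f ⁅(⟨a, ha⟩ : P), (⟨c, hc⟩ : P)⁆ = 1
        rw [map_commutatorElement, commutatorElement_eq_one_iff_mul_comm]
        exact mul_comm _ _
      · rw [Subgroup.closure_le]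
        rintro _ ⟨y, hy, rfl⟩
        refine ⟨(⟨y, hy⟩ : P) ^ m, ?_, rfl⟩
        show f ((⟨y, hy⟩ : P) ^ m) = 1
        rw [map_pow]
        have h2 : ∀ z : Multiplicative (ZMod m), z ^ m = 1 := by
          intro z
          rw [← ofAdd_toAdd z, ← ofAdd_nsmul]
          simp
        exact h2 _
    obtain ⟨z, hz, hz2⟩ := h1 (hP (b x₀).2)
    have h3 : z = b x₀ := Subtype.ext hz2
    rw [h3] at hz
    have h4 : f (b x₀) = 1 := hz
    rw [hf] at h4
    have h5 : (1 : ZMod m) = 0 := Multiplicative.ofAdd.injective h4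
    have h6 : ((1 : ℕ) : ZMod m) = 0 := by exact_mod_cast h5
    rw [ZMod.natCast_eq_zero_iff] at h6
    exact hm (Nat.dvd_one.1 h6)
  have hsub : Subsingleton P := b.repr.toEquiv.subsingleton
  rw [Subgroup.eq_bot_iff_forall]
  intro x hx
  exact congrArg Subtype.val (Subsingleton.elim (⟨x, hx⟩ : P) 1)

section expand

variable {G S ι : Type*} [Group G] (φ : FreeGroup S →* G) (r : ι → List (S × Bool))

lemma cellSub_le_ker (hr1 : ∀ i, φ (FreeGroup.mk (r i)) = 1) (T : Set (ι × G)) :
    cellSub φ r T ≤ φ.ker := by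
  unfold cellSub
  rw [Subgroup.closure_le]
  rintro _ ⟨x, i, _, rfl⟩
  show φ (x * FreeGroup.mk (r i) * x⁻¹) = 1
  rw [map_mul, map_mul, hr1, mul_one, map_inv, mul_inv_cancel]

lemma cellSub_conj {T : Set (ι × G)} {y z : FreeGroup S}
    (hy : ∀ (i : ι) (g : G), (i, g) ∈ T → (i, φ y * g) ∈ T) (hz : z ∈ cellSub φ r T) :
    y * z * y⁻¹ ∈ cellSub φ r T := by
  unfold cellSub at hz ⊢
  induction hz using Subgroup.closure_induction with
  | mem z hz =>
    obtain ⟨x, i, hx, rfl⟩ := hz
    apply Subgroup.subset_closure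
    refine ⟨y * x, i, ?_, by group⟩
    rw [map_mul]
    exact hy _ _ hx
  | one =>
    rw [mul_one, mul_inv_cancel]
    exact Subgroup.one_mem _
  | mul a b _ _ ha hb =>
    have h1 : y * (a * b) * y⁻¹ = (y * a * y⁻¹) * (y * b * y⁻¹) := by group
    rw [h1]
    exact Subgroup.mul_mem _ ha hb
  | inv a _ ha =>
    have h1 : y * a⁻¹ * y⁻¹ = (y * a * y⁻¹)⁻¹ := by group
    rw [h1]
    exact Subgroup.inv_mem _ ha

lemma cellSub_mono {T T' : Set (ι × G)} (h : T ⊆ T') : cellSub φ r T ≤ cellSub φ r T' := by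
  apply Subgroup.closure_mono
  rintro _ ⟨x, i, hx, rfl⟩
  exact ⟨x, i, h hx, rfl⟩

/-- Every null-homotopic loop is filled by finitely many 2-cells. -/
lemma exists_finite_cells (hr : φ.ker = Subgroup.normalClosure (Set.range fun i =>
    FreeGroup.mk (r i))) (w : FreeGroup S) (hw : φ w = 1) :
    ∃ T : Set (ι × G), T.Finite ∧ w ∈ cellSub φ r T := by
  have h1 : w ∈ Subgroup.normalClosure (Set.range fun i => FreeGroup.mk (r i)) := by
    rw [← hr]
    exact hw
  unfold Subgroup.normalClosure at h1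
  induction h1 using Subgroup.closure_induction with
  | mem z hz =>
    rw [Group.mem_conjugatesOfSet_iff] at hz
    obtain ⟨_, ⟨i, rfl⟩, hc⟩ := hz
    obtain ⟨x, hx⟩ := isConj_iff.1 hc
    refine ⟨{(i, φ x)}, Set.finite_singleton _, Subgroup.subset_closure ⟨x, i, rfl, hx.symm⟩⟩
  | one => exact ⟨∅, Set.finite_empty, Subgroup.one_mem _⟩
  | mul a b ha hb iha ihb =>
    have hle : ∀ z, z ∈ Subgroup.closure (Group.conjugatesOfSet (Set.range fun i =>
        FreeGroup.mk (r i))) → φ z = 1 := by
      intro z hz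
      have : z ∈ φ.ker := by
        rw [hr]
        exact hz
      exact this
    obtain ⟨T, hT, haT⟩ := iha (hle a ha)
    obtain ⟨T', hT', hbT⟩ := ihb (hle b hb)
    refine ⟨T ∪ T', hT.union hT', Subgroup.mul_mem _ ?_ ?_⟩
    · exact cellSub_mono φ r Set.subset_union_left haT
    · exact cellSub_mono φ r Set.subset_union_right hbT
  | inv a ha iha =>
    have hle : φ a = 1 := by
      have : a ∈ φ.ker := by
        rw [hr]
        exact ha
      exact this
    obtain ⟨T, hT, haT⟩ := iha hle
    exact ⟨T, hT, Subgroup.inv_mem _ haT⟩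

/-- The key fact: a subgroup `M` of the fundamental group of the Cayley graph with
`M ≤ cellSub T · [M, M] · M^m` is contained in `cellSub T`. -/
theorem le_cellSub (hφ : Function.Surjective φ) (hr1 : ∀ i, φ (FreeGroup.mk (r i)) = 1)
    (hE : Expandable φ r) (T : Set (ι × G)) (m : ℕ) (hm : m ≠ 1) (M : Subgroup (FreeGroup S))
    (hM : M ≤ φ.ker)
    (hM2 : M ≤ cellSub φ r T ⊔ ⁅M, M⁆ ⊔ Subgroup.closure {x | ∃ y ∈ M, x = y ^ m}) :
    M ≤ cellSub φ r T := by
  classical
  obtain ⟨e, lt, hwf, hinj, honce, hlt⟩ := hE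
  choose l₁ l₂ b hpath hnot using honce
  -- the word for the edge `e c`
  let sw : ι × G → FreeGroup (G × S) := fun c =>
    if b c then (FreeGroup.mk (l₁ c))⁻¹ * (FreeGroup.mk (l₂ c))⁻¹
      else FreeGroup.mk (l₂ c) * FreeGroup.mk (l₁ c)
  let step : (c : ι × G) → ((c' : ι × G) → lt c' c → FreeGroup (G × S)) → FreeGroup (G × S) :=
    fun c rec => FreeGroup.lift (fun x : G × S =>
      if h : ∃ c', lt c' c ∧ c' ∈ T ∧ e c' = x then rec h.choose h.choose_spec.1
        else FreeGroup.of x) (sw c)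
  let V : ι × G → FreeGroup (G × S) := hwf.fix step
  let val : G × S → FreeGroup (G × S) := fun x =>
    if h : ∃ c, c ∈ T ∧ e c = x then V h.choose else FreeGroup.of x
  have hval_e : ∀ c ∈ T, val (e c) = V c := by
    intro c hc
    have h : ∃ c', c' ∈ T ∧ e c' = e c := ⟨c, hc, rfl⟩
    show (if h : ∃ c', c' ∈ T ∧ e c' = e c then V h.choose else FreeGroup.of (e c)) = V c
    rw [dif_pos h, hinj h.choose_spec.2]
  have hval_ne : ∀ x, (¬ ∃ c, c ∈ T ∧ e c = x) → val x = FreeGroup.of x := by
    intro x hx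
    exact dif_neg hx
  -- the letters of `sw c`
  have hlet : ∀ c, ∀ x ∈ l₁ c ++ l₂ c, ∀ c', e c' = x.1 → lt c' c := by
    intro c x hx c' hc'
    apply hlt c c'
    · rintro rfl
      exact hnot c' x hx hc'.symm
    · refine ⟨x.2, ?_⟩
      rw [hc', hpath c]
      rw [List.mem_append] at hx
      rw [List.mem_append]
      rcases hx with hx | hx
      · exact Or.inl hx
      · exact Or.inr (List.mem_cons_of_mem _ hx)
  have hsw : ∀ {Q : Type _} [Group Q] (f f' : FreeGroup (G × S) →* Q) (c : ι × G),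
      (∀ x ∈ l₁ c ++ l₂ c, f (FreeGroup.of x.1) = f' (FreeGroup.of x.1)) → f (sw c) = f' (sw c) := by
    intro Q _ f f' c h
    have h1 := mk_congr f f' (l₁ c) (fun x hx => h x (List.mem_append.2 (Or.inl hx)))
    have h2 := mk_congr f f' (l₂ c) (fun x hx => h x (List.mem_append.2 (Or.inr hx)))
    show f (if b c then _ else _) = f' (if b c then _ else _)
    split_ifs
    · rw [map_mul, map_mul, map_inv, map_inv, map_inv, map_inv, h1, h2]
    · rw [map_mul, map_mul, h1, h2]
  have hV : ∀ c, V c = FreeGroup.lift val (sw c) := by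
    intro c
    show hwf.fix step c = _
    rw [hwf.fix_eq]
    apply hsw
    intro x hx
    rw [FreeGroup.lift_apply_of, FreeGroup.lift_apply_of]
    by_cases h : ∃ c', c' ∈ T ∧ e c' = x.1
    · obtain ⟨c', hc', hc'e⟩ := h
      have h' : ∃ c', lt c' c ∧ c' ∈ T ∧ e c' = x.1 := ⟨c', hlet c x hx c' hc'e, hc', hc'e⟩
      rw [dif_pos h']
      have h2 : h'.choose = c' := hinj (h'.choose_spec.2.2.trans hc'e.symm)
      show V h'.choose = _
      rw [h2, ← hc'e, hval_e c' hc']
    · rw [dif_neg, hval_ne _ h]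
      rintro ⟨c', _, hc', hc'e⟩
      exact h ⟨c', hc', hc'e⟩
  -- the paths around the cells of `T` are killed
  have hkill : ∀ i g, (i, g) ∈ T → FreeGroup.lift val (fpw φ g (FreeGroup.mk (r i))) = 1 := by
    intro i g hig
    have h1 : fpw φ g (FreeGroup.mk (r i)) = FreeGroup.mk (l₁ (i, g)) *
        FreeGroup.mk ((e (i, g), b (i, g)) :: l₂ (i, g)) := by
      rw [fpw_mk, FreeGroup.mul_mk, ← hpath (i, g)]
    have h2 : FreeGroup.lift val (FreeGroup.of (e (i, g))) = FreeGroup.lift val (sw (i, g)) := by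
      rw [FreeGroup.lift_apply_of, hval_e _ hig, hV]
    rw [h1]
    cases hb : b (i, g)
    · have h3 : sw (i, g) = FreeGroup.mk (l₂ (i, g)) * FreeGroup.mk (l₁ (i, g)) := by
        show (if b (i, g) then _ else _) = _
        rw [hb]
        rfl
      rw [mk_cons_false, map_mul, map_mul, map_inv, h2, h3, map_mul]
      group
    · have h3 : sw (i, g) = (FreeGroup.mk (l₁ (i, g)))⁻¹ * (FreeGroup.mk (l₂ (i, g)))⁻¹ := by
        show (if b (i, g) then _ else _) = _
        rw [hb]
        rfl
      rw [mk_cons_true, map_mul, map_mul, h2, h3, map_mul, map_inv, map_inv]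
      group
  -- the subgroup generated by the boundaries
  let D : Subgroup (FreeGroup (G × S)) := Subgroup.normalClosure
    {z | ∃ i g, (i, g) ∈ T ∧ z = fpw φ g (FreeGroup.mk (r i))}
  have hDn : D.Normal := Subgroup.normalClosure_normal
  have hmod : ∀ x, QuotientGroup.mk' D (FreeGroup.of x) = QuotientGroup.mk' D (val x) := by
    have hcell : ∀ c, c ∈ T →
        QuotientGroup.mk' D (FreeGroup.of (e c)) = QuotientGroup.mk' D (V c) := by
      intro c
      induction c using hwf.induction with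
      | h c ih =>
      intro hc
      rw [hV c]
      have h1 : QuotientGroup.mk' D (FreeGroup.lift val (sw c)) = QuotientGroup.mk' D (sw c) := by
        have h2 := hsw ((QuotientGroup.mk' D).comp (FreeGroup.lift val)) (QuotientGroup.mk' D) c (by
          intro x hx
          rw [MonoidHom.comp_apply, FreeGroup.lift_apply_of]
          by_cases h : ∃ c', c' ∈ T ∧ e c' = x.1
          · obtain ⟨c', hc', hc'e⟩ := h
            rw [← hc'e, hval_e c' hc']
            exact (ih c' (hlet c x hx c' hc'e) hc').symm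
          · rw [hval_ne _ h])
        exact h2
      rw [h1]
      obtain ⟨i, g⟩ := c
      have h2 : fpw φ g (FreeGroup.mk (r i)) ∈ D :=
        Subgroup.subset_normalClosure ⟨i, g, hc, rfl⟩
      have h3 : QuotientGroup.mk' D (fpw φ g (FreeGroup.mk (r i))) = 1 :=
        (QuotientGroup.eq_one_iff _).2 h2
      have h4 : fpw φ g (FreeGroup.mk (r i)) = FreeGroup.mk (l₁ (i, g)) *
          FreeGroup.mk ((e (i, g), b (i, g)) :: l₂ (i, g)) := by
        rw [fpw_mk, FreeGroup.mul_mk, ← hpath (i, g)]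
      rw [h4] at h3
      cases hb : b (i, g)
      · have h5 : sw (i, g) = FreeGroup.mk (l₂ (i, g)) * FreeGroup.mk (l₁ (i, g)) := by
          show (if b (i, g) then _ else _) = _
          rw [hb]
          rfl
        rw [hb, mk_cons_false, map_mul, map_mul, map_inv] at h3
        rw [h5, map_mul]
        have h6 := congrArg (fun z => (QuotientGroup.mk' D (FreeGroup.of (e (i, g)))) *
          (QuotientGroup.mk' D (FreeGroup.mk (l₁ (i, g))))⁻¹ * z *
          (QuotientGroup.mk' D (FreeGroup.mk (l₁ (i, g))))) h3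
        beta_reduce at h6
        rw [mul_one, inv_mul_cancel_right] at h6
        rw [← h6]
        group
      · have h5 : sw (i, g) = (FreeGroup.mk (l₁ (i, g)))⁻¹ * (FreeGroup.mk (l₂ (i, g)))⁻¹ := by
          show (if b (i, g) then _ else _) = _
          rw [hb]
          rfl
        rw [hb, mk_cons_true, map_mul, map_mul] at h3
        rw [h5, map_mul, map_inv, map_inv]
        have h6 := congrArg (fun z => (QuotientGroup.mk' D (FreeGroup.mk (l₁ (i, g))))⁻¹ * z *
          (QuotientGroup.mk' D (FreeGroup.mk (l₂ (i, g))))⁻¹) h3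
        beta_reduce at h6
        rw [mul_one] at h6
        rw [← h6]
        group
    intro x
    by_cases h : ∃ c, c ∈ T ∧ e c = x
    · obtain ⟨c, hc, rfl⟩ := h
      rw [hval_e c hc]
      exact hcell c hc
    · rw [hval_ne x h]
  have hmodall : ∀ z, QuotientGroup.mk' D (FreeGroup.lift val z) = QuotientGroup.mk' D z := by
    intro z
    have h1 : (QuotientGroup.mk' D).comp (FreeGroup.lift val) = QuotientGroup.mk' D := by
      ext x
      rw [MonoidHom.comp_apply, FreeGroup.lift_apply_of]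
      exact (hmod x).symm
    exact DFunLike.congr_fun h1 z
  -- the retraction
  obtain ⟨t, ht, ht1⟩ : ∃ t : G → FreeGroup S, (∀ g, φ (t g) = g) ∧ t 1 = 1 := by
    choose t ht using hφ
    refine ⟨fun g => if g = 1 then 1 else t g, ?_, if_pos rfl⟩
    intro g
    beta_reduce
    split_ifs with h
    · rw [map_one, h]
    · exact ht g
  let ρ : FreeGroup (G × S) →* FreeGroup S := FreeGroup.lift
    (fun p : G × S => t p.1 * FreeGroup.of p.2 * (t (p.1 * φ (FreeGroup.of p.2)))⁻¹)
  have hρ : ∀ g w, ρ (fpw φ g w) = t g * w * (t (g * φ w))⁻¹ := fun g w => lift_fpw φ t g w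
  have hρker : ∀ z, φ (ρ z) = 1 := by
    intro z
    have h1 : φ.comp ρ = 1 := by
      ext p
      rw [MonoidHom.comp_apply]
      show φ (FreeGroup.lift _ (FreeGroup.of p)) = 1
      rw [FreeGroup.lift_apply_of, map_mul, map_mul, ht, map_inv, ht, mul_inv_cancel]
    exact DFunLike.congr_fun h1 z
  have hρD : ∀ z ∈ D, ρ z ∈ cellSub φ r T := by
    intro z hz
    induction hz using Subgroup.closure_induction with
    | mem z hz =>
      rw [Group.mem_conjugatesOfSet_iff] at hz
      obtain ⟨_, ⟨i, g, hig, rfl⟩, hc⟩ := hz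
      obtain ⟨x, rfl⟩ := isConj_iff.1 hc
      rw [map_mul, map_mul, map_inv, hρ, hr1, mul_one]
      apply cellSub_conj
      · intro j k hjk
        rw [hρker, one_mul]
        exact hjk
      · apply Subgroup.subset_closure
        refine ⟨t g, i, ?_, rfl⟩
        rw [ht]
        exact hig
    | one =>
      rw [map_one]
      exact Subgroup.one_mem _
    | mul x y _ _ hx hy =>
      rw [map_mul]
      exact Subgroup.mul_mem _ hx hy
    | inv x _ hx =>
      rw [map_inv]
      exact Subgroup.inv_mem _ hx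
  -- the homomorphism to the free group on the edges
  let Λ : φ.ker →* FreeGroup (G × S) :=
    { toFun := fun w => FreeGroup.lift val (fpw φ 1 (w : FreeGroup S))
      map_one' := by
        show FreeGroup.lift val (fpw φ 1 1) = 1
        rw [fpw_one, map_one]
      map_mul' := by
        rintro ⟨x, hx⟩ ⟨y, hy⟩
        have hx1 : φ x = 1 := hx
        show FreeGroup.lift val (fpw φ 1 (x * y)) = _
        rw [fpw_mul, hx1, mul_one, map_mul] }
  have hΛ : ∀ w : φ.ker, Λ w = FreeGroup.lift val (fpw φ 1 (w : FreeGroup S)) := fun _ => rfl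
  have hΛcell : ∀ w : φ.ker, (w : FreeGroup S) ∈ cellSub φ r T → Λ w = 1 := by
    have h1 : cellSub φ r T ≤ Λ.ker.map φ.ker.subtype := by
      unfold cellSub
      rw [Subgroup.closure_le]
      rintro _ ⟨x, i, hx, rfl⟩
      have hk : x * FreeGroup.mk (r i) * x⁻¹ ∈ φ.ker := by
        show φ _ = 1
        rw [map_mul, map_mul, hr1, mul_one, map_inv, mul_inv_cancel]
      refine ⟨⟨_, hk⟩, ?_, rfl⟩
      show FreeGroup.lift val (fpw φ 1 (x * FreeGroup.mk (r i) * x⁻¹)) = 1
      rw [fpw_conj φ 1 x _ (hr1 i), map_mul, map_mul, one_mul, hkill i _ hx, mul_one, map_inv,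
        mul_inv_cancel]
    intro w hw
    obtain ⟨z, hz, hzw⟩ := h1 hw
    have h2 : z = w := Subtype.ext hzw
    rw [← h2]
    exact hz
  -- the image of `M` is perfect
  let M' : Subgroup φ.ker := M.subgroupOf φ.ker
  have hMM' : M'.map φ.ker.subtype = M := by
    rw [Subgroup.subgroupOf_map_subtype, inf_eq_left]
    exact hM
  have hP : M'.map Λ ≤ ⁅M'.map Λ, M'.map Λ⁆ ⊔
      Subgroup.closure {x | ∃ y ∈ M'.map Λ, x = y ^ m} := by
    rw [Subgroup.map_le_iff_le_comap]
    intro w hw
    have hw1 : (w : FreeGroup S) ∈ cellSub φ r T ⊔ ⁅M, M⁆ ⊔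
      Subgroup.closure {x | ∃ y ∈ M, x = y ^ m} := hM2 hw
    have h1 : cellSub φ r T ⊔ ⁅M, M⁆ ⊔ Subgroup.closure {x | ∃ y ∈ M, x = y ^ m} ≤
        ((⁅M'.map Λ, M'.map Λ⁆ ⊔ Subgroup.closure {x | ∃ y ∈ M'.map Λ, x = y ^ m}).comap Λ).map
          φ.ker.subtype := by
      refine sup_le (sup_le ?_ ?_) ?_
      · intro z hz
        have hzk : z ∈ φ.ker := cellSub_le_ker φ r hr1 T hz
        refine ⟨⟨z, hzk⟩, Subgroup.mem_comap.2 ?_, rfl⟩
        rw [hΛcell ⟨z, hzk⟩ hz]
        exact Subgroup.one_mem _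
      · rw [← hMM', ← Subgroup.map_commutator]
        apply Subgroup.map_mono
        rw [← Subgroup.map_le_iff_le_comap, Subgroup.map_commutator]
        exact le_sup_left
      · rw [Subgroup.closure_le]
        rintro _ ⟨y, hy, rfl⟩
        refine ⟨(⟨y, hM hy⟩ : φ.ker) ^ m, Subgroup.mem_comap.2 ?_, rfl⟩
        rw [map_pow]
        apply Subgroup.mem_sup_right
        apply Subgroup.subset_closure
        exact ⟨Λ ⟨y, hM hy⟩, ⟨⟨y, hM hy⟩, hy, rfl⟩, rfl⟩
    obtain ⟨z, hz, hzw⟩ := h1 hw1
    have h2 : z = w := Subtype.ext hzw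
    rw [← h2]
    exact hz
  have hbot := perfect_eq_bot m hm _ hP
  intro w hw
  have hwk : φ w = 1 := hM hw
  have h1 : Λ ⟨w, hM hw⟩ = 1 := by
    have h2 : Λ ⟨w, hM hw⟩ ∈ M'.map Λ := ⟨⟨w, hM hw⟩, hw, rfl⟩
    rw [hbot] at h2
    exact h2
  have h2 : fpw φ 1 w ∈ D := by
    rw [← QuotientGroup.eq_one_iff]
    have h3 := hmodall (fpw φ 1 w)
    have h4 : FreeGroup.lift val (fpw φ 1 w) = 1 := h1
    rw [h4, map_one] at h3
    exact h3.symm
  have h3 := hρD _ h2
  rw [hρ, ht1, one_mul, one_mul, hwk, ht1, inv_one, mul_one] at h3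
  exact h3

end expand

end Pool.Agent.L2Coh
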