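import Pool.Agent.L2Coh.Summand

/-!
# Type `FP`
-/

namespace Pool.Agent.L2Coh

section translate

variable {H : Type*} [Group H]

lemma map_smul_of_single {M N : Type*} [AddCommGroup M] [AddCommGroup N]
    [Module (MonoidAlgebra ℤ H) M] [Module (MonoidAlgebra ℤ H) N] (f : M →+ N)
    (hf : ∀ (h : H) x, f (MonoidAlgebra.single h (1 : ℤ) • x) = MonoidAlgebra.single h (1 : ℤ) • f x)
    (a : MonoidAlgebra ℤ H) (x : M) : f (a • x) = a • f x := by
  induction a using MonoidAlgebra.induction_linear with
  | zero => rw [zero_smul, zero_smul, map_zero]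
  | add a b ha hb => rw [add_smul, add_smul, map_add, ha, hb]
  | single h c =>
    have h1 : (MonoidAlgebra.single h c : MonoidAlgebra ℤ H) =
        c • MonoidAlgebra.single h (1 : ℤ) := by
      rw [MonoidAlgebra.smul_single]
      simp
    rw [h1, smul_assoc, map_zsmul, hf, smul_assoc]

variable {J : Type*} [Fintype J] [DecidableEq J]

/-- Chains as vectors over the group ring. -/
noncomputable def th : (H × J →₀ ℤ) →+ (J → MonoidAlgebra ℤ H) :=
  Finsupp.liftAddHom (fun p => zmultiplesHom _
    (Pi.single p.2 (MonoidAlgebra.single p.1 (1 : ℤ))))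

omit [Fintype J] in
lemma th_single (h : H) (j : J) (c : ℤ) :
    th (Finsupp.single (h, j) c) = Pi.single j (MonoidAlgebra.single h c) := by
  unfold th
  rw [Finsupp.liftAddHom_apply_single, zmultiplesHom_apply]
  show c • (Pi.single j (MonoidAlgebra.single h (1 : ℤ)) : J → MonoidAlgebra ℤ H) = _
  rw [← Pi.single_smul, MonoidAlgebra.smul_single]
  simp

omit [Fintype J] in
lemma th_apply (z : H × J →₀ ℤ) (j : J) (h : H) : (th z j).coeff h = z (h, j) := by
  classical
  induction z using Finsupp.induction_linear with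
  | zero => simp
  | add f g hf hg =>
    rw [map_add, Pi.add_apply, MonoidAlgebra.coeff_add, Finsupp.add_apply, hf, hg,
      Finsupp.add_apply]
  | single p n =>
    obtain ⟨h', j'⟩ := p
    rw [th_single, Finsupp.single_apply]
    by_cases hj : j' = j
    · subst hj
      rw [Pi.single_eq_same, MonoidAlgebra.coeff_single, Finsupp.single_apply]
      by_cases hh : h' = h
      · rw [if_pos hh, if_pos (by rw [hh])]
      · rw [if_neg hh, if_neg (fun h1 => hh (Prod.mk.inj h1).1)]
    · rw [Pi.single_eq_of_ne (Ne.symm hj), if_neg (fun h1 => hj (Prod.mk.inj h1).2)]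
      rfl

omit [Fintype J] in
lemma th_injective : Function.Injective (th : (H × J →₀ ℤ) →+ (J → MonoidAlgebra ℤ H)) := by
  intro a b hab
  ext ⟨h, j⟩
  rw [← th_apply, ← th_apply, hab]

lemma th_surjective : Function.Surjective (th : (H × J →₀ ℤ) →+ (J → MonoidAlgebra ℤ H)) := by
  intro f
  have h1 : ∀ (j : J) (a : MonoidAlgebra ℤ H), ∃ z : H × J →₀ ℤ, th z = Pi.single j a := by
    intro j a
    induction a using MonoidAlgebra.induction_linear with
    | zero => exact ⟨0, by rw [map_zero, Pi.single_zero]⟩
    | add a b ha hb =>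
      obtain ⟨z, hz⟩ := ha
      obtain ⟨z', hz'⟩ := hb
      exact ⟨z + z', by rw [map_add, hz, hz', Pi.single_add]⟩
    | single h c => exact ⟨Finsupp.single (h, j) c, th_single h j c⟩
  choose z hz using h1
  refine ⟨∑ j, z j (f j), ?_⟩
  rw [map_sum]
  simp only [hz]
  exact Finset.univ_sum_single f

omit [Fintype J] in
lemma th_lm (h : H) (z : H × J →₀ ℤ) :
    th (lm h z) = (MonoidAlgebra.single h (1 : ℤ)) • (th z : J → MonoidAlgebra ℤ H) := by
  induction z using Finsupp.induction_linear with
  | zero => simp
  | add f g hf hg => rw [map_add, map_add, hf, hg, map_add, smul_add]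
  | single p n =>
    obtain ⟨g, j⟩ := p
    rw [lm_single, th_single, th_single, ← Pi.single_smul, smul_eq_mul,
      MonoidAlgebra.single_mul_single, one_mul]

/-- The inverse. -/
noncomputable def thEquiv : (H × J →₀ ℤ) ≃+ (J → MonoidAlgebra ℤ H) :=
  AddEquiv.ofBijective th ⟨th_injective, th_surjective⟩

lemma thEquiv_apply (z : H × J →₀ ℤ) : thEquiv z = th z := rfl

lemma thEquiv_symm_smul (h : H) (f : J → MonoidAlgebra ℤ H) :
    thEquiv.symm ((MonoidAlgebra.single h (1 : ℤ)) • f) = lm h (thEquiv.symm f) := by
  rw [AddEquiv.symm_apply_eq, thEquiv_apply, th_lm, ← thEquiv_apply, AddEquiv.apply_symm_apply]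

end translate

/-- From the splitting of the relation module to type `FP`. -/
theorem typeFP_of_sec {H : Type*} [Group H] {n m : ℕ} (ψ : FreeGroup (Fin n) →* H)
    (σ : H → FreeGroup (Fin n)) (hσ : ∀ h, ψ (σ h) = h) (t : Fin m → FreeGroup (Fin n))
    (htk : ∀ k, ψ (t k) = 1)
    (sec : (bd1 ψ).ker →+ (H × Fin m →₀ ℤ))
    (hsec : ∀ z, bd (fun k => fch ψ 1 (t k)) (sec z) = z.1)
    (hlm : ∀ (h : H) (z : (bd1 ψ).ker) (hz : lm h z.1 ∈ (bd1 ψ).ker),
        sec ⟨lm h z.1, hz⟩ = lm h (sec z)) : TypeFP H := by
  classical
  let d : (Fin n → MonoidAlgebra ℤ H) →ₗ[MonoidAlgebra ℤ H] MonoidAlgebra ℤ H :=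
    Fintype.linearCombination (MonoidAlgebra ℤ H) (fun j =>
      MonoidAlgebra.single (ψ (FreeGroup.of j)) (1 : ℤ) - MonoidAlgebra.single 1 1)
  have hd : ∀ z : H × Fin n →₀ ℤ, d (th z) = MonoidAlgebra.ofCoeff (bd1 ψ z) := by
    intro z
    induction z using Finsupp.induction_linear with
    | zero => simp
    | add f g hf hg => rw [map_add, map_add, hf, hg, map_add, MonoidAlgebra.ofCoeff_add]
    | single p c =>
      obtain ⟨g, j⟩ := p
      rw [th_single]
      show Fintype.linearCombination (MonoidAlgebra ℤ H) _ (Pi.single j _) = _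
      rw [Fintype.linearCombination_apply_single]
      have h1 : (Finsupp.single (g, j) c : H × Fin n →₀ ℤ) = c • Finsupp.single (g, j) 1 := by
        simp
      rw [h1, map_zsmul, bd1_single, MonoidAlgebra.ofCoeff_smul, MonoidAlgebra.ofCoeff_sub,
        MonoidAlgebra.ofCoeff_single, MonoidAlgebra.ofCoeff_single, smul_eq_mul, mul_sub,
        MonoidAlgebra.single_mul_single, MonoidAlgebra.single_mul_single, mul_one, mul_one,
        smul_sub, MonoidAlgebra.smul_single, MonoidAlgebra.smul_single]
      simp
  have hker : ∀ z : H × Fin n →₀ ℤ, th z ∈ LinearMap.ker d ↔ bd1 ψ z = 0 := by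
    intro z
    rw [LinearMap.mem_ker, hd, MonoidAlgebra.ofCoeff_eq_zero]
  have hlmker : ∀ (h : H) (z : H × Fin n →₀ ℤ), bd1 ψ z = 0 → bd1 ψ (lm h z) = 0 := by
    intro h z hz
    rw [← hker] at hz ⊢
    rw [th_lm]
    exact (LinearMap.ker d).smul_mem _ hz
  refine ⟨n, d, ?_, ?_⟩
  · intro a
    constructor
    · rintro ⟨f, rfl⟩
      obtain ⟨z, rfl⟩ := th_surjective f
      rw [hd]
      show (bd1 ψ z).sum (fun _ c => c) = 0
      induction z using Finsupp.induction_linear with
      | zero => simp
      | add f g hf hg =>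
        rw [map_add, Finsupp.sum_add_index', hf, hg, add_zero]
        · intro _; rfl
        · intro _ _ _; rfl
      | single p c =>
        obtain ⟨g, j⟩ := p
        have h1 : (Finsupp.single (g, j) c : H × Fin n →₀ ℤ) = c • Finsupp.single (g, j) 1 := by
          simp
        have h2 : (c • (Finsupp.single (g * ψ (FreeGroup.of j)) 1 - Finsupp.single g 1) :
            H →₀ ℤ) = Finsupp.single (g * ψ (FreeGroup.of j)) c + Finsupp.single g (-c) := by
          rw [smul_sub, Finsupp.smul_single, Finsupp.smul_single, Finsupp.single_neg]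
          simp [sub_eq_add_neg]
        rw [h1, map_zsmul, bd1_single, h2, Finsupp.sum_add_index', Finsupp.sum_single_index rfl,
          Finsupp.sum_single_index rfl, add_neg_cancel]
        · intro _; rfl
        · intro _ _ _; rfl
    · intro ha
      -- the contraction
      let C : (H →₀ ℤ) →+ (H × Fin n →₀ ℤ) :=
        Finsupp.liftAddHom (fun h => (zmultiplesHom _ (fch ψ 1 (σ h))))
      have hC : ∀ a : H →₀ ℤ, bd1 ψ (C a) = a - Finsupp.single 1 (a.sum (fun _ c => c)) := by
        intro a
        induction a using Finsupp.induction_linear with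
        | zero => simp
        | add f g hf hg =>
          rw [map_add, map_add, hf, hg, Finsupp.sum_add_index', Finsupp.single_add]
          · abel
          · intro _; rfl
          · intro _ _ _; rfl
        | single h c =>
          have h1 : C (Finsupp.single h c) = c • fch ψ 1 (σ h) := by simp [C]
          rw [h1, map_zsmul, bd1_fch, hσ, one_mul, smul_sub, Finsupp.smul_single,
            Finsupp.smul_single, Finsupp.sum_single_index rfl]
          simp
      have h1 := hC a.coeff
      rw [ha, Finsupp.single_zero, sub_zero] at h1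
      refine ⟨th (C a.coeff), ?_⟩
      rw [hd, h1]
  · -- the surjection from the free module
    let s0 : (Fin m → MonoidAlgebra ℤ H) →ₗ[MonoidAlgebra ℤ H] (Fin n → MonoidAlgebra ℤ H) :=
      Fintype.linearCombination (MonoidAlgebra ℤ H) (fun k => th (fch ψ 1 (t k)))
    have hs0 : ∀ y : H × Fin m →₀ ℤ, s0 (th y) = th (bd (fun k => fch ψ 1 (t k)) y) := by
      intro y
      induction y using Finsupp.induction_linear with
      | zero => simp
      | add f g hf hg => rw [map_add, map_add, hf, hg, map_add, map_add]
      | single p c =>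
        obtain ⟨g, k⟩ := p
        rw [th_single]
        show Fintype.linearCombination (MonoidAlgebra ℤ H) _ (Pi.single k _) = _
        rw [Fintype.linearCombination_apply_single, bd_single, map_zsmul, th_lm, ← smul_assoc,
          MonoidAlgebra.smul_single, smul_eq_mul, mul_one]
    have hbdker : ∀ y : H × Fin m →₀ ℤ, bd1 ψ (bd (fun k => fch ψ 1 (t k)) y) = 0 := by
      intro y
      induction y using Finsupp.induction_linear with
      | zero => simp
      | add f g hf hg => rw [map_add, map_add, hf, hg, add_zero]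
      | single p c =>
        obtain ⟨g, k⟩ := p
        rw [bd_single, map_zsmul, ← fch_lm', bd1_fch, htk, mul_one, sub_self, smul_zero]
    let s : (Fin m → MonoidAlgebra ℤ H) →ₗ[MonoidAlgebra ℤ H] LinearMap.ker d :=
      s0.codRestrict (LinearMap.ker d) (by
        intro f
        obtain ⟨y, rfl⟩ := th_surjective f
        rw [hs0, hker]
        exact hbdker y)
    have hmem : ∀ f : LinearMap.ker d, thEquiv.symm f.1 ∈ (bd1 ψ).ker := by
      intro f
      show bd1 ψ _ = 0
      rw [← hker, ← thEquiv_apply, AddEquiv.apply_symm_apply]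
      exact f.2
    let i0 : LinearMap.ker d →+ (Fin m → MonoidAlgebra ℤ H) :=
      { toFun := fun f => th (sec ⟨thEquiv.symm f.1, hmem f⟩)
        map_zero' := by
          have h1 : (⟨thEquiv.symm (0 : LinearMap.ker d).1, hmem 0⟩ : (bd1 ψ).ker) = 0 := by
            apply Subtype.ext
            show thEquiv.symm (0 : Fin n → MonoidAlgebra ℤ H) = 0
            rw [map_zero]
          rw [h1, map_zero, map_zero]
        map_add' := by
          intro a b
          have h1 : (⟨thEquiv.symm (a + b).1, hmem (a + b)⟩ : (bd1 ψ).ker) =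
              ⟨thEquiv.symm a.1, hmem a⟩ + ⟨thEquiv.symm b.1, hmem b⟩ := by
            apply Subtype.ext
            show thEquiv.symm (a.1 + b.1) = thEquiv.symm a.1 + thEquiv.symm b.1
            rw [map_add]
          rw [h1, map_add, map_add] }
    have hi0 : ∀ f, i0 f = th (sec ⟨thEquiv.symm f.1, hmem f⟩) := fun f => rfl
    let i : LinearMap.ker d →ₗ[MonoidAlgebra ℤ H] (Fin m → MonoidAlgebra ℤ H) :=
      { i0 with
        map_smul' := by
          intro a f
          apply map_smul_of_single i0
          intro h f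
          rw [hi0, hi0, ← th_lm]
          congr 1
          have hz : lm h (thEquiv.symm f.1) ∈ (bd1 ψ).ker := hlmker h _ (hmem f)
          rw [← hlm h ⟨thEquiv.symm f.1, hmem f⟩ hz]
          congr 1
          apply Subtype.ext
          exact thEquiv_symm_smul h f.1 }
    have hsi : s.comp i = LinearMap.id := by
      apply LinearMap.ext
      intro f
      apply Subtype.ext
      show s0 (th (sec ⟨thEquiv.symm f.1, hmem f⟩)) = f.1
      rw [hs0, hsec]
      show th (thEquiv.symm f.1) = f.1
      rw [← thEquiv_apply, AddEquiv.apply_symm_apply]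
    refine ⟨?_, ?_⟩
    · apply Module.Finite.of_surjective s
      intro f
      exact ⟨i f, LinearMap.congr_fun hsi f⟩
    · exact Module.Projective.of_split i s hsi

end Pool.Agent.L2Coh
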