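import Pool.Agent.L2Coh.Op

/-!
# Traces of projections: the rank inequality for equivariant operators
-/

namespace Pool.Agent.L2Coh

open scoped InnerProductSpace

/-- Left translation on `ℓ²(H × I)`. -/
noncomputable def ltI {H I : Type*} [Group H] (h : H) : L2 (H × I) →L[ℝ] L2 (H × I) :=
  perm ((Equiv.mulLeft h).prodCongr (Equiv.refl I))

lemma ltI_apply {H I : Type*} [Group H] (h g : H) (i : I) (x : L2 (H × I)) :
    (ltI h x) (g, i) = x (h⁻¹ * g, i) := rfl

lemma ltI_dl {H I : Type*} [Group H] (h g : H) (i : I) :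
    ltI h (dl (g, i)) = dl (h * g, i) := perm_dl _ _

lemma ltI_ltI {H I : Type*} [Group H] (h g : H) (x : L2 (H × I)) :
    ltI h (ltI g x) = ltI (h * g) x := by
  ext ⟨z, i⟩
  simp only [ltI_apply]
  group

lemma ltI_one {H I : Type*} [Group H] (x : L2 (H × I)) : ltI 1 x = x := by
  ext ⟨z, i⟩
  simp [ltI_apply]

lemma inner_ltI {H I : Type*} [Group H] (h : H) (x y : L2 (H × I)) :
    ⟪ltI h x, ltI h y⟫_ℝ = ⟪x, y⟫_ℝ :=
  inner_perm _ _ _

lemma inner_ltI_left {H I : Type*} [Group H] (h : H) (x y : L2 (H × I)) :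
    ⟪ltI h x, y⟫_ℝ = ⟪x, ltI h⁻¹ y⟫_ℝ := by
  rw [← inner_ltI h x (ltI h⁻¹ y), ltI_ltI, mul_inv_cancel, ltI_one]

lemma inner_ltI_right {H I : Type*} [Group H] (h : H) (x y : L2 (H × I)) :
    ⟪x, ltI h y⟫_ℝ = ⟪ltI h⁻¹ x, y⟫_ℝ := by
  rw [inner_ltI_left, inv_inv]

/-- Equivariance. -/
def Eqv {H I J : Type*} [Group H] (T : L2 (H × I) →L[ℝ] L2 (H × J)) : Prop :=
  ∀ h x, T (ltI h x) = ltI h (T x)

/-- `S` is the adjoint of `T`. -/
def Adj {X Y : Type*} (T : L2 X →L[ℝ] L2 Y) (S : L2 Y →L[ℝ] L2 X) : Prop :=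
  ∀ x y, ⟪T x, y⟫_ℝ = ⟪x, S y⟫_ℝ

lemma Eqv.adj {H I J : Type*} [Group H] {T : L2 (H × I) →L[ℝ] L2 (H × J)}
    {S : L2 (H × J) →L[ℝ] L2 (H × I)}
    (hT : Eqv T) (hS : Adj T S) : Eqv S := by
  intro h x
  apply ext_inner_left ℝ
  intro v
  rw [← hS, inner_ltI_right, inner_ltI_right, ← hS, hT]

/-- The trace identity. -/
lemma trace_comm {H I J : Type*} [Group H] [Fintype I] [Fintype J]
    {X Y : L2 (H × I) →L[ℝ] L2 (H × J)} {X' Y' : L2 (H × J) →L[ℝ] L2 (H × I)}
    (hX : Eqv X) (hX' : Adj X X') (hY : Eqv Y) (hY' : Adj Y Y') :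
    ∑ i : I, ⟪X (dl (1, i)), Y (dl (1, i))⟫_ℝ = ∑ j : J, ⟪Y' (dl (1, j)), X' (dl (1, j))⟫_ℝ := by
  have key : ∀ (Z : L2 (H × I) →L[ℝ] L2 (H × J)) (Z' : L2 (H × J) →L[ℝ] L2 (H × I)),
      Eqv Z → Adj Z Z' → ∀ (i : I) (j : J) (h : H),
      (Z (dl (1, i))) (h, j) = (Z' (dl (1, j))) (h⁻¹, i) := by
    intro Z Z' hZ hZ' i j h
    have hZe := hZ.adj hZ'
    rw [← inner_dl, hZ', ← inner_dl']
    have : (dl (h, j) : L2 (H × J)) = ltI h (dl (1, j)) := by rw [ltI_dl, mul_one]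
    rw [this, hZe, inner_ltI_right, ltI_dl, mul_one]
  have hs : ∀ (A B : L2 (H × J)), HasSum (fun h : H => ∑ j : J, A (h, j) * B (h, j)) ⟪A, B⟫_ℝ := by
    intro A B
    have h := lp.hasSum_inner (𝕜 := ℝ) A B
    have h2 := h.prod_fiberwise (g := fun h : H => ∑ j : J, ⟪A (h, j), B (h, j)⟫_ℝ)
      (fun b => hasSum_fintype _)
    refine h2.congr_fun ?_ |> fun h => h
    intro b
    apply Finset.sum_congr rfl
    intro j _
    simp [mul_comm]
  have hs' : ∀ (A B : L2 (H × I)), HasSum (fun h : H => ∑ j : I, A (h, j) * B (h, j)) ⟪A, B⟫_ℝ := by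
    intro A B
    have h := lp.hasSum_inner (𝕜 := ℝ) A B
    have h2 := h.prod_fiberwise (g := fun h : H => ∑ j : I, ⟪A (h, j), B (h, j)⟫_ℝ)
      (fun b => hasSum_fintype _)
    refine h2.congr_fun ?_ |> fun h => h
    intro b
    apply Finset.sum_congr rfl
    intro j _
    simp [mul_comm]
  have h1 : HasSum (fun h : H => ∑ i : I, ∑ j : J,
      (X (dl (1, i))) (h, j) * (Y (dl (1, i))) (h, j))
      (∑ i : I, ⟪X (dl (1, i)), Y (dl (1, i))⟫_ℝ) :=
    hasSum_sum (fun i _ => hs _ _)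
  have h2 : HasSum (fun h : H => ∑ j : J, ∑ i : I,
      (Y' (dl (1, j))) (h, i) * (X' (dl (1, j))) (h, i))
      (∑ j : J, ⟪Y' (dl (1, j)), X' (dl (1, j))⟫_ℝ) :=
    hasSum_sum (fun i _ => hs' _ _)
  have h3 := (Equiv.hasSum_iff (Equiv.inv H)).2 h2
  refine h1.unique ?_
  convert h3 using 1
  funext h
  simp only [Function.comp, Equiv.inv_apply]
  rw [Finset.sum_comm]
  apply Finset.sum_congr rfl
  intro j _
  apply Finset.sum_congr rfl
  intro i _
  rw [key X X' hX hX' i j h, key Y Y' hY hY' i j h, mul_comm]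

/-- The von Neumann dimension of a (closed, invariant) subspace. -/
noncomputable def vdim {H I : Type*} [Group H] [Fintype I] (V : Submodule ℝ (L2 (H × I)))
    [V.HasOrthogonalProjection] : ℝ :=
  ∑ i : I, ‖V.starProjection (dl (1, i))‖ ^ 2

lemma vdim_nonneg {H I : Type*} [Group H] [Fintype I] (V : Submodule ℝ (L2 (H × I)))
    [V.HasOrthogonalProjection] : 0 ≤ vdim V :=
  Finset.sum_nonneg (fun _ _ => sq_nonneg _)

lemma vdim_le_card {H I : Type*} [Group H] [Fintype I] (V : Submodule ℝ (L2 (H × I)))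
    [V.HasOrthogonalProjection] : vdim V ≤ Fintype.card I := by
  unfold vdim
  have h : ∀ i ∈ (Finset.univ : Finset I),
      ‖V.starProjection (dl (1, i) : L2 (H × I))‖ ^ 2 ≤ 1 := by
    intro i _
    have h1 := V.norm_starProjection_apply_le (dl (1, i) : L2 (H × I))
    rw [norm_dl] at h1
    have h2 := norm_nonneg (V.starProjection (dl (1, i) : L2 (H × I)))
    nlinarith
  refine (Finset.sum_le_sum h).trans ?_
  simp

/-- The rank inequality. -/
theorem rank_le {H I J : Type*} [Group H] [Fintype I] [Fintype J]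
    (T : L2 (H × I) →L[ℝ] L2 (H × J)) (hT : Eqv T)
    (K : Submodule ℝ (L2 (H × I))) [K.HasOrthogonalProjection]
    (hK : ∀ x, x ∈ K ↔ T x = 0)
    (W : Submodule ℝ (L2 (H × J))) [W.HasOrthogonalProjection] (hW : ∀ x, T x ∈ W) :
    (Fintype.card I : ℝ) ≤ vdim K + vdim W := by
  classical
  -- the adjoint
  let S : L2 (H × J) →L[ℝ] L2 (H × I) := ContinuousLinearMap.adjoint T
  have hS : Adj T S := fun x y => (ContinuousLinearMap.adjoint_inner_right T x y).symm
  have hSe : Eqv S := hT.adj hS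
  let A : L2 (H × I) →L[ℝ] L2 (H × I) := S.comp T
  have hA : ∀ x y, ⟪A x, y⟫_ℝ = ⟪T x, T y⟫_ℝ := by
    intro x y
    show ⟪S (T x), y⟫_ℝ = _
    rw [real_inner_comm, ← hS, real_inner_comm]
  have hA' : ∀ x y, ⟪A x, y⟫_ℝ = ⟪x, A y⟫_ℝ := by
    intro x y
    rw [hA, real_inner_comm, ← hA, real_inner_comm]
  have hAe : Eqv A := by
    intro h x
    show S (T (ltI h x)) = ltI h (S (T x))
    rw [hT, hSe]
  -- resolvent
  have hres : ∀ ε : ℝ, 0 < ε → ∃ R : L2 (H × I) →L[ℝ] L2 (H × I),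
      (∀ x, A (R x) + ε • R x = x) ∧ (∀ x, R (A x + ε • x) = x) := by
    intro ε hε
    have hu : IsUnit (A + ε • (1 : L2 (H × I) →L[ℝ] L2 (H × I))) := by
      apply ContinuousLinearMap.isUnit_of_forall_le_norm_inner_map
        (c := ⟨ε, hε.le⟩) _ (by exact_mod_cast hε)
      intro x
      have h1 : ⟪(A + ε • (1 : L2 (H × I) →L[ℝ] L2 (H × I))) x, x⟫_ℝ =
          ‖T x‖ ^ 2 + ε * ‖x‖ ^ 2 := by
        simp only [add_apply, smul_apply,
          one_apply_eq_self, inner_add_left, real_inner_smul_left]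
        rw [hA, real_inner_self_eq_norm_sq, real_inner_self_eq_norm_sq]
      rw [h1, Real.norm_eq_abs, abs_of_nonneg (by positivity)]
      show ‖x‖ ^ 2 * ε ≤ _
      nlinarith [sq_nonneg ‖T x‖]
    obtain ⟨u, hu⟩ := hu
    refine ⟨(u⁻¹ : (L2 (H × I) →L[ℝ] L2 (H × I))ˣ), ?_, ?_⟩
    · intro x
      have h1 : (u : L2 (H × I) →L[ℝ] L2 (H × I)) * (u⁻¹ : (L2 (H × I) →L[ℝ] L2 (H × I))ˣ) = 1 :=
        Units.mul_inv u
      have h2 := congrArg (fun F : L2 (H × I) →L[ℝ] L2 (H × I) => F x) h1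
      rw [hu] at h2
      simpa using h2
    · intro x
      have h1 : ((u⁻¹ : (L2 (H × I) →L[ℝ] L2 (H × I))ˣ) : L2 (H × I) →L[ℝ] L2 (H × I)) *
        (u : L2 (H × I) →L[ℝ] L2 (H × I)) = 1 := Units.inv_mul u
      have h2 := congrArg (fun F : L2 (H × I) →L[ℝ] L2 (H × I) => F x) h1
      rw [hu] at h2
      simpa using h2
  -- main inequality
  have hmain : ∀ ε : ℝ, 0 < ε → ∀ R : L2 (H × I) →L[ℝ] L2 (H × I),
      (∀ x, A (R x) + ε • R x = x) → (∀ x, R (A x + ε • x) = x) →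
      (Fintype.card I : ℝ) ≤
        ε * ∑ i : I, ⟪(dl (1, i) : L2 (H × I)), R (dl (1, i))⟫_ℝ + vdim W := by
    intro ε hε R hR1 hR2
    have hRe : Eqv R := by
      intro h x
      have h1 : ltI h x = A (ltI h (R x)) + ε • ltI h (R x) := by
        rw [hAe, ← map_smul, ← map_add, hR1]
      rw [h1, hR2]
    have hRs : Adj R R := by
      intro x y
      have h1 : ⟪R x, A (R y) + ε • R y⟫_ℝ = ⟪A (R x) + ε • R x, R y⟫_ℝ := by
        rw [inner_add_right, inner_add_left, real_inner_smul_left, real_inner_smul_right, hA']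
      rw [hR1, hR1] at h1
      exact h1
    have h1 := trace_comm (X := T) (Y := T.comp R) (X' := S) (Y' := R.comp S) hT hS
      (by intro h x; show T (R (ltI h x)) = ltI h (T (R x)); rw [hRe, hT])
      (by intro x y; show ⟪T (R x), y⟫_ℝ = ⟪x, R (S y)⟫_ℝ; rw [hS, hRs])
    have h2 : ∀ i : I, ⟪T (dl (1, i)), (T.comp R) (dl (1, i))⟫_ℝ =
        1 - ε * ⟪(dl (1, i) : L2 (H × I)), R (dl (1, i))⟫_ℝ := by
      intro i
      show ⟪T (dl (1, i)), T (R (dl (1, i)))⟫_ℝ = _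
      rw [← hA, hA']
      have h3 : A (R (dl (1, i))) = dl (1, i) - ε • R (dl (1, i)) := by
        rw [eq_sub_iff_add_eq, hR1]
      rw [h3, inner_sub_right, real_inner_smul_right, real_inner_self_eq_norm_sq, norm_dl]
      norm_num
    have h3 : ∀ j : J, ⟪(R.comp S) (dl (1, j)), S (dl (1, j))⟫_ℝ ≤
        ‖W.starProjection (dl (1, j))‖ ^ 2 := by
      intro j
      show ⟪R (S (dl (1, j))), S (dl (1, j))⟫_ℝ ≤ _
      set u := R (S (dl (1, j))) with hu
      have h4 : ⟪u, S (dl (1, j))⟫_ℝ ≤ ‖T u‖ * ‖W.starProjection (dl (1, j))‖ := by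
        rw [← hS]
        have h4' : ⟪T u, (dl (1, j) : L2 (H × J))⟫_ℝ = ⟪T u, W.starProjection (dl (1, j))⟫_ℝ := by
          have h4'' := W.starProjection_inner_eq_zero (dl (1, j)) (T u) (hW u)
          rw [inner_sub_left, real_inner_comm, real_inner_comm (T u)] at h4''
          linarith
        rw [h4']
        exact real_inner_le_norm _ _
      have h5 : ‖T u‖ ^ 2 ≤ ⟪u, S (dl (1, j))⟫_ℝ := by
        have h6 : S (dl (1, j)) = A u + ε • u := (hR1 _).symm
        rw [h6, inner_add_right, real_inner_smul_right, real_inner_self_eq_norm_sq, ← hA', hA,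
          real_inner_self_eq_norm_sq]
        nlinarith [sq_nonneg ‖u‖]
      have h7 := norm_nonneg (T u)
      have h8 := norm_nonneg (W.starProjection (dl (1, j)))
      have h9 : ‖T u‖ ≤ ‖W.starProjection (dl (1, j))‖ := by
        by_contra hcon
        push Not at hcon
        nlinarith
      nlinarith
    have h4 := Finset.sum_le_sum (fun j (_ : j ∈ Finset.univ) => h3 j)
    rw [← h1, Finset.sum_congr rfl (fun i _ => h2 i), Finset.sum_sub_distrib, ← Finset.mul_sum]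
      at h4
    simp only [Finset.sum_const, Finset.card_univ, nsmul_eq_mul, mul_one] at h4
    unfold vdim
    linarith
  -- density of the range of `A` in the orthogonal complement of `K`
  have hdense : ∀ v ∈ Kᗮ, ∀ δ : ℝ, 0 < δ → ∃ u, ‖v - A u‖ < δ := by
    intro v hv δ hδ
    have hd : v ∈ (LinearMap.range (A : L2 (H × I) →ₗ[ℝ] L2 (H × I))).topologicalClosure := by
      rw [← Submodule.orthogonal_orthogonal_eq_closure, Submodule.mem_orthogonal]
      intro x hx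
      rw [Submodule.mem_orthogonal] at hx hv
      apply hv
      rw [hK]
      have h1 : ⟪A x, x⟫_ℝ = 0 := hx _ ⟨x, rfl⟩
      rw [hA, real_inner_self_eq_norm_sq] at h1
      exact norm_eq_zero.1 (pow_eq_zero_iff (two_ne_zero) |>.1 h1)
    have hv' : v ∈ closure ((LinearMap.range (A : L2 (H × I) →ₗ[ℝ] L2 (H × I)) :
        Submodule ℝ (L2 (H × I))) : Set (L2 (H × I))) := by
      rw [← Submodule.topologicalClosure_coe]
      exact hd
    obtain ⟨w, ⟨u, hu⟩, hw⟩ := Metric.mem_closure_iff.1 hv' δ hδ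
    refine ⟨u, ?_⟩
    rw [← dist_eq_norm]
    have : A u = w := hu
    rw [this]
    exact hw
  apply le_of_forall_pos_le_add
  intro τ hτ
  set n : ℝ := (Fintype.card I : ℝ) with hn
  have hnpos : 0 ≤ n := Nat.cast_nonneg _
  choose u hu using fun i : I => hdense (dl (1, i) - K.starProjection (dl (1, i)))
    (K.sub_starProjection_mem_orthogonal _) (τ / (2 * (n + 1))) (by positivity)
  set C : ℝ := ∑ i : I, ‖u i‖ with hC
  have hC0 : 0 ≤ C := Finset.sum_nonneg (fun i _ => norm_nonneg _)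
  set ε : ℝ := τ / (4 * (C + 1)) with hε
  have hεpos : 0 < ε := by positivity
  obtain ⟨R, hR1, hR2⟩ := hres ε hεpos
  have h1 := hmain ε hεpos R hR1 hR2
  -- norm of `ε R`
  have hRn : ∀ x, ε * ‖R x‖ ≤ ‖x‖ := by
    intro x
    have h2 : ⟪R x, x⟫_ℝ = ‖T (R x)‖ ^ 2 + ε * ‖R x‖ ^ 2 := by
      conv_lhs => rw [← hR1 x]
      rw [map_add, map_smul]
      have h3 : R (A (R x)) + ε • R (R x) = R x := by
        rw [← map_smul, ← map_add, hR1]
      rw [h3, inner_add_right, real_inner_smul_right, real_inner_self_eq_norm_sq, ← hA', hA,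
        real_inner_self_eq_norm_sq]
    have h3 : ⟪R x, x⟫_ℝ ≤ ‖R x‖ * ‖x‖ := real_inner_le_norm _ _
    by_cases hx : ‖R x‖ = 0
    · rw [hx]; simp
    · have h4 : 0 < ‖R x‖ := lt_of_le_of_ne (norm_nonneg _) (Ne.symm hx)
      have h5 : ε * ‖R x‖ * ‖R x‖ ≤ ‖x‖ * ‖R x‖ := by nlinarith [sq_nonneg ‖T (R x)‖]
      exact le_of_mul_le_mul_right h5 h4
  have h2 : ∀ i : I, ε * ⟪(dl (1, i) : L2 (H × I)), R (dl (1, i))⟫_ℝ ≤
      ‖K.starProjection (dl (1, i))‖ ^ 2 + (τ / (2 * (n + 1)) + 2 * ε * ‖u i‖) := by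
    intro i
    set k := K.starProjection (dl (1, i) : L2 (H × I)) with hk
    have hkK : k ∈ K := K.starProjection_apply_mem _
    set v : L2 (H × I) := dl (1, i) - k with hv
    have hAk : A k = 0 := by
      show S (T k) = 0
      rw [(hK k).1 hkK, map_zero]
    have hRk : ε • R k = k := by
      have := hR2 k
      rw [hAk, zero_add, map_smul] at this
      exact this
    have hdec : ε * ⟪(dl (1, i) : L2 (H × I)), R (dl (1, i))⟫_ℝ =
        ‖k‖ ^ 2 + ε * ⟪(dl (1, i) : L2 (H × I)), R v⟫_ℝ := by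
      have h3 : (dl (1, i) : L2 (H × I)) = k + v := by rw [hv]; abel
      have h4 : R (dl (1, i)) = R k + R v := by
        conv_lhs => rw [h3]
        rw [map_add]
      rw [h4, inner_add_right, mul_add, ← real_inner_smul_right, hRk]
      congr 1
      have h5 : ⟪v, k⟫_ℝ = 0 := K.starProjection_inner_eq_zero _ _ hkK
      rw [hv, inner_sub_left, real_inner_self_eq_norm_sq] at h5
      linarith
    rw [hdec]
    have h3 : ⟪(dl (1, i) : L2 (H × I)), R v⟫_ℝ ≤ ‖R v‖ := by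
      calc _ ≤ ‖(dl (1, i) : L2 (H × I))‖ * ‖R v‖ := real_inner_le_norm _ _
        _ = _ := by rw [norm_dl, one_mul]
    have h4 : R v = R (v - A (u i)) + (u i - ε • R (u i)) := by
      have h5 : R (A (u i)) = u i - ε • R (u i) := by
        rw [eq_sub_iff_add_eq, ← map_smul, ← map_add, hR2]
      rw [map_sub R v (A (u i)), h5]
      abel
    have h5 : ‖R v‖ ≤ ‖R (v - A (u i))‖ + (‖u i‖ + ε * ‖R (u i)‖) := by
      conv_lhs => rw [h4]
      refine (norm_add_le _ _).trans ?_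
      gcongr
      refine (norm_sub_le _ _).trans ?_
      rw [norm_smul, Real.norm_eq_abs, abs_of_pos hεpos]
    have h6 := hRn (v - A (u i))
    have h7 := hRn (u i)
    have h8 := (hu i).le
    have h9 : ε * ⟪(dl (1, i) : L2 (H × I)), R v⟫_ℝ ≤ τ / (2 * (n + 1)) + 2 * ε * ‖u i‖ := by
      calc ε * ⟪(dl (1, i) : L2 (H × I)), R v⟫_ℝ
          ≤ ε * ‖R v‖ := by gcongr
        _ ≤ ε * (‖R (v - A (u i))‖ + (‖u i‖ + ε * ‖R (u i)‖)) := by gcongr
        _ = ε * ‖R (v - A (u i))‖ + ε * ‖u i‖ + ε * (ε * ‖R (u i)‖) := by ring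
        _ ≤ τ / (2 * (n + 1)) + ε * ‖u i‖ + ε * ‖u i‖ := by
            gcongr
            exact h6.trans h8
        _ = _ := by ring
    linarith
  have h3 : ε * ∑ i : I, ⟪(dl (1, i) : L2 (H × I)), R (dl (1, i))⟫_ℝ ≤
      vdim K + (n * (τ / (2 * (n + 1))) + 2 * ε * C) := by
    rw [Finset.mul_sum]
    refine (Finset.sum_le_sum (fun i _ => h2 i)).trans ?_
    rw [Finset.sum_add_distrib, Finset.sum_add_distrib, ← Finset.mul_sum]
    simp [hn, hC, vdim]
  have h4 : n * (τ / (2 * (n + 1))) ≤ τ / 2 := by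
    have : n * (τ / (2 * (n + 1))) = (τ / 2) * (n / (n + 1)) := by field_simp
    rw [this]
    have h6 : n / (n + 1) ≤ 1 := by
      rw [div_le_one (by positivity)]
      linarith
    nlinarith
  have h5 : 2 * ε * C ≤ τ / 2 := by
    rw [hε]
    have : 2 * (τ / (4 * (C + 1))) * C = (τ / 2) * (C / (C + 1)) := by field_simp; ring
    rw [this]
    have h6 : C / (C + 1) ≤ 1 := by
      rw [div_le_one (by positivity)]
      linarith
    nlinarith
  linarith

end Pool.Agent.L2Coh
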