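import Pool.Agent.L2Coh.Defs
import Pool.Agent.L2Coh.Inn
import Pool.Agent.L2Coh.Trace

/-!
# Consequences for finitely supported integral elements and matrices
-/

namespace Pool.Agent.L2Coh

open scoped InnerProductSpace

/-- Right convolution operator. -/
noncomputable def rconv {H : Type*} [Group H] (a : H →₀ ℤ) : L2 H →L[ℝ] L2 H :=
  ∑ h ∈ a.support, (a h : ℝ) • perm (Equiv.mulRight h)

lemma rconv_apply {H : Type*} [Group H] (a : H →₀ ℤ) (x : L2 H) (g : H) :
    (rconv a x) g = a.sum (fun h n => (n : ℝ) * x (g * h⁻¹)) := by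
  unfold rconv Finsupp.sum
  rw [sum_clm_apply, lp.coeFn_sum, Finset.sum_apply]
  rfl

theorem leftOrderable_inj {H : Type*} [Group H] (hH : LeftOrderable H)
    (a : H →₀ ℤ) (x : H → ℝ) (ha : a ≠ 0) (hx : Summable (fun h => (x h) ^ 2))
    (h0 : ∀ g : H, a.sum (fun h n => (n : ℝ) * x (g * h⁻¹)) = 0) : x = 0 := by
  obtain ⟨_, hmul⟩ := hH
  classical
  have hne : a.support.Nonempty := Finsupp.support_nonempty_iff.2 ha
  set m := a.support.min' hne with hm
  have hmm : m ∈ a.support := Finset.min'_mem _ _
  have hmin : ∀ k ∈ a.support, m ≤ k := fun k hk => Finset.min'_le _ _ hk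
  -- the normalised element
  let a' : H →₀ ℤ := a.equivMapDomain (Equiv.mulLeft m⁻¹)
  have ha' : ∀ h, a' h = a (m * h) := by
    intro h
    show a ((Equiv.mulLeft m⁻¹).symm h) = _
    simp
  have hx' : Summable (fun h => (x (h * m⁻¹)) ^ 2) :=
    (Equiv.summable_iff (Equiv.mulRight m⁻¹)).2 hx
  let x' : L2 H := ⟨fun h => x (h * m⁻¹), memLp_of_summable hx'⟩
  have hx'a : ∀ h, x' h = x (h * m⁻¹) := fun h => rfl
  have h1 : rconv a' x' = 0 := by
    ext g
    rw [rconv_apply]
    have h2 : a'.sum (fun h n => (n : ℝ) * x' (g * h⁻¹)) =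
        a.sum (fun h n => (n : ℝ) * x (g * h⁻¹)) := by
      show (a.equivMapDomain (Equiv.mulLeft m⁻¹)).sum _ = _
      rw [Finsupp.equivMapDomain_eq_mapDomain, Finsupp.sum_mapDomain_index_inj
        (Equiv.mulLeft m⁻¹).injective]
      apply Finsupp.sum_congr
      intro h _
      rw [hx'a]
      simp only [Equiv.coe_mulLeft, mul_inv_rev, inv_inv]
      congr 2
      group
    rw [h2, h0]
    rfl
  have h3 : x' = 0 := by
    have hdl : ∀ y, (rconv a' (dl y)) 1 = (a' y⁻¹ : ℝ) := by
      intro y
      rw [rconv_apply]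
      have : ∀ h ∈ a'.support, ((a' h : ℝ) * (dl y : L2 H) (1 * h⁻¹)) =
          if h = y⁻¹ then (a' y⁻¹ : ℝ) else 0 := by
        intro h _
        rw [dl_apply, one_mul]
        by_cases hh : h = y⁻¹
        · subst hh
          simp
        · have : ¬ h⁻¹ = y := fun h' => hh (by rw [← h', inv_inv])
          simp [hh, this]
      unfold Finsupp.sum
      rw [Finset.sum_congr rfl this]
      simp only [Finset.sum_ite_eq']
      split_ifs with hs
      · rfl
      · rw [Finsupp.notMem_support_iff.1 hs]
        simp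
    apply inj_of_lowest hmul (rconv a') ?_ ?_ ?_ x' h1
    · intro h y
      ext g
      rw [rconv_apply, lt_apply, rconv_apply]
      apply Finsupp.sum_congr
      intro k _
      rw [lt_apply, mul_assoc]
    · rw [hdl, inv_one, ha', mul_one]
      exact Int.cast_ne_zero.2 (Finsupp.mem_support_iff.1 hmm)
    · intro y hy
      rw [hdl, ha']
      have h4 : m * y⁻¹ < m := by
        have h5 := hmul y⁻¹ 1 y hy
        rw [mul_one, inv_mul_cancel] at h5
        have h6 := hmul m _ _ h5
        rwa [mul_one] at h6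
      have h7 : m * y⁻¹ ∉ a.support := fun h8 => absurd (hmin _ h8) (not_le.2 h4)
      rw [Finsupp.notMem_support_iff.1 h7]
      simp
  funext h
  have h8 := congrArg (fun z : L2 H => z (h * m)) h3
  simp only [hx'a] at h8
  rw [mul_assoc, mul_inv_cancel, mul_one] at h8
  exact h8

theorem rankGap_of_leftOrderable {H : Type*} [Group H] (hH : LeftOrderable H) : RankGap H 1 := by
  intro a x ha hx h0
  rw [leftOrderable_inj hH a x ha hx h0]
  simp

lemma RankGap.mono {H : Type*} [Group H] {ε ε' : ℝ} (h : RankGap H ε) (he : ε' ≤ ε) :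
    RankGap H ε' := by
  intro a x ha hx h0
  refine (h a x ha hx h0).trans ?_
  apply mul_le_mul_of_nonneg_right (by linarith)
  exact tsum_nonneg (fun _ => sq_nonneg _)

lemma continuous_eval {X : Type*} (p : X) : Continuous (fun y : L2 X => y p) := by
  have : (fun y : L2 X => y p) = fun y : L2 X => innerSL ℝ (dl p : L2 X) y := by
    funext y
    show y p = ⟪(dl p : L2 X), y⟫_ℝ
    rw [inner_dl']
  rw [this]
  exact (innerSL ℝ (dl p : L2 X)).continuous

/-- Pythagoras for nested subspaces. -/
lemma norm_proj_split {E : Type*} [NormedAddCommGroup E] [InnerProductSpace ℝ E]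
    (A B : Submodule ℝ E) (hAB : A ≤ B) [A.HasOrthogonalProjection] [B.HasOrthogonalProjection]
    [(B ⊓ Aᗮ).HasOrthogonalProjection] (d : E) :
    ‖B.starProjection d‖ ^ 2 =
      ‖A.starProjection d‖ ^ 2 + ‖(B ⊓ Aᗮ).starProjection d‖ ^ 2 := by
  set b := B.starProjection d with hb
  have hbB : b ∈ B := B.starProjection_apply_mem d
  have hdb : d - b ∈ Bᗮ := B.sub_starProjection_mem_orthogonal d
  set a := A.starProjection b with ha
  have haA : a ∈ A := A.starProjection_apply_mem b
  have hba : b - a ∈ Aᗮ := A.sub_starProjection_mem_orthogonal b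
  have h1 : A.starProjection d = a := by
    apply Submodule.eq_starProjection_of_mem_orthogonal haA
    have : d - a = (d - b) + (b - a) := by abel
    rw [this]
    exact Submodule.add_mem _ (Submodule.orthogonal_le hAB hdb) hba
  have h2 : (B ⊓ Aᗮ).starProjection d = b - a := by
    apply Submodule.eq_starProjection_of_mem_orthogonal
    · exact ⟨Submodule.sub_mem _ hbB (hAB haA), hba⟩
    · have : d - (b - a) = (d - b) + a := by abel
      rw [this]
      apply Submodule.add_mem
      · exact Submodule.orthogonal_le inf_le_left hdb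
      · exact Submodule.orthogonal_le inf_le_right (Submodule.le_orthogonal_orthogonal A haA)
  rw [h1, h2]
  have h3 : ⟪a, b - a⟫_ℝ = 0 := by
    rw [Submodule.mem_orthogonal] at hba
    exact hba a haA
  have h4 : b = a + (b - a) := by abel
  conv_lhs => rw [h4]
  rw [norm_add_sq_real, h3]
  ring

lemma proj_eqv {H I : Type*} [Group H] (V : Submodule ℝ (L2 (H × I)))
    [V.HasOrthogonalProjection] (hV : ∀ h x, x ∈ V → ltI h x ∈ V) (h : H) (x : L2 (H × I)) :
    V.starProjection (ltI h x) = ltI h (V.starProjection x) := by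
  apply Submodule.eq_starProjection_of_mem_orthogonal
  · exact hV h _ (V.starProjection_apply_mem x)
  · rw [← map_sub, Submodule.mem_orthogonal']
    intro u hu
    rw [inner_ltI_left]
    have h1 := V.sub_starProjection_mem_orthogonal x
    rw [Submodule.mem_orthogonal'] at h1
    exact h1 _ (hV _ _ hu)

lemma vdim_orthogonal {H I : Type*} [Group H] [Fintype I] (V : Submodule ℝ (L2 (H × I)))
    [V.HasOrthogonalProjection] : vdim Vᗮ = Fintype.card I - vdim V := by
  unfold vdim
  have h : ∀ i : I, ‖Vᗮ.starProjection (dl (1, i) : L2 (H × I))‖ ^ 2 =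
      1 - ‖V.starProjection (dl (1, i) : L2 (H × I))‖ ^ 2 := by
    intro i
    have h := Submodule.norm_sq_eq_add_norm_sq_starProjection (𝕜 := ℝ)
      (dl (1, i) : L2 (H × I)) V
    rw [norm_dl] at h
    linarith
  rw [Finset.sum_congr rfl (fun i _ => h i), Finset.sum_sub_distrib]
  simp

/-- The family `z` as an operator. -/
lemma exists_op {H I J : Type*} [Group H] [Fintype I] (z : I → (H × J →₀ ℤ)) [DecidableEq J] :
    ∃ T : L2 (H × I) →L[ℝ] L2 (H × J), ∀ x g j, (T x) (g, j) = ∑ i : I, (z i).sum
      (fun p n => if p.2 = j then (n : ℝ) * x (g * p.1⁻¹, i) else 0) := by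
  classical
  let f : I → H × J → H × J → Option (H × I) := fun i p y =>
    if p.2 = y.2 then some (y.1 * p.1⁻¹, i) else none
  have hf : ∀ i p, PInj (f i p) := by
    intro i p y y' x h h'
    simp only [f] at h h'
    split_ifs at h with h1
    split_ifs at h' with h2
    simp only [Option.some.injEq] at h h'
    rw [← h'] at h
    simp only [Prod.mk.injEq, mul_left_inj, and_true] at h
    exact Prod.ext h (h1.symm.trans h2)
  refine ⟨∑ i : I, ∑ p ∈ (z i).support, (z i p : ℝ) • pull (f i p) (hf i p), ?_⟩
  intro x g i'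
  rw [sum_clm_apply, lp.coeFn_sum, Finset.sum_apply]
  apply Finset.sum_congr rfl
  intro i _
  rw [sum_clm_apply, lp.coeFn_sum, Finset.sum_apply]
  unfold Finsupp.sum
  apply Finset.sum_congr rfl
  intro p _
  show (z i p : ℝ) * (f i p (g, i')).elim 0 x = _
  simp only [f]
  split_ifs
  · rfl
  · simp

/-- The solution space of one right convolution equation. -/
noncomputable def kerElt {H : Type*} [Group H] (a : H →₀ ℤ) : Submodule ℝ (L2 (H × Unit)) where
  carrier := {y | ∀ g : H, a.sum (fun h n => (n : ℝ) * y (g * h⁻¹, ())) = 0}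
  add_mem' := by
    intro x y hx hy g
    have := congrArg₂ (· + ·) (hx g) (hy g)
    simp only [add_zero] at this
    rw [← this]
    unfold Finsupp.sum
    rw [← Finset.sum_add_distrib]
    apply Finset.sum_congr rfl
    intro h _
    show (a h : ℝ) * (x (g * h⁻¹, ()) + y (g * h⁻¹, ())) =
      (a h : ℝ) * x (g * h⁻¹, ()) + (a h : ℝ) * y (g * h⁻¹, ())
    ring
  zero_mem' := by
    intro g
    apply Finset.sum_eq_zero
    intro h _
    simp
  smul_mem' := by
    intro c x hx g
    have := congrArg (fun t => c * t) (hx g)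
    simp only [mul_zero] at this
    rw [← this]
    unfold Finsupp.sum
    rw [Finset.mul_sum]
    apply Finset.sum_congr rfl
    intro h _
    show (a h : ℝ) * (c * x (g * h⁻¹, ())) = c * ((a h : ℝ) * x (g * h⁻¹, ()))
    ring

lemma isClosed_kerElt {H : Type*} [Group H] (a : H →₀ ℤ) :
    IsClosed (kerElt a : Set (L2 (H × Unit))) := by
  have : (kerElt a : Set (L2 (H × Unit))) =
      ⋂ g : H, {y : L2 (H × Unit) | a.sum (fun h n => (n : ℝ) * y (g * h⁻¹, ())) = 0} := by
    ext y
    simp only [Set.mem_iInter]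
    rfl
  rw [this]
  apply isClosed_iInter
  intro g
  apply isClosed_eq _ continuous_const
  unfold Finsupp.sum
  apply continuous_finsetSum
  intro h _
  exact continuous_const.mul (continuous_eval _)

lemma vdim_kerElt {H : Type*} [Group H] {ε : ℝ} (hε : ε ≤ 1) (hgap : RankGap H ε)
    (a : H →₀ ℤ) (ha : a ≠ 0) [(kerElt a).HasOrthogonalProjection] :
    vdim (kerElt a) ≤ 1 - ε := by
  unfold vdim
  simp only [Finset.univ_unique, Finset.sum_singleton]
  set d : L2 (H × Unit) := dl (1, default) with hd
  set w := (kerElt a).starProjection d with hw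
  have hwW : w ∈ kerElt a := (kerElt a).starProjection_apply_mem d
  have h1 := hasSum_sq w
  have h2 : HasSum (fun h : H => (w (h, ())) ^ 2) (‖w‖ ^ 2) := by
    have := (Equiv.hasSum_iff (Equiv.prodPUnit H).symm).2 h1
    exact this
  have h3 := hgap a (fun h => w (h, ())) ha h2.summable hwW
  rw [h2.tsum_eq] at h3
  have h4 : w (1, ()) = ‖w‖ ^ 2 := by
    have h5 : ⟪w, d⟫_ℝ = w (1, ()) := inner_dl _ _
    have h6 := (kerElt a).starProjection_inner_eq_zero d w hwW
    rw [inner_sub_left, ← hw, real_inner_self_eq_norm_sq, real_inner_comm, h5] at h6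
    linarith
  rw [h4] at h3
  by_cases h0 : ‖w‖ ^ 2 = 0
  · rw [h0]; linarith
  · have h7 : 0 < ‖w‖ ^ 2 := lt_of_le_of_ne (sq_nonneg _) (Ne.symm h0)
    have h8 : ‖w‖ ^ 2 * ‖w‖ ^ 2 ≤ (1 - ε) * ‖w‖ ^ 2 := by rw [← sq]; exact h3
    exact le_of_mul_le_mul_right h8 h7

lemma pInj_coord {H I : Type*} (k : I) :
    PInj (fun y : H × Unit => (some (y.1, k) : Option (H × I))) := by
  intro y y' x h h'
  simp only [Option.some.injEq] at h h'
  rw [← h'] at h
  exact Prod.ext (Prod.mk.inj h).1 rfl

theorem triangular_bound {H J : Type*} [Group H] [Fintype J] [DecidableEq J] {ε : ℝ}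
    (hε : ε ≤ 1) (hgap : RankGap H ε) (N : ℕ) (z : Fin N → (H × J →₀ ℤ))
    (a : Fin N → (H →₀ ℤ)) (ha : ∀ k, a k ≠ 0)
    (htri : ∀ (x : Fin N → H → ℝ) (k : Fin N), (∀ i, Summable (fun h => (x i h) ^ 2)) →
      (∀ i, k < i → x i = 0) →
      (∀ g j, ∑ i, (z i).sum (fun p n => if p.2 = j then (n : ℝ) * x i (g * p.1⁻¹) else 0) = 0) →
      ∀ g, (a k).sum (fun h n => (n : ℝ) * x k (g * h⁻¹)) = 0) :
    (N : ℝ) * ε ≤ Fintype.card J := by
  obtain ⟨T, hT⟩ := exists_op (H := H) z
  have hTe : Eqv T := by
    intro h x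
    ext ⟨g, j⟩
    rw [hT, ltI_apply, hT]
    apply Finset.sum_congr rfl
    intro i _
    apply Finsupp.sum_congr
    intro p _
    rw [ltI_apply, mul_assoc]
  -- the filtration of the kernel
  let V : ℕ → Submodule ℝ (L2 (H × Fin N)) := fun k =>
    { carrier := {x | T x = 0 ∧ ∀ (i : Fin N) (h : H), k ≤ i.1 → x (h, i) = 0}
      add_mem' := by
        rintro x y ⟨hx1, hx2⟩ ⟨hy1, hy2⟩
        refine ⟨by rw [map_add, hx1, hy1, add_zero], ?_⟩
        intro i h hi
        rw [lp.coeFn_add, Pi.add_apply, hx2 i h hi, hy2 i h hi, add_zero]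
      zero_mem' := ⟨map_zero _, fun _ _ _ => rfl⟩
      smul_mem' := by
        rintro c x ⟨hx1, hx2⟩
        refine ⟨by rw [map_smul, hx1, smul_zero], ?_⟩
        intro i h hi
        rw [lp.coeFn_smul, Pi.smul_apply, hx2 i h hi, smul_zero] }
  have hVmem : ∀ k x, x ∈ V k ↔ T x = 0 ∧ ∀ (i : Fin N) (h : H), k ≤ i.1 → x (h, i) = 0 :=
    fun _ _ => Iff.rfl
  have hVcl : ∀ k, IsClosed (V k : Set (L2 (H × Fin N))) := by
    intro k
    have : (V k : Set (L2 (H × Fin N))) = {x | T x = 0} ∩
        ⋂ (i : Fin N) (h : H) (_ : k ≤ i.1), {x : L2 (H × Fin N) | x (h, i) = 0} := by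
      ext x
      simp only [SetLike.mem_coe, hVmem, Set.mem_inter_iff, Set.mem_iInter]
      rfl
    rw [this]
    apply (isClosed_eq T.continuous continuous_const).inter
    apply isClosed_iInter
    intro i
    apply isClosed_iInter
    intro h
    apply isClosed_iInter
    intro _
    exact isClosed_eq (continuous_eval _) continuous_const
  have hinst : ∀ k, (V k).HasOrthogonalProjection := by
    intro k
    have : CompleteSpace (V k) := (hVcl k).completeSpace_coe
    infer_instance
  have hVinv : ∀ k h x, x ∈ V k → ltI h x ∈ V k := by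
    intro k h x hx
    rw [hVmem] at hx ⊢
    refine ⟨by rw [hTe, hx.1, map_zero], ?_⟩
    intro i g hi
    rw [ltI_apply]
    exact hx.2 i _ hi
  have hVmono : ∀ k, V k ≤ V (k + 1) := by
    intro k x hx
    rw [hVmem] at hx ⊢
    exact ⟨hx.1, fun i h hi => hx.2 i h (by omega)⟩
  -- the step
  have hstep : ∀ k, k < N → vdim (V (k + 1)) ≤ vdim (V k) + (1 - ε) := by
    intro k hk
    set V1 : Submodule ℝ (L2 (H × Fin N)) := V (k + 1) ⊓ (V k)ᗮ with hV1
    have hV1cl : IsClosed (V1 : Set (L2 (H × Fin N))) := by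
      rw [hV1, Submodule.coe_inf]
      exact (hVcl _).inter (Submodule.isClosed_orthogonal _)
    have hV1c : CompleteSpace V1 := hV1cl.completeSpace_coe
    have hsplit : vdim (V (k + 1)) = vdim (V k) + vdim V1 := by
      unfold vdim
      rw [← Finset.sum_add_distrib]
      apply Finset.sum_congr rfl
      intro i _
      exact norm_proj_split (V k) (V (k + 1)) (hVmono k) _
    have hV1inv : ∀ h x, x ∈ V1 → ltI h x ∈ V1 := by
      intro h x hx
      refine ⟨hVinv _ _ _ hx.1, ?_⟩
      show ltI h x ∈ (V k)ᗮ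
      rw [Submodule.mem_orthogonal']
      intro u hu
      rw [inner_ltI_left]
      have h2 : x ∈ (V k)ᗮ := hx.2
      rw [Submodule.mem_orthogonal'] at h2
      exact h2 _ (hVinv _ _ _ hu)
    let κ : L2 (H × Fin N) →L[ℝ] L2 (H × Unit) :=
      pull (fun y => some (y.1, (⟨k, hk⟩ : Fin N))) (pInj_coord _)
    have hκ : ∀ x h, (κ x) (h, ()) = x (h, ⟨k, hk⟩) := fun x h => rfl
    let T' : L2 (H × Fin N) →L[ℝ] L2 (H × Unit) := κ.comp V1.starProjection
    have hT' : ∀ x, T' x = κ (V1.starProjection x) := fun _ => rfl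
    have hT'e : Eqv T' := by
      intro h x
      rw [hT', hT', proj_eqv V1 hV1inv]
      ext ⟨g, _⟩
      rfl
    have hW : CompleteSpace (kerElt (a ⟨k, hk⟩)) := (isClosed_kerElt _).completeSpace_coe
    have hrank := rank_le T' hT'e (V1ᗮ) (by
      intro x
      constructor
      · intro hx
        rw [hT', (Submodule.starProjection_apply_eq_zero_iff V1).2 hx, map_zero]
      · intro hx
        rw [hT'] at hx
        have hy := V1.starProjection_apply_mem x
        set y := V1.starProjection x with hydef
        have hy0 : y ∈ V k := by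
          have h1 : y ∈ V (k + 1) := hy.1
          rw [hVmem] at h1 ⊢
          refine ⟨h1.1, ?_⟩
          intro i h hi
          rcases Nat.eq_or_lt_of_le hi with h2 | h2
          · have h3 := congrArg (fun u : L2 (H × Unit) => u (h, ())) hx
            simp only [hκ] at h3
            have h4 : i = ⟨k, hk⟩ := Fin.ext h2.symm
            rw [h4, h3]
            rfl
          · exact h1.2 i h h2
        have hy1 : y ∈ (V k)ᗮ := hy.2
        have h5 : ⟪y, y⟫_ℝ = 0 := by
          rw [Submodule.mem_orthogonal] at hy1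
          exact hy1 y hy0
        rw [inner_self_eq_zero] at h5
        rw [← Submodule.starProjection_apply_eq_zero_iff V1, ← hydef, h5])
      (kerElt (a ⟨k, hk⟩)) (by
      intro x
      have hy := V1.starProjection_apply_mem x
      rw [hT']
      set y := V1.starProjection x with hydef
      have h1 : y ∈ V (k + 1) := hy.1
      rw [hVmem] at h1
      intro g
      apply htri (fun i h => y (h, i)) ⟨k, hk⟩
      · intro i
        exact (hasSum_sq y).summable.comp_injective (i := fun h : H => (h, i))
          (fun h h' hh => (Prod.mk.inj hh).1)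
      · intro i hi
        funext h
        exact h1.2 i h (by
          have : k < i.1 := hi
          omega)
      · intro g j
        have := congrArg (fun u : L2 (H × J) => u (g, j)) h1.1
        simp only [hT] at this
        exact this)
    rw [vdim_orthogonal] at hrank
    have h2 := vdim_kerElt hε hgap (a ⟨k, hk⟩) (ha _)
    rw [hsplit]
    simp only [Fintype.card_fin] at hrank
    linarith
  have hall : ∀ k, k ≤ N → vdim (V k) ≤ k * (1 - ε) := by
    intro k
    induction k with
    | zero =>
      intro _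
      have h0 : ∀ x ∈ V 0, x = 0 := by
        intro x hx
        ext ⟨h, i⟩
        exact hx.2 i h (Nat.zero_le _)
      have : vdim (V 0) = 0 := by
        unfold vdim
        apply Finset.sum_eq_zero
        intro i _
        rw [h0 _ ((V 0).starProjection_apply_mem _), norm_zero]
        norm_num
      rw [this]
      simp
    | succ k ih =>
      intro hk
      have h1 := ih (by omega)
      have h2 := hstep k (by omega)
      push_cast
      linarith
  have hfin := hall N le_rfl
  have hrank := rank_le T hTe (V N) (by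
    intro x
    rw [hVmem]
    constructor
    · exact fun h => h.1
    · intro h
      refine ⟨h, ?_⟩
      intro i _ hi
      have := i.2
      omega) (⊤ : Submodule ℝ (L2 (H × J))) (fun _ => trivial)
  have h3 := vdim_le_card (⊤ : Submodule ℝ (L2 (H × J)))
  simp only [Fintype.card_fin] at hrank
  linarith

end Pool.Agent.L2Coh
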