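import Pool.Agent.L2Coh.Alg
import Pool.Agent.L2Coh.Mat

/-!
# Fillings of relators only use finitely many orbits of two-cells
-/

namespace Pool.Agent.L2Coh

/-- Convolution of a function on the group with a finite chain. -/
noncomputable def cv {G A : Type*} [Group G] [DecidableEq A] (y : G → ℝ) (g : G) (a : A)
    (c : G × A →₀ ℤ) : ℝ :=
  c.sum (fun p n => if p.2 = a then (n : ℝ) * y (g * p.1⁻¹) else 0)

section cv

variable {G A B : Type*} [Group G] [DecidableEq A] [DecidableEq B]

lemma cv_add (y : G → ℝ) (g : G) (a : A) (c d : G × A →₀ ℤ) :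
    cv y g a (c + d) = cv y g a c + cv y g a d := by
  unfold cv
  apply Finsupp.sum_add_index'
  · intro p
    simp
  · intro p m n
    split_ifs
    · push_cast; ring
    · simp

lemma cv_zero (y : G → ℝ) (g : G) (a : A) : cv y g a (0 : G × A →₀ ℤ) = 0 := by
  simp [cv]

lemma cv_single (y : G → ℝ) (g h : G) (a b : A) (n : ℤ) :
    cv y g a (Finsupp.single (h, b) n) = if b = a then (n : ℝ) * y (g * h⁻¹) else 0 := by
  unfold cv
  rw [Finsupp.sum_single_index]
  simp

lemma cv_zsmul (y : G → ℝ) (g : G) (a : A) (n : ℤ) (c : G × A →₀ ℤ) :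
    cv y g a (n • c) = n * cv y g a c := by
  induction c using Finsupp.induction_linear with
  | zero => simp [cv_zero]
  | add f h hf hh => rw [smul_add, cv_add, cv_add, hf, hh, mul_add]
  | single p m =>
    obtain ⟨h, b⟩ := p
    have : (n • Finsupp.single (h, b) m : G × A →₀ ℤ) = Finsupp.single (h, b) (n * m) := by
      simp
    rw [this, cv_single, cv_single]
    split_ifs
    · push_cast; ring
    · simp

lemma cv_lm (y : G → ℝ) (g h : G) (a : A) (c : G × A →₀ ℤ) :
    cv y g a (lm h c) = cv (fun k => y (k * h⁻¹)) g a c := by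
  induction c using Finsupp.induction_linear with
  | zero => simp [cv_zero]
  | add f k hf hk => rw [map_add, cv_add, cv_add, hf, hk]
  | single p m =>
    obtain ⟨k, b⟩ := p
    rw [lm_single, cv_single, cv_single, mul_inv_rev, mul_assoc]

/-- Convolution is compatible with equivariant maps. -/
lemma cv_bd (v : A → (G × B →₀ ℤ)) (y : G → ℝ) (g : G) (b : B) (c : G × A →₀ ℤ)
    (A0 : Finset A) (hA0 : ∀ p ∈ c.support, p.2 ∈ A0) :
    cv y g b (bd v c) = ∑ a ∈ A0, (v a).sum
      (fun p n => if p.2 = b then (n : ℝ) * cv y (g * p.1⁻¹) a c else 0) := by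
  classical
  -- reduce to arbitrary chains by summing over a larger set
  have key : ∀ (c : G × A →₀ ℤ) (A1 : Finset A), (∀ p ∈ c.support, p.2 ∈ A1) →
      cv y g b (bd v c) = ∑ a ∈ A1, (v a).sum
      (fun p n => if p.2 = b then (n : ℝ) * cv y (g * p.1⁻¹) a c else 0) := by
    intro c
    induction c using Finsupp.induction with
    | zero =>
      intro A1 _
      rw [map_zero, cv_zero]
      symm
      apply Finset.sum_eq_zero
      intro a _
      apply Finset.sum_eq_zero
      intro p _
      simp [cv_zero]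
    | single_add p n f hp hn ih =>
      intro A1 hA1
      have hsub : ∀ p' ∈ f.support, p'.2 ∈ A1 := by
        intro p' hp'
        apply hA1
        rw [Finsupp.mem_support_iff, Finsupp.add_apply, Finsupp.single_apply]
        have : p ≠ p' := by
          rintro rfl
          exact hp hp'
        rw [if_neg this, zero_add]
        exact Finsupp.mem_support_iff.1 hp'
      have hpA : p.2 ∈ A1 := by
        apply hA1
        rw [Finsupp.mem_support_iff, Finsupp.add_apply, Finsupp.single_eq_same,
          Finsupp.notMem_support_iff.1 hp, add_zero]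
        exact hn
      rw [map_add, cv_add, ih A1 hsub]
      obtain ⟨h, a₀⟩ := p
      rw [bd_single, cv_zsmul, cv_lm]
      have h1 : ∀ a ∈ A1, (v a).sum (fun p m => if p.2 = b then
          (m : ℝ) * cv y (g * p.1⁻¹) a (Finsupp.single (h, a₀) n + f) else 0) =
          (if a₀ = a then (n : ℝ) * cv (fun k => y (k * h⁻¹)) g b (v a) else 0) +
          (v a).sum (fun p m => if p.2 = b then (m : ℝ) * cv y (g * p.1⁻¹) a f else 0) := by
        intro a _
        have h2 : (if a₀ = a then (n : ℝ) * cv (fun k => y (k * h⁻¹)) g b (v a) else 0) =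
            (v a).sum (fun p m => if p.2 = b then
              (m : ℝ) * (if a₀ = a then (n : ℝ) * y (g * p.1⁻¹ * h⁻¹) else 0) else 0) := by
          unfold cv Finsupp.sum
          by_cases ha : a₀ = a
          · simp only [ha, if_true]
            rw [Finset.mul_sum]
            apply Finset.sum_congr rfl
            intro p _
            split_ifs
            · ring
            · simp
          · simp [ha]
        rw [h2, ← Finsupp.sum_add]
        apply Finsupp.sum_congr
        intro p _
        rw [cv_add, cv_single]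
        split_ifs <;> ring
      rw [Finset.sum_congr rfl h1, Finset.sum_add_distrib]
      congr 1
      rw [Finset.sum_ite_eq A1 a₀, if_pos hpA]
  exact key c A0 hA0

end cv

/-- Extension by zero. -/
noncomputable def ext0 {G : Type*} [Group G] (H : Subgroup G) (x : H → ℝ) : G → ℝ :=
  Function.extend Subtype.val x 0

lemma ext0_coe {G : Type*} [Group G] (H : Subgroup G) (x : H → ℝ) (h : H) :
    ext0 H x (h : G) = x h :=
  Subtype.val_injective.extend_apply _ _ _

lemma ext0_of_notMem {G : Type*} [Group G] (H : Subgroup G) (x : H → ℝ) (g : G) (hg : g ∉ H) :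
    ext0 H x g = 0 := by
  unfold ext0
  rw [Function.extend_apply']
  · rfl
  · rintro ⟨h, rfl⟩
    exact hg h.2

lemma summable_ext0 {G : Type*} [Group G] (H : Subgroup G) (x : H → ℝ)
    (hx : Summable (fun h => (x h) ^ 2)) : Summable (fun g => (ext0 H x g) ^ 2) := by
  have h := (Subtype.val_injective (p := fun g => g ∈ H)).summable_iff
    (f := fun g => (ext0 H x g) ^ 2) (by
      intro g hg
      have : g ∉ H := by
        intro h
        exact hg ⟨⟨g, h⟩, rfl⟩
      rw [ext0_of_notMem H x g this]
      norm_num)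
  rw [← h]
  refine hx.congr ?_
  intro h
  show _ = (ext0 H x h) ^ 2
  rw [ext0_coe]

lemma summable_cv {G A : Type*} [Group G] [DecidableEq A] (y : G → ℝ) (a : A)
    (hy : Summable (fun g => (y g) ^ 2)) (c : G × A →₀ ℤ) :
    Memℓp (fun g => cv y g a c) 2 := by
  classical
  have : (fun g => cv y g a c) = fun g => ∑ p ∈ c.support,
      (if p.2 = a then (c p : ℝ) * y (g * p.1⁻¹) else 0) := rfl
  rw [this]
  apply Memℓp.finsetSum
  intro p _
  split_ifs
  · have h1 : Summable (fun g => (y (g * p.1⁻¹)) ^ 2) :=
      (Equiv.summable_iff (Equiv.mulRight p.1⁻¹)).2 hy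
    exact (memLp_of_summable h1).const_mul _
  · exact zero_memℓp

/-- The finiteness theorem. -/
theorem finite_orbits {G S J ι : Type*} [Group G] [Fintype J] (φ : FreeGroup S →* G)
    (r : ι → FreeGroup S) (hr : φ.ker = Subgroup.normalClosure (Set.range r))
    (H : Subgroup G) (ψ : FreeGroup J →* H)
    (u : J → FreeGroup S) (hu : ∀ j, φ (u j) = (ψ (FreeGroup.of j) : G))
    (q : G → H) (hq : ∀ (h : H) (g : G), q (h * g) = h * q g)
    {ε : ℝ} (hε : 0 < ε) (hgap : RankGap H ε)
    [DecidableEq S]
    (hL2 : ∀ (F : ι → G → ℝ) (A0 : Finset ι), (∀ i, i ∉ A0 → F i = 0) →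
      (∀ i, Summable (fun g => (F i g) ^ 2)) →
      (∀ g s, ∑ i ∈ A0, (fch φ 1 (r i)).sum
        (fun p n => if p.2 = s then (n : ℝ) * F i (g * p.1⁻¹) else 0) = 0) → F = 0) :
    ∃ T0 : Finset (G × ι), ∀ n : FreeGroup J, ψ n = 1 → ∃ c : G × ι →₀ ℤ,
      bd (fun i => fch φ 1 (r i)) c = fch φ 1 (FreeGroup.lift u n) ∧
      ∀ p ∈ c.support, (((q p.1 : G))⁻¹ * p.1, p.2) ∈ T0 := by
  classical
  by_contra hcon
  push Not at hcon
  set v : ι → (G × S →₀ ℤ) := fun i => fch φ 1 (r i) with hv
  let τ : G × ι → G × ι := fun p => (((q p.1 : G))⁻¹ * p.1, p.2)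
  -- the sequence
  let P : FreeGroup J × (G × ι →₀ ℤ) × (G × ι) → Prop := fun x =>
    ψ x.1 = 1 ∧ bd v x.2.1 = fch φ 1 (FreeGroup.lift u x.1) ∧ ∃ p ∈ x.2.1.support, τ p = x.2.2
  let R : FreeGroup J × (G × ι →₀ ℤ) × (G × ι) → FreeGroup J × (G × ι →₀ ℤ) × (G × ι) → Prop :=
    fun x y => ∀ p ∈ x.2.1.support, τ p ≠ y.2.2
  obtain ⟨f, hf1, hf2⟩ := exists_seq_of_forall_finset_exists P R (by
    intro s _
    obtain ⟨n, hn, hn2⟩ := hcon (s.biUnion (fun x => x.2.1.support.image τ))
    have hφn : φ (FreeGroup.lift u n) = 1 := by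
      rw [phi_lift φ H ψ u hu, hn]
      rfl
    obtain ⟨c, hc⟩ := exists_bd_eq φ r hr _ hφn
    obtain ⟨p, hp, hp2⟩ := hn2 c hc
    refine ⟨(n, c, τ p), ⟨hn, hc, p, hp, rfl⟩, ?_⟩
    intro x hx p' hp' heq
    apply hp2
    rw [Finset.mem_biUnion]
    refine ⟨x, hx, ?_⟩
    rw [Finset.mem_image]
    exact ⟨p', hp', heq⟩)
  have hττ : ∀ (h : H) (g : G), ((q ((h : G) * g) : G))⁻¹ * ((h : G) * g) = (q g : G)⁻¹ * g := by
    intro h g
    rw [hq, Subgroup.coe_mul]
    group
  -- choose `N`
  set ε' : ℝ := min ε 1 with hε'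
  have hε'pos : 0 < ε' := lt_min hε one_pos
  obtain ⟨N, hN⟩ := exists_nat_gt ((Fintype.card J : ℝ) / ε')
  have hN' : (Fintype.card J : ℝ) < N * ε' := by
    rwa [div_lt_iff₀ hε'pos] at hN
  -- data
  let z : Fin N → (H × J →₀ ℤ) := fun k => fch ψ 1 (f k).1
  let c : Fin N → (G × ι →₀ ℤ) := fun k => (f k).2.1
  let t : Fin N → G × ι := fun k => (f k).2.2
  have hinj : ∀ k, Set.InjOn (fun h : H => ((h : G) * (t k).1, (t k).2))
      ((fun h : H => ((h : G) * (t k).1, (t k).2)) ⁻¹' ((c k).support : Set (G × ι))) := by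
    intro k h _ h' _ hh
    simp only [Prod.mk.injEq, mul_left_inj, and_true] at hh
    exact Subtype.ext hh
  let a : Fin N → (H →₀ ℤ) := fun k =>
    Finsupp.comapDomain (fun h : H => ((h : G) * (t k).1, (t k).2)) (c k) (hinj k)
  have ha_apply : ∀ k h, a k h = c k ((h : G) * (t k).1, (t k).2) := fun k h => rfl
  have hc : ∀ k, bd v (c k) = fch φ 1 (FreeGroup.lift u (f k).1) := fun k => (hf1 k).2.1
  have ht : ∀ k, ∃ p ∈ (c k).support, τ p = t k := fun k => (hf1 k).2.2
  have hsep : ∀ i k : Fin N, i < k → ∀ p ∈ (c i).support, τ p ≠ t k := fun i k hik =>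
    hf2 i k hik
  have htt : ∀ k, (q (t k).1 : G)⁻¹ * (t k).1 = (t k).1 := by
    intro k
    obtain ⟨p, _, hp⟩ := ht k
    rw [← hp]
    show (q ((q p.1 : G)⁻¹ * p.1) : G)⁻¹ * ((q p.1 : G)⁻¹ * p.1) = (q p.1 : G)⁻¹ * p.1
    have := hττ (q p.1)⁻¹ p.1
    rwa [Subgroup.coe_inv] at this
  have ha0 : ∀ k, a k ≠ 0 := by
    intro k h0
    obtain ⟨p, hp, hp2⟩ := ht k
    have h1 : a k (q p.1) = c k p := by
      rw [ha_apply, ← hp2]
      congr 1
      show ((q p.1 : G) * ((q p.1 : G)⁻¹ * p.1), p.2) = p
      rw [mul_inv_cancel_left]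
    rw [h0, Finsupp.zero_apply] at h1
    exact Finsupp.mem_support_iff.1 hp h1.symm
  have hbound := triangular_bound (min_le_right ε 1) (hgap.mono (min_le_left ε 1)) N z a ha0 (by
    intro x k hx hxk hrel g₀
    -- the extensions by zero
    set y : Fin N → G → ℝ := fun i => ext0 H (x i) with hy
    have hysum : ∀ i, Summable (fun g => (y i g) ^ 2) := fun i => summable_ext0 H _ (hx i)
    have hincl : ∀ (i : Fin N) (w : H × J →₀ ℤ) (g : H) (j : J),
        cv (y i) (g : G) j (incl H w) =
          w.sum (fun p n => if p.2 = j then (n : ℝ) * x i (g * p.1⁻¹) else 0) := by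
      intro i w g j
      induction w using Finsupp.induction_linear with
      | zero => simp [cv_zero]
      | add w1 w2 h1 h2 =>
        rw [map_add, cv_add, h1, h2]
        symm
        apply Finsupp.sum_add_index'
        · intro p; simp
        · intro p m n
          split_ifs
          · push_cast; ring
          · simp
      | single p n =>
        obtain ⟨h, j'⟩ := p
        rw [incl_single, cv_single, Finsupp.sum_single_index (by simp)]
        have h1 : y i ((g : G) * (h : G)⁻¹) = x i (g * h⁻¹) := ext0_coe H (x i) (g * h⁻¹)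
        rw [h1]
    have hincl' : ∀ (i : Fin N) (w : H × J →₀ ℤ) (g : G) (j : J), g ∉ H →
        cv (y i) g j (incl H w) = 0 := by
      intro i w g j hg
      induction w using Finsupp.induction_linear with
      | zero => simp [cv_zero]
      | add w1 w2 h1 h2 => rw [map_add, cv_add, h1, h2, add_zero]
      | single p n =>
        obtain ⟨h, j'⟩ := p
        rw [incl_single, cv_single]
        have h1 : y i (g * (h : G)⁻¹) = 0 := by
          apply ext0_of_notMem
          intro hm
          apply hg
          have := H.mul_mem hm h.2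
          rwa [inv_mul_cancel_right] at this
        rw [h1]
        simp
    have h1 : ∀ (g : G) (j : J), ∑ i, cv (y i) g j (incl H (z i)) = 0 := by
      intro g j
      by_cases hg : g ∈ H
      · rw [← hrel ⟨g, hg⟩ j]
        apply Finset.sum_congr rfl
        intro i _
        exact hincl i (z i) ⟨g, hg⟩ j
      · apply Finset.sum_eq_zero
        intro i _
        exact hincl' i (z i) g j hg
    have h2 : ∀ (g : G) (s : S), ∑ i, cv (y i) g s (bd v (c i)) = 0 := by
      intro g s
      have h3 : ∀ i : Fin N, cv (y i) g s (bd v (c i)) = ∑ j : J, (fch φ 1 (u j)).sum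
          (fun p n => if p.2 = s then (n : ℝ) * cv (y i) (g * p.1⁻¹) j (incl H (z i)) else 0) := by
        intro i
        rw [hc i]
        have h4 := bd_incl_fch φ H ψ u hu 1 (f i).1
        rw [Subgroup.coe_one] at h4
        rw [← h4]
        exact cv_bd _ _ _ _ _ _ (fun _ _ => Finset.mem_univ _)
      rw [Finset.sum_congr rfl (fun i _ => h3 i), Finset.sum_comm]
      apply Finset.sum_eq_zero
      intro j _
      unfold Finsupp.sum
      rw [Finset.sum_comm]
      apply Finset.sum_eq_zero
      intro p _
      beta_reduce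
      split_ifs
      · rw [← Finset.mul_sum, h1, mul_zero]
      · simp
    -- the filling
    let A0 : Finset ι := Finset.univ.biUnion (fun i : Fin N => (c i).support.image Prod.snd)
    have hA0 : ∀ (i : Fin N), ∀ p ∈ (c i).support, p.2 ∈ A0 := by
      intro i p hp
      rw [Finset.mem_biUnion]
      exact ⟨i, Finset.mem_univ _, Finset.mem_image_of_mem _ hp⟩
    let F : ι → G → ℝ := fun l g => ∑ i : Fin N, cv (y i) g l (c i)
    have hF0 : F = 0 := by
      apply hL2 F A0
      · intro l hl
        funext g
        apply Finset.sum_eq_zero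
        intro i _
        apply Finset.sum_eq_zero
        intro p hp
        beta_reduce
        rw [if_neg]
        rintro rfl
        exact hl (hA0 i p hp)
      · intro l
        have h3 : Memℓp (fun g => ∑ i : Fin N, cv (y i) g l (c i)) 2 := by
          apply Memℓp.finsetSum
          intro i _
          exact summable_cv (y i) l (hysum i) (c i)
        have h4 := (memℓp_gen_iff (p := 2) (by norm_num)).1 h3
        simpa using h4
      · intro g s
        refine Eq.trans ?_ (h2 g s)
        have h3 : ∀ i : Fin N, cv (y i) g s (bd v (c i)) = ∑ l ∈ A0, (v l).sum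
            (fun p n => if p.2 = s then (n : ℝ) * cv (y i) (g * p.1⁻¹) l (c i) else 0) :=
          fun i => cv_bd v (y i) g s (c i) A0 (hA0 i)
        rw [Finset.sum_congr rfl (fun i _ => h3 i), Finset.sum_comm]
        apply Finset.sum_congr rfl
        intro l _
        unfold Finsupp.sum
        rw [Finset.sum_comm]
        apply Finset.sum_congr rfl
        intro p _
        beta_reduce
        split_ifs
        · rw [← Finset.mul_sum]
        · simp
    -- evaluate on the orbit of `t k`
    have h5 : ∑ i : Fin N, cv (y i) ((g₀ : G) * (t k).1) (t k).2 (c i) = 0 := by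
      have := congrFun (congrFun hF0 (t k).2) ((g₀ : G) * (t k).1)
      exact this
    have hmem : ∀ p : G × ι, p.2 = (t k).2 → (g₀ : G) * (t k).1 * p.1⁻¹ ∈ H → τ p = t k := by
      intro p hp2 hpH
      have h6 : p.1 = (((⟨_, hpH⟩ : H)⁻¹ * g₀ : H) : G) * (t k).1 := by
        rw [Subgroup.coe_mul, Subgroup.coe_inv]
        show p.1 = ((g₀ : G) * (t k).1 * p.1⁻¹)⁻¹ * (g₀ : G) * (t k).1
        group
      have h7 : (q p.1 : G)⁻¹ * p.1 = (t k).1 := by
        rw [h6, hττ, htt]
      exact Prod.ext h7 hp2
    have h6 : ∀ i : Fin N, i ≠ k → cv (y i) ((g₀ : G) * (t k).1) (t k).2 (c i) = 0 := by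
      intro i hik
      rcases lt_or_gt_of_ne hik with h' | h'
      · apply Finset.sum_eq_zero
        intro p hp
        beta_reduce
        split_ifs with hp2
        · have : y i ((g₀ : G) * (t k).1 * p.1⁻¹) = 0 := by
            apply ext0_of_notMem
            intro hm
            exact hsep i k h' p hp (hmem p hp2 hm)
          rw [this, mul_zero]
        · rfl
      · have hxi := hxk i h'
        apply Finset.sum_eq_zero
        intro p _
        have : ∀ g, y i g = 0 := by
          intro g
          by_cases hg : g ∈ H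
          · have h8 : y i g = x i ⟨g, hg⟩ := ext0_coe H (x i) ⟨g, hg⟩
            rw [h8, hxi]
            rfl
          · exact ext0_of_notMem H _ _ hg
        beta_reduce
        rw [this]
        simp
    rw [Finset.sum_eq_single k (fun i _ hik => h6 i hik)
      (fun h => absurd (Finset.mem_univ k) h)] at h5
    rw [← h5]
    -- compare the two sums
    unfold cv Finsupp.sum
    have h7 : ∑ p ∈ (c k).support, (if p.2 = (t k).2 then
        ((c k p : ℤ) : ℝ) * y k ((g₀ : G) * (t k).1 * p.1⁻¹) else 0) =
        ∑ p ∈ (a k).support.image (fun h : H => ((h : G) * (t k).1, (t k).2)),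
          (if p.2 = (t k).2 then
            ((c k p : ℤ) : ℝ) * y k ((g₀ : G) * (t k).1 * p.1⁻¹) else 0) := by
      symm
      apply Finset.sum_subset
      · intro p hp
        obtain ⟨h, hh, rfl⟩ := Finset.mem_image.1 hp
        rw [Finsupp.mem_support_iff] at hh ⊢
        exact hh
      · intro p hp hp2
        split_ifs with h8
        · have : y k ((g₀ : G) * (t k).1 * p.1⁻¹) = 0 := by
            apply ext0_of_notMem
            intro hm
            apply hp2
            have h9 := hmem p h8 hm
            rw [Finset.mem_image]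
            have h10 : ((q p.1 : G) * (t k).1, (t k).2) = p := by
              rw [← h9]
              show ((q p.1 : G) * ((q p.1 : G)⁻¹ * p.1), p.2) = p
              rw [mul_inv_cancel_left]
            refine ⟨q p.1, ?_, h10⟩
            rw [Finsupp.mem_support_iff, ha_apply, h10]
            exact Finsupp.mem_support_iff.1 hp
          rw [this, mul_zero]
        · rfl
    rw [h7, Finset.sum_image]
    · apply Finset.sum_congr rfl
      intro h _
      rw [if_pos rfl, ha_apply]
      congr 1
      have h8 : (g₀ : G) * (t k).1 * ((h : G) * (t k).1)⁻¹ = ((g₀ * h⁻¹ : H) : G) := by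
        rw [Subgroup.coe_mul, Subgroup.coe_inv]
        group
      have h9 : y k ((g₀ * h⁻¹ : H) : G) = x k (g₀ * h⁻¹) := ext0_coe H (x k) _
      rw [h8, h9]
    · intro h _ h' _ hh
      simp only [Prod.mk.injEq, mul_left_inj, and_true] at hh
      exact Subtype.ext hh)
  linarith

end Pool.Agent.L2Coh
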