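import Pool.Agent.L2Coh.Cons

/-!
# Finitely generated linear groups are virtually residually finite `p`-groups
-/

namespace Pool.Agent.L2Coh

lemma isJacobsonRing_int : IsJacobsonRing ℤ := by
  rw [isJacobsonRing_iff_prime_eq]
  intro P hP
  by_cases h : P = ⊥
  · subst h
    rw [eq_bot_iff]
    intro x hx
    rw [Ideal.mem_jacobson_bot] at hx
    have h1 := hx x
    rw [Int.isUnit_iff] at h1
    rw [Ideal.mem_bot]
    rcases h1 with h1 | h1
    · have h2 : x * x = 0 := by linarith
      exact mul_self_eq_zero.1 h2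
    · nlinarith [mul_self_nonneg x]
  · have : P.IsMaximal := hP.isMaximal h
    exact Ideal.jacobson_eq_self_of_isMaximal

lemma finite_field (K : Type*) [Field K] (hK : Algebra.FiniteType ℤ K) : Finite K := by
  have h0 : IsJacobsonRing ℤ := isJacobsonRing_int
  have h1 : Module.Finite ℤ K := finite_of_finite_type_of_isJacobsonRing ℤ K
  have h2 : Algebra.IsIntegral ℤ K := inferInstance
  have h3 : ¬ Function.Injective (algebraMap ℤ K) := by
    intro hinj
    exact Int.not_isField (isField_of_isIntegral_of_isField hinj (Field.toIsField K))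
  rw [injective_iff_map_eq_zero] at h3
  push Not at h3
  obtain ⟨a, ha, ha0⟩ := h3
  apply Module.finite_of_fg_torsion
  intro x
  refine ⟨⟨a, mem_nonZeroDivisors_of_ne_zero ha0⟩, ?_⟩
  show a • x = 0
  rw [Algebra.smul_def, ha, zero_mul]

section cong

variable {A : Type*} [CommRing A] {n : ℕ}

/-- Matrices with entries in an ideal. -/
def MI (I : Ideal A) (X : Matrix (Fin n) (Fin n) A) : Prop := ∀ i j, X i j ∈ I

lemma MI.add {I : Ideal A} {X Y : Matrix (Fin n) (Fin n) A} (hX : MI I X) (hY : MI I Y) :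
    MI I (X + Y) := fun i j => I.add_mem (hX i j) (hY i j)

lemma MI.sum {I : Ideal A} {α : Type*} (s : Finset α) (X : α → Matrix (Fin n) (Fin n) A)
    (hX : ∀ a ∈ s, MI I (X a)) : MI I (∑ a ∈ s, X a) := by
  intro i j
  rw [Matrix.sum_apply]
  exact I.sum_mem (fun a ha => hX a ha i j)

lemma MI.mul {I J : Ideal A} {X Y : Matrix (Fin n) (Fin n) A} (hX : MI I X) (hY : MI J Y) :
    MI (I * J) (X * Y) := by
  intro i j
  rw [Matrix.mul_apply]
  exact Ideal.sum_mem _ (fun k _ => Ideal.mul_mem_mul (hX i k) (hY k j))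

lemma MI.mono {I J : Ideal A} (h : I ≤ J) {X : Matrix (Fin n) (Fin n) A} (hX : MI I X) :
    MI J X := fun i j => h (hX i j)

end cong

theorem linear_virtually {H : Type*} [Group H] (hfg : Group.FG H) {F : Type*} [Field F] (n : ℕ)
    (f : H →* (Matrix (Fin n) (Fin n) F)ˣ) (hf : Function.Injective f) :
    ∃ K : Subgroup H, K.FiniteIndex ∧ ∃ p : ℕ, p.Prime ∧ ResiduallyP p K := by
  classical
  obtain ⟨S, hS, hSf⟩ := Group.fg_iff.1 hfg
  let g : H →* Matrix (Fin n) (Fin n) F := (Units.coeHom _).comp f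
  have hg : Function.Injective g := Units.val_injective.comp hf
  let E : Set F := (fun x : H × Fin n × Fin n => g x.1 x.2.1 x.2.2) ''
    ((S ∪ S⁻¹) ×ˢ (Set.univ : Set (Fin n × Fin n)))
  have hE : E.Finite := ((hSf.union hSf.inv).prod Set.finite_univ).image _
  let A : Subalgebra ℤ F := Algebra.adjoin ℤ E
  have hAfg : A.FG := Subalgebra.fg_def.2 ⟨E, hE, rfl⟩
  have hAft : Algebra.FiniteType ℤ A := (Subalgebra.fg_iff_finiteType A).1 hAfg
  have hAn : IsNoetherianRing A := Algebra.FiniteType.isNoetherianRing ℤ A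
  have hgA : ∀ h : H, (∀ i j, g h i j ∈ A) ∧ ∀ i j, g h⁻¹ i j ∈ A := by
    intro h
    have hmem : h ∈ Subgroup.closure S := by rw [hS]; exact Subgroup.mem_top h
    induction hmem using Subgroup.closure_induction with
    | mem s hs =>
      constructor
      · intro i j
        exact Algebra.subset_adjoin ⟨(s, i, j), ⟨Or.inl hs, Set.mem_univ _⟩, rfl⟩
      · intro i j
        exact Algebra.subset_adjoin ⟨(s⁻¹, i, j), ⟨Or.inr (Set.inv_mem_inv.2 hs),
          Set.mem_univ _⟩, rfl⟩
    | one =>
      have h1 : ∀ i j, (1 : Matrix (Fin n) (Fin n) F) i j ∈ A := by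
        intro i j
        rw [Matrix.one_apply]
        split_ifs
        · exact A.one_mem
        · exact A.zero_mem
      constructor
      · intro i j
        rw [map_one]
        exact h1 i j
      · intro i j
        rw [inv_one, map_one]
        exact h1 i j
    | mul a b _ _ ha hb =>
      constructor
      · intro i j
        rw [map_mul, Matrix.mul_apply]
        exact A.sum_mem (fun k _ => A.mul_mem (ha.1 i k) (hb.1 k j))
      · intro i j
        rw [mul_inv_rev, map_mul, Matrix.mul_apply]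
        exact A.sum_mem (fun k _ => A.mul_mem (hb.2 i k) (ha.2 k j))
    | inv a _ ha =>
      refine ⟨ha.2, ?_⟩
      rw [inv_inv]
      exact ha.1
  let gA : H →* Matrix (Fin n) (Fin n) A :=
    { toFun := fun h => Matrix.of fun i j => ⟨g h i j, (hgA h).1 i j⟩
      map_one' := by
        ext i j
        show g 1 i j = (((1 : Matrix (Fin n) (Fin n) A) i j : A) : F)
        rw [map_one, Matrix.one_apply, Matrix.one_apply]
        split_ifs <;> rfl
      map_mul' := by
        intro a b
        ext i j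
        show g (a * b) i j = (((Matrix.of fun i j => (⟨g a i j, (hgA a).1 i j⟩ : A)) *
          (Matrix.of fun i j => (⟨g b i j, (hgA b).1 i j⟩ : A)) : Matrix (Fin n) (Fin n) A) i j : A)
        rw [map_mul, Matrix.mul_apply, Matrix.mul_apply, AddSubmonoidClass.coe_finsetSum]
        rfl }
  have hgAi : Function.Injective gA := by
    intro a b hab
    apply hg
    ext i j
    have h1 := congrArg (fun M : Matrix (Fin n) (Fin n) A => ((M i j : A) : F)) hab
    exact h1
  obtain ⟨m, hm⟩ := Ideal.exists_maximal A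
  let _ := Ideal.Quotient.field m
  have hft : Algebra.FiniteType ℤ (A ⧸ m) :=
    Algebra.FiniteType.of_surjective (Ideal.Quotient.mkₐ ℤ m) Ideal.Quotient.mk_surjective
  have hfin : Finite (A ⧸ m) := finite_field (A ⧸ m) hft
  obtain ⟨p, hp⟩ := CharP.exists (A ⧸ m)
  have hp0 : p ≠ 0 := CharP.char_ne_zero_of_finite (A ⧸ m) p
  have hpp : p.Prime := (CharP.char_is_prime_or_zero (A ⧸ m) p).resolve_right hp0
  have hpm : (p : A) ∈ m := by
    rw [← Ideal.Quotient.eq_zero_iff_mem, map_natCast]
    exact CharP.cast_eq_zero _ _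
  have hmk : ∀ k, Finite (A ⧸ m ^ k) := fun k =>
    Ideal.finite_quotient_pow (IsNoetherian.noetherian m) k
  let N : ℕ → Subgroup H := fun k =>
    ((RingHom.mapMatrix (m := Fin n) (Ideal.Quotient.mk (m ^ k))).toMonoidHom.comp
      gA).toHomUnits.ker
  have hN : ∀ k h, h ∈ N k ↔ MI (m ^ k) (gA h - 1) := by
    intro k h
    rw [MonoidHom.mem_ker, Units.ext_iff]
    show (gA h).map (Ideal.Quotient.mk (m ^ k)) = 1 ↔ _
    rw [← sub_eq_zero]
    have h1 : (gA h).map (Ideal.Quotient.mk (m ^ k)) - 1 =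
        (gA h - 1).map (Ideal.Quotient.mk (m ^ k)) := by
      rw [Matrix.map_sub _ (fun a b => map_sub _ a b), Matrix.map_one _ (map_zero _) (map_one _)]
    rw [h1]
    constructor
    · intro h2 i j
      rw [← Ideal.Quotient.eq_zero_iff_mem]
      exact congrFun (congrFun h2 i) j
    · intro h2
      ext i j
      exact Ideal.Quotient.eq_zero_iff_mem.2 (h2 i j)
  have hNn : ∀ k, (N k).Normal := fun k => MonoidHom.normal_ker _
  have hNf : ∀ k, (N k).FiniteIndex := by
    intro k
    have := hmk k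
    have : Finite (Matrix (Fin n) (Fin n) (A ⧸ m ^ k)) := inferInstanceAs (Finite (_ → _ → _))
    exact Subgroup.finiteIndex_ker _
  -- the power map
  have hstep : ∀ j h, 1 ≤ j → h ∈ N j → h ^ p ∈ N (j + 1) := by
    intro j h hj hh
    have hh1 : h ∈ N 1 := by
      rw [hN] at hh ⊢
      exact hh.mono (Ideal.pow_le_pow_right hj)
    rw [hN, map_pow, ← mul_geom_sum, pow_succ]
    rw [hN] at hh
    apply MI.mul hh
    have h1 : ∑ i ∈ Finset.range p, gA h ^ i =
        ∑ i ∈ Finset.range p, (gA h ^ i - 1) + (p : Matrix (Fin n) (Fin n) A) := by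
      rw [Finset.sum_sub_distrib, Finset.sum_const, Finset.card_range, nsmul_eq_mul, mul_one,
        sub_add_cancel]
    rw [h1]
    apply MI.add
    · apply MI.sum
      intro i _
      have h2 : h ^ i ∈ N 1 := (N 1).pow_mem hh1 i
      rw [hN, pow_one, map_pow] at h2
      exact h2
    · intro i j
      rw [← Matrix.diagonal_natCast, Matrix.diagonal_apply]
      split_ifs
      · exact hpm
      · exact m.zero_mem
  have hpow : ∀ j h, h ∈ N 1 → h ^ (p ^ j) ∈ N (j + 1) := by
    intro j
    induction j with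
    | zero => intro h hh; rw [pow_zero, pow_one]; exact hh
    | succ j ih =>
      intro h hh
      rw [pow_succ, pow_mul]
      exact hstep (j + 1) _ (by omega) (ih h hh)
  refine ⟨N 1, hNf 1, p, hpp, ?_⟩
  intro h hne
  have hne' : gA h.1 ≠ 1 := by
    intro h1
    apply hne
    apply Subtype.ext
    apply hgAi
    rw [h1]
    exact (map_one gA).symm
  have h1 : ∃ i j, gA h.1 i j ≠ (1 : Matrix (Fin n) (Fin n) A) i j := by
    by_contra hcon
    push Not at hcon
    apply hne'
    ext i j
    rw [hcon]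
  obtain ⟨i, j, hij⟩ := h1
  have h2 : ∃ k, gA h.1 i j - (1 : Matrix (Fin n) (Fin n) A) i j ∉ m ^ k := by
    by_contra hcon
    push Not at hcon
    have h3 : gA h.1 i j - (1 : Matrix (Fin n) (Fin n) A) i j ∈ ⨅ k : ℕ, m ^ k := by
      rw [Ideal.mem_iInf]
      exact hcon
    have h4 : ⨅ k : ℕ, m ^ k = ⊥ := Ideal.iInf_pow_eq_bot_of_isDomain m hm.ne_top
    rw [h4, Ideal.mem_bot] at h3
    exact hij (sub_eq_zero.1 h3)
  obtain ⟨k, hk⟩ := h2
  have hfact : Fact p.Prime := ⟨hpp⟩
  have hNk := hNf k
  have hNkn := hNn k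
  refine ⟨(N k).subgroupOf (N 1), inferInstance, ?_, ?_⟩
  · have hfin2 : Finite (N 1 ⧸ (N k).subgroupOf (N 1)) := inferInstance
    rw [Subgroup.index_eq_card, ← IsPGroup.iff_card]
    intro x
    obtain ⟨y, rfl⟩ := QuotientGroup.mk_surjective x
    refine ⟨k, ?_⟩
    rw [← QuotientGroup.mk_pow, QuotientGroup.eq_one_iff, Subgroup.mem_subgroupOf]
    have h3 := hpow k y.1 y.2
    rw [hN] at h3
    show y.1 ^ (p ^ k) ∈ N k
    rw [hN]
    exact h3.mono (Ideal.pow_le_pow_right (Nat.le_succ k))
  · intro h3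
    rw [Subgroup.mem_subgroupOf, hN] at h3
    exact hk (h3 i j)

end Pool.Agent.L2Coh
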