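import Pool.Agent.L2Coh.Expand

/-!
# Morse relations with forests as descending links
-/

namespace Pool.Agent.L2Coh

lemma forest_rank {V : Type*} (T : SimpleGraph V) (hT : T.IsAcyclic) :
    ∃ ρ : V → ℕ, (∀ v w, T.Adj v w → ρ v = ρ w + 1 ∨ ρ w = ρ v + 1) ∧
      ∀ v w w', T.Adj v w → T.Adj v w' → ρ v = ρ w + 1 → ρ v = ρ w' + 1 → w = w' := by
  classical
  let root : V → V := fun v => Quot.out (T.connectedComponentMk v)
  have hroot : ∀ v, T.Reachable (root v) v := by
    intro v
    have : T.connectedComponentMk (Quot.out (T.connectedComponentMk v)) =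
      T.connectedComponentMk v := Quot.out_eq _
    exact SimpleGraph.ConnectedComponent.exact this
  have hroot2 : ∀ v w, T.Adj v w → root v = root w := by
    intro v w h
    show Quot.out _ = Quot.out _
    rw [SimpleGraph.ConnectedComponent.connectedComponentMk_eq_of_adj h]
  refine ⟨fun v => T.dist (root v) v, ?_, ?_⟩
  · intro v w h
    show T.dist (root v) v = T.dist (root w) w + 1 ∨ T.dist (root w) w = T.dist (root v) v + 1
    rw [← hroot2 v w h]
    exact hT.dist_eq_dist_add_one_of_adj_of_reachable (root v) h (hroot v)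
  · intro v w w' h h' hw hw'
    obtain ⟨p, hp, hpl⟩ := (hroot v).exists_path_of_dist
    have key : ∀ w, T.Adj v w → T.dist (root v) v = T.dist (root w) w + 1 →
        w = p.penultimate := by
      intro w h hw
      rw [← hroot2 v w h] at hw
      have hreach : T.Reachable (root v) w := (hroot v).trans h.reachable
      obtain ⟨q, hq, hql⟩ := hreach.exists_path_of_dist
      have hv : v ∉ q.support := by
        intro hv
        have h1 := hT.path_concat hp hq h hv
        have h2 : q.length = p.length + 1 := by rw [h1, SimpleGraph.Walk.length_concat]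
        omega
      have hws : w ∈ p.support :=
        hT.mem_support_of_ne_mem_support_of_adj_of_isPath hp hq h hv
      exact hT.eq_penultimate_of_adj_end hp h hws
    rw [key w h hw, key w' h' hw']

section edges

variable {G S : Type*} [Group G] (φ : FreeGroup S →* G)

/-- The two endpoints of an edge. -/
def ends (e : G × S) : Set G := {e.1, e.1 * φ (FreeGroup.of e.2)}

lemma mk_singleton_true (s : S) : FreeGroup.mk [(s, true)] = FreeGroup.of s := rfl

lemma mk_singleton_false (s : S) : FreeGroup.mk [(s, false)] = (FreeGroup.of s)⁻¹ := by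
  rw [FreeGroup.of, FreeGroup.inv_mk]
  rfl

lemma ends_edgeAt (v : G) (x : S × Bool) :
    ends φ (edgeAt φ v x) = {v, v * φ (FreeGroup.mk [x])} := by
  obtain ⟨s, b⟩ := x
  cases b
  · show ({v * (φ (FreeGroup.of s))⁻¹, v * (φ (FreeGroup.of s))⁻¹ * φ (FreeGroup.of s)} : Set G) = _
    rw [inv_mul_cancel_right, mk_singleton_false, map_inv, Set.pair_comm]
  · show ({v, v * φ (FreeGroup.of s)} : Set G) = _
    rw [mk_singleton_true]

lemma edgeAt_inj (v : G) (x y : S × Bool) (h : edgeAt φ v x = edgeAt φ v y)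
    (hx : v * φ (FreeGroup.mk [x]) ≠ v) : x = y := by
  obtain ⟨s, b⟩ := x
  obtain ⟨t, b'⟩ := y
  cases b <;> cases b'
  · have h1 : s = t := congrArg Prod.snd h
    rw [h1]
  · have h1 : s = t := congrArg Prod.snd h
    have h2 : v * (φ (FreeGroup.of s))⁻¹ = v := congrArg Prod.fst h
    rw [mk_singleton_false, map_inv] at hx
    exact absurd h2 hx
  · have h1 : s = t := congrArg Prod.snd h
    have h2 : v = v * (φ (FreeGroup.of t))⁻¹ := congrArg Prod.fst h
    have h3 : φ (FreeGroup.of t) = 1 := by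
      have h4 := left_eq_mul.1 h2
      rw [← inv_inv (φ (FreeGroup.of t)), h4, inv_one]
    rw [mk_singleton_true, h1, h3, mul_one] at hx
    exact absurd rfl hx
  · have h1 : s = t := congrArg Prod.snd h
    rw [h1]

lemma edgeAt_inv (g : G) (y : S × Bool) :
    edgeAt φ g (y.1, !y.2) = edgeAt φ (g * φ (FreeGroup.mk [(y.1, !y.2)])) y := by
  obtain ⟨s, b⟩ := y
  cases b
  · show (g, s) = (g * φ (FreeGroup.mk [(s, true)]) * (φ (FreeGroup.of s))⁻¹, s)
    rw [mk_singleton_true, mul_inv_cancel_right]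
  · show (g * (φ (FreeGroup.of s))⁻¹, s) = (g * φ (FreeGroup.mk [(s, false)]), s)
    rw [mk_singleton_false, map_inv]

lemma edgePath_cons (g : G) (a : S × Bool) (l : List (S × Bool)) :
    edgePath φ g (a :: l) = (edgeAt φ g a, a.2) :: edgePath φ (g * φ (FreeGroup.mk [a])) l := by
  obtain ⟨s, b⟩ := a
  cases b
  · rw [edgePath, mk_singleton_false, map_inv]
    rfl
  · rw [edgePath, mk_singleton_true]
    rfl

lemma mem_edgePath (g : G) (l : List (S × Bool)) (e : G × S) (b : Bool)
    (h : (e, b) ∈ edgePath φ g l) :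
    ∃ p a q, l = p ++ a :: q ∧ e = edgeAt φ (g * φ (FreeGroup.mk p)) a := by
  induction l generalizing g with
  | nil => rw [edgePath] at h; exact absurd h (List.not_mem_nil)
  | cons a l ih =>
    rw [edgePath_cons, List.mem_cons] at h
    rcases h with h | h
    · refine ⟨[], a, l, rfl, ?_⟩
      have h1 : e = edgeAt φ g a := congrArg Prod.fst h
      rw [h1]
      have : FreeGroup.mk ([] : List (S × Bool)) = 1 := rfl
      rw [this, map_one, mul_one]
    · obtain ⟨p, a', q, rfl, he⟩ := ih _ h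
      refine ⟨a :: p, a', q, rfl, ?_⟩
      rw [he]
      congr 1
      rw [mul_assoc, ← map_mul, FreeGroup.mul_mk]
      rfl

end edges

lemma exists_split {A : Type*} [BEq A] [LawfulBEq A] (L : List (A × Bool)) (e : A)
    (h : (L.map Prod.fst).count e = 1) :
    ∃ l₁ l₂ b, L = l₁ ++ (e, b) :: l₂ ∧ ∀ x ∈ l₁ ++ l₂, x.1 ≠ e := by
  have h1 : e ∈ L.map Prod.fst := by
    rw [← List.count_pos_iff, h]
    exact one_pos
  obtain ⟨⟨e', b⟩, hL, he⟩ := List.mem_map.1 h1
  have he' : e' = e := he
  subst he'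
  obtain ⟨l₁, l₂, rfl⟩ := List.append_of_mem hL
  refine ⟨l₁, l₂, b, rfl, ?_⟩
  intro x hx hxe
  rw [List.map_append, List.map_cons, List.count_append, List.count_cons_self] at h
  have h2 : 0 < ((l₁ ++ l₂).map Prod.fst).count e' := by
    rw [List.count_pos_iff]
    exact List.mem_map.2 ⟨x, hx, hxe⟩
  rw [List.map_append, List.count_append] at h2
  omega

/-- The Morse criterion for expandability. -/
theorem expandable_of_forestMorse {G S ι : Type*} [Group G] (φ : FreeGroup S →* G)
    (r : ι → List (S × Bool)) (hr1 : ∀ i, φ (FreeGroup.mk (r i)) = 1) (h : ForestMorse φ r) :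
    Expandable φ r := by
  classical
  obtain ⟨lt, hlt, hcorner, huniq, hforest⟩ := h
  have hasym : ∀ a b, lt a b → ¬ lt b a := fun a b h1 h2 => hlt.asymmetric a b h1 h2
  have hirr : ∀ a, ¬ lt a a := fun a h1 => hasym a a h1 h1
  choose V X Y hXY hne using hcorner
  choose ρ hρ1 hρ2 using fun v => forest_rank (descLink φ r lt v) (hforest v)
  have hadj : ∀ c, (descLink φ r lt (V c)).Adj (X c) (Y c) := fun c => ⟨hne c, c, Or.inl (hXY c)⟩
  -- the corner germs
  have hdesc : ∀ c, lt (V c * φ (FreeGroup.mk [X c])) (V c) ∧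
      lt (V c * φ (FreeGroup.mk [Y c])) (V c) := by
    intro c
    obtain ⟨w₁, w₂, w, h1, h2, h3, h4⟩ := hXY c
    constructor
    · exact h4 [X c] (w ++ [((Y c).1, !(Y c).2)]) h3 (by simp) (by simp)
    · have h5 := h4 (X c :: w) [((Y c).1, !(Y c).2)] (by rw [h3]; rfl) (by simp) (by simp)
      have h6 : φ (FreeGroup.mk (w₂ ++ w₁)) = 1 := by
        have h7 := hr1 c.1
        rw [h1, ← FreeGroup.mul_mk, map_mul] at h7
        rw [← FreeGroup.mul_mk, map_mul]
        exact mul_eq_one_iff_eq_inv.2 (eq_inv_of_mul_eq_one_right h7)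
      have h8 : φ (FreeGroup.mk (X c :: w)) = φ (FreeGroup.mk [Y c]) := by
        have h9 : w₂ ++ w₁ = (X c :: w) ++ [((Y c).1, !(Y c).2)] := by rw [h3]; rfl
        rw [h9, ← FreeGroup.mul_mk, map_mul] at h6
        have h10 : FreeGroup.mk [((Y c).1, !(Y c).2)] = (FreeGroup.mk [Y c])⁻¹ := by
          rw [FreeGroup.inv_mk]
          rfl
        rw [h10, map_inv] at h6
        exact mul_inv_eq_one.1 h6
      rw [h8] at h5
      exact h5
  -- the analysis of the attaching path
  have hpath : ∀ c, ∃ M : List ((G × S) × Bool), ∃ b b',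
      (edgePath φ c.2 (r c.1)).Perm ((edgeAt φ (V c) (X c), b) :: (M ++
        [(edgeAt φ (V c) (Y c), b')])) ∧
      ∀ e b, (e, b) ∈ M → ∀ g ∈ ends φ e, lt g (V c) := by
    intro c
    obtain ⟨w₁, w₂, w, h1, h2, h3, h4⟩ := hXY c
    have h6 : φ (FreeGroup.mk (w₂ ++ w₁)) = 1 := by
      have h7 := hr1 c.1
      rw [h1, ← FreeGroup.mul_mk, map_mul] at h7
      rw [← FreeGroup.mul_mk, map_mul]
      exact mul_eq_one_iff_eq_inv.2 (eq_inv_of_mul_eq_one_right h7)
    refine ⟨edgePath φ (V c * φ (FreeGroup.mk [X c])) w, (X c).2, !(Y c).2, ?_, ?_⟩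
    · have h5 : edgePath φ (V c) (w₂ ++ w₁) = (edgeAt φ (V c) (X c), (X c).2) ::
          (edgePath φ (V c * φ (FreeGroup.mk [X c])) w ++
            [(edgeAt φ (V c) (Y c), !(Y c).2)]) := by
        rw [h3, edgePath_cons, edgePath_append, edgePath_cons, edgePath]
        congr 3
        rw [edgeAt_inv]
        congr 2
        have h9 : w₂ ++ w₁ = [X c] ++ w ++ [((Y c).1, !(Y c).2)] := by rw [h3]; rfl
        rw [h9, ← FreeGroup.mul_mk, ← FreeGroup.mul_mk, map_mul, map_mul] at h6
        rw [mul_assoc, mul_assoc, ← mul_assoc (φ _) (φ _) (φ _), h6, mul_one]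
      rw [← h5, h1, edgePath_append, edgePath_append, ← h2]
      have h8 : V c * φ (FreeGroup.mk w₂) = c.2 := by
        have h7 := hr1 c.1
        rw [h1, ← FreeGroup.mul_mk, map_mul] at h7
        rw [h2, mul_assoc, h7, mul_one]
      rw [h8]
      exact List.perm_append_comm
    · intro e b he g hg
      obtain ⟨p, a, q, rfl, rfl⟩ := mem_edgePath φ _ _ e b he
      rw [ends_edgeAt] at hg
      rcases hg with hg | hg
      · have h5 := h4 (X c :: p) (a :: q ++ [((Y c).1, !(Y c).2)]) (by rw [h3]; simp) (by simp)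
          (by simp)
        rw [hg, mul_assoc, ← map_mul, FreeGroup.mul_mk]
        exact h5
      · have h5 := h4 (X c :: (p ++ [a])) (q ++ [((Y c).1, !(Y c).2)]) (by rw [h3]; simp)
          (by simp) (by simp)
        have hg' : g = V c * φ (FreeGroup.mk [X c]) * φ (FreeGroup.mk p) *
          φ (FreeGroup.mk [a]) := hg
        rw [hg', mul_assoc, mul_assoc, ← map_mul, ← map_mul, FreeGroup.mul_mk, FreeGroup.mul_mk]
        exact h5
  -- the far endpoints of the corners
  have hfar : ∀ c, ∃ z z' : S × Bool, ((z = X c ∧ z' = Y c) ∨ (z = Y c ∧ z' = X c)) ∧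
      ρ (V c) z = ρ (V c) z' + 1 := by
    intro c
    rcases hρ1 (V c) _ _ (hadj c) with h1 | h1
    · exact ⟨X c, Y c, Or.inl ⟨rfl, rfl⟩, h1⟩
    · exact ⟨Y c, X c, Or.inr ⟨rfl, rfl⟩, h1⟩
  choose Z Z' hZ hZρ using hfar
  have hZadj : ∀ c, (descLink φ r lt (V c)).Adj (Z c) (Z' c) := by
    intro c
    rcases hZ c with ⟨h1, h2⟩ | ⟨h1, h2⟩
    · rw [h1, h2]; exact hadj c
    · rw [h1, h2]; exact (hadj c).symm
  have hZdesc : ∀ c, lt (V c * φ (FreeGroup.mk [Z c])) (V c) ∧
      lt (V c * φ (FreeGroup.mk [Z' c])) (V c) := by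
    intro c
    rcases hZ c with ⟨h1, h2⟩ | ⟨h1, h2⟩
    · rw [h1, h2]; exact hdesc c
    · rw [h1, h2]; exact ⟨(hdesc c).2, (hdesc c).1⟩
  -- different cells with the same top vertex have different far endpoints
  have hZinj : ∀ c c', V c = V c' → Z c = Z c' → c = c' := by
    intro c c' hV hZZ
    have h1 : Z' c = Z' c' := by
      have h2 := hZadj c'
      have h3 := hZρ c'
      rw [← hV, ← hZZ] at h2 h3
      exact hρ2 (V c) (Z c) (Z' c) (Z' c') (hZadj c) h2 (hZρ c) h3
    have hc := hXY c
    have hc' := hXY c'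
    rw [← hV] at hc'
    apply huniq c c' (V c) (X c) (Y c) hc
    rcases hZ c with ⟨h2, h3⟩ | ⟨h2, h3⟩ <;> rcases hZ c' with ⟨h4, h5⟩ | ⟨h4, h5⟩
    · left
      rw [← h2, ← h3, hZZ, h1, h4, h5]
      exact hc'
    · right
      rw [← h2, ← h3, hZZ, h1, h4, h5]
      exact hc'
    · right
      rw [← h2, ← h3, hZZ, h1, h4, h5]
      exact hc'
    · left
      rw [← h2, ← h3, hZZ, h1, h4, h5]
      exact hc'
  let e : ι × G → G × S := fun c => edgeAt φ (V c) (Z c)
  let R : ι × G → ι × G → Prop := fun c' c => lt (V c') (V c) ∨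
    (V c' = V c ∧ ρ (V c') (Z c') < ρ (V c) (Z c))
  have hR : WellFounded R := by
    have h1 : WellFounded (InvImage (Prod.Lex lt (· < · : ℕ → ℕ → Prop))
        (fun c : ι × G => (V c, ρ (V c) (Z c)))) :=
      InvImage.wf _ (WellFounded.prod_lex hlt Nat.lt_wfRel.wf)
    apply Subrelation.wf _ h1
    intro c' c hcc
    show Prod.Lex lt (· < ·) (V c', ρ (V c') (Z c')) (V c, ρ (V c) (Z c))
    rcases hcc with hcc | ⟨h2, h3⟩
    · exact Prod.Lex.left _ _ hcc
    · rw [h2] at h3 ⊢
      exact Prod.Lex.right _ h3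
  -- the position of the edges in the attaching paths
  have hmain : ∀ c c' : ι × G, c' ≠ c → (∃ b, (e c', b) ∈ edgePath φ c.2 (r c.1)) → R c' c := by
    rintro c c' hcc ⟨b, hb⟩
    obtain ⟨M, b₁, b₂, hperm, hM⟩ := hpath c
    have hb2 := hperm.mem_iff.1 hb
    have hVe : V c' ∈ ends φ (e c') := by
      show V c' ∈ ends φ (edgeAt φ (V c') (Z c'))
      rw [ends_edgeAt]
      exact Or.inl rfl
    have hcorner : ∀ z, (z = Z c ∨ z = Z' c) → e c' = edgeAt φ (V c) z → R c' c := by
      intro z hz hez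
      have hzd : lt (V c * φ (FreeGroup.mk [z])) (V c) := by
        rcases hz with rfl | rfl
        · exact (hZdesc c).1
        · exact (hZdesc c).2
      rw [hez, ends_edgeAt] at hVe
      rcases hVe with hv | hv
      · have h1 : Z c' = z := by
          apply edgeAt_inj φ (V c')
          · show edgeAt φ (V c') (Z c') = _
            rw [hv]
            rw [← hez]
            show _ = edgeAt φ (V c') (Z c')
            rw [hv]
          · intro h2
            have h3 := (hZdesc c').1
            rw [h2] at h3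
            exact hirr _ h3
        rcases hz with rfl | rfl
        · exact absurd (hZinj c' c hv h1) hcc
        · right
          refine ⟨hv, ?_⟩
          rw [hv, h1, hZρ c]
          exact Nat.lt_succ_self _
      · left
        have hv' : V c' = V c * φ (FreeGroup.mk [z]) := hv
        rw [hv']
        exact hzd
    have hXZ : ∀ z, z = X c ∨ z = Y c → z = Z c ∨ z = Z' c := by
      intro z hz
      rcases hZ c with ⟨h1, h2⟩ | ⟨h1, h2⟩
      · rw [h1, h2]; exact hz
      · rw [h1, h2]; exact hz.symm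
    rw [List.mem_cons, List.mem_append, List.mem_singleton] at hb2
    rcases hb2 with hb2 | hb2 | hb2
    · exact hcorner (X c) (hXZ _ (Or.inl rfl)) (congrArg Prod.fst hb2)
    · left
      exact hM _ _ hb2 _ hVe
    · exact hcorner (Y c) (hXZ _ (Or.inr rfl)) (congrArg Prod.fst hb2)
  have honce : ∀ c : ι × G, ∃ l₁ l₂ b, edgePath φ c.2 (r c.1) = l₁ ++ (e c, b) :: l₂ ∧
      ∀ x ∈ l₁ ++ l₂, x.1 ≠ e c := by
    intro c
    apply exists_split
    obtain ⟨M, b₁, b₂, hperm, hM⟩ := hpath c
    rw [(hperm.map Prod.fst).count_eq]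
    have hMne : ∀ z, z = X c ∨ z = Y c → edgeAt φ (V c) z ∉ M.map Prod.fst := by
      intro z _ hz
      obtain ⟨⟨e', b⟩, hMe, he'⟩ := List.mem_map.1 hz
      have he'' : e' = edgeAt φ (V c) z := he'
      have h1 := hM e' b hMe (V c) (by
        rw [he'', ends_edgeAt]
        exact Or.inl rfl)
      exact hirr _ h1
    have hxy : edgeAt φ (V c) (X c) ≠ edgeAt φ (V c) (Y c) := by
      intro h1
      apply hne c
      apply edgeAt_inj φ (V c) _ _ h1
      intro h2
      have h3 := (hdesc c).1
      rw [h2] at h3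
      exact hirr _ h3
    rw [List.map_cons, List.map_append, List.map_cons, List.map_nil, List.count_cons,
      List.count_append, List.count_singleton]
    show List.count (edgeAt φ (V c) (Z c)) (M.map Prod.fst) + _ + _ = 1
    rcases hZ c with ⟨h1, _⟩ | ⟨h1, _⟩
    · rw [h1, List.count_eq_zero_of_not_mem (hMne _ (Or.inl rfl))]
      have h2 : ((edgeAt φ (V c) (Y c), b₂).1 == edgeAt φ (V c) (X c)) = false := by
        rw [beq_eq_false_iff_ne]
        exact hxy.symm
      have h3 : e c = edgeAt φ (V c) (X c) := by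
        show edgeAt φ (V c) (Z c) = _
        rw [h1]
      simp [h2, h3]
    · rw [h1, List.count_eq_zero_of_not_mem (hMne _ (Or.inr rfl))]
      have h3 : e c = edgeAt φ (V c) (Y c) := by
        show edgeAt φ (V c) (Z c) = _
        rw [h1]
      simp [h3, hxy]
  refine ⟨e, R, hR, ?_, honce, hmain⟩
  intro c c' hcc
  by_contra hne'
  have hself : ∀ c, ∃ b, (e c, b) ∈ edgePath φ c.2 (r c.1) := by
    intro c
    obtain ⟨l₁, l₂, b, hl, _⟩ := honce c
    exact ⟨b, by rw [hl]; simp⟩
  have h1 : R c c' := hmain c' c hne' (by rw [hcc]; exact hself c')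
  have h2 : R c' c := hmain c c' (fun h => hne' h.symm) (by rw [← hcc]; exact hself c)
  exact hR.asymmetric _ _ h1 h2

end Pool.Agent.L2Coh
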