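import Mathlib

/-!
# Square summable functions and operators coming from partially defined injections
-/

namespace Pool.Agent.L2Coh

open scoped InnerProductSpace

/-- The real Hilbert space of square summable functions on `X`. -/
abbrev L2 (X : Type*) := lp (fun _ : X => ℝ) 2

/-- Partially defined injections. -/
def PInj {X Y : Type*} (f : Y → Option X) : Prop :=
  ∀ y y' x, f y = some x → f y' = some x → y = y'

/-- Pull back of a function along a partially defined map, extended by zero. -/
def pullFun {X Y : Type*} (f : Y → Option X) (x : X → ℝ) : Y → ℝ := fun y => (f y).elim 0 x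

lemma sq_sum_le {X : Type*} (x : L2 X) (s : Finset X) : ∑ i ∈ s, (x i) ^ 2 ≤ ‖x‖ ^ 2 := by
  have h := lp.sum_rpow_le_norm_rpow (p := 2) (by norm_num) x s
  simpa using h

lemma hasSum_sq {X : Type*} (x : L2 X) : HasSum (fun i => (x i) ^ 2) (‖x‖ ^ 2) := by
  have h := lp.hasSum_norm (p := 2) (by norm_num) x
  simpa using h

lemma memLp_of_summable {X : Type*} {x : X → ℝ} (h : Summable fun i => (x i) ^ 2) :
    Memℓp x 2 := by
  apply memℓp_gen
  simpa using h

lemma pull_sum_le {X Y : Type*} (f : Y → Option X) (hf : PInj f) (x : L2 X) (s : Finset Y) :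
    ∑ y ∈ s, (pullFun f x y) ^ 2 ≤ ‖x‖ ^ 2 := by
  classical
  have h1 : ∑ y ∈ s, (pullFun f x y) ^ 2 =
      ∑ y ∈ s.filter (fun y => f y ≠ none), (pullFun f x y) ^ 2 := by
    symm
    apply Finset.sum_filter_of_ne
    intro y _ hy h0
    apply hy
    simp [pullFun, h0]
  have h2 : ∑ y ∈ s.filter (fun y => f y ≠ none), (pullFun f x y) ^ 2 =
      ∑ o ∈ (s.filter (fun y => f y ≠ none)).image f, (o.elim 0 x) ^ 2 := by
    rw [Finset.sum_image]
    · rfl
    · intro y hy y' hy' h
      rw [Finset.mem_coe, Finset.mem_filter] at hy hy'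
      obtain ⟨z, hz⟩ := Option.ne_none_iff_exists'.1 hy.2
      exact hf y y' z hz (h ▸ hz)
  have h3 : ∑ o ∈ (s.filter (fun y => f y ≠ none)).image f, (o.elim 0 x) ^ 2 =
      ∑ z ∈ Finset.eraseNone ((s.filter (fun y => f y ≠ none)).image f), (x z) ^ 2 := by
    symm
    apply Finset.sum_bij (fun z _ => some z)
    · intro a ha
      simpa using Finset.mem_eraseNone.1 ha
    · intro a _ b _ h
      exact Option.some_injective _ h
    · intro o ho
      obtain ⟨y, hy, rfl⟩ := Finset.mem_image.1 ho
      obtain ⟨z, hz⟩ := Option.ne_none_iff_exists'.1 (Finset.mem_filter.1 hy).2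
      exact ⟨z, by rw [Finset.mem_eraseNone, ← hz]; exact ho, hz.symm⟩
    · intro a _
      rfl
  rw [h1, h2, h3]
  exact sq_sum_le x _

/-- The contraction attached to a partially defined injection. -/
noncomputable def pull {X Y : Type*} (f : Y → Option X) (hf : PInj f) : L2 X →L[ℝ] L2 Y :=
  LinearMap.mkContinuous
    { toFun := fun x => ⟨pullFun f x, by
        apply memℓp_gen' (C := ‖x‖ ^ 2)
        intro s
        have := pull_sum_le f hf x s
        simpa using this⟩
      map_add' := by
        intro x y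
        ext i
        simp only [lp.coeFn_add, Pi.add_apply, pullFun]
        cases f i <;> simp
      map_smul' := by
        intro c x
        ext i
        simp only [lp.coeFn_smul, Pi.smul_apply, pullFun, RingHom.id_apply]
        cases f i <;> simp } 1 (by
    intro x
    rw [one_mul]
    apply lp.norm_le_of_forall_sum_le (p := 2) (by norm_num) (norm_nonneg _)
    intro s
    have := pull_sum_le f hf x s
    simpa using this)

lemma pull_apply {X Y : Type*} (f : Y → Option X) (hf : PInj f) (x : L2 X) (y : Y) :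
    (pull f hf x) y = (f y).elim 0 x := rfl

lemma pInj_perm {X : Type*} (σ : Equiv.Perm X) : PInj (fun y => some (σ.symm y)) := by
  intro y y' x h h'
  simp only [Option.some.injEq] at h h'
  exact σ.symm.injective (h.trans h'.symm)

/-- The operator of a permutation of the index set. -/
noncomputable def perm {X : Type*} (σ : Equiv.Perm X) : L2 X →L[ℝ] L2 X :=
  pull (fun y => some (σ.symm y)) (pInj_perm σ)

@[simp] lemma perm_apply {X : Type*} (σ : Equiv.Perm X) (x : L2 X) (y : X) :
    (perm σ x) y = x (σ.symm y) := rfl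

lemma inner_perm {X : Type*} (σ : Equiv.Perm X) (x y : L2 X) :
    ⟪perm σ x, perm σ y⟫_ℝ = ⟪x, y⟫_ℝ := by
  rw [lp.inner_eq_tsum, lp.inner_eq_tsum]
  simp only [perm_apply]
  exact Equiv.tsum_eq σ.symm (fun i => ⟪x i, y i⟫_ℝ)

lemma perm_mul {X : Type*} (σ τ : Equiv.Perm X) (x : L2 X) :
    perm σ (perm τ x) = perm (σ * τ) x := by
  ext y
  simp only [perm_apply]
  rfl

lemma perm_one {X : Type*} (x : L2 X) : perm (1 : Equiv.Perm X) x = x := by
  ext y
  rfl

lemma norm_perm {X : Type*} (σ : Equiv.Perm X) (x : L2 X) : ‖perm σ x‖ = ‖x‖ := by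
  have h := inner_perm σ x x
  rw [real_inner_self_eq_norm_sq, real_inner_self_eq_norm_sq] at h
  exact (sq_eq_sq₀ (norm_nonneg _) (norm_nonneg _)).1 h

open Classical in
/-- The delta function. -/
noncomputable def dl {X : Type*} (y : X) : L2 X := lp.single 2 y (1 : ℝ)

open Classical in
lemma dl_apply {X : Type*} (y z : X) : (dl y : L2 X) z = if z = y then 1 else 0 := by
  unfold dl
  by_cases h : z = y
  · subst h
    simp
  · simp [h]

lemma inner_dl {X : Type*} (x : L2 X) (y : X) : ⟪x, dl y⟫_ℝ = x y := by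
  classical
  unfold dl
  have h := lp.inner_single_right (𝕜 := ℝ) (G := fun _ : X => ℝ) y (1 : ℝ) x
  have h2 : ⟪x y, (1 : ℝ)⟫_ℝ = x y := by simp
  rw [← h2, ← h]

lemma inner_dl' {X : Type*} (x : L2 X) (y : X) : ⟪(dl y : L2 X), x⟫_ℝ = x y := by
  rw [real_inner_comm, inner_dl]

lemma norm_dl {X : Type*} (y : X) : ‖(dl y : L2 X)‖ = 1 := by
  have h : ⟪(dl y : L2 X), dl y⟫_ℝ = 1 := by
    rw [inner_dl, dl_apply, if_pos rfl]
  rw [real_inner_self_eq_norm_sq] at h
  nlinarith [norm_nonneg (dl y : L2 X)]

lemma perm_dl {X : Type*} (σ : Equiv.Perm X) (y : X) : perm σ (dl y : L2 X) = dl (σ y) := by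
  ext z
  rw [perm_apply, dl_apply, dl_apply]
  congr 1
  rw [Equiv.symm_apply_eq]

lemma sum_clm_apply {X Y ι : Type*} (s : Finset ι) (F : ι → (L2 X →L[ℝ] L2 Y)) (x : L2 X) :
    (∑ i ∈ s, F i) x = ∑ i ∈ s, F i x := by
  classical
  induction s using Finset.induction_on with
  | empty => simp
  | insert a s ha ih =>
    rw [Finset.sum_insert ha, Finset.sum_insert ha, ← ih]
    rfl

end Pool.Agent.L2Coh
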