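import Pool.Agent.L2Coh.Chain
import Pool.Agent.L2Coh.Cons
import Pool.Agent.CIR.PGrp

/-!
# A Nakayama lemma for submodules of free modules over residually finite `p`-groups
-/

namespace Pool.Agent.L2Coh

section nak

variable {G A : Type*} [Group G] (H : Subgroup G)

/-- Generators of `p D + I D`, where `I` is the augmentation ideal. -/
def gens (p : ℕ) (D : AddSubgroup (G × A →₀ ℤ)) : Set (G × A →₀ ℤ) :=
  {x | (∃ e ∈ D, x = (p : ℤ) • e) ∨ ∃ (h : H), ∃ e ∈ D, x = lm (h : G) e - e}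

lemma dvd_of_gens {p : ℕ} [Fact p.Prime] (hH : ResiduallyP p H)
    (D : AddSubgroup (G × A →₀ ℤ)) (hD : ∀ (h : H) d, d ∈ D → lm (h : G) d ∈ D)
    (hgen : ∀ d ∈ D, d ∈ AddSubgroup.closure (gens H p D))
    (d : G × A →₀ ℤ) (hd : d ∈ D) (z : G × A) : (p : ℤ) ∣ d z := by
  classical
  by_contra hcon
  obtain ⟨g0, a0⟩ := z
  have hinj : Function.Injective (fun h : H => ((h : G) * g0, a0)) := by
    intro h h' hh
    simp only [Prod.mk.injEq, mul_left_inj, and_true] at hh
    exact Subtype.ext hh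
  let S : Finset H := d.support.preimage (fun h : H => ((h : G) * g0, a0)) hinj.injOn
  obtain ⟨N, hNn, ⟨k, hk⟩, hN⟩ := hH.exists_avoid (Fact.out : p.Prime) S
  have hp0 : 0 < p := (Fact.out : p.Prime).pos
  have hfi : N.FiniteIndex := ⟨by rw [hk]; exact (Nat.pow_pos hp0).ne'⟩
  let _ : Fintype (H ⧸ N) := Fintype.ofFinite _
  let bas : G × A → ((H ⧸ N) → ZMod p) := fun z =>
    if hz : z.1 * g0⁻¹ ∈ H ∧ z.2 = a0 then
      Pi.single ((⟨z.1 * g0⁻¹, hz.1⟩ : H) : H ⧸ N) 1 else 0
  let Λ : (G × A →₀ ℤ) →+ ((H ⧸ N) → ZMod p) :=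
    Finsupp.liftAddHom (fun z => zmultiplesHom _ (bas z))
  have hΛs : ∀ z n, Λ (Finsupp.single z n) = n • bas z := by
    intro z n
    simp [Λ]
  let R : (H ⧸ N) → (((H ⧸ N) → ZMod p) →ₗ[ZMod p] ((H ⧸ N) → ZMod p)) :=
    fun q => LinearMap.funLeft (ZMod p) (ZMod p) (fun x : H ⧸ N => q⁻¹ * x)
  have hR : ∀ q f x, R q f x = f (q⁻¹ * x) := fun q f x => rfl
  have hbas : ∀ (h : H) (z : G × A), bas ((h : G) * z.1, z.2) = R (h : H ⧸ N) (bas z) := by
    intro h z
    by_cases hz : z.1 * g0⁻¹ ∈ H ∧ z.2 = a0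
    · have hz' : ((h : G) * z.1) * g0⁻¹ ∈ H ∧ z.2 = a0 := by
        refine ⟨?_, hz.2⟩
        rw [mul_assoc]
        exact H.mul_mem h.2 hz.1
      have e1 : bas z = Pi.single ((⟨z.1 * g0⁻¹, hz.1⟩ : H) : H ⧸ N) 1 := dif_pos hz
      have e2 : bas ((h : G) * z.1, z.2) =
          Pi.single ((⟨((h : G) * z.1) * g0⁻¹, hz'.1⟩ : H) : H ⧸ N) 1 := dif_pos hz'
      rw [e1, e2]
      funext x
      rw [hR]
      have e3 : (⟨((h : G) * z.1) * g0⁻¹, hz'.1⟩ : H) = h * ⟨z.1 * g0⁻¹, hz.1⟩ := by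
        apply Subtype.ext
        show ((h : G) * z.1) * g0⁻¹ = (h : G) * (z.1 * g0⁻¹)
        rw [mul_assoc]
      rw [e3, QuotientGroup.mk_mul]
      by_cases hx : x = (h : H ⧸ N) * ((⟨z.1 * g0⁻¹, hz.1⟩ : H) : H ⧸ N)
      · rw [hx, Pi.single_eq_same, inv_mul_cancel_left, Pi.single_eq_same]
      · rw [Pi.single_eq_of_ne hx, Pi.single_eq_of_ne]
        intro h4
        apply hx
        rw [← h4, mul_inv_cancel_left]
    · have hz' : ¬ (((h : G) * z.1) * g0⁻¹ ∈ H ∧ z.2 = a0) := by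
        rintro ⟨h1, h2⟩
        apply hz
        refine ⟨?_, h2⟩
        have h3 := H.mul_mem (H.inv_mem h.2) h1
        rwa [mul_assoc, inv_mul_cancel_left] at h3
      have e1 : bas z = 0 := dif_neg hz
      have e2 : bas ((h : G) * z.1, z.2) = 0 := dif_neg hz'
      rw [e1, e2, map_zero]
  have hΛlm : ∀ (h : H) (e : G × A →₀ ℤ), Λ (lm (h : G) e) = R (h : H ⧸ N) (Λ e) := by
    intro h e
    induction e using Finsupp.induction_linear with
    | zero => simp
    | add f g hf hg => rw [map_add, map_add, hf, hg, map_add, map_add]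
    | single z n =>
      obtain ⟨g, a⟩ := z
      rw [lm_single, hΛs, hΛs, map_zsmul]
      congr 1
      exact hbas h (g, a)
  have hΛ1 : Λ d 1 = ((d (g0, a0) : ℤ) : ZMod p) := by
    have e1 : Λ d = ∑ z ∈ d.support, (d z) • bas z := by
      conv_lhs => rw [← Finsupp.sum_single d, Finsupp.sum, map_sum]
      apply Finset.sum_congr rfl
      intro z _
      rw [hΛs]
    rw [e1, Finset.sum_apply]
    have e2 : ∀ z ∈ d.support, (d z • bas z) 1 =
        if z = (g0, a0) then ((d z : ℤ) : ZMod p) else 0 := by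
      intro z hz
      rw [Pi.smul_apply]
      by_cases h1 : z.1 * g0⁻¹ ∈ H ∧ z.2 = a0
      · have e3 : bas z = Pi.single ((⟨z.1 * g0⁻¹, h1.1⟩ : H) : H ⧸ N) 1 := dif_pos h1
        rw [e3]
        by_cases h2 : z.1 * g0⁻¹ = 1
        · have h3 : z = (g0, a0) := Prod.ext (mul_inv_eq_one.1 h2) h1.2
          rw [if_pos h3]
          have h4 : ((⟨z.1 * g0⁻¹, h1.1⟩ : H) : H ⧸ N) = 1 := by
            have : (⟨z.1 * g0⁻¹, h1.1⟩ : H) = 1 := Subtype.ext h2
            rw [this]
            rfl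
          rw [h4, Pi.single_eq_same]
          simp
        · have h3 : z ≠ (g0, a0) := by
            rintro rfl
            exact h2 (mul_inv_cancel _)
          rw [if_neg h3]
          have h4 : ((⟨z.1 * g0⁻¹, h1.1⟩ : H) : H ⧸ N) ≠ 1 := by
            intro h5
            rw [QuotientGroup.eq_one_iff] at h5
            apply hN _ _ _ h5
            · rw [Finset.mem_preimage]
              have : (((⟨z.1 * g0⁻¹, h1.1⟩ : H) : G) * g0, a0) = z := by
                apply Prod.ext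
                · show z.1 * g0⁻¹ * g0 = z.1
                  rw [inv_mul_cancel_right]
                · exact h1.2.symm
              rw [this]
              exact hz
            · intro h6
              exact h2 (congrArg Subtype.val h6)
          rw [Pi.single_eq_of_ne (Ne.symm h4), smul_zero]
      · have e3 : bas z = 0 := dif_neg h1
        have h3 : z ≠ (g0, a0) := by
          rintro rfl
          apply h1
          refine ⟨?_, rfl⟩
          show g0 * g0⁻¹ ∈ H
          rw [mul_inv_cancel]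
          exact H.one_mem
        rw [e3, if_neg h3, Pi.zero_apply, smul_zero]
    rw [Finset.sum_congr rfl e2, Finset.sum_ite_eq']
    split_ifs with h
    · rfl
    · rw [Finsupp.notMem_support_iff.1 h]
      simp
  -- the module `U`
  let U : Submodule (ZMod p) ((H ⧸ N) → ZMod p) := AddSubgroup.toZModSubmodule p (D.map Λ)
  have hUmem : ∀ e ∈ D, Λ e ∈ U := fun e he => ⟨e, he, rfl⟩
  have hRU : ∀ q f, f ∈ U → R q f ∈ U := by
    intro q f hf
    obtain ⟨e, he, rfl⟩ := hf
    obtain ⟨h, rfl⟩ := QuotientGroup.mk_surjective q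
    rw [← hΛlm]
    exact hUmem _ (hD h e he)
  let ρ : Representation (ZMod p) (H ⧸ N) U :=
    { toFun := fun q => (R q).restrict (fun f hf => hRU q f hf)
      map_one' := by
        apply LinearMap.ext
        rintro ⟨f, hf⟩
        apply Subtype.ext
        funext x
        show f (1⁻¹ * x) = f x
        rw [inv_one, one_mul]
      map_mul' := by
        intro a b
        apply LinearMap.ext
        rintro ⟨f, hf⟩
        apply Subtype.ext
        funext x
        show f ((a * b)⁻¹ * x) = f (b⁻¹ * (a⁻¹ * x))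
        rw [mul_inv_rev, mul_assoc] }
  have hfin : Finite (H ⧸ N) := inferInstance
  have h1 := Pool.Agent.CIR.finrank_le_invS ρ.dual p k ⊤ (by
    rw [Subgroup.card_top, ← Subgroup.index_eq_card, hk])
  have h2 : Pool.Agent.CIR.invS ρ.dual ⊤ = ⊥ := by
    rw [Submodule.eq_bot_iff]
    intro l hl
    rw [Pool.Agent.CIR.mem_invS] at hl
    have hl2 : ∀ (q : H ⧸ N) (u : U), l (ρ q u) = l u := by
      intro q u
      have h3 := hl q⁻¹ (Subgroup.mem_top _)
      have h4 := LinearMap.congr_fun h3 u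
      rw [Representation.dual_apply, inv_inv] at h4
      exact h4
    let K' : AddSubgroup (G × A →₀ ℤ) :=
      { carrier := {e | ∃ he : e ∈ D, l ⟨Λ e, hUmem e he⟩ = 0}
        add_mem' := by
          rintro a b ⟨ha, ha2⟩ ⟨hb, hb2⟩
          refine ⟨D.add_mem ha hb, ?_⟩
          have : (⟨Λ (a + b), hUmem _ (D.add_mem ha hb)⟩ : U) =
              ⟨Λ a, hUmem a ha⟩ + ⟨Λ b, hUmem b hb⟩ := Subtype.ext (map_add Λ a b)
          rw [this, map_add, ha2, hb2, add_zero]
        zero_mem' := by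
          refine ⟨D.zero_mem, ?_⟩
          have : (⟨Λ 0, hUmem _ D.zero_mem⟩ : U) = 0 := Subtype.ext (map_zero Λ)
          rw [this, map_zero]
        neg_mem' := by
          rintro a ⟨ha, ha2⟩
          refine ⟨D.neg_mem ha, ?_⟩
          have : (⟨Λ (-a), hUmem _ (D.neg_mem ha)⟩ : U) = -⟨Λ a, hUmem a ha⟩ :=
            Subtype.ext (map_neg Λ a)
          rw [this, map_neg, ha2, neg_zero] }
    have hK' : AddSubgroup.closure (gens H p D) ≤ K' := by
      rw [AddSubgroup.closure_le]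
      rintro x (⟨e, he, rfl⟩ | ⟨h, e, he, rfl⟩)
      · refine ⟨D.zsmul_mem he _, ?_⟩
        have : (⟨Λ ((p : ℤ) • e), hUmem _ (D.zsmul_mem he _)⟩ : U) = 0 := by
          apply Subtype.ext
          show Λ ((p : ℤ) • e) = 0
          rw [map_zsmul]
          funext x
          rw [Pi.smul_apply, zsmul_eq_mul]
          simp
        rw [this, map_zero]
      · refine ⟨D.sub_mem (hD h e he) he, ?_⟩
        have : (⟨Λ (lm (h : G) e - e), hUmem _ (D.sub_mem (hD h e he) he)⟩ : U) =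
            ρ (h : H ⧸ N) ⟨Λ e, hUmem e he⟩ - ⟨Λ e, hUmem e he⟩ := by
          apply Subtype.ext
          show Λ (lm (h : G) e - e) = R (h : H ⧸ N) (Λ e) - Λ e
          rw [map_sub, hΛlm]
        rw [this, map_sub, hl2, sub_self]
    apply LinearMap.ext
    rintro ⟨f, hf⟩
    obtain ⟨e, he, rfl⟩ := hf
    obtain ⟨_, h3⟩ := hK' (hgen e he)
    rw [LinearMap.zero_apply]
    exact h3
  rw [h2, finrank_bot, mul_zero, Nat.le_zero, Subspace.dual_finrank_eq,
    Submodule.finrank_eq_zero] at h1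
  have h3 : Λ d ∈ U := hUmem d hd
  rw [h1, Submodule.mem_bot] at h3
  rw [h3, Pi.zero_apply] at hΛ1
  exact hcon ((ZMod.intCast_zmod_eq_zero_iff_dvd _ _).1 hΛ1.symm)

lemma pow_dvd_of_gens {p : ℕ} [Fact p.Prime] (hH : ResiduallyP p H) (b : ℕ) :
    ∀ (D : AddSubgroup (G × A →₀ ℤ)), (∀ (h : H) d, d ∈ D → lm (h : G) d ∈ D) →
    (∀ d ∈ D, d ∈ AddSubgroup.closure (gens H p D)) → ∀ d ∈ D, ∀ z, (p : ℤ) ^ b ∣ d z := by
  induction b with
  | zero =>
    intro D _ _ d _ z
    rw [pow_zero]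
    exact one_dvd _
  | succ b ih =>
    intro D hD hgen d hd z
    have hp0 : (p : ℤ) ≠ 0 := by exact_mod_cast (Fact.out : p.Prime).ne_zero
    let D1 : AddSubgroup (G × A →₀ ℤ) := D.comap (zsmulAddGroupHom (p : ℤ))
    have hD1mem : ∀ e, e ∈ D1 ↔ (p : ℤ) • e ∈ D := fun e => Iff.rfl
    have hdiv : ∀ e ∈ D, ∃ e1 ∈ D1, e = (p : ℤ) • e1 := by
      intro e he
      have h1 := dvd_of_gens H hH D hD hgen e he
      refine ⟨e.mapRange (fun n => n / (p : ℤ)) (by simp), ?_, ?_⟩
      · rw [hD1mem]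
        have : (p : ℤ) • e.mapRange (fun n => n / (p : ℤ)) (by simp) = e := by
          ext z
          rw [Finsupp.smul_apply, Finsupp.mapRange_apply, smul_eq_mul]
          exact Int.mul_ediv_cancel' (h1 z)
        rw [this]
        exact he
      · ext z
        rw [Finsupp.smul_apply, Finsupp.mapRange_apply, smul_eq_mul]
        exact (Int.mul_ediv_cancel' (h1 z)).symm
    have hD1 : ∀ (h : H) e, e ∈ D1 → lm (h : G) e ∈ D1 := by
      intro h e he
      rw [hD1mem, ← map_zsmul]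
      exact hD h _ he
    have hcl : AddSubgroup.closure (gens H p D) ≤
        (AddSubgroup.closure (gens H p D1)).map (zsmulAddGroupHom (p : ℤ)) := by
      rw [AddSubgroup.closure_le]
      rintro x (⟨e, he, rfl⟩ | ⟨h, e, he, rfl⟩)
      · obtain ⟨e1, he1, rfl⟩ := hdiv e he
        exact ⟨(p : ℤ) • e1, AddSubgroup.subset_closure (Or.inl ⟨e1, he1, rfl⟩), rfl⟩
      · obtain ⟨e1, he1, rfl⟩ := hdiv e he
        refine ⟨lm (h : G) e1 - e1, AddSubgroup.subset_closure (Or.inr ⟨h, e1, he1, rfl⟩), ?_⟩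
        show (p : ℤ) • (lm (h : G) e1 - e1) = _
        rw [map_zsmul, smul_sub]
    have hgen1 : ∀ e ∈ D1, e ∈ AddSubgroup.closure (gens H p D1) := by
      intro e he
      obtain ⟨e', he', he2⟩ := hcl (hgen _ he)
      have : e' = e := by
        have h3 : (p : ℤ) • e' = (p : ℤ) • e := he2
        exact smul_right_injective _ hp0 h3
      rw [← this]
      exact he'
    obtain ⟨e1, he1, rfl⟩ := hdiv d hd
    rw [Finsupp.smul_apply, smul_eq_mul, pow_succ, mul_comm]
    exact mul_dvd_mul_left _ (ih D1 hD1 hgen1 e1 he1 z)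

/-- (K) a submodule `D` of a free module with `D = p D + I D` vanishes. -/
theorem eq_zero_of_gens {p : ℕ} [Fact p.Prime] (hH : ResiduallyP p H)
    (D : AddSubgroup (G × A →₀ ℤ)) (hD : ∀ (h : H) d, d ∈ D → lm (h : G) d ∈ D)
    (hgen : ∀ d ∈ D, d ∈ AddSubgroup.closure (gens H p D)) (d : G × A →₀ ℤ) (hd : d ∈ D) :
    d = 0 := by
  ext z
  rw [Finsupp.zero_apply]
  have h1 := pow_dvd_of_gens H hH (d z).natAbs D hD hgen d hd z
  apply Int.eq_zero_of_abs_lt_dvd h1
  have h2 : (d z).natAbs < p ^ (d z).natAbs := Nat.lt_pow_self (Fact.out : p.Prime).one_lt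
  rw [← Int.natCast_natAbs]
  exact_mod_cast h2

end nak

end Pool.Agent.L2Coh
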