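import Pool.Agent.L2Coh.AppP

/-!
# The relation module is projective
-/

namespace Pool.Agent.L2Coh

/-- The relation module is a direct summand of a free module. -/
theorem exists_summand {G S J ι : Type*} [Group G] (φ : FreeGroup S →* G)
    (r : ι → FreeGroup S) (hr : φ.ker = Subgroup.normalClosure (Set.range r))
    (H : Subgroup G) (ψ : FreeGroup J →* H) (σ : H → FreeGroup J) (hσ : ∀ h, ψ (σ h) = h)
    (u : J → FreeGroup S) (hu : ∀ j, φ (u j) = (ψ (FreeGroup.of j) : G))
    (q : G → H) (hq1 : q 1 = 1) (hq : ∀ (h : H) (g : G), q (h * g) = h * q g)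
    [DecidableEq S]
    (hL2 : ∀ (F : ι → G → ℝ) (A0 : Finset ι), (∀ i, i ∉ A0 → F i = 0) →
      (∀ i, Summable (fun g => (F i g) ^ 2)) →
      (∀ g s, ∑ i ∈ A0, (fch φ 1 (r i)).sum
        (fun p n => if p.2 = s then (n : ℝ) * F i (g * p.1⁻¹) else 0) = 0) → F = 0) :
    ∃ (E : (bd1 ψ).ker →+ (G × (ι ⊕ J) →₀ ℤ)) (cyc : (G × (ι ⊕ J) →₀ ℤ) →+ (H × J →₀ ℤ)),
      (∀ w, cyc w ∈ (bd1 ψ).ker) ∧ (∀ z, cyc (E z) = z.1) ∧
      (∀ (h : H) w, cyc (lm (h : G) w) = lm h (cyc w)) ∧
      ∀ (h : H) (z : (bd1 ψ).ker) (hz : lm h z.1 ∈ (bd1 ψ).ker),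
        E ⟨lm h z.1, hz⟩ = lm (h : G) (E z) := by
  classical
  have hr1 : ∀ i, φ (r i) = 1 := by
    intro i
    have : r i ∈ φ.ker := by
      rw [hr]
      exact Subgroup.subset_normalClosure ⟨i, rfl⟩
    exact this
  obtain ⟨ρ, hρlm, hρD, hρR⟩ := exists_rho φ r hr1 H ψ σ hσ u hu q hq1 hq
  set v : ι → (G × S →₀ ℤ) := fun i => fch φ 1 (r i) with hv
  set V : J → (G × S →₀ ℤ) := fun j => fch φ 1 (u j) with hV
  have hqH : ∀ h : H, q (h : G) = h := by
    intro h
    have := hq h 1
    rwa [mul_one, hq1, mul_one] at this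
  have hinj : ∀ c c', bd v c = bd v c' → c = c' := by
    intro c c' h
    have h1 := bd_inj v hL2 (c - c') (by rw [map_sub, h, sub_self])
    exact sub_eq_zero.1 h1
  let Z : AddSubgroup (H × J →₀ ℤ) := (bd1 ψ).ker
  have hZ : ∀ z, z ∈ Z ↔ bd1 ψ z = 0 := fun z => Iff.rfl
  have hfill : ∀ z : Z, ∃ c, bd v c = bd V (incl H z.1) := by
    intro z
    obtain ⟨n, hn, hn2⟩ := exists_fch_eq ψ σ hσ z.1 z.2
    have hφn : φ (FreeGroup.lift u n) = 1 := by
      rw [phi_lift φ H ψ u hu, hn]
      rfl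
    obtain ⟨c, hc⟩ := exists_bd_eq φ r hr _ hφn
    refine ⟨c, ?_⟩
    rw [hc, ← hn2, bd_incl_fch φ H ψ u hu, Subgroup.coe_one]
  choose fill hfill2 using hfill
  -- the components
  let pr1 : (G × (ι ⊕ J) →₀ ℤ) →+ (G × ι →₀ ℤ) :=
    Finsupp.liftAddHom (fun p => zmultiplesHom _
      (Sum.elim (fun i => Finsupp.single (p.1, i) (1 : ℤ)) (fun _ => 0) p.2))
  let pr2 : (G × (ι ⊕ J) →₀ ℤ) →+ (H × J →₀ ℤ) :=
    Finsupp.liftAddHom (fun p => zmultiplesHom _
      (Sum.elim (fun _ => 0) (fun j => Finsupp.single (q p.1, j) (1 : ℤ)) p.2))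
  let J1 : (G × ι →₀ ℤ) →+ (G × (ι ⊕ J) →₀ ℤ) :=
    Finsupp.mapDomain.addMonoidHom (fun p => (p.1, Sum.inl p.2))
  let J2 : (G × J →₀ ℤ) →+ (G × (ι ⊕ J) →₀ ℤ) :=
    Finsupp.mapDomain.addMonoidHom (fun p => (p.1, Sum.inr p.2))
  have hJ1s : ∀ g i n, J1 (Finsupp.single (g, i) n) = Finsupp.single (g, Sum.inl i) n :=
    fun g i n => Finsupp.mapDomain_single
  have hJ2s : ∀ g j n, J2 (Finsupp.single (g, j) n) = Finsupp.single (g, Sum.inr j) n :=
    fun g i n => Finsupp.mapDomain_single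
  have hpr1l : ∀ g i n, pr1 (Finsupp.single (g, Sum.inl i) n) = Finsupp.single (g, i) n := by
    intro g i n
    simp [pr1]
  have hpr1r : ∀ g j n, pr1 (Finsupp.single (g, Sum.inr j) n) = 0 := by
    intro g i n
    simp [pr1]
  have hpr2l : ∀ g i n, pr2 (Finsupp.single (g, Sum.inl i) n) = 0 := by
    intro g i n
    simp [pr2]
  have hpr2r : ∀ g j n, pr2 (Finsupp.single (g, Sum.inr j) n) = Finsupp.single (q g, j) n := by
    intro g i n
    simp [pr2]
  have hpr1J1 : ∀ c, pr1 (J1 c) = c := by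
    intro c
    induction c using Finsupp.induction_linear with
    | zero => simp
    | add f g hf hg => rw [map_add, map_add, hf, hg]
    | single p n => obtain ⟨g, i⟩ := p; rw [hJ1s, hpr1l]
  have hpr1J2 : ∀ c, pr1 (J2 c) = 0 := by
    intro c
    induction c using Finsupp.induction_linear with
    | zero => simp
    | add f g hf hg => rw [map_add, map_add, hf, hg, add_zero]
    | single p n => obtain ⟨g, i⟩ := p; rw [hJ2s, hpr1r]
  have hpr2J1 : ∀ c, pr2 (J1 c) = 0 := by
    intro c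
    induction c using Finsupp.induction_linear with
    | zero => simp
    | add f g hf hg => rw [map_add, map_add, hf, hg, add_zero]
    | single p n => obtain ⟨g, i⟩ := p; rw [hJ1s, hpr2l]
  have hpr2J2 : ∀ z, pr2 (J2 (incl H z)) = z := by
    intro z
    induction z using Finsupp.induction_linear with
    | zero => simp
    | add f g hf hg => rw [map_add, map_add, map_add, hf, hg]
    | single p n => obtain ⟨g, i⟩ := p; rw [incl_single, hJ2s, hpr2r, hqH]
  have hpr1lm : ∀ (h : H) w, pr1 (lm (h : G) w) = lm (h : G) (pr1 w) := by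
    intro h w
    induction w using Finsupp.induction_linear with
    | zero => simp
    | add f g hf hg => rw [map_add, map_add, map_add, hf, hg, map_add]
    | single p n =>
      obtain ⟨g, i | j⟩ := p
      · rw [lm_single, hpr1l, hpr1l, lm_single]
      · rw [lm_single, hpr1r, hpr1r, map_zero]
  have hpr2lm : ∀ (h : H) w, pr2 (lm (h : G) w) = lm h (pr2 w) := by
    intro h w
    induction w using Finsupp.induction_linear with
    | zero => simp
    | add f g hf hg => rw [map_add, map_add, map_add, hf, hg, map_add]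
    | single p n =>
      obtain ⟨g, i | j⟩ := p
      · rw [lm_single, hpr2l, hpr2l, map_zero]
      · rw [lm_single, hpr2r, hpr2r, lm_single, hq]
  have hJ1lm : ∀ (h : G) c, J1 (lm h c) = lm h (J1 c) := by
    intro h c
    induction c using Finsupp.induction_linear with
    | zero => simp
    | add f g hf hg => rw [map_add, map_add, map_add, hf, hg, map_add]
    | single p n => obtain ⟨g, i⟩ := p; rw [lm_single, hJ1s, hJ1s, lm_single]
  have hJ2lm : ∀ (h : G) c, J2 (lm h c) = lm h (J2 c) := by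
    intro h c
    induction c using Finsupp.induction_linear with
    | zero => simp
    | add f g hf hg => rw [map_add, map_add, map_add, hf, hg, map_add]
    | single p n => obtain ⟨g, i⟩ := p; rw [lm_single, hJ2s, hJ2s, lm_single]
  -- the embedding of the relation module
  let E : Z →+ (G × (ι ⊕ J) →₀ ℤ) :=
    { toFun := fun z => J1 (fill z) + J2 (incl H z.1)
      map_zero' := by
        have h1 : fill 0 = 0 := by
          apply hinj
          rw [hfill2, map_zero]
          show bd V (incl H (0 : H × J →₀ ℤ)) = 0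
          rw [map_zero, map_zero]
        rw [h1, map_zero, zero_add]
        show J2 (incl H (0 : H × J →₀ ℤ)) = 0
        rw [map_zero, map_zero]
      map_add' := by
        intro a b
        have h1 : fill (a + b) = fill a + fill b := by
          apply hinj
          rw [map_add, hfill2, hfill2, hfill2]
          show bd V (incl H (a.1 + b.1)) = _
          rw [map_add, map_add]
        rw [h1, map_add]
        show J1 (fill a) + J1 (fill b) + J2 (incl H (a.1 + b.1)) = _
        rw [map_add, map_add]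
        abel }
  have hE : ∀ z : Z, E z = J1 (fill z) + J2 (incl H z.1) := fun z => rfl
  let cyc : (G × (ι ⊕ J) →₀ ℤ) →+ (H × J →₀ ℤ) :=
    (ρ.comp (bd v)).comp pr1 - ((ρ.comp ((bd V).comp (incl H))) - AddMonoidHom.id _).comp pr2
  have hcyc : ∀ w, cyc w = ρ (bd v (pr1 w)) - (ρ (bd V (incl H (pr2 w))) - pr2 w) := fun w => rfl
  refine ⟨E, cyc, ?_, ?_, ?_, ?_⟩
  · intro w
    show bd1 ψ (cyc w) = 0
    rw [hcyc, map_sub, hρR, hρD, sub_zero]
  · intro z
    have h1 : pr1 (E z) = fill z := by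
      rw [hE, map_add, hpr1J1, hpr1J2, add_zero]
    have h2 : pr2 (E z) = z.1 := by
      rw [hE, map_add, hpr2J1, hpr2J2, zero_add]
    rw [hcyc, h1, h2, hfill2, sub_sub_cancel]
  · intro h w
    rw [hcyc, hcyc, hpr1lm, hpr2lm, bd_lm, hρlm, incl_lm, bd_lm, hρlm, map_sub, map_sub]
  · intro h z hz
    rw [hE, hE]
    have h1 : fill ⟨lm h z.1, hz⟩ = lm (h : G) (fill z) := by
      apply hinj
      rw [hfill2, bd_lm, hfill2, incl_lm, bd_lm]
    rw [h1, hJ1lm]
    show _ + J2 (incl H (lm h z.1)) = _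
    rw [incl_lm, hJ2lm, map_add]

/-- Chains of relators generate the relation module. -/
lemma gen_ker {H J : Type*} [Group H] (ψ : FreeGroup J →* H) (σ : H → FreeGroup J)
    (hσ : ∀ h, ψ (σ h) = h) {m : ℕ} (t : Fin m → FreeGroup J)
    (ht : ψ.ker = Subgroup.normalClosure (Set.range t) ⊔ ⁅ψ.ker, ψ.ker⁆)
    (z : H × J →₀ ℤ) (hz : bd1 ψ z = 0) :
    ∃ y : H × Fin m →₀ ℤ, bd (fun k => fch ψ 1 (t k)) y = z := by
  obtain ⟨n, hn, rfl⟩ := exists_fch_eq ψ σ hσ z hz
  let K : Subgroup (FreeGroup J) :=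
    { carrier := {w | ψ w = 1 ∧ ∃ y : H × Fin m →₀ ℤ, bd (fun k => fch ψ 1 (t k)) y = fch ψ 1 w}
      mul_mem' := by
        rintro a b ⟨ha, c, hc⟩ ⟨hb, d, hd⟩
        refine ⟨by rw [map_mul, ha, hb, one_mul], c + d, ?_⟩
        rw [map_add, hc, hd, fch_mul, ha, mul_one]
      one_mem' := ⟨map_one ψ, 0, by rw [map_zero, fch_one]⟩
      inv_mem' := by
        rintro a ⟨ha, c, hc⟩
        refine ⟨by rw [map_inv, ha, inv_one], -c, ?_⟩
        rw [map_neg, hc, fch_inv, ha, inv_one, mul_one] }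
  have hKn : K.Normal := by
    constructor
    rintro n ⟨hn, c, hc⟩ g
    refine ⟨by rw [map_mul, map_mul, hn, mul_one, map_inv, mul_inv_cancel], lm (ψ g) c, ?_⟩
    rw [bd_lm, hc, fch_mul, fch_mul, map_mul, hn, mul_one, fch_inv, one_mul, mul_inv_cancel,
      ← fch_lm, mul_one]
    abel
  have hle : ψ.ker ≤ K := by
    rw [ht]
    apply sup_le
    · apply Subgroup.normalClosure_le_normal
      rintro _ ⟨i, rfl⟩
      refine ⟨?_, Finsupp.single (1, i) 1, ?_⟩
      · have : t i ∈ ψ.ker := by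
          rw [ht]
          exact Subgroup.mem_sup_left (Subgroup.subset_normalClosure ⟨i, rfl⟩)
        exact this
      · rw [bd_single, one_smul, lm_one]
    · rw [Subgroup.commutator_le]
      intro a ha b hb
      have ha1 : ψ a = 1 := ha
      have hb1 : ψ b = 1 := hb
      refine ⟨by rw [commutatorElement_def, map_mul, map_mul, map_mul, map_inv, map_inv,
        ha1, hb1]; group, 0, ?_⟩
      rw [commutatorElement_def, fch_mul, fch_mul, fch_mul, fch_inv, fch_inv]
      simp only [map_mul, map_inv, ha1, hb1, mul_one, inv_one, map_zero]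
      abel
  exact (hle hn).2

/-- The relation module splits off the free module on the relators. -/
theorem exists_sec {G S J ι : Type*} [Group G] (φ : FreeGroup S →* G)
    (r : ι → FreeGroup S) (hr : φ.ker = Subgroup.normalClosure (Set.range r))
    (H : Subgroup G) (ψ : FreeGroup J →* H) (σ : H → FreeGroup J) (hσ : ∀ h, ψ (σ h) = h)
    (u : J → FreeGroup S) (hu : ∀ j, φ (u j) = (ψ (FreeGroup.of j) : G))
    (q : G → H) (hq1 : q 1 = 1) (hq : ∀ (h : H) (g : G), q (h * g) = h * q g)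
    [DecidableEq S]
    (hL2 : ∀ (F : ι → G → ℝ) (A0 : Finset ι), (∀ i, i ∉ A0 → F i = 0) →
      (∀ i, Summable (fun g => (F i g) ^ 2)) →
      (∀ g s, ∑ i ∈ A0, (fch φ 1 (r i)).sum
        (fun p n => if p.2 = s then (n : ℝ) * F i (g * p.1⁻¹) else 0) = 0) → F = 0)
    {m : ℕ} (t : Fin m → FreeGroup J)
    (ht : ψ.ker = Subgroup.normalClosure (Set.range t) ⊔ ⁅ψ.ker, ψ.ker⁆) :
    ∃ sec : (bd1 ψ).ker →+ (H × Fin m →₀ ℤ),
      (∀ z, bd (fun k => fch ψ 1 (t k)) (sec z) = z.1) ∧
      ∀ (h : H) (z : (bd1 ψ).ker) (hz : lm h z.1 ∈ (bd1 ψ).ker),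
        sec ⟨lm h z.1, hz⟩ = lm h (sec z) := by
  classical
  obtain ⟨E, cyc, hcyc, hcE, hclm, hElm⟩ := exists_summand φ r hr H ψ σ hσ u hu q hq1 hq hL2
  choose pre hpre using fun z : (bd1 ψ).ker => gen_ker ψ σ hσ t ht z.1 z.2
  let la : (G × (ι ⊕ J) →₀ ℤ) →+ (H × Fin m →₀ ℤ) :=
    Finsupp.liftAddHom (fun p => zmultiplesHom _
      (lm (q p.1) (pre ⟨cyc (Finsupp.single (orb H q p) 1), hcyc _⟩)))
  have hlas : ∀ p n, la (Finsupp.single p n) =
      n • lm (q p.1) (pre ⟨cyc (Finsupp.single (orb H q p) 1), hcyc _⟩) := by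
    intro p n
    simp [la]
  have hla1 : ∀ w, bd (fun k => fch ψ 1 (t k)) (la w) = cyc w := by
    intro w
    induction w using Finsupp.induction_linear with
    | zero => simp
    | add f g hf hg => rw [map_add, map_add, hf, hg, map_add]
    | single p n =>
      rw [hlas, map_zsmul, bd_lm, hpre]
      show n • lm (q p.1) (cyc (Finsupp.single (orb H q p) 1)) = _
      rw [← hclm, ← map_zsmul, ← map_zsmul]
      congr 1
      have h1 : (n • Finsupp.single (orb H q p) 1 : G × (ι ⊕ J) →₀ ℤ) =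
          Finsupp.single (orb H q p) n := by simp
      rw [h1, ← Prod.mk.eta (p := orb H q p), lm_single, mul_orb]
  have hla2 : ∀ (h : H) w, la (lm (h : G) w) = lm h (la w) := by
    intro h w
    induction w using Finsupp.induction_linear with
    | zero => simp
    | add f g hf hg => rw [map_add, map_add, hf, hg, map_add, map_add]
    | single p n =>
      obtain ⟨g, a⟩ := p
      rw [lm_single, hlas, hlas, map_zsmul, lm_lm]
      show n • lm (q ((h : G) * g)) _ = _
      have h2 : orb H q ((h : G) * g, a) = orb H q (g, a) := orb_mul H q hq h (g, a)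
      simp only [h2, hq]
  refine ⟨la.comp E, ?_, ?_⟩
  · intro z
    rw [AddMonoidHom.comp_apply, hla1, hcE]
  · intro h z hz
    rw [AddMonoidHom.comp_apply, AddMonoidHom.comp_apply, hElm, hla2]

end Pool.Agent.L2Coh
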