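import Pool.Agent.L2Coh.ResP
import Pool.Agent.L2Coh.Fin

/-!
# Direct summands of free modules over residually finite `p`-groups with bounded `ℓ²`-rank are
supported in finitely many orbits
-/

namespace Pool.Agent.L2Coh

section thmA

variable {G A : Type*} [Group G] (H : Subgroup G) (q : G → H)

/-- The representative of the orbit. -/
def orb (z : G × A) : G × A := (((q z.1 : G))⁻¹ * z.1, z.2)

variable (hq : ∀ (h : H) (g : G), q (h * g) = h * q g)

include hq in
lemma orb_mul (h : H) (z : G × A) : orb H q ((h : G) * z.1, z.2) = orb H q z := by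
  unfold orb
  apply Prod.ext
  · show ((q ((h : G) * z.1) : G))⁻¹ * ((h : G) * z.1) = ((q z.1 : G))⁻¹ * z.1
    rw [hq, Subgroup.coe_mul]
    group
  · rfl

include hq in
lemma orb_orb (z : G × A) : orb H q (orb H q z) = orb H q z := by
  have h := orb_mul H q hq (q z.1)⁻¹ z
  rw [Subgroup.coe_inv] at h
  exact h

lemma mul_orb (z : G × A) : ((q z.1 : G) * (orb H q z).1, (orb H q z).2) = z := by
  unfold orb
  apply Prod.ext
  · show (q z.1 : G) * (((q z.1 : G))⁻¹ * z.1) = z.1
    rw [mul_inv_cancel_left]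
  · rfl

/-- The reduction modulo `p` and `H`. -/
noncomputable def alpha (p : ℕ) : (G × A →₀ ℤ) →+ (G × A →₀ ZMod p) :=
  Finsupp.liftAddHom (fun z => zmultiplesHom _ (Finsupp.single (orb H q z) (1 : ZMod p)))

lemma alpha_single (p : ℕ) (z : G × A) (n : ℤ) :
    alpha H q p (Finsupp.single z n) = Finsupp.single (orb H q z) (n : ZMod p) := by
  simp [alpha]

lemma mem_closure_of_alpha {p : ℕ} (w : G × A →₀ ℤ) (hw : alpha H q p w = 0) :
    w ∈ AddSubgroup.closure (gens H p (⊤ : AddSubgroup (G × A →₀ ℤ))) := by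
  classical
  let mo : (G × A →₀ ℤ) →+ (G × A →₀ ℤ) :=
    Finsupp.liftAddHom (fun z => zmultiplesHom _ (Finsupp.single (orb H q z) (1 : ℤ)))
  have hmos : ∀ z n, mo (Finsupp.single z n) = Finsupp.single (orb H q z) n := by
    intro z n
    simp [mo]
  have h1 : ∀ w, w - mo w ∈ AddSubgroup.closure (gens H p (⊤ : AddSubgroup (G × A →₀ ℤ))) := by
    intro w
    induction w using Finsupp.induction_linear with
    | zero => rw [map_zero, sub_zero]; exact AddSubgroup.zero_mem _
    | add f g hf hg =>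
      rw [map_add]
      have : f + g - (mo f + mo g) = (f - mo f) + (g - mo g) := by abel
      rw [this]
      exact AddSubgroup.add_mem _ hf hg
    | single z n =>
      rw [hmos]
      apply AddSubgroup.subset_closure
      refine Or.inr ⟨q z.1, Finsupp.single (orb H q z) n, AddSubgroup.mem_top _, ?_⟩
      have h2 := mul_orb H q z
      rw [← Prod.mk.eta (p := orb H q z), lm_single, h2]
  have h2 : ∀ w z, ((mo w z : ℤ) : ZMod p) = alpha H q p w z := by
    intro w z
    induction w using Finsupp.induction_linear with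
    | zero => simp
    | add f g hf hg => rw [map_add, map_add, Finsupp.add_apply, Finsupp.add_apply, ← hf, ← hg,
        Int.cast_add]
    | single z' n =>
      rw [hmos, alpha_single, Finsupp.single_apply, Finsupp.single_apply]
      split_ifs <;> simp
  have h3 : ∀ z, (p : ℤ) ∣ mo w z := by
    intro z
    rw [← ZMod.intCast_zmod_eq_zero_iff_dvd, h2, hw, Finsupp.zero_apply]
  have h4 : mo w ∈ AddSubgroup.closure (gens H p (⊤ : AddSubgroup (G × A →₀ ℤ))) := by
    apply AddSubgroup.subset_closure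
    refine Or.inl ⟨(mo w).mapRange (fun n => n / (p : ℤ)) (by simp), AddSubgroup.mem_top _, ?_⟩
    ext z
    rw [Finsupp.smul_apply, Finsupp.mapRange_apply, smul_eq_mul]
    exact (Int.mul_ediv_cancel' (h3 z)).symm
  have h5 := AddSubgroup.add_mem _ (h1 w) h4
  rwa [sub_add_cancel] at h5

lemma map_closure_gens {p : ℕ} (D D' : AddSubgroup (G × A →₀ ℤ))
    (f : (G × A →₀ ℤ) →+ (G × A →₀ ℤ)) (hf : ∀ (h : H) w, f (lm (h : G) w) = lm (h : G) (f w))
    (hDD' : ∀ w ∈ D, f w ∈ D') (w : G × A →₀ ℤ)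
    (hw : w ∈ AddSubgroup.closure (gens H p D)) :
    f w ∈ AddSubgroup.closure (gens H p D') := by
  have h1 : AddSubgroup.closure (gens H p D) ≤
      (AddSubgroup.closure (gens H p D')).comap f := by
    rw [AddSubgroup.closure_le]
    rintro x (⟨e, he, rfl⟩ | ⟨h, e, he, rfl⟩)
    · apply AddSubgroup.subset_closure
      exact Or.inl ⟨f e, hDD' e he, map_zsmul f _ _⟩
    · apply AddSubgroup.subset_closure
      refine Or.inr ⟨h, f e, hDD' e he, ?_⟩
      rw [map_sub, hf]
  exact h1 hw

/-- The coefficient of a chain at an orbit representative, as an element of the group ring. -/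
noncomputable def elt [DecidableEq G] [DecidableEq A] (t : G × A) :
    (G × A →₀ ℤ) →+ MonoidAlgebra ℤ H :=
  Finsupp.liftAddHom (fun z => zmultiplesHom _
    (if orb H q z = t then MonoidAlgebra.single (q z.1)⁻¹ 1 else 0))

lemma elt_single [DecidableEq G] [DecidableEq A] (t z : G × A) (n : ℤ) :
    elt H q t (Finsupp.single z n) =
      if orb H q z = t then MonoidAlgebra.single (q z.1)⁻¹ n else 0 := by
  unfold elt
  rw [Finsupp.liftAddHom_apply_single, zmultiplesHom_apply]
  split_ifs
  · rw [MonoidAlgebra.smul_single]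
    simp
  · rw [smul_zero]

lemma aug_add {H : Type*} [Group H] (a b : MonoidAlgebra ℤ H) : aug (a + b) = aug a + aug b := by
  unfold aug
  rw [MonoidAlgebra.coeff_add, Finsupp.sum_add_index']
  · intro _; rfl
  · intro _ _ _; rfl

lemma aug_zero {H : Type*} [Group H] : aug (0 : MonoidAlgebra ℤ H) = 0 := by
  unfold aug
  rw [MonoidAlgebra.coeff_zero, Finsupp.sum_zero_index]

lemma aug_elt [DecidableEq G] [DecidableEq A] {p : ℕ} (t : G × A) (w : G × A →₀ ℤ) :
    ((aug (elt H q t w) : ℤ) : ZMod p) = alpha H q p w t := by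
  induction w using Finsupp.induction_linear with
  | zero => rw [map_zero, map_zero, aug_zero]; simp
  | add f g hf hg => rw [map_add, map_add, aug_add, Finsupp.add_apply, ← hf, ← hg, Int.cast_add]
  | single z n =>
    rw [elt_single, alpha_single, Finsupp.single_apply]
    split_ifs
    · unfold aug
      rw [MonoidAlgebra.coeff_single, Finsupp.sum_single_index rfl]
    · rw [aug_zero, Int.cast_zero]

include hq in
lemma UU_elt [DecidableEq G] [DecidableEq A] (x : H → ℝ) (f : L2 H) (hf : ∀ g, f g = x g⁻¹)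
    (t : G × A) (ht : orb H q t = t) (w : G × A →₀ ℤ) (g : H) :
    (UU H (elt H q t w) f) g = cv (ext0 H x) (((g : G))⁻¹ * t.1) t.2 w := by
  induction w using Finsupp.induction_linear with
  | zero => rw [map_zero, map_zero, cv_zero]; rfl
  | add a b ha hb => rw [map_add, UU_add, lp.coeFn_add, Pi.add_apply, ha, hb, cv_add]
  | single z n =>
    rw [elt_single]
    have hz : z = (z.1, z.2) := rfl
    rw [hz, cv_single, ← hz]
    by_cases h1 : orb H q z = t
    · have h2 : z.2 = t.2 := by rw [← h1]; rfl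
      have h3 : t.1 = ((q z.1 : G))⁻¹ * z.1 := by rw [← h1]; rfl
      rw [if_pos h1, if_pos h2, UU_single]
      show (n : ℝ) * (lt (q z.1)⁻¹ f) g = _
      congr 1
      rw [lt_apply, inv_inv, hf, h3]
      have h4 : ((g : G))⁻¹ * (((q z.1 : G))⁻¹ * z.1) * z.1⁻¹ = (((q z.1 * g)⁻¹ : H) : G) := by
        rw [Subgroup.coe_inv, Subgroup.coe_mul]
        group
      rw [h4, ext0_coe]
    · rw [if_neg h1, map_zero]
      have h5 : ((0 : L2 H →L[ℝ] L2 H) f) g = 0 := rfl
      rw [h5]
      split_ifs with h2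
      · rw [ext0_of_notMem, mul_zero]
        intro hm
        apply h1
        have h3 : ((((g * ⟨_, hm⟩ : H) : G)) * z.1, z.2) = t := by
          apply Prod.ext
          · show ((g : G) * (((g : G))⁻¹ * t.1 * z.1⁻¹)) * z.1 = t.1
            group
          · exact h2
        rw [← orb_mul H q hq (g * ⟨_, hm⟩) z, h3, ht]
      · rfl

include hq in
/-- Families which are independent modulo `p` and `H` have no square summable relations. -/
lemma indep_bound {p : ℕ} [Fact p.Prime] (hH : ResiduallyP p H) {N : ℕ}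
    (w : Fin N → (G × A →₀ ℤ))
    (hw : ∀ v : Fin N → ZMod p, ∑ k, v k • alpha H q p (w k) = 0 → v = 0)
    [DecidableEq A]
    (x : Fin N → H → ℝ) (hx : ∀ k, Summable (fun h => (x k h) ^ 2))
    (hrel : ∀ g a, ∑ k, cv (ext0 H (x k)) g a (w k) = 0) : x = 0 := by
  classical
  let T0 : Finset (G × A) := Finset.univ.biUnion (fun k => (w k).support.image (orb H q))
  have hT0 : ∀ t ∈ T0, orb H q t = t := by
    intro t ht
    obtain ⟨k, _, hk⟩ := Finset.mem_biUnion.1 ht
    obtain ⟨z, _, rfl⟩ := Finset.mem_image.1 hk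
    exact orb_orb H q hq z
  have halpha : ∀ k t, t ∉ T0 → alpha H q p (w k) t = 0 := by
    intro k t ht
    have h1 : alpha H q p (w k) = ∑ z ∈ (w k).support,
        Finsupp.single (orb H q z) ((w k z : ℤ) : ZMod p) := by
      conv_lhs => rw [← Finsupp.sum_single (w k), Finsupp.sum, map_sum]
      apply Finset.sum_congr rfl
      intro z _
      rw [alpha_single]
    rw [h1, Finsupp.finsetSum_apply]
    apply Finset.sum_eq_zero
    intro z hz
    rw [Finsupp.single_apply, if_neg]
    rintro rfl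
    apply ht
    exact Finset.mem_biUnion.2 ⟨k, Finset.mem_univ _, Finset.mem_image_of_mem _ hz⟩
  let e : Fin T0.card ≃ T0 := T0.equivFin.symm
  let M : Matrix (Fin T0.card) (Fin N) (MonoidAlgebra ℤ H) := fun i k => elt H q (e i).1 (w k)
  have hinv : ∀ k, Summable (fun g : H => (x k g⁻¹) ^ 2) := fun k =>
    (Equiv.summable_iff (Equiv.inv H)).2 (hx k)
  let f : Fin N → L2 H := fun k => ⟨fun g => x k g⁻¹, memLp_of_summable (hinv k)⟩
  have hf : ∀ k g, f k g = x k g⁻¹ := fun k g => rfl
  have h1 : MA M f = 0 := by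
    funext i
    ext g
    unfold MA
    rw [lp.coeFn_sum, Finset.sum_apply]
    rw [Finset.sum_congr rfl (fun k _ => UU_elt H q hq (x k) (f k) (hf k) (e i).1
      (hT0 _ (e i).2) (w k) g)]
    exact hrel _ _
  have h2 := conservative hH M (by
    intro v hv
    apply hw
    ext t
    rw [Finsupp.finsetSum_apply, Finsupp.zero_apply]
    by_cases ht : t ∈ T0
    · rw [← hv (e.symm ⟨t, ht⟩)]
      apply Finset.sum_congr rfl
      intro k _
      show v k * alpha H q p (w k) t = ((aug (elt H q (e (e.symm ⟨t, ht⟩)).1 (w k)) : ℤ) : ZMod p)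
        * v k
      rw [Equiv.apply_symm_apply, aug_elt, mul_comm]
    · apply Finset.sum_eq_zero
      intro k _
      show v k * alpha H q p (w k) t = 0
      rw [halpha k t ht, mul_zero]) f h1
  funext k h
  have h3 := congrArg (fun u : Fin N → L2 H => u k h⁻¹) h2
  simp only [hf, inv_inv] at h3
  exact h3

include hq in
/-- Theorem A. -/
theorem finite_support {p : ℕ} [Fact p.Prime] (hH : ResiduallyP p H)
    (C : AddSubgroup (G × A →₀ ℤ)) (R : (G × A →₀ ℤ) →+ (G × A →₀ ℤ))
    (hR : ∀ (h : H) w, R (lm (h : G) w) = lm (h : G) (R w)) (hR1 : ∀ w, R w ∈ C)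
    (hR2 : ∀ w ∈ C, R w = w) [DecidableEq A] (d : ℕ)
    (hd : ∀ N, d < N → ∀ w : Fin N → (G × A →₀ ℤ), (∀ k, w k ∈ C) →
      ∃ x : Fin N → H → ℝ, (∀ k, Summable (fun h => (x k h) ^ 2)) ∧ x ≠ 0 ∧
        ∀ g a, ∑ k, cv (ext0 H (x k)) g a (w k) = 0) :
    ∃ T0 : Finset (G × A), ∀ w ∈ C, ∀ z ∈ w.support, orb H q z ∈ T0 := by
  classical
  have hClm : ∀ (h : H) w, w ∈ C → lm (h : G) w ∈ C := by
    intro h w hw
    rw [← hR2 w hw, ← hR]
    exact hR1 _
  let U : Submodule (ZMod p) (G × A →₀ ZMod p) :=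
    AddSubgroup.toZModSubmodule p (C.map (alpha H q p))
  have hU : ∀ u ∈ U, ∃ w ∈ C, alpha H q p w = u := by
    rintro u ⟨w, hw, rfl⟩
    exact ⟨w, hw, rfl⟩
  have hrank : Module.rank (ZMod p) U ≤ d := by
    apply _root_.rank_le
    intro s hs
    by_contra hlt
    push Not at hlt
    let e : Fin s.card ≃ s := s.equivFin.symm
    choose w hw hw2 using fun k : Fin s.card => hU (e k).1.1 (e k).1.2
    obtain ⟨x, hx1, hx2, hx3⟩ := hd _ hlt w hw
    apply hx2
    apply indep_bound H q hq hH w _ x hx1 hx3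
    intro v hv
    have h1 : LinearIndependent (ZMod p) (fun k : Fin s.card => (e k).1) :=
      hs.comp e e.injective
    rw [Fintype.linearIndependent_iff] at h1
    funext k
    apply h1
    apply Subtype.ext
    rw [Submodule.coe_sum]
    show ∑ k, v k • (e k).1.1 = 0
    rw [← hv]
    apply Finset.sum_congr rfl
    intro k _
    rw [hw2]
  have hfin : Module.Finite (ZMod p) U := by
    rw [← Module.rank_lt_aleph0_iff]
    exact lt_of_le_of_lt hrank (Cardinal.natCast_lt_aleph0)
  have hfg : U.FG := Module.Finite.iff_fg.1 hfin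
  obtain ⟨S, hS⟩ := hfg
  have hSU : ∀ s : S, ∃ w ∈ C, alpha H q p w = s.1 := by
    intro s
    apply hU
    rw [← hS]
    exact Submodule.subset_span s.2
  choose ws hws hws2 using hSU
  let T0 : Finset (G × A) := Finset.univ.biUnion (fun s : S => (ws s).support.image (orb H q))
  refine ⟨T0, ?_⟩
  let κ : (G × A →₀ ℤ) →+ (G × A →₀ ℤ) := Finsupp.filterAddHom (fun z => orb H q z ∉ T0)
  have hκ : ∀ w z, κ w z = if orb H q z ∉ T0 then w z else 0 := by
    intro w z
    show Finsupp.filter _ w z = _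
    rw [Finsupp.filter_apply]
  have hκlm : ∀ (h : H) w, κ (lm (h : G) w) = lm (h : G) (κ w) := by
    intro h w
    ext ⟨g, a⟩
    rw [hκ, lm_apply, lm_apply, hκ]
    have h1 := orb_mul H q hq h⁻¹ (g, a)
    rw [Subgroup.coe_inv] at h1
    rw [h1]
  have hκs : ∀ s, κ (ws s) = 0 := by
    intro s
    ext z
    rw [hκ, Finsupp.zero_apply]
    by_cases hz : orb H q z ∉ T0
    · rw [if_pos hz]
      by_contra hne
      apply hz
      exact Finset.mem_biUnion.2 ⟨s, Finset.mem_univ _,
        Finset.mem_image_of_mem _ (Finsupp.mem_support_iff.2 hne)⟩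
    · rw [if_neg hz]
  have hspan : ∀ u ∈ Submodule.span (ZMod p) (S : Set (G × A →₀ ZMod p)),
      ∃ w ∈ C, κ w = 0 ∧ alpha H q p w = u := by
    intro u hu
    induction hu using Submodule.span_induction with
    | mem s hs => exact ⟨ws ⟨s, hs⟩, hws _, hκs _, hws2 _⟩
    | zero => exact ⟨0, C.zero_mem, map_zero _, map_zero _⟩
    | add a b _ _ ha hb =>
      obtain ⟨w, hw, hw2, hw3⟩ := ha
      obtain ⟨w', hw', hw2', hw3'⟩ := hb
      exact ⟨w + w', C.add_mem hw hw', by rw [map_add, hw2, hw2', add_zero],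
        by rw [map_add, hw3, hw3']⟩
    | smul c a _ ha =>
      obtain ⟨w, hw, hw2, hw3⟩ := ha
      refine ⟨(c.val) • w, C.nsmul_mem hw _, by rw [map_nsmul, hw2, smul_zero], ?_⟩
      rw [map_nsmul, hw3, ← Nat.cast_smul_eq_nsmul (ZMod p), ZMod.natCast_zmod_val]
  let D : AddSubgroup (G × A →₀ ℤ) := C.map κ
  have hDlm : ∀ (h : H) e, e ∈ D → lm (h : G) e ∈ D := by
    rintro h _ ⟨w, hw, rfl⟩
    exact ⟨lm (h : G) w, hClm h w hw, hκlm h w⟩
  have hDgen : ∀ e ∈ D, e ∈ AddSubgroup.closure (gens H p D) := by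
    rintro _ ⟨w, hw, rfl⟩
    obtain ⟨w', hw', hw2', hw3'⟩ := hspan (alpha H q p w) (by rw [hS]; exact ⟨w, hw, rfl⟩)
    have h1 : alpha H q p (w - w') = 0 := by rw [map_sub, hw3', sub_self]
    have h2 := mem_closure_of_alpha H q _ h1
    have h3 := map_closure_gens H ⊤ C R hR (fun w _ => hR1 w) _ h2
    rw [hR2 _ (C.sub_mem hw hw')] at h3
    have h4 := map_closure_gens H C D κ hκlm (fun w hw => ⟨w, hw, rfl⟩) _ h3
    rwa [map_sub, hw2', sub_zero] at h4
  intro w hw z hz
  by_contra hcon
  have h1 := eq_zero_of_gens H hH D hDlm hDgen (κ w) ⟨w, hw, rfl⟩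
  have h2 := hκ w z
  rw [if_pos hcon, h1, Finsupp.zero_apply] at h2
  exact Finsupp.mem_support_iff.1 hz h2.symm

end thmA

end Pool.Agent.L2Coh
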