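import Pool.Agent.L2Coh.Chain

/-!
# Resolving an action on a tree
-/

namespace Pool.Agent.L2Coh

section conn

variable {Γ : Type*} [Group Γ] {J : Type*}

/-- Adjacency in the Cayley graph. -/
def stp (x : J → Γ) (a b : Γ) : Prop := ∃ j, b = a * x j ∨ a = b * x j

lemma stp_symm {x : J → Γ} {a b : Γ} (h : stp x a b) : stp x b a := by
  obtain ⟨j, h | h⟩ := h
  · exact ⟨j, Or.inr h⟩
  · exact ⟨j, Or.inl h⟩

lemma stp_mul {x : J → Γ} {a b : Γ} (g : Γ) (h : stp x a b) : stp x (g * a) (g * b) := by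
  obtain ⟨j, rfl | rfl⟩ := h
  · exact ⟨j, Or.inl (mul_assoc _ _ _).symm⟩
  · exact ⟨j, Or.inr (mul_assoc _ _ _).symm⟩

/-- Connectedness inside a subset of the Cayley graph. -/
def cn (x : J → Γ) (U : Set Γ) : Γ → Γ → Prop :=
  Relation.ReflTransGen (fun a b => a ∈ U ∧ b ∈ U ∧ stp x a b)

lemma cn_refl (x : J → Γ) (U : Set Γ) (a : Γ) : cn x U a a := Relation.ReflTransGen.refl

lemma cn_trans {x : J → Γ} {U : Set Γ} {a b c : Γ} (h : cn x U a b) (h' : cn x U b c) :
    cn x U a c := Relation.ReflTransGen.trans h h'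

lemma cn_symm {x : J → Γ} {U : Set Γ} {a b : Γ} (h : cn x U a b) : cn x U b a := by
  induction h with
  | refl => exact cn_refl _ _ _
  | tail _ h ih => exact Relation.ReflTransGen.head ⟨h.2.1, h.1, stp_symm h.2.2⟩ ih

lemma cn_mul {x : J → Γ} {U U' : Set Γ} {a b : Γ} (g : Γ) (hU : ∀ c ∈ U, g * c ∈ U')
    (h : cn x U a b) : cn x U' (g * a) (g * b) := by
  induction h with
  | refl => exact cn_refl _ _ _
  | tail _ h ih => exact Relation.ReflTransGen.tail ih ⟨hU _ h.1, hU _ h.2.1, stp_mul g h.2.2⟩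

lemma cn_mono {x : J → Γ} {U U' : Set Γ} {a b : Γ} (hU : U ⊆ U')
    (h : cn x U a b) : cn x U' a b := by
  induction h with
  | refl => exact cn_refl _ _ _
  | tail _ h ih => exact Relation.ReflTransGen.tail ih ⟨hU h.1, hU h.2.1, h.2.2⟩

lemma cn_mem {x : J → Γ} {U : Set Γ} {a b : Γ} (h : cn x U a b) (ha : a ∈ U) : b ∈ U := by
  induction h with
  | refl => exact ha
  | tail _ h _ => exact h.2.1

lemma cn_map {H : Type*} [Group H] (π : Γ →* H) {x : J → Γ} {U : Set H} {a b : Γ}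
    (h : cn x (π ⁻¹' U) a b) : cn (π ∘ x) U (π a) (π b) := by
  induction h with
  | refl => exact cn_refl _ _ _
  | tail _ h ih =>
    refine Relation.ReflTransGen.tail ih ⟨h.1, h.2.1, ?_⟩
    obtain ⟨j, h3 | h3⟩ := h.2.2
    · exact ⟨j, Or.inl (by rw [h3, map_mul]; rfl)⟩
    · exact ⟨j, Or.inr (by rw [h3, map_mul]; rfl)⟩

lemma cn_lift {H : Type*} [Group H] (π : Γ →* H) {x : J → Γ} {U : Set H} {a : Γ} {h : H}
    (hh : cn (π ∘ x) U (π a) h) : ∃ b, π b = h ∧ cn x (π ⁻¹' U) a b := by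
  induction hh with
  | refl => exact ⟨a, rfl, cn_refl _ _ _⟩
  | @tail b' c' _ h ih =>
    obtain ⟨b, hb, hab⟩ := ih
    obtain ⟨h1, h2, j, h3 | h3⟩ := h
    · refine ⟨b * x j, ?_, Relation.ReflTransGen.tail hab ⟨?_, ?_, j, Or.inl rfl⟩⟩
      · rw [map_mul, hb, h3]; rfl
      · show π b ∈ U
        rw [hb]; exact h1
      · show π (b * x j) ∈ U
        rw [map_mul, hb]
        rw [h3] at h2
        exact h2
    · have h4 : π (b * (x j)⁻¹) = c' := by
        rw [map_mul, map_inv, hb, h3]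
        exact mul_inv_cancel_right _ _
      refine ⟨b * (x j)⁻¹, h4, Relation.ReflTransGen.tail hab ⟨?_, ?_, j, Or.inr ?_⟩⟩
      · show π b ∈ U
        rw [hb]; exact h1
      · show π (b * (x j)⁻¹) ∈ U
        rw [h4]
        exact h2
      · rw [inv_mul_cancel_right]

end conn

section side

variable {V : Type*} (T : SimpleGraph V)

open Classical in
/-- The half-tree beyond the edge from `v` to `v'`. -/
noncomputable def side (v v' w : V) : ℤ :=
  if (T.deleteEdges {s(v, v')}).Reachable v' w then 1 else 0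

lemma side_right (v v' : V) : side T v v' v' = 1 := by
  unfold side
  rw [if_pos (SimpleGraph.Reachable.refl _)]

lemma side_left (hT : T.IsAcyclic) {v v' : V} (h : T.Adj v v') : side T v v' v = 0 := by
  unfold side
  rw [if_neg]
  intro h1
  have h2 := SimpleGraph.isAcyclic_iff_forall_adj_isBridge.1 hT h
  exact SimpleGraph.isBridge_iff.1 h2 h1.symm

lemma side_adj {v v' w w' : V} (h : T.Adj w w') (hne : s(w, w') ≠ s(v, v')) :
    side T v v' w = side T v v' w' := by
  have h1 : (T.deleteEdges {s(v, v')}).Adj w w' := by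
    rw [SimpleGraph.deleteEdges_adj]
    exact ⟨h, hne⟩
  unfold side
  have h2 : (T.deleteEdges {s(v, v')}).Reachable v' w ↔
      (T.deleteEdges {s(v, v')}).Reachable v' w' :=
    ⟨fun h => h.trans h1.reachable, fun h => h.trans h1.symm.reachable⟩
  by_cases h3 : (T.deleteEdges {s(v, v')}).Reachable v' w
  · rw [if_pos h3, if_pos (h2.1 h3)]
  · rw [if_neg h3, if_neg (fun h => h3 (h2.2 h))]

end side

section main

variable {H V : Type*} [Group H] [MulAction H V]

/-- The translates of `D` containing `w`. -/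
def UU' (D : Set V) (w : V) : Set H := {h | h⁻¹ • w ∈ D}

lemma mem_UU' (D : Set V) (w : V) (h : H) : h ∈ UU' D w ↔ h⁻¹ • w ∈ D := Iff.rfl

lemma mul_mem_UU' (D : Set V) (w : V) (g h : H) : g * h ∈ UU' D w ↔ h ∈ UU' D (g⁻¹ • w) := by
  rw [mem_UU', mem_UU', mul_inv_rev, mul_smul]

lemma side_const (T : SimpleGraph V) (hadj : ∀ (h : H) v w, T.Adj v w → T.Adj (h • v) (h • w))
    (D : Set V) (hD : (T.induce D).Preconnected) (v v' : V) (h : H)
    (hcon : ¬ (h ∈ UU' D v ∧ h ∈ UU' D v')) (w w' : V) (hw : h ∈ UU' D w) (hw' : h ∈ UU' D w') :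
    side T v v' w = side T v v' w' := by
  have h1 : ∀ z : D, (T.induce D).Reachable ⟨h⁻¹ • w, hw⟩ z →
      side T v v' (h • (h⁻¹ • w)) = side T v v' (h • z.1) := by
    intro z hz
    rw [SimpleGraph.reachable_iff_reflTransGen] at hz
    induction hz with
    | refl => rfl
    | @tail b c _ hbc ih =>
      rw [ih]
      have h2 : T.Adj b.1 c.1 := hbc
      apply side_adj T (hadj h _ _ h2)
      intro h3
      apply hcon
      have hb : h ∈ UU' D (h • b.1) := by rw [mem_UU', inv_smul_smul]; exact b.2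
      have hc : h ∈ UU' D (h • c.1) := by rw [mem_UU', inv_smul_smul]; exact c.2
      rw [Sym2.eq_iff] at h3
      rcases h3 with ⟨e1, e2⟩ | ⟨e1, e2⟩
      · rw [← e1, ← e2]; exact ⟨hb, hc⟩
      · rw [← e1, ← e2]; exact ⟨hc, hb⟩
  have h2 := h1 ⟨h⁻¹ • w', hw'⟩ (hD _ _)
  rw [smul_inv_smul, smul_inv_smul] at h2
  exact h2

open Classical in
/-- The group moves do not change the position. -/
lemma grp_id (T : SimpleGraph V) (hadj : ∀ (h : H) v w, T.Adj v w → T.Adj (h • v) (h • w))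
    (D : Set V) (hD : (T.induce D).Preconnected) (v0 : V) (hv0 : v0 ∈ D) (v v' : V) (κ : Set H) (h g : H) (hg : g • v0 ∈ D)
    (hκ2 : h ∈ κ → h * g ∈ UU' D v ∩ UU' D v' → h * g ∈ κ)
    (hκ3 : h * g ∈ κ → h ∈ UU' D v ∩ UU' D v' → h ∈ κ)
    (w : V) (hw : h ∈ UU' D w) (hw' : h * g ∈ UU' D w) :
    (if h ∈ κ then side T v v' ((h * g) • v0) - side T v v' (h • v0) else 0) +
      (if h * g ∈ κ then side T v v' w - side T v v' ((h * g) • v0) else 0) =
      if h ∈ κ then side T v v' w - side T v v' (h • v0) else 0 := by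
  by_cases h1 : h ∈ κ
  · by_cases h2 : h * g ∈ κ
    · rw [if_pos h1, if_pos h2, if_pos h1]
      ring
    · rw [if_pos h1, if_neg h2, if_pos h1]
      have h3 : ¬ (h * g ∈ UU' D v ∧ h * g ∈ UU' D v') := fun h4 => h2 (hκ2 h1 h4)
      rw [side_const T hadj D hD v v' (h * g) h3 w ((h * g) • v0) hw' (by
        rw [mem_UU', inv_smul_smul]; exact hv0)]
      ring
  · by_cases h2 : h * g ∈ κ
    · rw [if_neg h1, if_pos h2, if_neg h1]
      have h3 : ¬ (h ∈ UU' D v ∧ h ∈ UU' D v') := fun h4 => h1 (hκ3 h2 h4)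
      rw [side_const T hadj D hD v v' h h3 w ((h * g) • v0) hw (by
        rw [mem_UU', mul_smul, inv_smul_smul]; exact hg)]
      ring
    · rw [if_neg h1, if_neg h2, if_neg h1]
      ring

/-- Paths, with the number of moves along the tree. -/
inductive Pth {Γ J V : Type*} [Group Γ] (x : J → Γ) (W : V → Set Γ) (T : SimpleGraph V) :
    ℕ → Γ → V → Γ → V → Prop
  | refl (a : Γ) (w : V) : Pth x W T 0 a w a w
  | grp {n : ℕ} {a b : Γ} {w : V} {c : Γ} {u : V} : a ∈ W w → b ∈ W w → stp x a b →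
      Pth x W T n b w c u → Pth x W T n a w c u
  | tree {n : ℕ} {a : Γ} {w w' : V} {c : Γ} {u : V} : a ∈ W w → a ∈ W w' → T.Adj w w' →
      Pth x W T n a w' c u → Pth x W T (n + 1) a w c u

section pth

variable {Γ J V : Type*} [Group Γ] {x : J → Γ} {W : V → Set Γ} {T : SimpleGraph V}

lemma Pth.trans {n m : ℕ} {a b c : Γ} {w u z : V} (h : Pth x W T n a w b u)
    (h' : Pth x W T m b u c z) : Pth x W T (n + m) a w c z := by
  induction h with
  | refl a w => rw [Nat.zero_add]; exact h'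
  | grp h1 h2 h3 _ ih => exact Pth.grp h1 h2 h3 (ih h')
  | @tree n _ _ _ _ _ h1 h2 h3 _ ih =>
    have : n + 1 + m = (n + m) + 1 := by omega
    rw [this]
    exact Pth.tree h1 h2 h3 (ih h')

lemma Pth.symm {n : ℕ} {a b : Γ} {w u : V} (h : Pth x W T n a w b u) :
    Pth x W T n b u a w := by
  induction h with
  | refl a w => exact Pth.refl a w
  | grp h1 h2 h3 _ ih =>
    have h4 := ih.trans (Pth.grp h2 h1 (stp_symm h3) (Pth.refl _ _))
    exact h4
  | tree h1 h2 h3 _ ih =>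
    have h4 := ih.trans (Pth.tree h2 h1 h3.symm (Pth.refl _ _))
    exact h4

/-- The first move along the tree. -/
lemma Pth.first {n : ℕ} {a b : Γ} {w u : V} (h : Pth x W T n a w b u) :
    (n = 0 ∧ w = u ∧ cn x (W w) a b) ∨ ∃ m a1 w', n = m + 1 ∧ cn x (W w) a a1 ∧
      a1 ∈ W w ∧ a1 ∈ W w' ∧ T.Adj w w' ∧ Pth x W T m a1 w' b u := by
  induction h with
  | refl a w => exact Or.inl ⟨rfl, rfl, cn_refl _ _ _⟩
  | grp h1 h2 h3 _ ih =>
    rcases ih with ⟨h4, h5, h6⟩ | ⟨m, a1, w', h4, h5, h6⟩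
    · exact Or.inl ⟨h4, h5, Relation.ReflTransGen.head ⟨h1, h2, h3⟩ h6⟩
    · exact Or.inr ⟨m, a1, w', h4, Relation.ReflTransGen.head ⟨h1, h2, h3⟩ h5, h6⟩
  | tree h1 h2 h3 h4 _ => exact Or.inr ⟨_, _, _, rfl, cn_refl _ _ _, h1, h2, h3, h4⟩

/-- If a function decreases along a path then it decreases at some move. -/
lemma Pth.split (F : Γ → V → ℤ)
    (hF : ∀ a b w, a ∈ W w → b ∈ W w → stp x a b → F b w = F a w)
    {n : ℕ} {a b : Γ} {w u : V} (h : Pth x W T n a w b u) (hlt : F b u < F a w) :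
    ∃ n1 n2 c z z', n = n1 + 1 + n2 ∧ Pth x W T n1 a w c z ∧ c ∈ W z ∧ c ∈ W z' ∧
      T.Adj z z' ∧ F c z' < F c z ∧ Pth x W T n2 c z' b u := by
  induction h with
  | refl a w => exact absurd hlt (lt_irrefl _)
  | grp h1 h2 h3 _ ih =>
    obtain ⟨n1, n2, c, z, z', h4, h5, h6⟩ := ih (by rw [hF _ _ _ h1 h2 h3]; exact hlt)
    exact ⟨n1, n2, c, z, z', h4, Pth.grp h1 h2 h3 h5, h6⟩
  | @tree n a w w' c u h1 h2 h3 h4 ih =>
    by_cases h5 : F c u < F a w'
    · obtain ⟨n1, n2, c', z, z', h6, h7, h8⟩ := ih h5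
      exact ⟨n1 + 1, n2, c', z, z', by omega, Pth.tree h1 h2 h3 h7, h8⟩
    · refine ⟨0, n, a, w, w', by omega, Pth.refl _ _, h1, h2, h3, ?_, h4⟩
      omega

end pth

open Classical in
/-- If the kernel has no crossing cocycles then it is trivial. -/
theorem inj_of_cocycle {Γ J : Type*} [Group Γ] (x : J → Γ)
    (hx : Subgroup.closure (Set.range x) = ⊤) (π : Γ →* H)
    (T : SimpleGraph V) (hT : T.IsAcyclic)
    (hadj : ∀ (h : H) v w, T.Adj v w → T.Adj (h • v) (h • w))
    (D : Set V) (hD : (T.induce D).Preconnected) (v0 : V) (hv0 : v0 ∈ D)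
    (hxv : ∀ j, π (x j) • v0 ∈ D)
    (hstar : ∀ v a b, cn x (π ⁻¹' (UU' D v)) a b → π a = π b → a = b)
    (hF : ∀ v v', T.Adj v v' → ∀ κ : Set H, κ ⊆ UU' D v ∩ UU' D v' →
      (∀ h ∈ κ, ∀ h' ∈ UU' D v ∩ UU' D v', stp (π ∘ x) h h' → h' ∈ κ) →
      ∃ F : H → ℤ, ∀ h j, F (h * π (x j)) = F h +
        if h ∈ κ then side T v v' ((h * π (x j)) • v0) - side T v v' (h • v0) else 0) :
    Function.Injective π := by
  set W : V → Set Γ := fun v => π ⁻¹' (UU' D v) with hW
  -- existence of paths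
  have hex : ∀ γ : Γ, ∀ γ0 : Γ, ∃ n, Pth x W T n γ0 (π γ0 • v0) (γ0 * γ) (π (γ0 * γ) • v0) := by
    intro γ
    have hmem : γ ∈ Subgroup.closure (Set.range x) := by rw [hx]; exact Subgroup.mem_top γ
    have hbase : ∀ γ : Γ, γ ∈ W (π γ • v0) := by
      intro γ
      show (π γ)⁻¹ • (π γ • v0) ∈ D
      rw [inv_smul_smul]
      exact hv0
    induction hmem using Subgroup.closure_induction with
    | mem y hy =>
      obtain ⟨j, rfl⟩ := hy
      intro γ0
      have h1 : ∀ z : D, (T.induce D).Reachable ⟨v0, hv0⟩ z →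
          ∃ n, Pth x W T n γ0 (π γ0 • v0) γ0 (π γ0 • z.1) := by
        intro z hz
        rw [SimpleGraph.reachable_iff_reflTransGen] at hz
        induction hz with
        | refl => exact ⟨0, Pth.refl _ _⟩
        | @tail b c _ hbc ih =>
          obtain ⟨n, hn⟩ := ih
          have h2 : T.Adj b.1 c.1 := hbc
          refine ⟨n + 1, hn.trans (Pth.tree (n := 0) ?_ ?_ (hadj (π γ0) _ _ h2)
            (Pth.refl _ _))⟩
          · show (π γ0)⁻¹ • (π γ0 • b.1) ∈ D
            rw [inv_smul_smul]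
            exact b.2
          · show (π γ0)⁻¹ • (π γ0 • c.1) ∈ D
            rw [inv_smul_smul]
            exact c.2
      obtain ⟨n, hn⟩ := h1 ⟨π (x j) • v0, hxv j⟩ (hD _ _)
      have h2 : π γ0 • (π (x j) • v0) = π (γ0 * x j) • v0 := by
        rw [map_mul, mul_smul]
      refine ⟨n + 0, hn.trans ?_⟩
      show Pth x W T 0 γ0 (π γ0 • (π (x j) • v0)) _ _
      rw [h2]
      refine Pth.grp (b := γ0 * x j) ?_ (hbase _) ⟨j, Or.inl rfl⟩ (Pth.refl _ _)
      show (π γ0)⁻¹ • (π (γ0 * x j) • v0) ∈ D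
      rw [← h2, inv_smul_smul]
      exact hxv j
    | one =>
      intro γ0
      rw [mul_one]
      exact ⟨0, Pth.refl _ _⟩
    | mul a b _ _ ha hb =>
      intro γ0
      obtain ⟨n, hn⟩ := ha γ0
      obtain ⟨m, hm⟩ := hb (γ0 * a)
      rw [mul_assoc] at hm
      exact ⟨n + m, hn.trans hm⟩
    | inv a _ ha =>
      intro γ0
      obtain ⟨n, hn⟩ := ha (γ0 * a⁻¹)
      rw [inv_mul_cancel_right] at hn
      exact ⟨n, hn.symm⟩
  -- the main induction
  have key : ∀ n : ℕ, ∀ a b w, Pth x W T n a w b w → cn (π ∘ x) (UU' D w) (π a) (π b) →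
      cn x (W w) a b := by
    intro n
    induction n using Nat.strong_induction_on with
    | _ n IH =>
    intro a b w hp hc
    rcases hp.first with ⟨_, _, h1⟩ | ⟨m, a1, w', hn, ha1, hw1, hw1', hadj1, hq⟩
    · exact h1
    -- the component of the first crossing
    obtain ⟨κ, hκ1, hκ2, ha1κ, hκ3⟩ : ∃ κ : Set H, κ ⊆ UU' D w ∩ UU' D w' ∧
        (∀ h ∈ κ, ∀ h' ∈ UU' D w ∩ UU' D w', stp (π ∘ x) h h' → h' ∈ κ) ∧ π a1 ∈ κ ∧
        ∀ h ∈ κ, cn (π ∘ x) (UU' D w ∩ UU' D w') (π a1) h := by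
      refine ⟨{h | h ∈ UU' D w ∩ UU' D w' ∧ cn (π ∘ x) (UU' D w ∩ UU' D w') (π a1) h},
        fun h hh => hh.1, ?_, ⟨⟨hw1, hw1'⟩, cn_refl _ _ _⟩, fun h hh => hh.2⟩
      intro h hh h' hh' hst
      exact ⟨hh', Relation.ReflTransGen.tail hh.2 ⟨hh.1, hh', hst⟩⟩
    obtain ⟨F, hF1⟩ := hF w w' hadj1 κ hκ1 hκ2
    let Fh : H → V → ℤ := fun h u =>
      F h + if h ∈ κ then side T w w' u - side T w w' (h • v0) else 0
    have hg : ∀ h j u, h ∈ UU' D u → h * π (x j) ∈ UU' D u →
        Fh (h * π (x j)) u = Fh h u := by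
      intro h j u hu hu'
      show F (h * π (x j)) + _ = F h + _
      rw [hF1, add_assoc]
      congr 1
      apply grp_id T hadj D hD v0 hv0 w w' κ h (π (x j)) (hxv j) _ _ u hu hu'
      · intro h1 h2
        exact hκ2 _ h1 _ h2 ⟨j, Or.inl rfl⟩
      · intro h1 h2
        exact hκ2 _ h1 _ h2 ⟨j, Or.inr rfl⟩
    have hg2 : ∀ h h' u, h ∈ UU' D u → h' ∈ UU' D u → stp (π ∘ x) h h' →
        Fh h' u = Fh h u := by
      rintro h h' u hu hu' ⟨j, rfl | rfl⟩
      · exact hg h j u hu hu'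
      · exact (hg h' j u hu' hu).symm
    have hg3 : ∀ h h' u, cn (π ∘ x) (UU' D u) h h' → Fh h' u = Fh h u := by
      intro h h' u hh
      induction hh with
      | refl => rfl
      | tail _ h ih => rw [hg2 _ _ u h.1 h.2.1 h.2.2, ih]
    have hs0 : side T w w' w = 0 := side_left T hT hadj1
    have hs1 : side T w w' w' = 1 := side_right T w w'
    have hFw : Fh (π a1) w' = Fh (π a1) w + 1 := by
      show F (π a1) + _ = F (π a1) + _ + 1
      rw [if_pos ha1κ, if_pos ha1κ, hs0, hs1]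
      ring
    have hlt : Fh (π b) w < Fh (π a1) w' := by
      have h1 : Fh (π b) w = Fh (π a) w := hg3 _ _ w hc
      have h2 : Fh (π a1) w = Fh (π a) w := hg3 _ _ w (cn_map π ha1)
      rw [hFw, h1, h2]
      omega
    obtain ⟨n1, n2, c, z, z', hm, hp1, hcz, hcz', hzz', hdec, hp2⟩ := hq.split
      (fun a u => Fh (π a) u) (by
      intro a b u ha hb hst
      apply hg2 _ _ u ha hb
      obtain ⟨j, h | h⟩ := hst
      · exact ⟨j, Or.inl (by rw [h, map_mul]; rfl)⟩
      · exact ⟨j, Or.inr (by rw [h, map_mul]; rfl)⟩) hlt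
    -- identify the crossing
    have hcκ : π c ∈ κ := by
      by_contra hne
      apply lt_irrefl (Fh (π c) z)
      have : Fh (π c) z' = Fh (π c) z := by
        show F (π c) + _ = F (π c) + _
        rw [if_neg hne, if_neg hne]
      rw [← this] at hdec ⊢
      rw [this] at hdec
      exact absurd hdec (lt_irrefl _)
    have hdec2 : side T w w' z' < side T w w' z := by
      have h1 : F (π c) + (if π c ∈ κ then side T w w' z' - side T w w' (π c • v0) else 0) <
          F (π c) + (if π c ∈ κ then side T w w' z - side T w w' (π c • v0) else 0) := hdec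
      rw [if_pos hcκ, if_pos hcκ] at h1
      linarith
    have hedge : s(z, z') = s(w, w') := by
      by_contra hne
      rw [side_adj T hzz' hne] at hdec2
      exact absurd hdec2 (lt_irrefl _)
    have hzw : z = w' ∧ z' = w := by
      rw [Sym2.eq_iff] at hedge
      rcases hedge with ⟨rfl, rfl⟩ | h
      · rw [hs0, hs1] at hdec2
        norm_num at hdec2
      · exact h
    obtain ⟨rfl, rfl⟩ := hzw
    -- the middle part
    have hmid : cn x (W z) a1 c := by
      apply IH n1 (by omega) a1 c z hp1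
      exact cn_mono Set.inter_subset_right (hκ3 _ hcκ)
    obtain ⟨c', hc', hc'2⟩ := cn_lift π (hκ3 _ hcκ)
    have hcc' : c' = c := by
      apply hstar z c' c _ hc'
      exact cn_trans (cn_symm (cn_mono (Set.preimage_mono Set.inter_subset_right) hc'2)) hmid
    rw [hcc'] at hc'2
    have h3 : cn x (W z') a1 c := cn_mono (Set.preimage_mono Set.inter_subset_left) hc'2
    have h4 : cn x (W z') c b := by
      apply IH n2 (by omega) c b z' hp2
      exact cn_trans (cn_symm (cn_map π (cn_trans ha1 h3))) hc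
    exact cn_trans ha1 (cn_trans h3 h4)
  rw [injective_iff_map_eq_one]
  intro k hk
  obtain ⟨n, hn⟩ := hex k 1
  rw [one_mul, map_one, hk, one_smul] at hn
  have h1 := key n 1 k v0 hn (by rw [map_one, hk]; exact cn_refl _ _ _)
  exact (hstar v0 1 k h1 (by rw [map_one, hk])).symm

end main

end Pool.Agent.L2Coh
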