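import Pool.Agent.L2Coh.Tree

/-!
# Groups of type `FP₂` acting on trees with coherent vertex stabilisers are finitely presented
-/

namespace Pool.Agent.L2Coh

/-- The kernel of a surjection from a finitely generated group to a finitely presented group. -/
lemma ker_fng {Λ L : Type*} [Group Λ] [Group L] (hΛ : Group.FG Λ)
    (hL : Group.IsFinitelyPresented L) (θ : Λ →* L) (hθ : Function.Surjective θ) :
    ∃ S : Set Λ, S.Finite ∧ Subgroup.normalClosure S = θ.ker := by
  obtain ⟨m, ρ, hρ, S, hS, hS2⟩ := hL.out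
  choose a ha using fun i : Fin m => hθ (ρ (FreeGroup.of i))
  let α : FreeGroup (Fin m) →* Λ := FreeGroup.lift a
  have hα : ∀ w, θ (α w) = ρ w := by
    intro w
    have h1 : θ.comp α = ρ := by
      ext i
      rw [MonoidHom.comp_apply]
      show θ (FreeGroup.lift a (FreeGroup.of i)) = _
      rw [FreeGroup.lift_apply_of, ha]
    exact DFunLike.congr_fun h1 w
  obtain ⟨Y, hY, hYf⟩ := Group.fg_iff.1 hΛ
  choose b hb using fun y : Λ => hρ (θ y)
  let Q : Set Λ := α '' S ∪ (fun y => y⁻¹ * α (b y)) '' Y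
  have hQ : Q ⊆ θ.ker := by
    rintro _ (⟨s, hs, rfl⟩ | ⟨y, _, rfl⟩)
    · show θ (α s) = 1
      rw [hα]
      have h1 : s ∈ ρ.ker := by
        rw [← hS2]
        exact Subgroup.subset_normalClosure hs
      exact h1
    · show θ (y⁻¹ * α (b y)) = 1
      rw [map_mul, hα, hb, map_inv, inv_mul_cancel]
  refine ⟨Q, (hS.image _).union (hYf.image _), le_antisymm (Subgroup.normalClosure_le_normal hQ) ?_⟩
  let E : Subgroup Λ := Subgroup.normalClosure Q
  have hall : ∀ l : Λ, ∃ w, l⁻¹ * α w ∈ E := by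
    intro l
    have h1 : ((QuotientGroup.mk' E).comp α).range.comap (QuotientGroup.mk' E) = ⊤ := by
      rw [eq_top_iff, ← hY, Subgroup.closure_le]
      intro y hy
      refine ⟨b y, ?_⟩
      show (QuotientGroup.mk' E) (α (b y)) = (QuotientGroup.mk' E) y
      symm
      rw [QuotientGroup.mk'_apply, QuotientGroup.mk'_apply, QuotientGroup.eq]
      exact Subgroup.subset_normalClosure (Or.inr ⟨y, hy, rfl⟩)
    have h2 : l ∈ ((QuotientGroup.mk' E).comp α).range.comap (QuotientGroup.mk' E) := by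
      rw [h1]
      exact Subgroup.mem_top l
    obtain ⟨w, hw⟩ := h2
    refine ⟨w, ?_⟩
    rw [← QuotientGroup.eq]
    exact hw.symm
  intro l hl
  obtain ⟨w, hw⟩ := hall l
  have hl1 : θ l = 1 := hl
  have h1 : ρ w = 1 := by
    have h2 : l⁻¹ * α w ∈ θ.ker := Subgroup.normalClosure_le_normal hQ hw
    have h3 : θ (l⁻¹ * α w) = 1 := h2
    rw [map_mul, map_inv, hl1, inv_one, one_mul, hα] at h3
    exact h3
  have h2 : w ∈ Subgroup.normalClosure S := by
    rw [hS2]
    exact h1
  have h3 : α w ∈ E := by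
    have h4 : Subgroup.normalClosure S ≤ E.comap α := by
      apply Subgroup.normalClosure_le_normal
      intro s hs
      exact Subgroup.subset_normalClosure (Or.inl ⟨s, hs, rfl⟩)
    exact h4 h2
  have h4 : l = α w * (l⁻¹ * α w)⁻¹ := by group
  rw [h4]
  exact E.mul_mem h3 (E.inv_mem hw)

section loc

variable {Γ H V J : Type*} [Group Γ] [Group H] [MulAction H V]

/-- The local group at `d`. -/
def Lam (x : J → Γ) (π : Γ →* H) (D : Set V) (d : V) : Subgroup Γ where
  carrier := {w | cn x (π ⁻¹' UU' D d) 1 w ∧ π w • d = d}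
  mul_mem' := by
    rintro a b ⟨ha, ha2⟩ ⟨hb, hb2⟩
    refine ⟨?_, by rw [map_mul, mul_smul, hb2, ha2]⟩
    have h1 : cn x (π ⁻¹' UU' D d) (a * 1) (a * b) := by
      apply cn_mul a _ hb
      intro c hc
      show π (a * c) ∈ UU' D d
      rw [map_mul, mul_mem_UU']
      have h2 : (π a)⁻¹ • d = d := by rw [inv_smul_eq_iff, ha2]
      rw [h2]
      exact hc
    rw [mul_one] at h1
    exact cn_trans ha h1
  one_mem' := ⟨cn_refl _ _ _, by rw [map_one, one_smul]⟩
  inv_mem' := by
    rintro a ⟨ha, ha2⟩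
    have h2 : (π a)⁻¹ • d = d := by rw [inv_smul_eq_iff, ha2]
    refine ⟨?_, by rw [map_inv, h2]⟩
    have h1 : cn x (π ⁻¹' UU' D d) (a⁻¹ * 1) (a⁻¹ * a) := by
      apply cn_mul a⁻¹ _ ha
      intro c hc
      show π (a⁻¹ * c) ∈ UU' D d
      rw [map_mul, mul_mem_UU', map_inv, inv_inv, ha2]
      exact hc
    rw [mul_one, inv_mul_cancel] at h1
    exact cn_symm h1

lemma mem_Lam {x : J → Γ} {π : Γ →* H} {D : Set V} {d : V} {w : Γ} :
    w ∈ Lam x π D d ↔ cn x (π ⁻¹' UU' D d) 1 w ∧ π w • d = d := Iff.rfl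

lemma mul_inv_mem_Lam {x : J → Γ} {π : Γ →* H} {D : Set V} {d : V} {g f : Γ}
    (hg : cn x (π ⁻¹' UU' D d) 1 g) (hf : cn x (π ⁻¹' UU' D d) 1 f)
    (h : (π g)⁻¹ • d = (π f)⁻¹ • d) : g * f⁻¹ ∈ Lam x π D d := by
  have h1 : π (g * f⁻¹) • d = d := by
    rw [map_mul, map_inv, mul_smul, ← h, smul_inv_smul]
  refine ⟨?_, h1⟩
  have h2 : cn x (π ⁻¹' UU' D d) ((g * f⁻¹) * f) ((g * f⁻¹) * 1) := by
    apply cn_mul (g * f⁻¹) _ (cn_symm hf)
    intro c hc
    show π (g * f⁻¹ * c) ∈ UU' D d
    rw [map_mul, mul_mem_UU']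
    have h3 : (π (g * f⁻¹))⁻¹ • d = d := by rw [inv_smul_eq_iff, h1]
    rw [h3]
    exact hc
  rw [inv_mul_cancel_right, mul_one] at h2
  exact cn_trans hg h2

/-- The local groups are finitely generated. -/
lemma Lam_fg [Finite J] (x : J → Γ) (π : Γ →* H) (D : Set V) (hDf : D.Finite) (d : V)
    (hd : d ∈ D) : (Lam x π D d).FG := by
  classical
  have h1mem : (1 : Γ) ∈ π ⁻¹' UU' D d := by
    show π 1 ∈ UU' D d
    rw [map_one, mem_UU', inv_one, one_smul]
    exact hd
  let rep : V → Γ := fun d' => if d' = d then 1 else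
    if h : ∃ f, cn x (π ⁻¹' UU' D d) 1 f ∧ (π f)⁻¹ • d = d' then h.choose else 1
  have hrep1 : rep d = 1 := if_pos rfl
  have hrep : ∀ g, cn x (π ⁻¹' UU' D d) 1 g → cn x (π ⁻¹' UU' D d) 1 (rep ((π g)⁻¹ • d)) ∧
      (π (rep ((π g)⁻¹ • d)))⁻¹ • d = (π g)⁻¹ • d := by
    intro g hg
    by_cases h1 : (π g)⁻¹ • d = d
    · rw [h1, hrep1]
      exact ⟨cn_refl _ _ _, by rw [map_one, inv_one, one_smul]⟩
    · have h2 : ∃ f, cn x (π ⁻¹' UU' D d) 1 f ∧ (π f)⁻¹ • d = (π g)⁻¹ • d := ⟨g, hg, rfl⟩
      have h3 : rep ((π g)⁻¹ • d) = h2.choose := by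
        show (if _ then _ else _) = _
        rw [if_neg h1, dif_pos h2]
      rw [h3]
      exact h2.choose_spec
  let X : Set Γ := (fun p : V × V × J => rep p.1 * x p.2.2 * (rep p.2.1)⁻¹) ''
    (D ×ˢ D ×ˢ (Set.univ : Set J)) ∩ (Lam x π D d : Set Γ)
  have hX : X.Finite := ((hDf.prod (hDf.prod Set.finite_univ)).image _).inter_of_left _
  rw [Subgroup.fg_iff]
  refine ⟨X, le_antisymm ?_ ?_, hX⟩
  · rw [Subgroup.closure_le]
    exact Set.inter_subset_right
  · have key : ∀ g, cn x (π ⁻¹' UU' D d) 1 g →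
        g * (rep ((π g)⁻¹ • d))⁻¹ ∈ Subgroup.closure X := by
      intro g hg
      induction hg with
      | refl =>
        rw [map_one, inv_one, one_smul, hrep1, inv_one, mul_one]
        exact Subgroup.one_mem _
      | @tail b c hb hbc ih =>
        have hc : cn x (π ⁻¹' UU' D d) 1 c := Relation.ReflTransGen.tail hb hbc
        have hbD : (π b)⁻¹ • d ∈ D := hbc.1
        have hcD : (π c)⁻¹ • d ∈ D := hbc.2.1
        obtain ⟨hb1, hb2⟩ := hrep b hb
        obtain ⟨hc1, hc2⟩ := hrep c hc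
        have hbL := mul_inv_mem_Lam hb hb1 hb2.symm
        have hcL := mul_inv_mem_Lam hc hc1 hc2.symm
        obtain ⟨j, h3 | h3⟩ := hbc.2.2
        · have h4 : rep ((π b)⁻¹ • d) * x j * (rep ((π c)⁻¹ • d))⁻¹ =
              (b * (rep ((π b)⁻¹ • d))⁻¹)⁻¹ * (c * (rep ((π c)⁻¹ • d))⁻¹) := by
            have hx : x j = b⁻¹ * c := by rw [h3, inv_mul_cancel_left]
            rw [hx]
            group
          have h5 : rep ((π b)⁻¹ • d) * x j * (rep ((π c)⁻¹ • d))⁻¹ ∈ X := by
            refine ⟨⟨((π b)⁻¹ • d, (π c)⁻¹ • d, j), ⟨hbD, hcD, Set.mem_univ _⟩, rfl⟩, ?_⟩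
            rw [h4]
            exact (Lam x π D d).mul_mem ((Lam x π D d).inv_mem hbL) hcL
          have h6 : c * (rep ((π c)⁻¹ • d))⁻¹ = (b * (rep ((π b)⁻¹ • d))⁻¹) *
              (rep ((π b)⁻¹ • d) * x j * (rep ((π c)⁻¹ • d))⁻¹) := by
            rw [h4]
            group
          rw [h6]
          exact Subgroup.mul_mem _ ih (Subgroup.subset_closure h5)
        · have h4 : rep ((π c)⁻¹ • d) * x j * (rep ((π b)⁻¹ • d))⁻¹ =
              (c * (rep ((π c)⁻¹ • d))⁻¹)⁻¹ * (b * (rep ((π b)⁻¹ • d))⁻¹) := by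
            have hx : x j = c⁻¹ * b := by rw [h3, inv_mul_cancel_left]
            rw [hx]
            group
          have h5 : rep ((π c)⁻¹ • d) * x j * (rep ((π b)⁻¹ • d))⁻¹ ∈ X := by
            refine ⟨⟨((π c)⁻¹ • d, (π b)⁻¹ • d, j), ⟨hcD, hbD, Set.mem_univ _⟩, rfl⟩, ?_⟩
            rw [h4]
            exact (Lam x π D d).mul_mem ((Lam x π D d).inv_mem hcL) hbL
          have h6 : c * (rep ((π c)⁻¹ • d))⁻¹ = (b * (rep ((π b)⁻¹ • d))⁻¹) *
              (rep ((π c)⁻¹ • d) * x j * (rep ((π b)⁻¹ • d))⁻¹)⁻¹ := by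
            rw [h4]
            group
          rw [h6]
          exact Subgroup.mul_mem _ ih (Subgroup.inv_mem _ (Subgroup.subset_closure h5))
    intro w hw
    have h1 := key w hw.1
    have h2 : (π w)⁻¹ • d = d := by rw [inv_smul_eq_iff, hw.2]
    rw [h2, hrep1, inv_one, mul_one] at h1
    exact h1

/-- The local relations are finitely generated as a normal subgroup. -/
lemma loc_rel [Finite J] (x : J → Γ) (π : Γ →* H) (D : Set V) (hDf : D.Finite)
    (hstab : ∀ v : V, ∀ L : Subgroup H, L ≤ MulAction.stabilizer H v → L.FG →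
      Group.IsFinitelyPresented L) (d : V) (hd : d ∈ D) :
    ∃ Q : Set Γ, Q.Finite ∧ (∀ r ∈ Q, π r = 1 ∧ cn x (π ⁻¹' UU' D d) 1 r) ∧
      ∀ r, π r = 1 → cn x (π ⁻¹' UU' D d) 1 r → r ∈ Subgroup.normalClosure Q := by
  have hfg := Lam_fg x π D hDf d hd
  have hfg' : Group.FG (Lam x π D d) := (Group.fg_iff_subgroup_fg _).2 hfg
  have hsurj := π.subgroupMap_surjective (Lam x π D d)
  have hLfg : Group.FG ((Lam x π D d).map π) := Group.fg_of_surjective hsurj
  have hL := hstab d ((Lam x π D d).map π) (by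
    rintro _ ⟨w, hw, rfl⟩
    exact hw.2) ((Group.fg_iff_subgroup_fg _).1 hLfg)
  obtain ⟨S, hS, hS2⟩ := ker_fng hfg' hL _ hsurj
  refine ⟨(fun w : Lam x π D d => (w : Γ)) '' S, hS.image _, ?_, ?_⟩
  · rintro _ ⟨s, hs, rfl⟩
    refine ⟨?_, s.2.1⟩
    have h1 : s ∈ (π.subgroupMap (Lam x π D d)).ker := by
      rw [← hS2]
      exact Subgroup.subset_normalClosure hs
    have h2 : π.subgroupMap (Lam x π D d) s = 1 := h1
    exact congrArg Subtype.val h2
  · intro r hr hr2
    have hrL : r ∈ Lam x π D d := ⟨hr2, by rw [hr, one_smul]⟩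
    have h1 : (⟨r, hrL⟩ : Lam x π D d) ∈ Subgroup.normalClosure S := by
      rw [hS2]
      show π.subgroupMap (Lam x π D d) ⟨r, hrL⟩ = 1
      exact Subtype.ext hr
    have h2 : Subgroup.normalClosure S ≤ (Subgroup.normalClosure
        ((fun w : Lam x π D d => (w : Γ)) '' S)).comap (Lam x π D d).subtype := by
      apply Subgroup.normalClosure_le_normal
      intro s hs
      exact Subgroup.subset_normalClosure ⟨s, hs, rfl⟩
    exact h2 h1

end loc

lemma conn_finite {J : Type*} (f : FreeGroup J) :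
    ∃ A : Set (FreeGroup J), A.Finite ∧ 1 ∈ A ∧ f ∈ A ∧ cn FreeGroup.of A 1 f := by
  induction f with
  | C1 => exact ⟨{1}, Set.finite_singleton _, rfl, rfl, cn_refl _ _ _⟩
  | of j =>
    refine ⟨{1, FreeGroup.of j}, Set.toFinite _, by simp, by simp, ?_⟩
    exact Relation.ReflTransGen.single ⟨by simp, by simp, j, Or.inl (one_mul _).symm⟩
  | inv_of j _ =>
    refine ⟨{1, (FreeGroup.of j)⁻¹}, Set.toFinite _, by simp, by simp, ?_⟩
    exact Relation.ReflTransGen.single ⟨by simp, by simp, j, Or.inr (inv_mul_cancel _).symm⟩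
  | mul a b ha hb =>
    obtain ⟨A, hA, h1, h2, h3⟩ := ha
    obtain ⟨B, hB, h4, h5, h6⟩ := hb
    refine ⟨A ∪ (fun c => a * c) '' B, hA.union (hB.image _), Or.inl h1,
      Or.inr ⟨b, h5, rfl⟩, ?_⟩
    have h7 : cn FreeGroup.of (A ∪ (fun c => a * c) '' B) (a * 1) (a * b) :=
      cn_mul a (fun c hc => Or.inr ⟨c, hc, rfl⟩) h6
    rw [mul_one] at h7
    exact cn_trans (cn_mono Set.subset_union_left h3) h7

open Classical in
/-- A group of type `FP₂` acting on a tree such that the finitely generated subgroups of the vertex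
stabilisers are finitely presented is finitely presented. -/
theorem tree_fp {H V J : Type*} [Group H] [MulAction H V] [Finite J] (T : SimpleGraph V)
    (hT : T.IsTree) (hadj : ∀ (h : H) v w, T.Adj v w → T.Adj (h • v) (h • w))
    (ψ : FreeGroup J →* H) (hψ : Function.Surjective ψ) (T0 : Set (FreeGroup J))
    (hT0 : T0.Finite) (hker : ψ.ker = Subgroup.normalClosure T0 ⊔ ⁅ψ.ker, ψ.ker⁆)
    (hstab : ∀ v : V, ∀ L : Subgroup H, L ≤ MulAction.stabilizer H v → L.FG →
      Group.IsFinitelyPresented L) :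
    ∃ Q : Set (FreeGroup J), Q.Finite ∧ Subgroup.normalClosure Q = ψ.ker := by
  obtain ⟨v0⟩ := hT.1.nonempty
  choose A hA1 hA2 hA3 hA4 using fun f : FreeGroup J => conn_finite f
  -- the finite subtree
  let D0 : Set V := {v0} ∪ (Set.range fun j => ψ (FreeGroup.of j) • v0) ∪
    ⋃ t ∈ T0, (fun p => (ψ p)⁻¹ • v0) '' A t
  have hD0 : D0.Finite := by
    apply ((Set.finite_singleton _).union (Set.finite_range _)).union
    exact hT0.biUnion (fun t _ => (hA1 t).image _)
  obtain ⟨D, hDD, hDc⟩ := SimpleGraph.extend_finset_to_connected hT.1.preconnected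
    (t := hD0.toFinset) ⟨v0, by
      rw [Set.Finite.mem_toFinset]
      exact Or.inl (Or.inl rfl)⟩
  have hD1 : ∀ v ∈ D0, v ∈ (D : Set V) := by
    intro v hv
    exact hDD (hD0.mem_toFinset.2 hv)
  have hv0 : v0 ∈ (D : Set V) := hD1 _ (Or.inl (Or.inl rfl))
  have hxv : ∀ j, ψ (FreeGroup.of j) • v0 ∈ (D : Set V) := fun j =>
    hD1 _ (Or.inl (Or.inr ⟨j, rfl⟩))
  -- the relations
  let R : Set (FreeGroup J) := {r | ψ r = 1 ∧ ∃ v, cn FreeGroup.of (ψ ⁻¹' UU' (D : Set V) v) 1 r}
  let M : Subgroup (FreeGroup J) := Subgroup.normalClosure R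
  have hRker : R ⊆ ψ.ker := fun r hr => hr.1
  have hMker : M ≤ ψ.ker := Subgroup.normalClosure_le_normal hRker
  have hT0ker : T0 ⊆ ψ.ker := by
    intro t ht
    rw [hker]
    exact Subgroup.mem_sup_left (Subgroup.subset_normalClosure ht)
  have hT0M : T0 ⊆ M := by
    intro t ht
    apply Subgroup.subset_normalClosure
    refine ⟨hT0ker ht, v0, cn_mono ?_ (hA4 t)⟩
    intro p hp
    show (ψ p)⁻¹ • v0 ∈ (D : Set V)
    apply hD1
    exact Or.inr (Set.mem_biUnion ht ⟨p, hp, rfl⟩)
  let π : FreeGroup J ⧸ M →* H := QuotientGroup.lift M ψ hMker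
  have hπ : ∀ f : FreeGroup J, π (f : FreeGroup J ⧸ M) = ψ f := fun f => rfl
  have hinj : Function.Injective π := by
    apply inj_of_cocycle (x := fun j => ((FreeGroup.of j : FreeGroup J) : FreeGroup J ⧸ M))
      _ π T hT.2 hadj (D : Set V) hDc.preconnected v0 hv0 hxv
    · -- the local injectivity
      intro v a b hab hπab
      obtain ⟨f, rfl⟩ := QuotientGroup.mk_surjective a
      obtain ⟨f', rfl, hf'⟩ := cn_lift (QuotientGroup.mk' M) (x := FreeGroup.of) (a := f) hab
      have h1 : ψ f = ψ f' := hπab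
      show ((f : FreeGroup J) : FreeGroup J ⧸ M) = ((f' : FreeGroup J) : FreeGroup J ⧸ M)
      rw [QuotientGroup.eq]
      apply Subgroup.subset_normalClosure
      refine ⟨by rw [map_mul, map_inv, h1, inv_mul_cancel], (ψ f)⁻¹ • v, ?_⟩
      have h2 : cn FreeGroup.of (ψ ⁻¹' UU' (D : Set V) ((ψ f)⁻¹ • v)) (f⁻¹ * f) (f⁻¹ * f') := by
        apply cn_mul f⁻¹ _ hf'
        intro c hc
        show ψ (f⁻¹ * c) ∈ UU' (D : Set V) ((ψ f)⁻¹ • v)
        rw [map_mul, mul_mem_UU', map_inv, inv_inv, smul_inv_smul]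
        exact hc
      rwa [inv_mul_cancel] at h2
    · -- the cocycles
      intro v v' hvv' κ hκ1 hκ2
      let c : H × J → ℤ := fun p => if p.1 ∈ κ then
        side T v v' ((p.1 * ψ (FreeGroup.of p.2)) • v0) - side T v v' (p.1 • v0) else 0
      let pr : (H × J →₀ ℤ) →+ ℤ := Finsupp.liftAddHom (fun p => zmultiplesHom _ (c p))
      have hpr : ∀ p n, pr (Finsupp.single p n) = n * c p := by
        intro p n
        simp [pr]
      have hprx : ∀ h f j, pr (fch ψ h (f * FreeGroup.of j)) =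
          pr (fch ψ h f) + c (h * ψ f, j) := by
        intro h f j
        rw [fch_mul, map_add, fch_of, hpr, one_mul]
      have hRz : ∀ r ∈ R, ∀ h, pr (fch ψ h r) = 0 := by
        rintro r ⟨hr, w, hw⟩ h
        let Φ : FreeGroup J → ℤ := fun f => pr (fch ψ h f) + if h * ψ f ∈ κ then
          side T v v' (h • w) - side T v v' ((h * ψ f) • v0) else 0
        have hstep : ∀ f j, ψ f ∈ UU' (D : Set V) w → ψ (f * FreeGroup.of j) ∈
            UU' (D : Set V) w → Φ (f * FreeGroup.of j) = Φ f := by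
          intro f j hf hf'
          show pr (fch ψ h (f * FreeGroup.of j)) + _ = pr (fch ψ h f) + _
          rw [hprx, add_assoc]
          congr 1
          have h1 : h * ψ (f * FreeGroup.of j) = (h * ψ f) * ψ (FreeGroup.of j) := by
            rw [map_mul, mul_assoc]
          rw [h1]
          apply grp_id T hadj (D : Set V) hDc.preconnected v0 hv0 v v' κ (h * ψ f)
            (ψ (FreeGroup.of j)) (hxv j)
          · intro h2 h3
            exact hκ2 _ h2 _ h3 ⟨j, Or.inl rfl⟩
          · intro h2 h3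
            exact hκ2 _ h2 _ h3 ⟨j, Or.inr rfl⟩
          · rw [mul_mem_UU', inv_smul_smul]
            exact hf
          · rw [← h1, mul_mem_UU', inv_smul_smul]
            exact hf'
        have hcn : ∀ f, cn FreeGroup.of (ψ ⁻¹' UU' (D : Set V) w) 1 f → Φ f = Φ 1 := by
          intro f hf
          induction hf with
          | refl => rfl
          | tail _ h2 ih =>
            obtain ⟨h3, h4, j, h5 | h5⟩ := h2
            · rw [h5, hstep _ j h3 (by rw [← h5]; exact h4), ih]
            · rw [← ih, h5]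
              exact (hstep _ j h4 (by rw [← h5]; exact h3)).symm
        have h1 := hcn r hw
        have h2 : pr (fch ψ h r) + (if h * ψ r ∈ κ then
          side T v v' (h • w) - side T v v' ((h * ψ r) • v0) else 0) =
          pr (fch ψ h 1) + (if h * ψ (1 : FreeGroup J) ∈ κ then
          side T v v' (h • w) - side T v v' ((h * ψ (1 : FreeGroup J)) • v0) else 0) := h1
        rw [hr, map_one, fch_one, map_zero] at h2
        linarith
      -- the annihilator
      let Nn : Subgroup (FreeGroup J) :=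
        { carrier := {n | ψ n = 1 ∧ ∀ h, pr (fch ψ h n) = 0}
          mul_mem' := by
            rintro a b ⟨ha, ha2⟩ ⟨hb, hb2⟩
            refine ⟨by rw [map_mul, ha, hb, one_mul], ?_⟩
            intro h
            rw [fch_mul, map_add, ha2, ha, mul_one, hb2, add_zero]
          one_mem' := ⟨map_one _, fun h => by rw [fch_one, map_zero]⟩
          inv_mem' := by
            rintro a ⟨ha, ha2⟩
            refine ⟨by rw [map_inv, ha, inv_one], ?_⟩
            intro h
            rw [fch_inv, map_neg, ha2, neg_zero] }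
      have hNn : Nn.Normal := by
        constructor
        rintro n ⟨hn, hn2⟩ g
        refine ⟨by rw [map_mul, map_mul, hn, mul_one, map_inv, mul_inv_cancel], ?_⟩
        intro h
        rw [fch_mul, fch_mul, map_add, map_add, hn2, add_zero, fch_inv, map_mul, hn, mul_one,
          mul_inv_cancel_right, map_neg, add_neg_cancel]
      have hker2 : ψ.ker ≤ Nn := by
        rw [hker]
        apply sup_le
        · apply Subgroup.normalClosure_le_normal
          intro t ht
          have h1 : M ≤ Nn := by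
            apply Subgroup.normalClosure_le_normal
            intro r hr
            exact ⟨hr.1, hRz r hr⟩
          exact h1 (hT0M ht)
        · rw [Subgroup.commutator_le]
          intro a ha b hb
          have ha1 : ψ a = 1 := ha
          have hb1 : ψ b = 1 := hb
          refine ⟨by rw [commutatorElement_def, map_mul, map_mul, map_mul, map_inv, map_inv,
            ha1, hb1]; group, ?_⟩
          intro h
          rw [commutatorElement_def, fch_mul, fch_mul, fch_mul, fch_inv, fch_inv]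
          simp only [map_mul, map_inv, ha1, hb1, map_add, map_neg, mul_one, inv_one]
          ring
      choose σ hσ using hψ
      refine ⟨fun h => pr (fch ψ 1 (σ h)), ?_⟩
      intro h j
      show pr (fch ψ 1 (σ (h * ψ (FreeGroup.of j)))) = pr (fch ψ 1 (σ h)) + c (h, j)
      have h1 : σ (h * ψ (FreeGroup.of j)) = σ h * FreeGroup.of j *
          ((σ h * FreeGroup.of j)⁻¹ * σ (h * ψ (FreeGroup.of j))) := by group
      have h2 : (σ h * FreeGroup.of j)⁻¹ * σ (h * ψ (FreeGroup.of j)) ∈ ψ.ker := by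
        show ψ _ = 1
        rw [map_mul, map_inv, hσ, map_mul, hσ, inv_mul_cancel]
      rw [h1, fch_mul, map_add, (hker2 h2).2, add_zero, hprx, hσ, one_mul]
    · -- generation
      have h1 : (Set.range fun j => ((FreeGroup.of j : FreeGroup J) : FreeGroup J ⧸ M)) =
          (QuotientGroup.mk' M) '' (Set.range FreeGroup.of) := by
        rw [← Set.range_comp]
        rfl
      rw [h1, ← MonoidHom.map_closure, FreeGroup.closure_range_of,
        ← MonoidHom.range_eq_map, MonoidHom.range_eq_top]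
      exact QuotientGroup.mk'_surjective M
  have hMeq : ψ.ker = M := by
    apply le_antisymm _ hMker
    intro n hn
    rw [← QuotientGroup.eq_one_iff]
    apply hinj
    rw [map_one]
    exact hn
  -- finite generation of the relations
  choose! Q hQ1 hQ2 hQ3 using fun (d : V) (hd : d ∈ (D : Set V)) =>
    loc_rel (FreeGroup.of : J → FreeGroup J) ψ (D : Set V) D.finite_toSet hstab d hd
  refine ⟨⋃ d ∈ (D : Set V), Q d, D.finite_toSet.biUnion (fun d hd => hQ1 d hd), ?_⟩
  rw [hMeq]
  apply le_antisymm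
  · apply Subgroup.normalClosure_le_normal
    intro r hr
    rw [Set.mem_iUnion₂] at hr
    obtain ⟨d, hd, hr⟩ := hr
    obtain ⟨h1, h2⟩ := hQ2 d hd r hr
    exact Subgroup.subset_normalClosure ⟨h1, d, h2⟩
  · apply Subgroup.normalClosure_le_normal
    rintro r ⟨hr, v, hv⟩
    by_cases hvD : v ∈ (D : Set V)
    · exact Subgroup.normalClosure_mono (Set.subset_biUnion_of_mem (u := Q) hvD)
        (hQ3 v hvD r hr hv)
    · have h1 : r = 1 := by
        rcases Relation.ReflTransGen.cases_head hv with h | ⟨c, h, _⟩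
        · exact h.symm
        · exfalso
          apply hvD
          have h2 : ψ 1 ∈ UU' (D : Set V) v := h.1
          rw [map_one, mem_UU', inv_one, one_smul] at h2
          exact h2
      rw [h1]
      exact Subgroup.one_mem _

end Pool.Agent.L2Coh
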